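import Mathlib

/-!
Elementary vocabulary; simplicial commutative rings (the affine derived schemes).
-/

namespace Pool.Agent.P.MP_932208_ag.Ax

open CategoryTheory

section rings
variable {R S S' T : Type} [CommRing R] [CommRing S] [CommRing S'] [CommRing T]

/-- `f` is the identity. -/
abbrev RingId (f : R →+* R) : Prop := ∀ x, f x = x

/-- `g ∘ f = h`. -/
abbrev RingTri (f : R →+* S) (g : S →+* T) (h : R →+* T) : Prop := ∀ x, g (f x) = h x

/-- `b ∘ a = d ∘ c`. -/
abbrev RingSq (a : R →+* S) (b : S →+* T) (c : R →+* S') (d : S' →+* T) : Prop :=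
  ∀ x, b (a x) = d (c x)

/-- `f a = u * b`. -/
abbrev MapsUpTo (f : R →+* S) (a : R) (u : Sˣ) (b : S) : Prop := f a = u * b

/-- The unit `u` is `1`. -/
abbrev UnitOne (u : Rˣ) : Prop := u = 1

/-- `w = v * f u`. -/
abbrev UnitTri (f : R →+* S) (u : Rˣ) (v w : Sˣ) : Prop := w = v * Units.map f.toMonoidHom u

/-- Integer powers of a unit. -/
abbrev unitPow (u : Rˣ) (l : ℤ) : Rˣ := u ^ l

end rings

section noncomm
variable {R S : Type} [Ring R] [Ring S]

/-- `f` preserves `1`, products and sums. -/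
def PresRing (f : R → S) : Prop :=
  f 1 = 1 ∧ (∀ x y, f (x * y) = f x * f y) ∧ ∀ x y, f (x + y) = f x + f y

theorem PresRing.zero {f : R → S} (h : PresRing f) : f 0 = 0 := by
  have := h.2.2 0 0
  rw [add_zero] at this
  exact left_eq_add.mp this

/-- The ring map given by `f`. -/
def PresRing.hom {f : R → S} (h : PresRing f) : R →+* S where
  toFun := f
  map_one' := h.1
  map_mul' := h.2.1
  map_zero' := h.zero
  map_add' := h.2.2

end noncomm

/-- The ring axioms for a product and a unit on an abelian group. -/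
structure RingAx (R : Type) [AddCommGroup R] [Mul R] [One R] : Prop where
  left_distrib : ∀ x y z : R, x * (y + z) = x * y + x * z
  right_distrib : ∀ x y z : R, (x + y) * z = x * z + y * z
  zero_mul : ∀ x : R, 0 * x = 0
  mul_zero : ∀ x : R, x * 0 = 0
  mul_assoc : ∀ x y z : R, x * y * z = x * (y * z)
  one_mul : ∀ x : R, 1 * x = x
  mul_one : ∀ x : R, x * 1 = x

/-- The ring given by the ring axioms. -/
@[reducible] def RingAx.ring {R : Type} [AddCommGroup R] [Mul R] [One R] (h : RingAx R) :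
    Ring R where
  __ := (inferInstance : AddCommGroup R)
  mul := (· * ·)
  one := 1
  left_distrib := h.left_distrib
  right_distrib := h.right_distrib
  zero_mul := h.zero_mul
  mul_zero := h.mul_zero
  mul_assoc := h.mul_assoc
  one_mul := h.one_mul
  mul_one := h.mul_one

section groups
variable {V V' W X : Type} [AddCommGroup V] [AddCommGroup V'] [AddCommGroup W] [AddCommGroup X]

/-- `f` preserves sums. -/
def PresAdd (f : V → W) : Prop := ∀ x y, f (x + y) = f x + f y

/-- The additive map given by `f`. -/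
def PresAdd.hom {f : V → W} (h : PresAdd f) : V →+ W := AddMonoidHom.mk' f h

/-- `f` is the identity. -/
abbrev AddId (f : V →+ V) : Prop := ∀ x, f x = x

/-- `h = g ∘ f`. -/
abbrev AddTri (h : V →+ X) (f : V →+ W) (g : W →+ X) : Prop := ∀ x, h x = g (f x)

/-- `b ∘ a = d ∘ c`. -/
abbrev AddSq (a : V →+ W) (b : W →+ X) (c : V →+ V') (d : V' →+ X) : Prop :=
  ∀ x, b (a x) = d (c x)

/-- `0 → V → W → X → 0` is exact. -/
abbrev AddSES (i : V →+ W) (p : W →+ X) : Prop :=
  Function.Injective i ∧ Function.Exact i p ∧ Function.Surjective p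

/-- `V` is the direct sum of the subgroups `gr k`. -/
abbrev Internal (gr : ℤ → AddSubgroup V) : Prop := DirectSum.IsInternal gr

/-- `f` preserves degrees. -/
abbrev Graded (f : V →+ W) (gr : ℤ → AddSubgroup V) (gr' : ℤ → AddSubgroup W) : Prop :=
  ∀ {k : ℤ} {x : V}, x ∈ gr k → f x ∈ gr' k

/-- `d` lowers the degree by one. -/
abbrev Lowers (gr : ℤ → AddSubgroup V) (d : V →+ V) : Prop :=
  ∀ {k : ℤ} {x : V}, x ∈ gr (k + 1) → d x ∈ gr k

/-- `d ∘ d = 0`. -/
abbrev SqZero (d : V →+ V) : Prop := ∀ x, d (d x) = 0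

/-- Biadditive maps. -/
abbrev Biadd (V W X : Type) [AddCommGroup V] [AddCommGroup W] [AddCommGroup X] : Type :=
  V →+ W →+ X

/-- The value of a biadditive map. -/
abbrev Biadd.ap (μ : Biadd V W X) (x : V) (y : W) : X := μ x y

/-- `μ` adds degrees. -/
abbrev BiGraded (μ : Biadd V W X) (gr : ℤ → AddSubgroup V) (gr' : ℤ → AddSubgroup W)
    (gr'' : ℤ → AddSubgroup X) : Prop :=
  ∀ {k l : ℤ} {x y}, x ∈ gr k → y ∈ gr' l → μ x y ∈ gr'' (k + l)

/-- The Leibniz rule for `μ`. -/
abbrev BiLeibniz (μ : Biadd V W X) (gr : ℤ → AddSubgroup V) (d : V →+ V) (d' : W →+ W)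
    (d'' : X →+ X) : Prop :=
  ∀ {k : ℤ} {x} (y), x ∈ gr k → d'' (μ x y) = μ (d x) y + k.negOnePow • μ x (d' y)

variable {R S : Type} [Ring R] [Ring S]

/-- Scalar multiplication adds degrees. -/
abbrev SMulGraded [Module R V] (deg : ℤ → AddSubgroup R) (gr : ℤ → AddSubgroup V) : Prop :=
  ∀ {n k : ℤ} {a : R} {x : V}, a ∈ deg n → x ∈ gr k → a • x ∈ gr (n + k)

/-- The Leibniz rule; `sg` is the sign automorphism of `R`. -/
abbrev Leibniz [Module R V] (bd : R →+ R) (sg : R →+* R) (d : V →+ V) : Prop :=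
  ∀ (a : R) (x : V), d (a • x) = bd a • x + sg a • d x

/-- `f` is semilinear along `ρ`. -/
abbrev Semilinear [Module R V] [Module S W] (ρ : R →+* S) (f : V →+ W) : Prop :=
  ∀ a x, f (a • x) = ρ a • f x

/-- `μ` is linear in the first variable. -/
abbrev LeftLinear (R : Type) [Ring R] [Module R V] [Module R X] (μ : Biadd V W X) : Prop :=
  ∀ (a : R) x y, μ (a • x) y = a • μ x y

/-- `μ` is linear in the second variable, with the Koszul sign. -/
abbrev RightLinear [Module R W] [Module R X] (deg : ℤ → AddSubgroup R) (gr : ℤ → AddSubgroup V)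
    (μ : Biadd V W X) : Prop :=
  ∀ {n k : ℤ} {a : R} {x} (y), a ∈ deg n → x ∈ gr k → μ x (a • y) = (n * k).negOnePow • a • μ x y

/-- The map `x ↦ c • f x`. -/
def smulHom [Module S W] (c : S) (f : V →+ W) : V →+ W :=
  (DistribSMul.toAddMonoidHom W c).comp f

end groups

/-- Simplicial operators `[k] → [n]`: the morphisms of the simplex category. -/
abbrev Op (k n : ℕ) : Type := Fin (k + 1) →o Fin (n + 1)

/-- The coface map `[n] → [n+1]` that misses `i`. -/
def face {n : ℕ} (i : Fin (n + 2)) : Op n (n + 1) :=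
  ⟨i.succAbove, (Fin.strictMono_succAbove i).monotone⟩

/-- The codegeneracy `[n+1] → [n]` that hits `i` twice. -/
def degen {n : ℕ} (i : Fin (n + 1)) : Op (n + 1) n :=
  ⟨i.predAbove, Fin.predAbove_right_monotone i⟩

/-- The constant operator `[k] → [n]` with value `a`. -/
def vert (k : ℕ) {n : ℕ} (a : Fin (n + 1)) : Op k n := OrderHom.const _ a

/-- A simplicial commutative ring. -/
structure SRing where
  obj : ℕ → Type
  [ring : ∀ n, CommRing (obj n)]
  map : ∀ {k n : ℕ}, Op k n → obj n →+* obj k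
  map_id : ∀ n, RingId (map (OrderHom.id : Op n n))
  map_comp : ∀ {l k n : ℕ} (θ : Op k n) (η : Op l k), RingTri (map θ) (map η) (map (θ.comp η))

attribute [instance] SRing.ring

/-- A map of simplicial commutative rings. -/
structure SRing.Hom (A B : SRing) where
  app : ∀ n, A.obj n →+* B.obj n
  nat : ∀ {k n : ℕ} (θ : Op k n), RingSq (A.map θ) (app k) (app n) (B.map θ)

theorem SRing.Hom.id_nat (A : SRing) {k n : ℕ} (θ : Op k n) :
    RingSq (A.map θ) (RingHom.id _) (RingHom.id _) (A.map θ) := fun _ => rfl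

/-- The identity. -/
def SRing.Hom.id (A : SRing) : A.Hom A := ⟨fun _ => RingHom.id _, @SRing.Hom.id_nat A⟩

theorem SRing.Hom.comp_nat {A B C : SRing} (g : B.Hom C) (f : A.Hom B) {k n : ℕ} (θ : Op k n) :
    RingSq (A.map θ) ((g.app k).comp (f.app k)) ((g.app n).comp (f.app n)) (C.map θ) :=
  fun x => (congrArg (g.app k) (f.nat θ x)).trans (g.nat θ _)

/-- Composition. -/
def SRing.Hom.comp {A B C : SRing} (g : B.Hom C) (f : A.Hom B) : A.Hom C :=
  ⟨fun n => (g.app n).comp (f.app n), @SRing.Hom.comp_nat A B C g f⟩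

theorem SRing.Hom.comp_id {A B : SRing} (f : A.Hom B) : f.comp (SRing.Hom.id A) = f := rfl

theorem SRing.Hom.id_comp {A B : SRing} (f : A.Hom B) : (SRing.Hom.id B).comp f = f := rfl

theorem SRing.Hom.assoc {A B C D : SRing} (f : A.Hom B) (g : B.Hom C) (h : C.Hom D) :
    h.comp (g.comp f) = (h.comp g).comp f := rfl

/-- The category of simplicial commutative rings. -/
instance : Category SRing where
  Hom := SRing.Hom
  id := SRing.Hom.id
  comp f g := g.comp f
  id_comp := @SRing.Hom.comp_id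
  comp_id := @SRing.Hom.id_comp
  assoc := @SRing.Hom.assoc

theorem SRing.Hom.ext' {A B : SRing} {f g : A.Hom B}
    (h : ∀ n x, f.app n x = g.app n x) : f = g := by
  cases f; cases g; congr; funext n; exact RingHom.ext (h n)

@[ext] theorem SRing.hom_ext {A B : SRing} {f g : A ⟶ B}
    (h : ∀ n x, f.app n x = g.app n x) : f = g := SRing.Hom.ext' h

@[simp] theorem SRing.id_app (A : SRing) (n : ℕ) (x : A.obj n) :
    SRing.Hom.app (𝟙 A) n x = x := rfl

@[simp] theorem SRing.comp_app {A B C : SRing} (f : A ⟶ B) (g : B ⟶ C) (n : ℕ) (x : A.obj n) :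
    SRing.Hom.app (f ≫ g) n x = g.app n (f.app n x) := rfl

end Pool.Agent.P.MP_932208_ag.Ax
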