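import Pool.Agent.P.MP_932208_ag.Ax.Moore

/-!
Differential graded modules over the normalised chains `N A` of a simplicial commutative ring.
They present the derived category of `A` (Toen-Vaquie).
-/

namespace Pool.Agent.P.MP_932208_ag.Ax

open CategoryTheory

theorem internal_of_proj {V : Type} [AddCommGroup V] (gr : ℤ → AddSubgroup V) (π : ℤ → V →+ V)
    (h₁ : ∀ k x, π k x ∈ gr k) (h₂ : ∀ k x, x ∈ gr k → π k x = x)
    (h₃ : ∀ k l x, x ∈ gr l → l ≠ k → π k x = 0)
    (h₄ : ∀ x, ∃ S : Finset ℤ, ∑ k ∈ S, π k x = x) : DirectSum.IsInternal gr := by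
  have key : ∀ (y : DirectSum ℤ fun k => gr k) k, π k (DirectSum.coeAddMonoidHom gr y) = y k := by
    intro y k
    induction y using DirectSum.induction_on with
    | zero => simp
    | of l x =>
      rw [DirectSum.coeAddMonoidHom_of]
      by_cases e : l = k
      · subst e
        rw [DirectSum.of_eq_same, h₂ _ _ x.2]
      · rw [DirectSum.of_eq_of_ne _ _ _ (Ne.symm e), h₃ _ _ _ x.2 e]; rfl
    | add x y hx hy => rw [map_add, map_add, hx, hy]; rfl
  refine ⟨fun y y' e => DFinsupp.ext fun k => Subtype.ext ?_, fun x => ?_⟩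
  · rw [← key, ← key, e]
  · obtain ⟨S, hS⟩ := h₄ x
    refine ⟨∑ k ∈ S, DirectSum.of (fun k => gr k) k ⟨π k x, h₁ k x⟩, ?_⟩
    rw [map_sum]
    simpa only [DirectSum.coeAddMonoidHom_of] using hS

/-- A differential graded module over `N A` (homological grading). -/
structure DG (A : SRing) where
  V : Type
  [grp : AddCommGroup V]
  [mod : Module (N A) V]
  gr : ℤ → AddSubgroup V
  internal : Internal gr
  d : V →+ V
  smul_mem : SMulGraded (N.deg A) gr
  d_mem : Lowers gr d
  d_d : SqZero d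
  d_smul : Leibniz (N.bd (A := A)) N.sg d

attribute [instance] DG.grp DG.mod

namespace DG
variable {A B C D : SRing}

/-- A `φ`-semilinear map of dg modules. -/
structure Hom (φ : A ⟶ B) (M : DG A) (M' : DG B) where
  toFun : M.V →+ M'.V
  map_smul : Semilinear (N.map φ) toFun
  map_gr : Graded toFun M.gr M'.gr
  map_d : AddSq M.d toFun toFun M'.d

/-- `g` is the identity map. -/
abbrev Hom.IsId {φ : A ⟶ A} {M : DG A} (g : Hom φ M M) : Prop := AddId g.toFun

/-- `h = g ∘ f`. -/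
abbrev Hom.Tri {φ : A ⟶ B} {χ : B ⟶ C} {ρ : A ⟶ C} {M : DG A} {M' : DG B} {M'' : DG C}
    (h : Hom ρ M M'') (f : Hom φ M M') (g : Hom χ M' M'') : Prop :=
  AddTri h.toFun f.toFun g.toFun

/-- `b ∘ a = d ∘ c`. -/
abbrev Hom.Sq {α : A ⟶ B} {β : B ⟶ D} {γ : A ⟶ C} {δ : C ⟶ D} {M : DG A} {M₁ : DG B} {M₂ : DG C}
    {M₃ : DG D} (a : Hom α M M₁) (b : Hom β M₁ M₃) (c : Hom γ M M₂) (d : Hom δ M₂ M₃) : Prop :=
  AddSq a.toFun b.toFun c.toFun d.toFun

/-- Cycles of degree `k`. -/
def Cycle (M : DG A) (k : ℤ) (x : M.V) : Prop := x ∈ M.gr k ∧ M.d x = 0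

/-- Boundaries of degree `k`. -/
def Bdry (M : DG A) (k : ℤ) (x : M.V) : Prop := ∃ y ∈ M.gr (k + 1), M.d y = x

/-- `g` is a quasi-isomorphism after inverting `f ∈ A_0` (for `f = 1`: a quasi-isomorphism). -/
def Hom.QIsoAway {φ : A ⟶ B} {M : DG A} {M' : DG B} (g : Hom φ M M') (f : A.obj 0) : Prop :=
  ∀ k, (∀ y, M'.Cycle k y →
      ∃ (n : ℕ) (x : M.V), M.Cycle k x ∧ M'.Bdry k (g.toFun x - N.inc (φ.app 0 f ^ n) • y)) ∧
    ∀ x, M.Cycle k x → M'.Bdry k (g.toFun x) → ∃ n : ℕ, M.Bdry k (N.inc (f ^ n) • x)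

/-- `i`, `p` form a short exact sequence. -/
def ShortExact {φ : A ⟶ B} {M₁ M₂ : DG A} {M₃ : DG B} (i : Hom (𝟙 A) M₁ M₂) (p : Hom φ M₂ M₃) :
    Prop :=
  AddSES i.toFun p.toFun

/-- The component of degree `k` of a chain. -/
def trunc (A : SRing) (k : ℤ) : N A →+ N A where
  toFun x := ⟨fun n => if (n : ℤ) = k then x.1 n else 0,
    fun n i => by
      dsimp only
      split_ifs
      · exact x.2.1 n i
      · exact map_zero _,
    x.2.2.of_imp fun n h => by simp [h n le_rfl]⟩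
  map_zero' := N.ext' fun n => ite_self _
  map_add' x y := N.ext' fun n => by
    change (if _ then x.1 n + y.1 n else 0) = (if _ then _ else _) + (if _ then _ else _)
    split_ifs <;> simp

theorem unit_internal (A : SRing) : Internal (N.deg A) := by
  refine internal_of_proj _ (trunc A) (fun k x n hn => if_neg hn)
    (fun k x hx => N.ext' fun n => ?_) (fun k l x hx e => N.ext' fun n => ?_) fun x => ?_
  · change (if _ then _ else _) = _
    split_ifs with h
    · rfl
    · exact (hx n h).symm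
  · change (if (n : ℤ) = k then x.1 n else 0) = 0
    split_ifs with h
    · exact hx n (by omega)
    · rfl
  · obtain ⟨b, hb⟩ := x.2.2
    refine ⟨Finset.Ico 0 (b : ℤ), N.ext' fun n => ?_⟩
    have : ∀ S : Finset ℤ, (∑ k ∈ S, trunc A k x).1 n = ∑ k ∈ S, (trunc A k x).1 n := fun S =>
      map_sum ((Pi.evalAddMonoidHom A.obj n).comp (NS A).subtype.toAddMonoidHom) _ S
    rw [this]
    change ∑ k ∈ _, (if (n : ℤ) = k then x.1 n else 0) = _
    rw [Finset.sum_ite_eq]
    split_ifs with h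
    · rfl
    · exact (hb n (by simp at h; omega)).symm

theorem unit_smul_mem (A : SRing) : SMulGraded (N.deg A) (N.deg A) := N.Hg.mul

theorem unit_d_mem (A : SRing) : Lowers (N.deg A) N.bd := N.Hg.bd

theorem unit_d_d (A : SRing) : SqZero (N.bd (A := A)) := N.bd_bd

theorem unit_d_smul (A : SRing) : Leibniz (N.bd (A := A)) N.sg (N.bd (A := A)) := N.bd_mul

/-- The free module of rank one, `N A` itself. -/
@[reducible] def unit (A : SRing) : DG A where
  V := N A
  gr := N.deg A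
  internal := unit_internal A
  d := N.bd
  smul_mem := @unit_smul_mem A
  d_mem := @unit_d_mem A
  d_d := unit_d_d A
  d_smul := unit_d_smul A

/-- The additive map underlying `N φ`. -/
def unitFun (φ : A ⟶ B) : N A →+ N B := (N.map φ).toAddMonoidHom

theorem unitFun_smul (φ : A ⟶ B) : Semilinear (N.map φ) (unitFun φ) := (N.map φ).map_mul

theorem unitFun_gr (φ : A ⟶ B) : Graded (unitFun φ) (N.deg A) (N.deg B) := N.Hg.map φ

theorem unitFun_d (φ : A ⟶ B) : AddSq N.bd (unitFun φ) (unitFun φ) N.bd := N.map_bd φ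

/-- The map of free modules induced by a ring map. -/
def unitHom (φ : A ⟶ B) : Hom φ (unit A) (unit B) :=
  ⟨unitFun φ, unitFun_smul φ, @unitFun_gr A B φ, unitFun_d φ⟩

/-- The action of `N A` on a module over `N B` through `φ`. -/
@[reducible] def resMod (φ : A ⟶ B) (M : DG B) : Module (N A) M.V := Module.compHom M.V (N.map φ)

theorem res_smul_mem (φ : A ⟶ B) (M : DG B) :
    @SMulGraded _ _ _ _ (resMod φ M) (N.deg A) M.gr :=
  fun ha hx => M.smul_mem (N.Hg.map φ ha) hx

theorem res_d_smul (φ : A ⟶ B) (M : DG B) :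
    @Leibniz _ _ _ _ (resMod φ M) N.bd N.sg M.d := fun a x => by
  change M.d (N.map φ a • x) = N.map φ (N.bd a) • x + N.map φ (N.sg a) • M.d x
  rw [M.d_smul, N.map_bd, N.map_sg]

/-- Restriction of scalars. -/
def res (φ : A ⟶ B) (M : DG B) : DG A where
  V := M.V
  mod := resMod φ M
  gr := M.gr
  internal := M.internal
  d := M.d
  smul_mem := @res_smul_mem A B φ M
  d_mem := @DG.d_mem B M
  d_d := M.d_d
  d_smul := res_d_smul φ M

theorem Hom.resMap_smul {φ : A ⟶ B} {φ' : C ⟶ D} {ψ : A ⟶ C} {β : B ⟶ D} (e : ψ ≫ φ' = φ ≫ β)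
    {E : DG B} {E' : DG D} (g : Hom β E E') :
    @Semilinear _ _ _ _ _ _ _ _ (resMod φ E) (resMod φ' E') (N.map ψ) g.toFun := fun a x => by
  change g.toFun (N.map φ a • x) = N.map φ' (N.map ψ a) • g.toFun x
  rw [g.map_smul, N.map_map, N.map_map, e]

/-- Restriction of scalars of a semilinear map, along a commutative square of rings. -/
def Hom.resMap {φ : A ⟶ B} {φ' : C ⟶ D} {ψ : A ⟶ C} {β : B ⟶ D} (e : ψ ≫ φ' = φ ≫ β)
    {E : DG B} {E' : DG D} (g : Hom β E E') : Hom ψ (E.res φ) (E'.res φ') :=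
  ⟨g.toFun, g.resMap_smul e, @Hom.map_gr B D β E E' g, g.map_d⟩

theorem d_inc_smul (M : DG A) (a : A.obj 0) (x : M.V) :
    M.d (N.inc a • x) = N.inc a • M.d x := by
  rw [M.d_smul, N.bd_inc, N.sg_inc, zero_smul, zero_add]

theorem inc_smul_mem (M : DG A) (a : A.obj 0) {k : ℤ} {x : M.V}
    (h : x ∈ M.gr k) : N.inc a • x ∈ M.gr k := by
  simpa using M.smul_mem (N.hg_inc a) h

section scale
variable {φ : A ⟶ B} {M : DG A} {M' : DG B} (g : Hom φ M M') (c : B.obj 0)

/-- The additive map `c • g`. -/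
def Hom.scaleFun : M.V →+ M'.V := smulHom (N.inc c) g.toFun

theorem Hom.scale_smul : Semilinear (N.map φ) (g.scaleFun c) := fun a x => by
  change N.inc c • g.toFun (a • x) = N.map φ a • N.inc c • g.toFun x
  rw [g.map_smul, smul_smul, smul_smul, N.inc_comm]

theorem Hom.scale_gr : Graded (g.scaleFun c) M.gr M'.gr := fun h => M'.inc_smul_mem c (g.map_gr h)

theorem Hom.scale_d : AddSq M.d (g.scaleFun c) (g.scaleFun c) M'.d := fun x => by
  change N.inc c • g.toFun (M.d x) = M'.d (N.inc c • g.toFun x)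
  rw [g.map_d, M'.d_inc_smul]

/-- The map `c • g`. -/
def Hom.scale : Hom φ M M' :=
  ⟨g.scaleFun c, g.scale_smul c, @Hom.scale_gr A B φ M M' g c, g.scale_d c⟩

end scale

/-- A graded bilinear pairing `L × L' → P`, i.e. a map of dg modules `L ⊗ L' → P`. -/
structure Pairing (L L' P : DG A) where
  μ : Biadd L.V L'.V P.V
  μ_gr : BiGraded μ L.gr L'.gr P.gr
  smul_left : LeftLinear (N A) μ
  smul_right : RightLinear (N.deg A) L.gr μ
  leibniz : BiLeibniz μ L.gr L.d L'.d P.d

/-- The products of cycles of degree zero. -/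
def Pairing.products {L L' P : DG A} (m : Pairing L L' P) : Set P.V :=
  {w | ∃ x y, L.Cycle 0 x ∧ L'.Cycle 0 y ∧ w = m.μ.ap x y}

/-- The pairing is onto on `H_0`; for line bundles this says that `L ⊗ L' → P` is invertible. -/
def Pairing.OntoH0 {L L' P : DG A} (m : Pairing L L' P) : Prop :=
  ∀ z, P.Cycle 0 z → ∃ w ∈ AddSubgroup.closure m.products, P.Bdry 0 (z - w)

/-- The maps `f`, `f'`, `g` carry the pairing `m` to the pairing `m'`. -/
def Pairing.Compat {φ : A ⟶ B} {L L' P : DG A} {Q Q' R : DG B} (m : Pairing L L' P)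
    (m' : Pairing Q Q' R) (f : Hom φ L Q) (f' : Hom φ L' Q') (g : Hom φ P R) : Prop :=
  ∀ x y, g.toFun (m.μ.ap x y) = m'.μ.ap (f.toFun x) (f'.toFun y)

end DG

end Pool.Agent.P.MP_932208_ag.Ax
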