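import Pool.Agent.P.MP_932208_ag.Ax.Defs

/-!
Homogeneous components, submodules and kernels of dg modules.
-/

namespace Pool.Agent.P.MP_932208_ag.Ax

open CategoryTheory

namespace DG
variable {A B : SRing}

theorem res_d_smul' (φ : A ⟶ B) (M : DG B) (a : N A) (x : M.V) :
    M.d (N.map φ a • x) = N.map φ (N.bd a) • x + N.map φ (N.sg a) • M.d x := res_d_smul φ M a x

/-- The component of degree `k`. -/
noncomputable def proj (M : DG A) (k : ℤ) : M.V →+ M.V :=
  (M.gr k).subtype.comp ((DFinsupp.evalAddMonoidHom k).comp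
    (AddEquiv.ofBijective _ M.internal).symm.toAddMonoidHom)

theorem proj_mem (M : DG A) (k : ℤ) (x : M.V) : M.proj k x ∈ M.gr k := Subtype.property _

theorem symm_of_mem (M : DG A) {l : ℤ} {x : M.V} (h : x ∈ M.gr l) :
    (AddEquiv.ofBijective _ M.internal).symm x = DirectSum.of (fun k => M.gr k) l ⟨x, h⟩ := by
  rw [AddEquiv.symm_apply_eq]
  exact (DirectSum.coeAddMonoidHom_of M.gr l ⟨x, h⟩).symm

theorem proj_of_mem (M : DG A) {k : ℤ} {x : M.V} (h : x ∈ M.gr k) : M.proj k x = x := by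
  change (((AddEquiv.ofBijective _ M.internal).symm x) k : M.V) = x
  rw [M.symm_of_mem h, DirectSum.of_eq_same]

theorem proj_of_ne (M : DG A) {k l : ℤ} {x : M.V} (h : x ∈ M.gr l) (e : l ≠ k) :
    M.proj k x = 0 := by
  change (((AddEquiv.ofBijective _ M.internal).symm x) k : M.V) = 0
  rw [M.symm_of_mem h, DirectSum.of_eq_of_ne _ _ _ (Ne.symm e)]; rfl

theorem induction (M : DG A) {P : M.V → Prop} (h0 : P 0) (hk : ∀ k x, x ∈ M.gr k → P x)
    (hadd : ∀ x y, P x → P y → P (x + y)) (x : M.V) : P x := by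
  obtain ⟨y, rfl⟩ := M.internal.2 x
  induction y using DirectSum.induction_on with
  | zero => simpa using h0
  | of l x => rw [DirectSum.coeAddMonoidHom_of]; exact hk l _ x.2
  | add x y hx hy => rw [map_add]; exact hadd _ _ hx hy

theorem exists_sum_proj (M : DG A) (x : M.V) :
    ∃ S : Finset ℤ, (∀ k, k ∉ S → M.proj k x = 0) ∧ ∑ k ∈ S, M.proj k x = x := by
  induction x using M.induction with
  | h0 => exact ⟨∅, by simp, by simp⟩
  | hk k x h =>
    refine ⟨{k}, fun l hl => M.proj_of_ne h fun e => hl (by simp [e]), ?_⟩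
    rw [Finset.sum_singleton, M.proj_of_mem h]
  | hadd x y hx hy =>
    obtain ⟨S, h₁, h₂⟩ := hx
    obtain ⟨T, h₃, h₄⟩ := hy
    refine ⟨S ∪ T, fun k hk => ?_, ?_⟩
    · rw [map_add, h₁ k fun p => hk (by simp [p]), h₃ k fun p => hk (by simp [p]), add_zero]
    · simp only [map_add, Finset.sum_add_distrib]
      rw [← Finset.sum_subset Finset.subset_union_left fun k _ hk => h₁ k hk,
        ← Finset.sum_subset Finset.subset_union_right fun k _ hk => h₃ k hk, h₂, h₄]

theorem proj_comm {M : DG A} {M' : DG B} (g : M.V →+ M'.V) (s : ℤ)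
    (hg : ∀ k x, x ∈ M.gr k → g x ∈ M'.gr (k + s)) (k : ℤ) (x : M.V) :
    g (M.proj k x) = M'.proj (k + s) (g x) := by
  induction x using M.induction with
  | h0 => simp
  | hk l x h =>
    by_cases e : l = k
    · subst e
      rw [M.proj_of_mem h, M'.proj_of_mem (hg _ _ h)]
    · rw [M.proj_of_ne h e, M'.proj_of_ne (hg _ _ h) (by omega), map_zero]
  | hadd x y hx hy => simp only [map_add, hx, hy]

theorem Hom.map_proj {φ : A ⟶ B} {M : DG A} {M' : DG B} (g : Hom φ M M') (k : ℤ) (x : M.V) :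
    g.toFun (M.proj k x) = M'.proj k (g.toFun x) := by
  simpa using proj_comm g.toFun 0 (fun k x h => by simpa using g.map_gr h) k x

theorem sub_internal (M : DG A) (P : Submodule (N A) M.V) (h : ∀ k, ∀ x ∈ P, M.proj k x ∈ P) :
    DirectSum.IsInternal fun k => (M.gr k).comap P.subtype.toAddMonoidHom := by
  refine internal_of_proj _
    (fun k => ((M.proj k).comp P.subtype.toAddMonoidHom).codRestrict P fun x => h k x x.2)
    (fun k x => M.proj_mem k x.1) (fun k x hx => Subtype.ext (M.proj_of_mem hx))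
    (fun k l x hx e => Subtype.ext (M.proj_of_ne hx e)) fun x => ?_
  obtain ⟨S, -, hS⟩ := M.exists_sum_proj x.1
  exact ⟨S, Subtype.ext (by rw [AddSubmonoidClass.coe_finsetSum]; exact hS)⟩

/-- A graded submodule that is stable under `d`. -/
@[reducible] def sub (M : DG A) (P : Submodule (N A) M.V) (h : ∀ k, ∀ x ∈ P, M.proj k x ∈ P)
    (hd : ∀ x ∈ P, M.d x ∈ P) : DG A where
  V := P
  gr k := (M.gr k).comap P.subtype.toAddMonoidHom
  internal := M.sub_internal P h
  d := (M.d.comp P.subtype.toAddMonoidHom).codRestrict P fun x => hd x x.2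
  smul_mem ha hx := M.smul_mem ha hx
  d_mem hx := M.d_mem hx
  d_d x := Subtype.ext (M.d_d x.1)
  d_smul a x := Subtype.ext (M.d_smul a x.1)

/-- The kernel of `g` as a submodule. -/
def Hom.kerSub {φ : A ⟶ B} {M : DG A} {M' : DG B} (g : Hom φ M M') : Submodule (N A) M.V where
  carrier := {x | g.toFun x = 0}
  add_mem' {x y} hx hy := by
    change g.toFun (x + y) = 0
    rw [map_add, hx, hy, add_zero]
  zero_mem' := map_zero g.toFun
  smul_mem' a x hx := by
    change g.toFun (a • x) = 0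
    rw [g.map_smul, hx, smul_zero]

theorem Hom.proj_mem_kerSub {φ : A ⟶ B} {M : DG A} {M' : DG B} (g : Hom φ M M') (k : ℤ)
    (x : M.V) (hx : x ∈ g.kerSub) : M.proj k x ∈ g.kerSub := by
  change g.toFun _ = 0
  rw [g.map_proj, hx, map_zero]

theorem Hom.d_mem_kerSub {φ : A ⟶ B} {M : DG A} {M' : DG B} (g : Hom φ M M')
    (x : M.V) (hx : x ∈ g.kerSub) : M.d x ∈ g.kerSub := by
  change g.toFun _ = 0
  rw [g.map_d, hx, map_zero]

/-- The kernel of `g`. -/
@[reducible] def Hom.ker {φ : A ⟶ B} {M : DG A} {M' : DG B} (g : Hom φ M M') : DG A :=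
  M.sub g.kerSub g.proj_mem_kerSub g.d_mem_kerSub

end DG

section pairing
variable {J : Type} [SmallCategory J] {A : J ⥤ SRing} {L L' P : Mod A} (m : Mod.Pairing L L' P)

/-- The pairing on a chart. -/
abbrev Mod.Pairing.μ (j : J) : (L.obj j).V →+ (L'.obj j).V →+ (P.obj j).V := (m.app j).μ

theorem Mod.Pairing.μ_gr (j : J) {k l : ℤ} {x y} (hx : x ∈ (L.obj j).gr k)
    (hy : y ∈ (L'.obj j).gr l) : m.μ j x y ∈ (P.obj j).gr (k + l) := (m.app j).μ_gr hx hy

theorem Mod.Pairing.smul_left (j : J) (a : N (A.obj j)) (x y) :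
    m.μ j (a • x) y = a • m.μ j x y := (m.app j).smul_left a x y

theorem Mod.Pairing.smul_right (j : J) {n k : ℤ} {a : N (A.obj j)} {x} (y)
    (ha : a ∈ N.deg (A.obj j) n) (hx : x ∈ (L.obj j).gr k) :
    m.μ j x (a • y) = (n * k).negOnePow • a • m.μ j x y := (m.app j).smul_right y ha hx

theorem Mod.Pairing.leibniz (j : J) {k : ℤ} {x} (y) (hx : x ∈ (L.obj j).gr k) :
    (P.obj j).d (m.μ j x y) = m.μ j ((L.obj j).d x) y + k.negOnePow • m.μ j x ((L'.obj j).d y) :=
  (m.app j).leibniz y hx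

theorem Mod.Pairing.nat' {i j : J} (ψ : i ⟶ j) (x y) :
    (P.map ψ).toFun (m.μ i x y) = m.μ j ((L.map ψ).toFun x) ((L'.map ψ).toFun y) := m.nat ψ x y

end pairing

end Pool.Agent.P.MP_932208_ag.Ax
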