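import Pool.Agent.P.MP_932208_ag.Ax.DG

/-!
Derived stacks presented by diagrams of simplicial commutative rings, perfect complexes, line
bundles, determinants and virtual Cartier divisors.

A functor `A : J ⥤ SRing` presents the derived prestack `X = colim_j Spec A_j`; a quasi-coherent
complex on `X` is a family of dg `N A_j`-modules whose transition maps are derived base changes.
-/

namespace Pool.Agent.P.MP_932208_ag.Ax

open CategoryTheory

/-- A module over `A`, a module over `B` and a semilinear map: a module over the arrow `φ`. -/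
structure Arr {A B : SRing} (φ : A ⟶ B) where
  src : DG A
  tgt : DG B
  map : DG.Hom φ src tgt

namespace Arr
variable {A B : SRing} {φ : A ⟶ B}

/-- A map of modules over the arrow `φ`. -/
structure Hom (a b : Arr φ) where
  s : DG.Hom (𝟙 A) a.src b.src
  t : DG.Hom (𝟙 B) a.tgt b.tgt
  comm : DG.Hom.Sq a.map t s b.map

/-- A quasi-isomorphism after inverting `f`. -/
def Hom.QIsoAway {a b : Arr φ} (g : Hom a b) (f : A.obj 0) : Prop :=
  g.s.QIsoAway f ∧ g.t.QIsoAway (φ.app 0 f)

/-- A short exact sequence of modules over the arrow `φ`. -/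
def ShortExact {a b c : Arr φ} (i : Hom a b) (p : Hom b c) : Prop :=
  DG.ShortExact i.s p.s ∧ DG.ShortExact i.t p.t

/-- The structure sheaf `N A → N B`. -/
@[reducible] def unit (φ : A ⟶ B) : Arr φ := ⟨DG.unit A, DG.unit B, DG.unitHom φ⟩

/-- `Cellular f l a`: after inverting `f`, `a` lies in the triangulated subcategory generated by
the structure sheaf, with class `l` times the class of the structure sheaf.  So `a.src[1/f]` is a
finite cell module of Euler characteristic `l` and `a.tgt[1/f]` is its derived base change. -/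
inductive Cellular (f : A.obj 0) : ℤ → Arr φ → Prop
  | unit : Cellular f 1 (unit φ)
  | forward {l a b} (g : Hom a b) : g.QIsoAway f → Cellular f l a → Cellular f l b
  | backward {l a b} (g : Hom a b) : g.QIsoAway f → Cellular f l b → Cellular f l a
  | middle {l m a b c} (i : Hom a b) (p : Hom b c) : ShortExact i p →
      Cellular f l a → Cellular f m c → Cellular f (l + m) b
  | left {l m a b c} (i : Hom a b) (p : Hom b c) : ShortExact i p →
      Cellular f l b → Cellular f m c → Cellular f (l - m) a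
  | right {l m a b c} (i : Hom a b) (p : Hom b c) : ShortExact i p →
      Cellular f l b → Cellular f m a → Cellular f (l - m) c

end Arr

/-- The principal open sets `D(f)`, `f ∈ U`, cover `Spec π_0 A`. -/
def SRing.Covers (A : SRing) (U : Set (A.obj 0)) : Prop :=
  Ideal.span (U ∪ {a | (DG.unit A).Bdry 0 (N.inc a)}) = ⊤

namespace DG.Hom
variable {A B : SRing} {φ : A ⟶ B} {M : DG A} {M' : DG B}

/-- `M` is perfect and `g` exhibits `M'` as its derived base change. -/
def PerfectBaseChange (g : Hom φ M M') : Prop :=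
  A.Covers {f | ∃ l, Arr.Cellular f l ⟨M, M', g⟩}

/-- `M` is perfect of rank `l` and `g` exhibits `M'` as its derived base change. -/
def RankBaseChange (g : Hom φ M M') (l : ℤ) : Prop :=
  A.Covers {f | Arr.Cellular f l ⟨M, M', g⟩}

/-- `M` is locally free of rank one and `g` exhibits `M'` as its derived base change. -/
def LineBaseChange (g : Hom φ M M') : Prop :=
  A.Covers {f | ∃ e : (Arr.unit φ).Hom ⟨M, M', g⟩, e.QIsoAway f}

end DG.Hom

variable {J J' : Type} [SmallCategory J] [SmallCategory J']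

/-- A diagram of dg modules over the diagram of simplicial rings `A`. -/
structure Mod (A : J ⥤ SRing) where
  obj : ∀ j, DG (A.obj j)
  map : ∀ {i j : J} (ψ : i ⟶ j), DG.Hom (A.map ψ) (obj i) (obj j)
  map_id : ∀ j, (map (𝟙 j)).IsId
  map_comp : ∀ {i j k : J} (ψ : i ⟶ j) (χ : j ⟶ k), (map (ψ ≫ χ)).Tri (map ψ) (map χ)

/-- The units in `A_0`. -/
abbrev SRing.U (A : SRing) : Type := (A.obj 0)ˣ

/-- A cocycle of units on the diagram `A`. -/
structure Cocycle (A : J ⥤ SRing) where
  c : ∀ {i j : J}, (i ⟶ j) → (A.obj j).U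
  c_id : ∀ j, UnitOne (c (𝟙 j))
  c_comp : ∀ {i j k : J} (ψ : i ⟶ j) (χ : j ⟶ k),
    UnitTri ((A.map χ).app 0) (c ψ) (c χ) (c (ψ ≫ χ))

theorem Cocycle.zpow_id {A : J ⥤ SRing} (γ : Cocycle A) (l : ℤ) (j : J) :
    UnitOne (unitPow (γ.c (𝟙 j)) l) := by
  change γ.c (𝟙 j) ^ l = 1
  rw [γ.c_id, one_zpow]

theorem Cocycle.zpow_comp {A : J ⥤ SRing} (γ : Cocycle A) (l : ℤ) {i j k : J} (ψ : i ⟶ j)
    (χ : j ⟶ k) : UnitTri ((A.map χ).app 0) (unitPow (γ.c ψ) l) (unitPow (γ.c χ) l)
      (unitPow (γ.c (ψ ≫ χ)) l) := by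
  change γ.c (ψ ≫ χ) ^ l = γ.c χ ^ l * Units.map ((A.map χ).app 0).toMonoidHom (γ.c ψ ^ l)
  rw [γ.c_comp, mul_zpow, map_zpow]

/-- The power `γ ^ l` of a cocycle. -/
def Cocycle.zpow {A : J ⥤ SRing} (γ : Cocycle A) (l : ℤ) : Cocycle A where
  c ψ := unitPow (γ.c ψ) l
  c_id := γ.zpow_id l
  c_comp := @Cocycle.zpow_comp J _ A γ l

namespace Mod
variable {A B : J ⥤ SRing}

/-- A map of diagrams of modules along the map `η` of diagrams of rings. -/
structure Hom (η : A ⟶ B) (M : Mod A) (M' : Mod B) where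
  app : ∀ j, DG.Hom (η.app j) (M.obj j) (M'.obj j)
  nat : ∀ {i j : J} (ψ : i ⟶ j), DG.Hom.Sq (M.map ψ) (app j) (app i) (M'.map ψ)

/-- Isomorphic in the derived category: joined by a zigzag of quasi-isomorphisms. -/
def Equiv : Mod A → Mod A → Prop :=
  Relation.EqvGen fun P Q => ∃ g : Hom (𝟙 A) P Q, ∀ j, (g.app j).QIsoAway 1

/-- A perfect complex on the stack presented by `A`. -/
def Perfect (M : Mod A) : Prop := ∀ (i j : J) (ψ : i ⟶ j), (M.map ψ).PerfectBaseChange

/-- A perfect complex of rank `l`. -/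
def PerfectOfRank (M : Mod A) (l : ℤ) : Prop :=
  ∀ (i j : J) (ψ : i ⟶ j), (M.map ψ).RankBaseChange l

/-- A line bundle. -/
def IsLine (M : Mod A) : Prop := ∀ (i j : J) (ψ : i ⟶ j), (M.map ψ).LineBaseChange

theorem unit_id (A : J ⥤ SRing) (j : J) : (DG.unitHom (A.map (𝟙 j))).IsId := fun x => by
  change N.map (A.map (𝟙 j)) x = x
  rw [A.map_id, N.map_id]

theorem unit_comp (A : J ⥤ SRing) {i j k : J} (ψ : i ⟶ j) (χ : j ⟶ k) :
    (DG.unitHom (A.map (ψ ≫ χ))).Tri (DG.unitHom (A.map ψ)) (DG.unitHom (A.map χ)) := fun x => by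
  change N.map (A.map (ψ ≫ χ)) x = N.map (A.map χ) (N.map (A.map ψ) x)
  rw [A.map_comp, N.map_map]

/-- The structure sheaf. -/
@[reducible] def unit (A : J ⥤ SRing) : Mod A where
  obj j := DG.unit (A.obj j)
  map ψ := DG.unitHom (A.map ψ)
  map_id := unit_id A
  map_comp := @unit_comp J _ A

theorem map_congr (M : Mod A) {i j : J} {ψ χ : i ⟶ j} (e : ψ = χ) (x : (M.obj i).V) :
    (M.map ψ).toFun x = (M.map χ).toFun x := by rw [e]

theorem restrict_id (u : J' ⥤ J) (M : Mod A) (j : J') : (M.map (u.map (𝟙 j))).IsId :=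
  fun x => (M.map_congr (u.map_id j) x).trans (M.map_id _ x)

theorem restrict_comp (u : J' ⥤ J) (M : Mod A) {i j k : J'} (ψ : i ⟶ j) (χ : j ⟶ k) :
    (M.map (u.map (ψ ≫ χ))).Tri (M.map (u.map ψ)) (M.map (u.map χ)) :=
  fun x => (M.map_congr (u.map_comp ψ χ) x).trans (M.map_comp _ _ x)

/-- Restriction along a functor of index categories. -/
@[reducible] def restrict (u : J' ⥤ J) (M : Mod A) : Mod (u ⋙ A) where
  obj j := M.obj (u.obj j)
  map ψ := M.map (u.map ψ)
  map_id := restrict_id u M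
  map_comp := @restrict_comp J J' _ _ A u M

theorem push_sq (φ : A ⟶ B) {i j : J} (ψ : i ⟶ j) : A.map ψ ≫ φ.app j = φ.app i ≫ B.map ψ :=
  φ.naturality ψ

/-- Pushforward along the affine morphism given by `φ`: restriction of scalars. -/
@[reducible] def push (φ : A ⟶ B) (F : Mod B) : Mod A where
  obj j := (F.obj j).res (φ.app j)
  map ψ := (F.map ψ).resMap (push_sq φ ψ)
  map_id := F.map_id
  map_comp := @Mod.map_comp J _ B F

/-- The transition map of `M`, multiplied by the unit `γ ψ`. -/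
abbrev twistMap (M : Mod A) (γ : Cocycle A) {i j : J} (ψ : i ⟶ j) :
    DG.Hom (A.map ψ) (M.obj i) (M.obj j) :=
  (M.map ψ).scale (γ.c ψ)

theorem twist_id (M : Mod A) (γ : Cocycle A) (j : J) : (M.twistMap γ (𝟙 j)).IsId := fun x => by
  change N.inc (γ.c (𝟙 j) : (A.obj j).obj 0) • (M.map (𝟙 j)).toFun x = x
  rw [γ.c_id, M.map_id, Units.val_one, map_one, one_smul]

theorem twist_comp (M : Mod A) (γ : Cocycle A) {i j k : J} (ψ : i ⟶ j) (χ : j ⟶ k) :
    (M.twistMap γ (ψ ≫ χ)).Tri (M.twistMap γ ψ) (M.twistMap γ χ) := fun x => by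
  change N.inc (γ.c (ψ ≫ χ) : (A.obj k).obj 0) • (M.map (ψ ≫ χ)).toFun x =
    N.inc (γ.c χ : (A.obj k).obj 0) •
      (M.map χ).toFun (N.inc (γ.c ψ : (A.obj j).obj 0) • (M.map ψ).toFun x)
  rw [γ.c_comp, M.map_comp, (M.map χ).map_smul, N.map_inc, smul_smul, ← map_mul]; rfl

/-- Twisting the transition maps by a cocycle of units. -/
@[reducible] def twist (M : Mod A) (γ : Cocycle A) : Mod A where
  obj := M.obj
  map ψ := M.twistMap γ ψ
  map_id := M.twist_id γ
  map_comp := @twist_comp J _ A M γ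

/-- A pairing `L × L' → P` of diagrams of dg modules, i.e. a map `L ⊗ L' → P`. -/
structure Pairing (L L' P : Mod A) where
  app : ∀ j, DG.Pairing (L.obj j) (L'.obj j) (P.obj j)
  nat : ∀ {i j : J} (ψ : i ⟶ j), (app i).Compat (app j) (L.map ψ) (L'.map ψ) (P.map ψ)

/-- For line bundles `L`, `L'`, `P`: `P ≅ L ⊗ L'`. -/
def IsTensor (L L' P : Mod A) : Prop :=
  ∃ (L₁ L₁' P₁ : Mod A) (m : Pairing L₁ L₁' P₁),
    L₁.Equiv L ∧ L₁'.Equiv L' ∧ P₁.Equiv P ∧ ∀ j, (m.app j).OntoH0

end Mod

/-- A determinant: a line bundle `det M` for every perfect complex `M` on every stack, invariant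
under isomorphism, compatible with pullback, multiplicative in cofibre sequences, and equal to the
top exterior power for the line bundles given by transition functions and for the zero complex. -/
structure Determinant where
  det : ∀ {J : Type} [SmallCategory J] {A : J ⥤ SRing}, Mod A → Mod A
  isLine : ∀ {J : Type} [SmallCategory J] {A : J ⥤ SRing} {M : Mod A},
    M.Perfect → (det M).IsLine
  invariant : ∀ {J : Type} [SmallCategory J] {A : J ⥤ SRing} {M M' : Mod A},
    M.Perfect → M.Equiv M' → (det M).Equiv (det M')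
  restrict : ∀ {J J' : Type} [SmallCategory J] [SmallCategory J'] {A : J ⥤ SRing} (u : J' ⥤ J)
    {M : Mod A}, M.Perfect → (det (M.restrict u)).Equiv ((det M).restrict u)
  baseChange : ∀ {J : Type} [SmallCategory J] {A B : J ⥤ SRing} {η : A ⟶ B} {M : Mod A}
    {M' : Mod B} (g : Mod.Hom η M M'), M.Perfect → M'.Perfect →
    (∀ j, (g.app j).PerfectBaseChange) → ∃ (P : Mod A) (P' : Mod B) (h : Mod.Hom η P P'),
      P.Equiv (det M) ∧ P'.Equiv (det M') ∧ ∀ j, (h.app j).LineBaseChange
  multiplicative : ∀ {J : Type} [SmallCategory J] {A : J ⥤ SRing} {M₁ M₂ M₃ : Mod A}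
    (i : Mod.Hom (𝟙 A) M₁ M₂) (p : Mod.Hom (𝟙 A) M₂ M₃), M₁.Perfect → M₂.Perfect → M₃.Perfect →
    (∀ j, DG.ShortExact (i.app j) (p.app j)) → Mod.IsTensor (det M₁) (det M₃) (det M₂)
  rankOne : ∀ {J : Type} [SmallCategory J] {A : J ⥤ SRing} (γ : Cocycle A),
    (det ((Mod.unit A).twist γ)).Equiv ((Mod.unit A).twist γ)
  rankZero : ∀ {J : Type} [SmallCategory J] {A : J ⥤ SRing} {M : Mod A},
    (∀ j k x, (M.obj j).Cycle k x → (M.obj j).Bdry k x) → (det M).Equiv (Mod.unit A)

/-- `f` is a levelwise surjection (a closed immersion). -/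
abbrev SRing.Hom.Onto {A B : SRing} (f : A ⟶ B) : Prop := ∀ n, Function.Surjective (f.app n)

/-- The kernel `K` of `N A → N B` is freely generated by `ν`, up to quasi-isomorphism. -/
def SRing.Hom.Generates {A B : SRing} (f : A ⟶ B) (ν : A.obj 0) : Prop :=
  ∃ (K : DG A) (i : DG.Hom (𝟙 A) K (DG.unit A)) (e : DG.Hom (𝟙 A) (DG.unit A) K),
    DG.ShortExact i (DG.unitHom f) ∧ i.toFun (e.toFun (1 : N A)) = N.inc ν ∧ e.QIsoAway 1

/-- `φ : A ⟶ B` presents a virtual Cartier divisor `Z → X`: a closed immersion whose ideal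
`O(-Z) = ker φ` is generated, up to quasi-isomorphism, by a local equation `ν j` on every chart;
the local equations differ by the cocycle of units `γ`. -/
structure VirtualCartier {A B : J ⥤ SRing} (φ : A ⟶ B) where
  surjective : ∀ j, (φ.app j).Onto
  ν : ∀ j, (A.obj j).obj 0
  γ : Cocycle A
  map_ν : ∀ {i j : J} (ψ : i ⟶ j), MapsUpTo ((A.map ψ).app 0) (ν i) (γ.c ψ) (ν j)
  generates : ∀ j, (φ.app j).Generates (ν j)

/-- The line bundle `O(lZ)`, with local generators `ν j ^ (-l)`. -/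
def VirtualCartier.O {A B : J ⥤ SRing} {φ : A ⟶ B} (Z : VirtualCartier φ) (l : ℤ) : Mod A :=
  (Mod.unit A).twist (Z.γ.zpow (-l))

end Pool.Agent.P.MP_932208_ag.Ax
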