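import Pool.Agent.P.MP_932208_ag.Ax.Surj

/-!
Action of `H(A)` on degree zero classes, local generators, covers.
-/

namespace Pool.Agent.P.MP_932208_ag.Ax

open CategoryTheory

namespace DG
variable {A B C : SRing}

theorem Gen_bd_sg (x : N A) : N.bd (N.sg x) = -N.sg (N.bd x) :=
  N.ext' fun n => by
    change A.map (face 0) ((-1) ^ (n + 1) * x.1 (n + 1)) =
      -((-1) ^ n * A.map (face 0) (x.1 (n + 1)))
    simp [pow_succ]

theorem Gen_sg_sg (x : N A) : N.sg (N.sg x) = x := Subtype.ext (Ch.sgn_sgn x.1)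

theorem Gen_smul_bdry (M : DG A) {k : ℤ} {e : M.V} (he : M.Bdry 0 e) {r : N A}
    (hr : (unit A).Cycle k r) : M.Bdry k (r • e) := by
  obtain ⟨y, hy, rfl⟩ := he
  have h1 : N.bd r = 0 := hr.2
  refine ⟨N.sg r • y, by simpa using M.smul_mem (N.Hg.sg hr.1) hy, ?_⟩
  rw [M.d_smul, Gen_bd_sg, Gen_sg_sg, h1, map_zero, neg_zero, zero_smul, zero_add]

/-- The action on cycles of degree zero. -/
def Gen_act0 (M : DG A) (k : ℤ) : M.Z 0 →+ (unit A).H k →+ M.H k :=
  AddMonoidHom.mk' (fun e => (M.toSpan e.1 e.2).H k) fun e e' => by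
    ext ρ
    obtain ⟨r, hr, rfl⟩ := cls_surj ρ
    exact cls_congr _ _ (smul_add r e.1 e'.1)

/-- The action `H_k(A) × H_0(M) → H_k(M)`. -/
noncomputable def act (M : DG A) (k : ℤ) : M.H 0 →+ (unit A).H k →+ M.H k :=
  QuotientAddGroup.lift ((M.Bd 0).comap (M.Z 0).subtype).toAddSubgroup (Gen_act0 M k)
    fun e he => by
      ext ρ
      obtain ⟨r, hr, rfl⟩ := cls_surj ρ
      exact (cls_eq_zero ((M.toSpan e.1 e.2).cycle hr)).2 (Gen_smul_bdry M he hr)

theorem act_cls (M : DG A) {k : ℤ} {e : M.V} (he : M.Cycle 0 e) {r : N A}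
    (hr : (unit A).Cycle k r) :
    M.act k (M.cls e he) ((unit A).cls r hr) = M.cls (r • e) ((M.toSpan e he).cycle hr) := rfl

theorem act_toSpan (M : DG A) (k : ℤ) {e : M.V} (he : M.Cycle 0 e) :
    M.act k (M.cls e he) = (M.toSpan e he).H k := rfl

theorem act_smul_left (M : DG A) (k : ℤ) (a : A.obj 0) (ε : M.H 0) (ρ : (unit A).H k) :
    M.act k (a • ε) ρ = a • M.act k ε ρ := by
  obtain ⟨e, he, rfl⟩ := cls_surj ε
  obtain ⟨r, hr, rfl⟩ := cls_surj ρ
  rw [cls_smul, act_cls, act_cls, cls_smul]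
  exact cls_congr _ _ (by rw [smul_smul, smul_smul, N.inc_comm])

theorem act_smul_right (M : DG A) (k : ℤ) (a : A.obj 0) (ε : M.H 0) (ρ : (unit A).H k) :
    M.act k ε (a • ρ) = a • M.act k ε ρ := by
  obtain ⟨e, he, rfl⟩ := cls_surj ε
  obtain ⟨r, hr, rfl⟩ := cls_surj ρ
  rw [cls_smul, act_cls, act_cls, cls_smul]
  exact cls_congr _ _ (mul_smul (N.inc a) r e)

theorem Hom.H_act {φ : A ⟶ B} {M : DG A} {M' : DG B} (g : Hom φ M M') (k : ℤ) (ε : M.H 0)
    (ρ : (unit A).H k) :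
    g.H k (M.act k ε ρ) = M'.act k (g.H 0 ε) ((unitHom φ).H k ρ) := by
  obtain ⟨e, he, rfl⟩ := cls_surj ε
  obtain ⟨r, hr, rfl⟩ := cls_surj ρ
  rw [act_cls, g.H_cls, g.H_cls, (unitHom φ).H_cls, act_cls]
  exact cls_congr _ _ (g.map_smul r e)

theorem cycle_inc (a : A.obj 0) : (unit A).Cycle 0 (N.inc a) := ⟨N.hg_inc a, N.bd_inc a⟩

/-- The class of `1`. -/
def one (A : SRing) : (unit A).H 0 := (unit A).cls (N.inc 1) (cycle_inc 1)

theorem act_one (M : DG A) (ε : M.H 0) : M.act 0 ε (one A) = ε := by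
  obtain ⟨e, he, rfl⟩ := cls_surj ε
  rw [one, act_cls]
  exact cls_congr _ _ (by rw [map_one, one_smul])

theorem unit_act_one (k : ℤ) (ρ : (unit A).H k) : (unit A).act k (one A) ρ = ρ := by
  obtain ⟨r, hr, rfl⟩ := cls_surj ρ
  rw [one, act_cls]
  exact cls_congr _ _ (by rw [map_one, smul_eq_mul, mul_one])

theorem unitHom_one (φ : A ⟶ B) : (unitHom φ).H 0 (one A) = one B := by
  rw [one, one, (unitHom φ).H_cls]
  refine cls_congr _ _ ?_
  change N.map φ (N.inc 1) = N.inc 1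
  rw [N.map_inc, map_one]

/-- Every class in `H_0(A)` comes from `A_0`. -/
theorem exists_smul_one (ρ : (unit A).H 0) : ∃ a : A.obj 0, ρ = a • one A := by
  obtain ⟨r, hr, rfl⟩ := cls_surj ρ
  refine ⟨r.1 0, ?_⟩
  rw [one, cls_smul]
  refine cls_congr _ _ ?_
  rw [map_one, smul_eq_mul, mul_one]
  refine N.ext' fun n => ?_
  cases n with
  | zero => rfl
  | succ n => exact hr.1 (n + 1) (by push_cast; omega)

theorem smul_one_eq_zero {a : A.obj 0} : a • one A = 0 ↔ a ∈ A.bdry := by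
  rw [one, cls_smul, cls_eq_zero, map_one, smul_eq_mul, mul_one]
  rfl

/-- `ε` freely generates the homology of `M` after inverting `S`. -/
def Gen (M : DG A) {K : Type} [CommRing K] (S : Submonoid K) (σ : K →+* A.obj 0)
    (ε : M.H 0) : Prop :=
  ∀ k, LocIso S σ σ (M.act k ε)

section
variable {K : Type} [CommRing K] {S : Submonoid K} {σ : K →+* A.obj 0} {M : DG A}

theorem act_lin (M : DG A) (k : ℤ) (ε : M.H 0) (σ : K →+* A.obj 0) : Lin σ σ (M.act k ε) :=
  fun a ρ => M.act_smul_right k (σ a) ε ρ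

theorem gen_one : (unit A).Gen S σ (one A) := fun k => by
  have : (unit A).act k (one A) = AddMonoidHom.id _ := AddMonoidHom.ext (unit_act_one k)
  rw [this]
  exact LocIso.of_bijective Function.bijective_id

theorem Gen.mono {T : Submonoid K} {ε : M.H 0} (h : M.Gen S σ ε) (e : S ≤ T) : M.Gen T σ ε :=
  fun k => (h k).mono e

theorem Gen_of_dvd {ε ε' : M.H 0} (h : M.Gen S σ ε) {s : K} (hs : s ∈ S) {a : A.obj 0}
    (e : σ s • ε = a • ε') : M.Gen S σ ε' := by
  intro k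
  refine ⟨fun y => ?_, fun x hx => ?_⟩
  · obtain ⟨t, ht, x, p⟩ := (h k).surj y
    refine ⟨s * t, S.mul_mem hs ht, a • x, ?_⟩
    rw [act_smul_right, ← act_smul_left, ← e, act_smul_left, p, map_mul, mul_smul]
  · obtain ⟨t, ht, p⟩ := (h k).inj (σ s • x) (by
      rw [act_smul_right, ← act_smul_left, e, act_smul_left, hx, smul_zero])
    exact ⟨t * s, S.mul_mem ht hs, by rw [map_mul, mul_smul, p]⟩

set_option linter.unusedVariables false in
/-- Two classes that are multiples of each other up to `S`. -/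
theorem Gen.of_assoc {ε ε' : M.H 0} (h : M.Gen S σ ε) {s s' : K} (hs : s ∈ S) (hs' : s' ∈ S)
    {a a' : A.obj 0} (e : σ s • ε = a • ε') (e' : σ s' • ε' = a' • ε) : M.Gen S σ ε' :=
  Gen_of_dvd h hs e

theorem Gen.smul_unit {ε : M.H 0} (h : M.Gen S σ ε) {u : A.obj 0} (hu : IsUnit u) :
    M.Gen S σ (u • ε) := by
  obtain ⟨u, rfl⟩ := hu
  refine Gen_of_dvd h S.one_mem (a := (u⁻¹ : (A.obj 0)ˣ)) ?_
  rw [map_one, smul_smul, Units.inv_mul]

theorem Gen_act_map {M' : DG A} (g : Hom (𝟙 A) M M') (k : ℤ) (ε : M.H 0) :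
    M'.act k (g.H 0 ε) = (g.H k).comp (M.act k ε) := by
  ext ρ
  rw [AddMonoidHom.comp_apply, g.H_act]
  exact congrArg _ (H_id (unitHom (𝟙 A)).cmap (fun _ => rfl) k ρ).symm

theorem Gen_act_one (e : Hom (𝟙 A) (unit A) M) (k : ℤ) : M.act k (e.H 0 (one A)) = e.H k := by
  ext ρ
  rw [Gen_act_map, AddMonoidHom.comp_apply, unit_act_one]

theorem Gen.map_qiso {M' : DG A} (g : Hom (𝟙 A) M M') (hg : g.QIsoAway 1) (ε : M.H 0) :
    M'.Gen S σ (g.H 0 ε) ↔ M.Gen S σ ε := by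
  refine forall_congr' fun k => ?_
  have lg : Lin σ σ (g.H k) := fun a ξ => g.H_smul (σ a) ξ
  have hb : LocIso S σ σ (g.H k) := LocIso.of_bijective (g.qiso_iff.1 hg k)
  rw [Gen_act_map]
  exact ⟨LocIso.of_comp_right (M.act_lin k ε σ) lg hb,
    fun h => LocIso.comp (M.act_lin k ε σ) lg h hb⟩

variable {φ : A ⟶ B} {M' : DG B}

theorem Hom.LineBaseChange.covers {g : Hom φ M M'} (h : g.LineBaseChange) :
    A.Covers {f | ∃ ε : M.H 0, M.Gen (Submonoid.powers f) (RingHom.id _) ε ∧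
      M'.Gen (Submonoid.powers f) (φ.app 0) (g.H 0 ε)} := by
  refine SRing.Covers.mono h ?_
  rintro f ⟨e, h1, h2⟩
  refine ⟨e.s.H 0 (one A), fun k => ?_, fun k => ?_⟩
  · rw [Gen_act_one]
    exact (e.s.qisoAway_iff f).1 h1 k
  · have p : g.H 0 (e.s.H 0 (one A)) = e.t.H 0 (one B) := by
      rw [← unitHom_one φ]
      exact H_comm e.s.cmap g.cmap (unitHom φ).cmap e.t.cmap (fun x => (e.comm x).symm) 0 _
    rw [p, Gen_act_one]
    have q := (e.t.qisoAway_iff (φ.app 0 f)).1 h2 k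
    rw [← Submonoid.map_powers] at q
    exact (locIso_map_iff (φ.app 0) _).1 q

theorem Hom.lineBaseChange_of_cycle (g : Hom φ M M') {e : M.V} (he : M.Cycle 0 e)
    (h : (M.toSpan e he).QIsoAway 1) (h' : (M'.toSpan _ (g.cycle he)).QIsoAway 1) :
    g.LineBaseChange := by
  refine SRing.covers_of_one ⟨⟨M.toSpan e he, M'.toSpan _ (g.cycle he),
    fun x => (g.map_smul x e).symm⟩, h, ?_⟩
  rw [map_one]
  exact h'

/-- A base change of line bundles carries local generators to local generators. -/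
theorem Hom.LineBaseChange.gen {g : Hom φ M M'} (h : g.LineBaseChange) {ε : M.H 0}
    (hε : M.Gen S σ ε) : M'.Gen S ((φ.app 0).comp σ) (g.H 0 ε) := by
  intro k
  refine (locIso_map_iff σ S).1 (LocIso.of_cover (M'.act_lin k _ (φ.app 0)) h.covers
    (fun b hb x => bdry_smul_H (SRing.map_bdry φ hb) x)
    (fun b hb x => bdry_smul_H (SRing.map_bdry φ hb) x) ?_)
  rintro f ⟨ε₀, -, h2⟩
  obtain ⟨s, hs, ρ, p⟩ := (hε 0).surj ε₀
  obtain ⟨a, rfl⟩ := exists_smul_one ρ
  rw [act_smul_right, act_one] at p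
  refine Gen_of_dvd (h2.mono le_sup_right) (s := σ s)
    (Submonoid.mem_sup_left (Submonoid.mem_map_of_mem σ hs)) (a := φ.app 0 a) ?_ k
  rw [← g.H_smul, ← g.H_smul, p]

/-- A base change of line bundles along a local equivalence is a local equivalence. -/
theorem Hom.LineBaseChange.locIso {g : Hom φ M M'} (h : g.LineBaseChange) (k : ℤ)
    (hφ : LocIso S σ ((φ.app 0).comp σ) ((unitHom φ).H k)) :
    LocIso S σ ((φ.app 0).comp σ) (g.H k) := by
  have lg : Lin (RingHom.id _) (φ.app 0) (g.H k) := fun a ξ => g.H_smul a ξ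
  have lu : Lin (RingHom.id _) (φ.app 0) ((unitHom φ).H k) := fun a ξ => (unitHom φ).H_smul a ξ
  have hφ' : LocIso (S.map σ) (RingHom.id _) (φ.app 0) ((unitHom φ).H k) :=
    (locIso_map_iff σ S).2 hφ
  refine (locIso_map_iff (σ₁ := RingHom.id _) σ S).1 (LocIso.of_cover lg h.covers
    (fun b hb x => bdry_smul_H hb x) (fun b hb x => bdry_smul_H (SRing.map_bdry φ hb) x) ?_)
  rintro f ⟨ε₀, h1, h2⟩
  refine LocIso.of_comp_left (M.act_lin k ε₀ _) lg ((h1 k).mono le_sup_right) ?_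
  have p : (g.H k).comp (M.act k ε₀) = (M'.act k (g.H 0 ε₀)).comp ((unitHom φ).H k) :=
    AddMonoidHom.ext fun ρ => g.H_act k ε₀ ρ
  rw [p]
  exact LocIso.comp lu (M'.act_lin k _ _) (hφ'.mono le_sup_left) ((h2 k).mono le_sup_right)

end

attribute [irreducible] act

end DG

end Pool.Agent.P.MP_932208_ag.Ax
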