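import Mathlib

/-!
Maps that become bijective after inverting a multiplicative set (pure commutative algebra).
-/

namespace Pool.Agent.P.MP_932208_ag.Ax

variable {K R₁ R₂ R₃ : Type} [CommRing K] [CommRing R₁] [CommRing R₂] [CommRing R₃]
  {X Y Z : Type} [AddCommGroup X] [AddCommGroup Y] [AddCommGroup Z]
  [Module R₁ X] [Module R₂ Y] [Module R₃ Z]

/-- `g` is `K`-linear, `K` acting through `σ₁` and `σ₂`. -/
def Lin (σ₁ : K →+* R₁) (σ₂ : K →+* R₂) (g : X →+ Y) : Prop :=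
  ∀ k x, g (σ₁ k • x) = σ₂ k • g x

/-- `g` is bijective after inverting `S`. -/
structure LocIso (S : Submonoid K) (σ₁ : K →+* R₁) (σ₂ : K →+* R₂) (g : X →+ Y) : Prop where
  surj : ∀ y, ∃ s ∈ S, ∃ x, g x = σ₂ s • y
  inj : ∀ x, g x = 0 → ∃ s ∈ S, σ₁ s • x = 0

variable {S T : Submonoid K} {σ₁ : K →+* R₁} {σ₂ : K →+* R₂} {σ₃ : K →+* R₃}
  {g : X →+ Y} {h : Y →+ Z}

theorem Lin.comp (hg : Lin σ₁ σ₂ g) (hh : Lin σ₂ σ₃ h) : Lin σ₁ σ₃ (h.comp g) := fun k x => by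
  simp only [AddMonoidHom.comp_apply, hg k, hh k]

theorem LocIso.mono (hg : LocIso S σ₁ σ₂ g) (e : S ≤ T) : LocIso T σ₁ σ₂ g :=
  ⟨fun y => let ⟨s, hs, p⟩ := hg.surj y; ⟨s, e hs, p⟩,
    fun x hx => let ⟨s, hs, p⟩ := hg.inj x hx; ⟨s, e hs, p⟩⟩

theorem LocIso.of_bijective (hg : Function.Bijective g) : LocIso S σ₁ σ₂ g :=
  ⟨fun y => let ⟨x, p⟩ := hg.2 y; ⟨1, S.one_mem, x, by rw [map_one, one_smul, p]⟩,
    fun x hx => ⟨1, S.one_mem, by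
      rw [map_one, one_smul]; exact hg.1 (by rw [hx, map_zero])⟩⟩

theorem LocIso.bijective (hg : LocIso ⊥ σ₁ σ₂ g) : Function.Bijective g := by
  refine ⟨(injective_iff_map_eq_zero g).2 fun x hx => ?_, fun y => ?_⟩
  · obtain ⟨s, hs, p⟩ := hg.inj x hx
    rwa [Submonoid.mem_bot.1 hs, map_one, one_smul] at p
  · obtain ⟨s, hs, x, p⟩ := hg.surj y
    exact ⟨x, by rwa [Submonoid.mem_bot.1 hs, map_one, one_smul] at p⟩

theorem LocIso.comp (lg : Lin σ₁ σ₂ g) (lh : Lin σ₂ σ₃ h) (hg : LocIso S σ₁ σ₂ g)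
    (hh : LocIso S σ₂ σ₃ h) : LocIso S σ₁ σ₃ (h.comp g) := by
  refine ⟨fun z => ?_, fun x hx => ?_⟩
  · obtain ⟨s, hs, y, p⟩ := hh.surj z
    obtain ⟨t, ht, x, q⟩ := hg.surj y
    exact ⟨t * s, S.mul_mem ht hs, x, by
      rw [AddMonoidHom.comp_apply, q, lh, p, map_mul, mul_smul]⟩
  · obtain ⟨s, hs, p⟩ := hh.inj (g x) hx
    obtain ⟨t, ht, q⟩ := hg.inj (σ₁ s • x) (by rw [lg, p])
    exact ⟨t * s, S.mul_mem ht hs, by rw [map_mul, mul_smul, q]⟩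

theorem LocIso.of_comp_left (lg : Lin σ₁ σ₂ g) (lh : Lin σ₂ σ₃ h) (hg : LocIso S σ₁ σ₂ g)
    (hc : LocIso S σ₁ σ₃ (h.comp g)) : LocIso S σ₂ σ₃ h := by
  refine ⟨fun z => ?_, fun y hy => ?_⟩
  · obtain ⟨s, hs, x, p⟩ := hc.surj z
    exact ⟨s, hs, g x, p⟩
  · obtain ⟨s, hs, x, p⟩ := hg.surj y
    obtain ⟨t, ht, q⟩ := hc.inj x (by rw [AddMonoidHom.comp_apply, p, lh, hy, smul_zero])
    exact ⟨t * s, S.mul_mem ht hs, by rw [map_mul, mul_smul, ← p, ← lg, q, map_zero]⟩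

theorem LocIso.of_comp_right (lg : Lin σ₁ σ₂ g) (lh : Lin σ₂ σ₃ h) (hh : LocIso S σ₂ σ₃ h)
    (hc : LocIso S σ₁ σ₃ (h.comp g)) : LocIso S σ₁ σ₂ g := by
  refine ⟨fun y => ?_, fun x hx => hc.inj x (by rw [AddMonoidHom.comp_apply, hx, map_zero])⟩
  obtain ⟨s, hs, x, p⟩ := hc.surj (h y)
  obtain ⟨t, ht, q⟩ := hh.inj (g x - σ₂ s • y) (by
    rw [map_sub, lh, ← p, AddMonoidHom.comp_apply, sub_self])
  refine ⟨t * s, S.mul_mem ht hs, σ₁ t • x, ?_⟩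
  rw [lg, map_mul, mul_smul, ← sub_eq_zero, ← smul_sub, q]

/-- Change of the base ring. -/
theorem locIso_map_iff {K₀ : Type} [CommRing K₀] (τ : K₀ →+* K) (S₀ : Submonoid K₀) :
    LocIso (S₀.map τ) σ₁ σ₂ g ↔ LocIso S₀ (σ₁.comp τ) (σ₂.comp τ) g := by
  constructor
  · intro hg
    refine ⟨fun y => ?_, fun x hx => ?_⟩
    · obtain ⟨_, ⟨s, hs, rfl⟩, p⟩ := hg.surj y
      exact ⟨s, hs, p⟩
    · obtain ⟨_, ⟨s, hs, rfl⟩, p⟩ := hg.inj x hx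
      exact ⟨s, hs, p⟩
  · intro hg
    refine ⟨fun y => ?_, fun x hx => ?_⟩
    · obtain ⟨s, hs, p⟩ := hg.surj y
      exact ⟨τ s, ⟨s, hs, rfl⟩, p⟩
    · obtain ⟨s, hs, p⟩ := hg.inj x hx
      exact ⟨τ s, ⟨s, hs, rfl⟩, p⟩

/-- An ideal that contains `B` and, for every `u` of a cover, an element of `S ⊔ powers u`,
meets `S`. -/
theorem exists_mem_of_cover (I : Ideal K) (S : Submonoid K) {U B : Set K}
    (hU : Ideal.span (U ∪ B) = ⊤) (hB : ∀ b ∈ B, b ∈ I)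
    (h : ∀ u ∈ U, ∃ s ∈ S ⊔ Submonoid.powers u, s ∈ I) : ∃ s ∈ S, s ∈ I := by
  by_contra hc
  have hd : Disjoint (I : Set K) S := Set.disjoint_left.2 fun a ha hs => hc ⟨a, hs, ha⟩
  obtain ⟨p, hp, hI, hS⟩ := Ideal.exists_le_prime_disjoint I S hd
  refine hp.ne_top (top_le_iff.1 (hU ▸ Ideal.span_le.2 ?_))
  rintro u (hu | hu)
  · obtain ⟨_, hs, hs'⟩ := h u hu
    obtain ⟨s, hs₀, _, ⟨n, rfl⟩, rfl⟩ := Submonoid.mem_sup.1 hs
    rcases hp.mem_or_mem (hI hs') with q | q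
    · exact absurd hs₀ (Set.disjoint_left.1 hS q)
    · exact hp.mem_of_pow_mem n q
  · exact hI (hB u hu)

/-- The scalars that carry `y` into the image of `g`. -/
def Lin.surjIdeal (lg : Lin σ₁ σ₂ g) (y : Y) : Ideal K where
  carrier := {a | ∃ x, g x = σ₂ a • y}
  add_mem' := fun ⟨x, p⟩ ⟨x', p'⟩ => ⟨x + x', by rw [map_add, p, p', map_add, add_smul]⟩
  zero_mem' := ⟨0, by simp⟩
  smul_mem' c a := fun ⟨x, p⟩ => ⟨σ₁ c • x, by rw [lg, p, smul_eq_mul, map_mul, mul_smul]⟩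

/-- The scalars that kill `x`. -/
def annIdeal (σ₁ : K →+* R₁) (x : X) : Ideal K where
  carrier := {a | σ₁ a • x = 0}
  add_mem' {a b} p p' := by
    change σ₁ (a + b) • x = 0
    rw [map_add, add_smul, p, p', add_zero]
  zero_mem' := by simp
  smul_mem' c a p := by
    change σ₁ (c * a) • x = 0
    rw [map_mul, mul_smul, p, smul_zero]

/-- Local-global principle along a cover; `B` acts by zero. -/
theorem LocIso.of_cover (lg : Lin σ₁ σ₂ g) {U B : Set K} (hU : Ideal.span (U ∪ B) = ⊤)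
    (hX : ∀ b ∈ B, ∀ x : X, σ₁ b • x = 0) (hY : ∀ b ∈ B, ∀ y : Y, σ₂ b • y = 0)
    (h : ∀ u ∈ U, LocIso (S ⊔ Submonoid.powers u) σ₁ σ₂ g) : LocIso S σ₁ σ₂ g :=
  ⟨fun y => exists_mem_of_cover (lg.surjIdeal y) S hU
      (fun b hb => ⟨0, by rw [map_zero, hY b hb]⟩) fun u hu => (h u hu).surj y,
    fun x hx => exists_mem_of_cover (annIdeal σ₁ x) S hU (fun b hb => hX b hb x)
      fun u hu => (h u hu).inj x hx⟩

/-- An ideal that contains `B` and meets the complement of every prime above `B` is everything. -/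
theorem one_mem_of_primes (I : Ideal K) {B : Set K} (hB : ∀ b ∈ B, b ∈ I)
    (h : ∀ (p : Ideal K) [p.IsPrime], (∀ b ∈ B, b ∈ p) → ∃ s ∈ p.primeCompl, s ∈ I) :
    (1 : K) ∈ I := by
  by_contra hc
  obtain ⟨m, hm, hI⟩ := Ideal.exists_le_maximal I ((Ideal.ne_top_iff_one I).2 hc)
  obtain ⟨s, hs, hs'⟩ := h m fun b hb => hI (hB b hb)
  exact hs (hI hs')

end Pool.Agent.P.MP_932208_ag.Ax
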