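import Pool.Agent.P.MP_932208_ag.Ax.DGx
import Pool.Agent.P.MP_932208_ag.Ax.LocIso

/-!
Homology of dg modules, local quasi-isomorphisms, generators.
-/

namespace Pool.Agent.P.MP_932208_ag.Ax

open CategoryTheory

namespace DG
variable {A B C : SRing}

/-- The identity. -/
def Hom.id (M : DG A) : Hom (𝟙 A) M M := ⟨AddMonoidHom.id _, fun _ _ => rfl, fun h => h, fun _ => rfl⟩

/-- Composition; `e` names the composite ring map. -/
def Hom.comp {φ : A ⟶ B} {χ : B ⟶ C} {ρ : A ⟶ C} {M : DG A} {M' : DG B} {M'' : DG C}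
    (g : Hom φ M M') (g' : Hom χ M' M'') (e : φ ≫ χ = ρ) : Hom ρ M M'' where
  toFun := g'.toFun.comp g.toFun
  map_smul a x := by
    rw [AddMonoidHom.comp_apply, g.map_smul, g'.map_smul, N.map_map, e]; rfl
  map_gr h := g'.map_gr (g.map_gr h)
  map_d x := by rw [AddMonoidHom.comp_apply, g.map_d, g'.map_d]; rfl

/-- Renaming the ring map. -/
def Hom.cast {φ φ' : A ⟶ B} {M : DG A} {M' : DG B} (g : Hom φ M M') (e : φ = φ') :
    Hom φ' M M' :=
  ⟨g.toFun, e ▸ g.map_smul, g.map_gr, g.map_d⟩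

/-- The zero map. -/
def Hom.zero (φ : A ⟶ B) (M : DG A) (M' : DG B) : Hom φ M M' :=
  ⟨0, fun _ _ => (smul_zero _).symm, fun _ => zero_mem _, fun _ => (map_zero _).symm⟩

/-- The zero module. -/
def zero (A : SRing) : DG A where
  V := PUnit
  gr _ := ⊤
  internal := internal_of_proj _ (fun _ => 0) (fun _ _ => trivial) (fun _ _ _ => rfl)
    (fun _ _ _ _ _ => rfl) fun _ => ⟨∅, rfl⟩
  d := 0
  smul_mem _ _ := trivial
  d_mem _ := trivial
  d_d _ := rfl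
  d_smul _ _ := rfl

instance : Subsingleton (zero A).V := inferInstanceAs (Subsingleton PUnit)

/-- The map `r ↦ r • e` for a cycle `e` of degree zero. -/
def toSpan (M : DG A) (e : M.V) (he : M.Cycle 0 e) : Hom (𝟙 A) (unit A) M where
  toFun := (smulAddHom (N A) M.V).flip e
  map_smul a x := mul_smul a x e
  map_gr h := by simpa using M.smul_mem h he.1
  map_d x := by
    change N.bd x • e = M.d (x • e)
    rw [M.d_smul, he.2, smul_zero, add_zero]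

theorem toSpan_apply (M : DG A) (e : M.V) (he : M.Cycle 0 e) (r : N A) :
    (M.toSpan e he).toFun r = r • e := rfl

/-- The inclusion of a submodule. -/
def subIncl (M : DG A) (P : Submodule (N A) M.V) (h : ∀ k, ∀ x ∈ P, M.proj k x ∈ P)
    (hd : ∀ x ∈ P, M.d x ∈ P) : Hom (𝟙 A) (M.sub P h hd) M :=
  ⟨P.subtype.toAddMonoidHom, fun _ _ => rfl, fun h => h, fun _ => rfl⟩

/-- The inclusion of a kernel. -/
def Hom.kerIncl {φ : A ⟶ B} {M : DG A} {M' : DG B} (g : Hom φ M M') : Hom (𝟙 A) g.ker M :=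
  M.subIncl _ _ _

/-- A map with values in a submodule. -/
def Hom.codSub {φ : A ⟶ B} {M : DG A} {M' : DG B} (g : Hom φ M M') (P : Submodule (N B) M'.V)
    (h : ∀ k, ∀ x ∈ P, M'.proj k x ∈ P) (hd : ∀ x ∈ P, M'.d x ∈ P) (hg : ∀ x, g.toFun x ∈ P) :
    Hom φ M (M'.sub P h hd) where
  toFun := g.toFun.codRestrict P hg
  map_smul a x := Subtype.ext (g.map_smul a x)
  map_gr h := g.map_gr h
  map_d x := Subtype.ext (g.map_d x)

theorem res_smul (φ : A ⟶ B) (M : DG B) (a : N A) (x : (M.res φ).V) :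
    a • x = HSMul.hSMul (β := M.V) (γ := M.V) (N.map φ a) x := rfl

/-- The identity, as a map along `φ` from the restriction. -/
def resHom (φ : A ⟶ B) (M : DG B) : Hom φ (M.res φ) M :=
  ⟨AddMonoidHom.id _, fun _ _ => rfl, fun h => h, fun _ => rfl⟩

/-- A semilinear map as a linear map to the restriction. -/
def Hom.toRes {φ : A ⟶ B} {M : DG A} {M' : DG B} (g : Hom φ M M') : Hom (𝟙 A) M (M'.res φ) :=
  ⟨g.toFun, g.map_smul, g.map_gr, g.map_d⟩

/-- A chain map (no linearity). -/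
structure CMap (M : DG A) (M' : DG B) where
  toFun : M.V →+ M'.V
  map_gr : ∀ {k : ℤ} {x : M.V}, x ∈ M.gr k → toFun x ∈ M'.gr k
  map_d : ∀ x, toFun (M.d x) = M'.d (toFun x)

/-- The underlying chain map. -/
def Hom.cmap {φ : A ⟶ B} {M : DG A} {M' : DG B} (g : Hom φ M M') : CMap M M' :=
  ⟨g.toFun, g.map_gr, g.map_d⟩

instance (M : DG A) : Module (A.obj 0) M.V := Module.compHom M.V (N.inc (A := A))

theorem smul0 (M : DG A) (a : A.obj 0) (x : M.V) : a • x = N.inc a • x := rfl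

theorem Bdry.cycle {M : DG A} {k : ℤ} {x : M.V} (h : M.Bdry k x) : M.Cycle k x := by
  obtain ⟨y, hy, rfl⟩ := h
  exact ⟨M.d_mem hy, M.d_d y⟩

/-- The cycles of degree `k`. -/
def Z (M : DG A) (k : ℤ) : Submodule (A.obj 0) M.V where
  carrier := {x | M.Cycle k x}
  add_mem' hx hy := ⟨add_mem hx.1 hy.1, by rw [map_add, hx.2, hy.2, add_zero]⟩
  zero_mem' := ⟨zero_mem _, map_zero _⟩
  smul_mem' a x hx := ⟨M.inc_smul_mem a hx.1, by
    rw [smul0, M.d_inc_smul, hx.2, smul_zero]⟩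

/-- The boundaries of degree `k`. -/
def Bd (M : DG A) (k : ℤ) : Submodule (A.obj 0) M.V where
  carrier := {x | M.Bdry k x}
  add_mem' := fun ⟨y, hy, e⟩ ⟨y', hy', e'⟩ => ⟨y + y', add_mem hy hy', by rw [map_add, e, e']⟩
  zero_mem' := ⟨0, zero_mem _, map_zero _⟩
  smul_mem' a x := fun ⟨y, hy, e⟩ =>
    ⟨N.inc a • y, M.inc_smul_mem a hy, by rw [M.d_inc_smul, e, smul0]⟩

/-- Homology in degree `k`, a module over `A_0`. -/
def H (M : DG A) (k : ℤ) : Type := M.Z k ⧸ (M.Bd k).comap (M.Z k).subtype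

instance (M : DG A) (k : ℤ) : AddCommGroup (M.H k) :=
  inferInstanceAs (AddCommGroup (M.Z k ⧸ (M.Bd k).comap (M.Z k).subtype))

instance (M : DG A) (k : ℤ) : Module (A.obj 0) (M.H k) :=
  inferInstanceAs (Module (A.obj 0) (M.Z k ⧸ (M.Bd k).comap (M.Z k).subtype))

/-- The class of a cycle. -/
def cls (M : DG A) {k : ℤ} (x : M.V) (h : M.Cycle k x) : M.H k :=
  Submodule.Quotient.mk (⟨x, h⟩ : M.Z k)

theorem cls_surj {M : DG A} {k : ℤ} (ξ : M.H k) : ∃ x h, M.cls x h = ξ := by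
  obtain ⟨x, rfl⟩ := Submodule.Quotient.mk_surjective _ ξ
  exact ⟨x.1, x.2, rfl⟩

theorem cls_eq_iff {M : DG A} {k : ℤ} {x y : M.V} (hx : M.Cycle k x) (hy : M.Cycle k y) :
    M.cls x hx = M.cls y hy ↔ M.Bdry k (x - y) := Submodule.Quotient.eq _

theorem cls_eq_zero {M : DG A} {k : ℤ} {x : M.V} (hx : M.Cycle k x) :
    M.cls x hx = 0 ↔ M.Bdry k x := Submodule.Quotient.mk_eq_zero _

theorem cls_congr {M : DG A} {k : ℤ} {x y : M.V} (hx : M.Cycle k x) (hy : M.Cycle k y)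
    (e : x = y) : M.cls x hx = M.cls y hy := by subst e; rfl

theorem cls_add {M : DG A} {k : ℤ} {x y : M.V} (hx : M.Cycle k x) (hy : M.Cycle k y) :
    M.cls x hx + M.cls y hy = M.cls (x + y) ((M.Z k).add_mem hx hy) := rfl

theorem cls_sub {M : DG A} {k : ℤ} {x y : M.V} (hx : M.Cycle k x) (hy : M.Cycle k y) :
    M.cls x hx - M.cls y hy = M.cls (x - y) ((M.Z k).sub_mem hx hy) := rfl

theorem cls_smul {M : DG A} {k : ℤ} (a : A.obj 0) {x : M.V} (hx : M.Cycle k x) :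
    a • M.cls x hx = M.cls (N.inc a • x) ((M.Z k).smul_mem a hx) := rfl

theorem CMap.cycle {M : DG A} {M' : DG B} (g : CMap M M') {k : ℤ} {x : M.V} (h : M.Cycle k x) :
    M'.Cycle k (g.toFun x) := ⟨g.map_gr h.1, by rw [← g.map_d, h.2, map_zero]⟩

theorem CMap.bdry {M : DG A} {M' : DG B} (g : CMap M M') {k : ℤ} {x : M.V} (h : M.Bdry k x) :
    M'.Bdry k (g.toFun x) := by
  obtain ⟨y, hy, rfl⟩ := h
  exact ⟨g.toFun y, g.map_gr hy, (g.map_d y).symm⟩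

theorem Hom.cycle {φ : A ⟶ B} {M : DG A} {M' : DG B} (g : Hom φ M M') {k : ℤ} {x : M.V}
    (h : M.Cycle k x) : M'.Cycle k (g.toFun x) := g.cmap.cycle h

theorem Hom.bdry {φ : A ⟶ B} {M : DG A} {M' : DG B} (g : Hom φ M M') {k : ℤ} {x : M.V}
    (h : M.Bdry k x) : M'.Bdry k (g.toFun x) := g.cmap.bdry h

/-- The map on homology. -/
def CMap.H {M : DG A} {M' : DG B} (g : CMap M M') (k : ℤ) : M.H k →+ M'.H k :=
  QuotientAddGroup.map ((M.Bd k).comap (M.Z k).subtype).toAddSubgroup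
    ((M'.Bd k).comap (M'.Z k).subtype).toAddSubgroup
    ((g.toFun.comp (M.Z k).subtype.toAddMonoidHom).codRestrict (M'.Z k) fun x => g.cycle x.2)
    fun _ h => g.bdry h

theorem CMap.H_cls {M : DG A} {M' : DG B} (g : CMap M M') {k : ℤ} {x : M.V} (h : M.Cycle k x) :
    g.H k (M.cls x h) = M'.cls (g.toFun x) (g.cycle h) := rfl

/-- The map on homology. -/
def Hom.H {φ : A ⟶ B} {M : DG A} {M' : DG B} (g : Hom φ M M') (k : ℤ) : M.H k →+ M'.H k :=
  g.cmap.H k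

section
variable {φ : A ⟶ B} {M : DG A} {M' : DG B}

theorem Hom.H_cls (g : Hom φ M M') {k : ℤ} {x : M.V} (h : M.Cycle k x) :
    g.H k (M.cls x h) = M'.cls (g.toFun x) (g.cycle h) := rfl

theorem Hom.map_smul0 (g : Hom φ M M') (a : A.obj 0) (x : M.V) :
    g.toFun (N.inc a • x) = N.inc (φ.app 0 a) • g.toFun x := by
  rw [g.map_smul, N.map_inc]

theorem Hom.H_smul (g : Hom φ M M') {k : ℤ} (a : A.obj 0) (ξ : M.H k) :
    g.H k (a • ξ) = φ.app 0 a • g.H k ξ := by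
  obtain ⟨x, h, rfl⟩ := cls_surj ξ
  exact cls_congr _ _ (g.map_smul0 a x)

theorem Hom.H_lin (g : Hom φ M M') (k : ℤ) {K : Type} [CommRing K] (σ : K →+* A.obj 0) :
    Lin σ ((φ.app 0).comp σ) (g.H k) := fun a ξ => g.H_smul (σ a) ξ

/-- Two composable pairs of maps with the same composite agree on homology. -/
theorem H_comm {A' B' : SRing} {M₁ : DG A'} {M₂ : DG B'} {M₃ : DG C} (a : CMap M M₁)
    (b : CMap M₁ M₃) (c : CMap M M₂) (d : CMap M₂ M₃)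
    (e : ∀ x, b.toFun (a.toFun x) = d.toFun (c.toFun x)) (k : ℤ) (ξ : M.H k) :
    b.H k (a.H k ξ) = d.H k (c.H k ξ) := by
  obtain ⟨x, h, rfl⟩ := cls_surj ξ
  exact cls_congr _ _ (e x)

theorem H_comp {A' : SRing} {M₁ : DG A'} (a : CMap M M₁) (b : CMap M₁ M') (c : CMap M M')
    (e : ∀ x, b.toFun (a.toFun x) = c.toFun x) (k : ℤ) (ξ : M.H k) :
    b.H k (a.H k ξ) = c.H k ξ := by
  obtain ⟨x, h, rfl⟩ := cls_surj ξ
  exact cls_congr _ _ (e x)

theorem H_congr (a b : CMap M M') (e : ∀ x, a.toFun x = b.toFun x) (k : ℤ) (ξ : M.H k) :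
    a.H k ξ = b.H k ξ := by
  obtain ⟨x, h, rfl⟩ := cls_surj ξ
  exact cls_congr _ _ (e x)

theorem H_id (a : CMap M M) (e : ∀ x, a.toFun x = x) (k : ℤ) (ξ : M.H k) : a.H k ξ = ξ := by
  obtain ⟨x, h, rfl⟩ := cls_surj ξ
  exact cls_congr _ _ (e x)

theorem Hom.scale_apply (g : Hom φ M M') (c : B.obj 0) (x : M.V) :
    (g.scale c).toFun x = N.inc c • g.toFun x := rfl

theorem Hom.scale_H (g : Hom φ M M') (c : B.obj 0) (k : ℤ) (ξ : M.H k) :
    (g.scale c).H k ξ = c • g.H k ξ := by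
  obtain ⟨x, h, rfl⟩ := cls_surj ξ
  rfl

theorem Hom.qisoAway_iff (g : Hom φ M M') (f : A.obj 0) : g.QIsoAway f ↔
    ∀ k, LocIso (Submonoid.powers f) (RingHom.id _) (φ.app 0) (g.H k) := by
  refine forall_congr' fun k => ⟨fun h => ⟨fun η => ?_, fun ξ hξ => ?_⟩, fun h => ⟨?_, ?_⟩⟩
  · obtain ⟨y, hy, rfl⟩ := cls_surj η
    obtain ⟨n, x, hx, p⟩ := h.1 y hy
    refine ⟨f ^ n, ⟨n, rfl⟩, M.cls x hx, ?_⟩
    rw [g.H_cls, cls_smul, cls_eq_iff, map_pow]; exact p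
  · obtain ⟨x, hx, rfl⟩ := cls_surj ξ
    obtain ⟨n, p⟩ := h.2 x hx ((cls_eq_zero _).1 hξ)
    exact ⟨f ^ n, ⟨n, rfl⟩, (cls_eq_zero ((M.Z k).smul_mem _ hx)).2 p⟩
  · intro y hy
    obtain ⟨_, ⟨n, rfl⟩, ξ, p⟩ := h.surj (M'.cls y hy)
    obtain ⟨x, hx, rfl⟩ := cls_surj ξ
    rw [g.H_cls, cls_smul, cls_eq_iff, map_pow] at p
    exact ⟨n, x, hx, p⟩
  · intro x hx p
    obtain ⟨_, ⟨n, rfl⟩, q⟩ := h.inj (M.cls x hx) ((cls_eq_zero (g.cycle hx)).2 p)
    exact ⟨n, (cls_eq_zero ((M.Z k).smul_mem _ hx)).1 q⟩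

theorem Hom.qiso_iff (g : Hom φ M M') : g.QIsoAway 1 ↔ ∀ k, Function.Bijective (g.H k) := by
  rw [g.qisoAway_iff, Submonoid.powers_one]
  exact forall_congr' fun k => ⟨LocIso.bijective, LocIso.of_bijective⟩

theorem Hom.QIsoAway.of_dvd {g : Hom φ M M'} {f f' : A.obj 0} (h : g.QIsoAway f) (e : f ∣ f') :
    g.QIsoAway f' := by
  obtain ⟨c, rfl⟩ := e
  intro k
  refine ⟨fun y hy => ?_, fun x hx p => ?_⟩
  · obtain ⟨n, x, hx, p⟩ := (h k).1 y hy
    refine ⟨n, N.inc (c ^ n) • x, (M.Z k).smul_mem _ hx, ?_⟩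
    have := (M'.Bd k).smul_mem (φ.app 0 (c ^ n)) p
    rw [smul0, smul_sub, smul_smul, ← map_mul] at this
    rwa [g.map_smul0, map_mul, mul_pow, mul_comm, ← map_pow _ c]
  · obtain ⟨n, p⟩ := (h k).2 x hx p
    have := (M.Bd k).smul_mem (c ^ n) p
    rw [smul0, smul_smul, ← map_mul] at this
    exact ⟨n, by rwa [mul_pow, mul_comm]⟩

/-- A map that is bijective after inverting `f` is a quasi-isomorphism after inverting `f`. -/
theorem Hom.qisoAway_of_chain (g : Hom φ M M') (f : A.obj 0)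
    (hs : ∀ y, ∃ (n : ℕ) (x : M.V), g.toFun x = N.inc (φ.app 0 f ^ n) • y)
    (hi : ∀ x, g.toFun x = 0 → ∃ n : ℕ, N.inc (f ^ n) • x = 0) : g.QIsoAway f := by
  have hs' : ∀ k y, y ∈ M'.gr k →
      ∃ (n : ℕ) (x : M.V), x ∈ M.gr k ∧ g.toFun x = N.inc (φ.app 0 f ^ n) • y := by
    intro k y hy
    obtain ⟨n, x, p⟩ := hs y
    exact ⟨n, M.proj k x, M.proj_mem k x, by
      rw [g.map_proj, p, M'.proj_of_mem (M'.inc_smul_mem _ hy)]⟩
  intro k
  refine ⟨fun y hy => ?_, fun x hx ⟨y, hy, p⟩ => ?_⟩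
  · obtain ⟨n, x, hx, p⟩ := hs' k y hy.1
    obtain ⟨m, q⟩ := hi (M.d x) (by rw [g.map_d, p, M'.d_inc_smul, hy.2, smul_zero])
    refine ⟨m + n, N.inc (f ^ m) • x, ⟨M.inc_smul_mem _ hx, by rw [M.d_inc_smul, q]⟩, ?_⟩
    rw [g.map_smul0, p, smul_smul, ← map_mul, map_pow, ← pow_add, sub_self]
    exact (M'.Bd k).zero_mem
  · obtain ⟨n, w, hw, q⟩ := hs' _ y hy
    obtain ⟨m, r⟩ := hi (N.inc (f ^ n) • x - M.d w) (by
      rw [map_sub, g.map_smul0, g.map_d, q, M'.d_inc_smul, p, map_pow, sub_self])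
    refine ⟨m + n, N.inc (f ^ m) • w, M.inc_smul_mem _ hw, ?_⟩
    rw [smul_sub, sub_eq_zero, smul_smul, ← map_mul, ← pow_add] at r
    rw [M.d_inc_smul, r]

theorem Hom.qiso_of_bijective (g : Hom φ M M') (h : Function.Bijective g.toFun) :
    g.QIsoAway 1 :=
  g.qisoAway_of_chain 1 (fun y => let ⟨x, p⟩ := h.2 y; ⟨0, x, by simpa using p⟩)
    fun x hx => ⟨0, by simpa using h.1 (hx.trans (map_zero _).symm)⟩

/-- Boundaries of `A_0` act by zero on homology. -/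
theorem bdry_smul_H {a : A.obj 0} (ha : (unit A).Bdry 0 (N.inc a)) {k : ℤ} (ξ : M.H k) :
    a • ξ = 0 := by
  obtain ⟨x, hx, rfl⟩ := cls_surj ξ
  obtain ⟨b, hb, e⟩ := ha
  rw [cls_smul, cls_eq_zero]
  refine ⟨b • x, by simpa [add_comm] using M.smul_mem hb hx.1, ?_⟩
  rw [M.d_smul, hx.2, smul_zero, add_zero, ← e]

end

end DG

end Pool.Agent.P.MP_932208_ag.Ax
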