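import Pool.Agent.P.MP_932208_ag.Ax.LocR

/-!
Localisation of dg modules.
-/

namespace Pool.Agent.P.MP_932208_ag.Ax

open CategoryTheory

variable {B : SRing}

/-- Extension of a ring map to a localisation at a central element. -/
theorem LocM_ext_ring {R R' T : Type} [Ring R] [Ring R'] [Ring T] (τ : R →+* R') (ρ : R →+* T)
    (c : R) (hc : ∀ a, c * a = a * c) (hc' : ∀ x, τ c * x = x * τ c)
    (hs : ∀ x, ∃ (n : ℕ) (a : R), τ a = τ c ^ n * x)
    (hi : ∀ a, τ a = 0 → ∃ n : ℕ, c ^ n * a = 0) (hu : IsUnit (ρ c)) :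
    ∃ ρ' : R' →+* T, ∀ a, ρ' (τ a) = ρ a := by
  have key : ∀ x, ∃ t : T, ∀ (n : ℕ) (a : R), τ a = τ c ^ n * x → ρ a = ρ c ^ n * t := by
    intro x
    obtain ⟨n, a, h⟩ := hs x
    obtain ⟨w, hw⟩ := hu.pow n
    refine ⟨(w⁻¹ : Tˣ) * ρ a, fun n' a' h' => ?_⟩
    obtain ⟨m, hm⟩ := hi (c ^ n * a' - c ^ n' * a) (by
      rw [map_sub, map_mul, map_mul, map_pow, map_pow, h, h', ← mul_assoc, ← mul_assoc,
        ← pow_add, ← pow_add, add_comm, sub_self])
    have h1 := congrArg ρ hm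
    rw [map_mul, map_pow, map_zero, (hu.pow m).mul_right_eq_zero, map_sub, map_mul, map_mul,
      map_pow, map_pow, sub_eq_zero] at h1
    refine (hu.pow n).mul_left_cancel ?_
    rw [h1, ← mul_assoc, ← pow_add, add_comm, pow_add, mul_assoc, ← hw, Units.mul_inv_cancel_left]
  choose t ht using key
  have uniq : ∀ x s (n : ℕ) (a : R), τ a = τ c ^ n * x → ρ a = ρ c ^ n * s → t x = s :=
    fun x s n a h h' => (hu.pow n).mul_left_cancel ((ht x n a h).symm.trans h')
  have comm : ∀ x, Commute (ρ c) (t x) := by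
    intro x
    obtain ⟨n, a, h⟩ := hs x
    have h1 : ρ c * ρ a = ρ a * ρ c := by rw [← map_mul, hc, map_mul]
    rw [ht x n a h, ← mul_assoc, ← pow_succ', pow_succ, mul_assoc, mul_assoc] at h1
    exact (hu.pow n).mul_left_cancel h1
  have base : ∀ a, t (τ a) = ρ a := fun a => uniq _ _ 0 a (by simp) (by simp)
  refine ⟨⟨⟨⟨t, ?_⟩, fun x y => ?_⟩, ?_, fun x y => ?_⟩, base⟩
  · simpa using base 1
  · obtain ⟨n, a, h⟩ := hs x
    obtain ⟨m, b, h'⟩ := hs y
    refine uniq _ _ (n + m) (a * b) ?_ ?_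
    · have e : Commute (τ c) x := hc' x
      rw [map_mul, h, h', pow_add, mul_assoc, mul_assoc, ← mul_assoc x, ← (e.pow_left m).eq,
        mul_assoc]
    · rw [map_mul, ht x n a h, ht y m b h', pow_add, mul_assoc, mul_assoc, ← mul_assoc (t x),
        ← ((comm x).pow_left m).eq, mul_assoc]
  · simpa using base 0
  · obtain ⟨n, a, h⟩ := hs x
    obtain ⟨m, b, h'⟩ := hs y
    refine uniq _ _ (n + m) (c ^ m * a + c ^ n * b) ?_ ?_
    · rw [map_add, map_mul, map_mul, map_pow, map_pow, h, h', ← mul_assoc, ← mul_assoc,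
        ← pow_add, ← pow_add, add_comm m n, mul_add]
    · rw [map_add, map_mul, map_mul, map_pow, map_pow, ht x n a h, ht y m b h', ← mul_assoc,
        ← mul_assoc, ← pow_add, ← pow_add, add_comm m n, mul_add]

/-- The underlying module of the localisation. -/
def LocM_V (E : DG B) (f : B.obj 0) : Type := LocalizedModule (Submonoid.powers f) E.V

noncomputable instance (E : DG B) (f : B.obj 0) : AddCommGroup (LocM_V E f) :=
  inferInstanceAs (AddCommGroup (LocalizedModule (Submonoid.powers f) E.V))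

noncomputable instance (E : DG B) (f : B.obj 0) : Module (B.obj 0) (LocM_V E f) :=
  inferInstanceAs (Module (B.obj 0) (LocalizedModule (Submonoid.powers f) E.V))

/-- The map to the localisation. -/
noncomputable def LocM_mk (E : DG B) (f : B.obj 0) : E.V →ₗ[B.obj 0] LocM_V E f :=
  LocalizedModule.mkLinearMap (Submonoid.powers f) E.V

instance (E : DG B) (f : B.obj 0) : IsLocalizedModule (Submonoid.powers f) (LocM_mk E f) :=
  inferInstanceAs (IsLocalizedModule (Submonoid.powers f)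
    (LocalizedModule.mkLinearMap (Submonoid.powers f) E.V))

section
variable {E E' : DG B} {f : B.obj 0}

/-- Localisation of a linear map. -/
noncomputable def LocM_map (f : B.obj 0) (g : E.V →ₗ[B.obj 0] E'.V) :
    LocM_V E f →ₗ[B.obj 0] LocM_V E' f :=
  IsLocalizedModule.map (Submonoid.powers f) (LocM_mk E f) (LocM_mk E' f) g

theorem LocM_map_mk (g : E.V →ₗ[B.obj 0] E'.V) (m : E.V) :
    LocM_map f g (LocM_mk E f m) = LocM_mk E' f (g m) :=
  IsLocalizedModule.map_apply _ _ _ _ _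

theorem LocM_surj (v : LocM_V E f) : ∃ (n : ℕ) (m : E.V), f ^ n • v = LocM_mk E f m := by
  obtain ⟨⟨m, _, n, rfl⟩, h⟩ := IsLocalizedModule.surj (Submonoid.powers f) (LocM_mk E f) v
  exact ⟨n, m, h⟩

theorem LocM_inj {m : E.V} (h : LocM_mk E f m = 0) : ∃ n : ℕ, f ^ n • m = 0 := by
  obtain ⟨⟨_, n, rfl⟩, h⟩ := (IsLocalizedModule.eq_zero_iff (Submonoid.powers f) _).1 h
  exact ⟨n, h⟩

theorem LocM_cancel (n : ℕ) {v w : LocM_V E f} (h : f ^ n • v = f ^ n • w) : v = w :=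
  IsLocalizedModule.smul_injective (LocM_mk E f) (⟨f ^ n, n, rfl⟩ : Submonoid.powers f) h

theorem LocM_eq (g g' : LocM_V E f →ₗ[B.obj 0] LocM_V E' f)
    (h : ∀ m, g (LocM_mk E f m) = g' (LocM_mk E f m)) (v : LocM_V E f) : g v = g' v := by
  obtain ⟨n, m, e⟩ := LocM_surj v
  exact LocM_cancel n (by rw [← map_smul, ← map_smul, e, h])

/-- An additive map that commutes with the vertices is linear over them. -/
def LocM_lin (g : E.V →+ E'.V) (hg : ∀ (a : B.obj 0) x, g (N.inc a • x) = N.inc a • g x) :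
    E.V →ₗ[B.obj 0] E'.V := ⟨g, hg⟩

/-- Multiplication by a chain. -/
def LocM_sm (E : DG B) (a : N B) : E.V →ₗ[B.obj 0] E.V :=
  LocM_lin (DistribSMul.toAddMonoidHom E.V a) fun c x => by
    change a • N.inc c • x = N.inc c • a • x
    rw [smul_smul, smul_smul, N.inc_comm]

/-- The differential. -/
def LocM_d (E : DG B) : E.V →ₗ[B.obj 0] E.V := LocM_lin E.d E.d_inc_smul

/-- The projections. -/
noncomputable def LocM_pr (E : DG B) (k : ℤ) : E.V →ₗ[B.obj 0] E.V :=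
  LocM_lin (E.proj k) fun a x => by
    have := DG.proj_comm (M := E) (M' := E) (DistribSMul.toAddMonoidHom E.V (N.inc a)) 0
      (fun k x h => by simpa using E.inc_smul_mem a h) k x
    rw [add_zero] at this
    exact this.symm

/-- A map of dg modules as a linear map. -/
def LocM_hom (g : DG.Hom (𝟙 B) E E') : E.V →ₗ[B.obj 0] E'.V :=
  LocM_lin g.toFun fun a x => g.map_smul (N.inc a) x

/-- The action of `N B` on the localisation. -/
noncomputable def LocM_rho (E : DG B) (f : B.obj 0) :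
    N B →+* Module.End (B.obj 0) (LocM_V E f) where
  toFun a := LocM_map f (LocM_sm E a)
  map_one' := LinearMap.ext (LocM_eq _ _ fun m => by
    rw [LocM_map_mk]
    exact congrArg (LocM_mk E f) (one_smul _ m))
  map_mul' a b := LinearMap.ext (LocM_eq _ _ fun m => by
    rw [Module.End.mul_apply, LocM_map_mk, LocM_map_mk, LocM_map_mk]
    exact congrArg (LocM_mk E f) (mul_smul a b m))
  map_zero' := LinearMap.ext (LocM_eq _ _ fun m => by
    rw [LocM_map_mk, LinearMap.zero_apply, ← map_zero (LocM_mk E f)]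
    exact congrArg (LocM_mk E f) (zero_smul _ m))
  map_add' a b := LinearMap.ext (LocM_eq _ _ fun m => by
    rw [LinearMap.add_apply, LocM_map_mk, LocM_map_mk, LocM_map_mk, ← map_add]
    exact congrArg (LocM_mk E f) (add_smul a b m))

theorem LocM_rho_mk (a : N B) (m : E.V) :
    LocM_rho E f a (LocM_mk E f m) = LocM_mk E f (a • m) := LocM_map_mk _ _

theorem LocM_rho_inc (c : B.obj 0) :
    LocM_rho E f (N.inc c) = algebraMap (B.obj 0) (Module.End (B.obj 0) (LocM_V E f)) c :=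
  LinearMap.ext (LocM_eq _ _ fun m => by
    rw [LocM_rho_mk, Module.algebraMap_end_apply, ← map_smul]; rfl)

theorem LocM_exists (E : DG B) (f : B.obj 0) :
    ∃ ρ' : N (B.loc f) →+* Module.End (B.obj 0) (LocM_V E f),
      ∀ a, ρ' (N.map (B.toLoc f) a) = LocM_rho E f a := by
  refine LocM_ext_ring (N.map (B.toLoc f)) (LocM_rho E f) (N.inc f) (N.inc_comm f) ?_ ?_ ?_ ?_
  · intro x
    rw [N.map_inc, N.inc_comm]
  · intro x
    obtain ⟨n, a, h⟩ := N.loc_surj f x
    exact ⟨n, a, by rw [h, N.map_inc, map_pow]⟩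
  · intro a h
    obtain ⟨n, h⟩ := N.loc_inj f a h
    exact ⟨n, by rw [← h, map_pow]⟩
  · rw [LocM_rho_inc]
    exact IsLocalizedModule.map_units (LocM_mk E f) (⟨f, 1, pow_one f⟩ : Submonoid.powers f)

/-- The action of `N (B[1/f])` on the localisation. -/
noncomputable def LocM_rho' (E : DG B) (f : B.obj 0) :
    N (B.loc f) →+* Module.End (B.obj 0) (LocM_V E f) := (LocM_exists E f).choose

noncomputable instance LocM_mod (E : DG B) (f : B.obj 0) : Module (N (B.loc f)) (LocM_V E f) :=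
  Module.compHom (LocM_V E f) (LocM_rho' E f)

theorem LocM_smul_def (x : N (B.loc f)) (v : LocM_V E f) : x • v = LocM_rho' E f x v := rfl

theorem LocM_map_smul (a : N B) (v : LocM_V E f) :
    N.map (B.toLoc f) a • v = LocM_rho E f a v := by
  rw [LocM_smul_def, LocM_rho', (LocM_exists E f).choose_spec]

theorem LocM_smul_mk (a : N B) (m : E.V) :
    N.map (B.toLoc f) a • LocM_mk E f m = LocM_mk E f (a • m) := by
  rw [LocM_map_smul, LocM_rho_mk]

theorem LocM_inc_smul (c : B.obj 0) (v : LocM_V E f) :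
    N.inc ((B.toLoc f).app 0 c) • v = c • v := by
  rw [← N.map_inc, LocM_map_smul, LocM_rho_inc, Module.algebraMap_end_apply]

theorem LocM_pow_smul (n : ℕ) (x : N (B.loc f)) (v : LocM_V E f) :
    f ^ n • x • v = (N.inc ((B.toLoc f).app 0 f ^ n) * x) • v := by
  rw [mul_smul, ← map_pow, LocM_inc_smul]

theorem LocM_pr_mk (k : ℤ) (m : E.V) :
    LocM_map f (LocM_pr E k) (LocM_mk E f m) = LocM_mk E f (E.proj k m) := LocM_map_mk _ _

theorem LocM_d_mk (m : E.V) :
    LocM_map f (LocM_d E) (LocM_mk E f m) = LocM_mk E f (E.d m) := LocM_map_mk _ _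

theorem LocM_hom_mk (g : DG.Hom (𝟙 B) E E') (m : E.V) :
    LocM_map f (LocM_hom g) (LocM_mk E f m) = LocM_mk E' f (g.toFun m) := LocM_map_mk _ _

/-- The grading of the localisation. -/
noncomputable def LocM_gr (E : DG B) (f : B.obj 0) (k : ℤ) : AddSubgroup (LocM_V E f) :=
  (LocM_map f (LocM_pr E k)).toAddMonoidHom.eqLocus (AddMonoidHom.id _)

theorem LocM_mem_gr {k : ℤ} {v : LocM_V E f} :
    v ∈ LocM_gr E f k ↔ LocM_map f (LocM_pr E k) v = v := Iff.rfl

theorem LocM_mk_mem {k : ℤ} {m : E.V} (h : m ∈ E.gr k) : LocM_mk E f m ∈ LocM_gr E f k := by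
  rw [LocM_mem_gr, LocM_pr_mk, E.proj_of_mem h]

theorem LocM_mem_of_pow {k : ℤ} {v : LocM_V E f} (n : ℕ) (h : f ^ n • v ∈ LocM_gr E f k) :
    v ∈ LocM_gr E f k := by
  rw [LocM_mem_gr, map_smul] at h
  exact LocM_cancel n h

theorem LocM_surj_gr {k : ℤ} {v : LocM_V E f} (h : v ∈ LocM_gr E f k) :
    ∃ (n : ℕ) (m : E.V), m ∈ E.gr k ∧ f ^ n • v = LocM_mk E f m := by
  obtain ⟨n, m, e⟩ := LocM_surj v
  refine ⟨n, E.proj k m, E.proj_mem k m, ?_⟩
  rw [← LocM_pr_mk, ← e, map_smul, LocM_mem_gr.1 h]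

theorem LocM_internal (E : DG B) (f : B.obj 0) : DirectSum.IsInternal (LocM_gr E f) := by
  refine internal_of_proj _ (fun k => (LocM_map f (LocM_pr E k)).toAddMonoidHom)
    (fun k v => ?_) (fun k v h => h) (fun k l v h e => ?_) fun v => ?_
  · obtain ⟨n, m, e⟩ := LocM_surj v
    refine LocM_mem_of_pow n ?_
    rw [LinearMap.toAddMonoidHom_coe, ← map_smul, e, LocM_pr_mk]
    exact LocM_mk_mem (E.proj_mem k m)
  · obtain ⟨n, m, hm, e'⟩ := LocM_surj_gr h
    refine LocM_cancel n ?_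
    rw [LinearMap.toAddMonoidHom_coe, ← map_smul, e', LocM_pr_mk, E.proj_of_ne hm e, map_zero,
      smul_zero]
  · obtain ⟨n, m, e⟩ := LocM_surj v
    obtain ⟨S, -, hS⟩ := E.exists_sum_proj m
    refine ⟨S, LocM_cancel n ?_⟩
    rw [Finset.smul_sum, e, ← hS, map_sum]
    refine Finset.sum_congr rfl fun k _ => ?_
    rw [LinearMap.toAddMonoidHom_coe, ← map_smul, e, LocM_pr_mk]

theorem LocM_surj_deg {k : ℤ} {x : N (B.loc f)} (h : x ∈ N.deg (B.loc f) k) :
    ∃ (n : ℕ) (a : N B), a ∈ N.deg B k ∧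
      N.map (B.toLoc f) a = N.inc ((B.toLoc f).app 0 f ^ n) * x := by
  obtain ⟨n, a, e⟩ := N.loc_surj f x
  refine ⟨n, (DG.unit B).proj k a, (DG.unit B).proj_mem k a, ?_⟩
  have h1 := (DG.unitHom (B.toLoc f)).map_proj k a
  have h2 := (DG.unit (B.loc f)).proj_of_mem
    ((DG.unit (B.loc f)).inc_smul_mem ((B.toLoc f).app 0 f ^ n) h)
  exact h1.trans ((congrArg ((DG.unit (B.loc f)).proj k) e).trans h2)

theorem LocM_smul_mem {n k : ℤ} {x : N (B.loc f)} {v : LocM_V E f} (hx : x ∈ N.deg (B.loc f) n)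
    (hv : v ∈ LocM_gr E f k) : x • v ∈ LocM_gr E f (n + k) := by
  obtain ⟨i, a, ha, e⟩ := LocM_surj_deg hx
  obtain ⟨j, m, hm, e'⟩ := LocM_surj_gr hv
  refine LocM_mem_of_pow i (LocM_mem_of_pow j ?_)
  rw [LocM_pow_smul, ← e, LocM_map_smul, ← map_smul, e', LocM_rho_mk]
  exact LocM_mk_mem (E.smul_mem ha hm)

theorem LocM_d_mem {k : ℤ} {v : LocM_V E f} (hv : v ∈ LocM_gr E f (k + 1)) :
    LocM_map f (LocM_d E) v ∈ LocM_gr E f k := by
  obtain ⟨j, m, hm, e'⟩ := LocM_surj_gr hv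
  refine LocM_mem_of_pow j ?_
  rw [← map_smul, e', LocM_d_mk]
  exact LocM_mk_mem (E.d_mem hm)

theorem LocM_d_d (v : LocM_V E f) : LocM_map f (LocM_d E) (LocM_map f (LocM_d E) v) = 0 := by
  obtain ⟨j, m, e⟩ := LocM_surj v
  refine LocM_cancel j ?_
  rw [← map_smul, ← map_smul, e, LocM_d_mk, LocM_d_mk, E.d_d, map_zero, smul_zero]

theorem LocM_d_smul (x : N (B.loc f)) (v : LocM_V E f) :
    LocM_map f (LocM_d E) (x • v) = N.bd x • v + N.sg x • LocM_map f (LocM_d E) v := by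
  obtain ⟨i, a, e⟩ := N.loc_surj f x
  obtain ⟨j, m, e'⟩ := LocM_surj v
  have h1 : N.inc ((B.toLoc f).app 0 f ^ i) * N.bd x = N.map (B.toLoc f) (N.bd a) := by
    rw [N.map_bd, e, N.bd_mul, N.bd_inc, N.sg_inc, zero_mul, zero_add]
  have h2 : N.inc ((B.toLoc f).app 0 f ^ i) * N.sg x = N.map (B.toLoc f) (N.sg a) := by
    rw [N.map_sg, e, map_mul, N.sg_inc]
  refine LocM_cancel i (LocM_cancel j ?_)
  rw [← map_smul, smul_add, LocM_pow_smul, LocM_pow_smul, LocM_pow_smul, h1, h2, ← e,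
    LocM_map_smul, LocM_map_smul, LocM_map_smul, smul_add, ← map_smul, ← map_smul, ← map_smul,
    ← map_smul, ← map_smul, e', LocM_d_mk, LocM_rho_mk, LocM_rho_mk, LocM_rho_mk, LocM_d_mk,
    E.d_smul, map_add]

theorem LocM_hom_smul (g : DG.Hom (𝟙 B) E E') (x : N (B.loc f)) (v : LocM_V E f) :
    LocM_map f (LocM_hom g) (x • v) = x • LocM_map f (LocM_hom g) v := by
  obtain ⟨i, a, e⟩ := N.loc_surj f x
  obtain ⟨j, m, e'⟩ := LocM_surj v
  refine LocM_cancel i (LocM_cancel j ?_)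
  rw [← map_smul, LocM_pow_smul, LocM_pow_smul, ← e, LocM_map_smul, LocM_map_smul, ← map_smul,
    ← map_smul, ← map_smul, ← map_smul, e', LocM_hom_mk, LocM_rho_mk, LocM_rho_mk, LocM_hom_mk,
    g.map_smul, N.map_id]

end

/-- The localised dg module. -/
@[reducible] noncomputable def LocM_loc (E : DG B) (f : B.obj 0) : DG (B.loc f) where
  V := LocM_V E f
  gr := LocM_gr E f
  internal := LocM_internal E f
  d := (LocM_map f (LocM_d E)).toAddMonoidHom
  smul_mem := LocM_smul_mem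
  d_mem := LocM_d_mem
  d_d := LocM_d_d
  d_smul := LocM_d_smul

/-- The map to the localised dg module. -/
noncomputable def LocM_toLoc (E : DG B) (f : B.obj 0) : DG.Hom (B.toLoc f) E (LocM_loc E f) where
  toFun := (LocM_mk E f).toAddMonoidHom
  map_smul a x := (LocM_smul_mk a x).symm
  map_gr := LocM_mk_mem
  map_d x := (LocM_d_mk x).symm

/-- The localisation of a map of dg modules. -/
noncomputable def LocM_locHom {E E' : DG B} (g : DG.Hom (𝟙 B) E E') (f : B.obj 0) :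
    DG.Hom (𝟙 (B.loc f)) (LocM_loc E f) (LocM_loc E' f) where
  toFun := (LocM_map f (LocM_hom g)).toAddMonoidHom
  map_smul := LocM_hom_smul g
  map_gr {k v} h := by
    obtain ⟨j, m, hm, e⟩ := LocM_surj_gr h
    refine LocM_mem_of_pow j ?_
    rw [LinearMap.toAddMonoidHom_coe, ← map_smul, e, LocM_hom_mk]
    exact LocM_mk_mem (g.map_gr hm)
  map_d := LocM_eq (LocM_map f (LocM_hom g) ∘ₗ LocM_map f (LocM_d E))
    (LocM_map f (LocM_d E') ∘ₗ LocM_map f (LocM_hom g)) fun m => by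
      rw [LinearMap.comp_apply, LinearMap.comp_apply, LocM_d_mk, LocM_hom_mk, LocM_hom_mk,
        LocM_d_mk, g.map_d]

theorem LocM_ses {E₁ E₂ E₃ : DG B} {i : DG.Hom (𝟙 B) E₁ E₂} {p : DG.Hom (𝟙 B) E₂ E₃}
    (h : DG.ShortExact i p) (f : B.obj 0) :
    DG.ShortExact (LocM_locHom i f) (LocM_locHom p f) :=
  ⟨IsLocalizedModule.map_injective _ _ _ (LocM_hom i) h.1,
    IsLocalizedModule.map_exact _ _ _ _ (LocM_hom i) (LocM_hom p) h.2.1,
    IsLocalizedModule.map_surjective _ _ _ (LocM_hom p) h.2.2⟩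

theorem LocM_toLoc_qiso (E : DG B) (f : B.obj 0) : (LocM_toLoc E f).QIsoAway f := by
  refine (LocM_toLoc E f).qisoAway_of_chain f (fun v => ?_) fun m hm => LocM_inj hm
  obtain ⟨n, m, e⟩ := LocM_surj (E := E) (f := f) v
  refine ⟨n, m, e.symm.trans ?_⟩
  rw [← map_pow]
  exact (LocM_inc_smul _ _).symm

theorem LocM_unit_qiso (f : B.obj 0) : (DG.unitHom (B.toLoc f)).QIsoAway f :=
  (DG.unitHom (B.toLoc f)).qisoAway_of_chain f (N.loc_surj f) (N.loc_inj f)

theorem LocM_qiso_comp {B' : SRing} {φ : B ⟶ B'} {M M₁ : DG B} {M₂ : DG B'}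
    (a : DG.Hom (𝟙 B) M M₁) (b : DG.Hom φ M₁ M₂) {s : B.obj 0} (ha : a.QIsoAway s)
    (hb : b.QIsoAway s) : (a.comp b (Category.id_comp φ)).QIsoAway s := by
  rw [DG.Hom.qisoAway_iff] at ha hb ⊢
  intro k
  have e : (a.comp b (Category.id_comp φ)).H k = (b.H k).comp (a.H k) :=
    AddMonoidHom.ext fun ξ => (DG.H_comp a.cmap b.cmap _ (fun _ => rfl) k ξ).symm
  rw [e]
  exact LocIso.comp (fun c ξ => a.H_smul c ξ) (fun c ξ => b.H_smul c ξ) (ha k) (hb k)

theorem LocM_qiso_left {B' : SRing} {φ : B ⟶ B'} {M : DG B} {M₁ M₂ : DG B'}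
    (a : DG.Hom φ M M₁) (b : DG.Hom (𝟙 B') M₁ M₂) (c : DG.Hom φ M M₂)
    (e : ∀ x, b.toFun (a.toFun x) = c.toFun x) {s : B.obj 0} (ha : a.QIsoAway s)
    (hc : c.QIsoAway s) : b.QIsoAway (φ.app 0 s) := by
  rw [DG.Hom.qisoAway_iff] at ha hc ⊢
  intro k
  have e' : c.H k = (b.H k).comp (a.H k) :=
    AddMonoidHom.ext fun ξ => (DG.H_comp a.cmap b.cmap c.cmap e k ξ).symm
  have h := hc k
  rw [e'] at h
  rw [← Submonoid.map_powers, locIso_map_iff]
  exact LocIso.of_comp_left (fun c ξ => a.H_smul c ξ) (fun c ξ => b.H_smul (φ.app 0 c) ξ) (ha k) h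

theorem LocM_locHom_qiso {E E' : DG B} (g : DG.Hom (𝟙 B) E E') (f : B.obj 0) {f' : B.obj 0}
    (h : g.QIsoAway f') : (LocM_locHom g f).QIsoAway ((B.toLoc f).app 0 f') := by
  have h1 := LocM_qiso_left (LocM_toLoc E f) (LocM_locHom g f)
    (g.comp (LocM_toLoc E' f) (Category.id_comp _)) (fun x => LocM_hom_mk g x) (s := f * f')
    ((LocM_toLoc_qiso E f).of_dvd (dvd_mul_right _ _))
    (LocM_qiso_comp _ _ (h.of_dvd (dvd_mul_left _ _))
      ((LocM_toLoc_qiso E' f).of_dvd (dvd_mul_right _ _)))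
  refine h1.of_dvd ?_
  rw [map_mul]
  exact ((B.isUnit_toLoc f).mul_left_dvd).2 dvd_rfl

theorem LocM_cycle (f : B.obj 0) :
    (LocM_loc (DG.unit B) f).Cycle 0 ((LocM_toLoc (DG.unit B) f).toFun (N.inc 1)) :=
  (LocM_toLoc (DG.unit B) f).cycle (DG.cycle_inc 1)

/-- The comparison map for the free module. -/
noncomputable def LocM_span (f : B.obj 0) :
    DG.Hom (𝟙 (B.loc f)) (DG.unit (B.loc f)) (LocM_loc (DG.unit B) f) :=
  DG.toSpan _ _ (LocM_cycle f)

theorem LocM_span_map (f : B.obj 0) (a : N B) :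
    (LocM_span f).toFun (N.map (B.toLoc f) a) = (LocM_toLoc (DG.unit B) f).toFun a := by
  refine ((LocM_toLoc (DG.unit B) f).map_smul a (N.inc 1)).symm.trans ?_
  rw [map_one, smul_eq_mul, mul_one]

theorem LocM_span_qiso (f : B.obj 0) (s : (B.loc f).obj 0) : (LocM_span f).QIsoAway s :=
  (LocM_qiso_left (DG.unitHom (B.toLoc f)) (LocM_span f) (LocM_toLoc (DG.unit B) f)
    (LocM_span_map f) (LocM_unit_qiso f) (LocM_toLoc_qiso _ f)).of_dvd (B.isUnit_toLoc f).dvd

/-- Localisation of the source, as an arrow over the identity. -/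
@[reducible] noncomputable def LocM_F1 (f : B.obj 0) : ArrFun (𝟙 B) (𝟙 (B.loc f)) where
  obj a := ⟨LocM_loc a.src f, LocM_loc a.src f, DG.Hom.id _⟩
  map g := ⟨LocM_locHom g.s f, LocM_locHom g.s f, fun _ => rfl⟩
  ses h := ⟨LocM_ses h.1 f, LocM_ses h.1 f⟩

/-- The map from the source to its localisation. -/
@[reducible] noncomputable def LocM_F2 (f : B.obj 0) : ArrFun (𝟙 B) (B.toLoc f) where
  obj a := ⟨a.src, LocM_loc a.src f, LocM_toLoc a.src f⟩
  map g := ⟨g.s, LocM_locHom g.s f, fun x => LocM_hom_mk g.s x⟩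
  ses h := ⟨h.1, LocM_ses h.1 f⟩

/-- `E[1/f]` as a dg module over `N (B[1/f])`. -/
noncomputable def DG.loc (E : DG B) (f : B.obj 0) : DG (B.loc f) := LocM_loc E f

/-- The localisation map. -/
noncomputable def DG.toLoc (E : DG B) (f : B.obj 0) : DG.Hom (B.toLoc f) E (E.loc f) :=
  LocM_toLoc E f

theorem Arr.Cellular.loc {E : DG B} {f : B.obj 0} {l : ℤ}
    (h : Arr.Cellular (φ := 𝟙 B) f l ⟨E, E, DG.Hom.id E⟩) :
    Arr.Cellular (φ := 𝟙 (B.loc f)) 1 l ⟨E.loc f, E.loc f, DG.Hom.id _⟩ := by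
  have hu : Arr.Cellular 1 1 ((LocM_F1 f).obj (Arr.unit (𝟙 B))) :=
    .forward (a := Arr.unit (𝟙 (B.loc f))) ⟨LocM_span f, LocM_span f, fun _ => rfl⟩
      ⟨LocM_span_qiso f _, LocM_span_qiso f _⟩ .unit
  have key := Arr.Cellular.map (LocM_F1 f) (f := f) (f' := 1) (fun g hg =>
    have hq := (LocM_locHom_qiso g.s f hg.1).of_dvd (f' := 1) (B.isUnit_toLoc f).dvd
    ⟨hq, hq⟩) hu h
  rw [one_mul] at key
  exact key

theorem Arr.Cellular.toLoc {E : DG B} (f : B.obj 0) {f' : B.obj 0} {l : ℤ}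
    (h : Arr.Cellular (φ := 𝟙 B) f' l ⟨E, E, DG.Hom.id E⟩) :
    Arr.Cellular (φ := B.toLoc f) f' l ⟨E, E.loc f, E.toLoc f⟩ := by
  have hu : Arr.Cellular f' 1 ((LocM_F2 f).obj (Arr.unit (𝟙 B))) :=
    .forward (a := Arr.unit (B.toLoc f)) ⟨DG.Hom.id _, LocM_span f, LocM_span_map f⟩
      ⟨DG.Hom.qiso_id _ _, LocM_span_qiso f _⟩ .unit
  have key := Arr.Cellular.map (LocM_F2 f) (f := f') (f' := f')
    (fun g hg => ⟨hg.1, LocM_locHom_qiso g.s f hg.1⟩) hu h
  rw [one_mul] at key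
  exact key

attribute [irreducible] DG.loc DG.toLoc

end Pool.Agent.P.MP_932208_ag.Ax
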