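import Pool.Agent.P.MP_932208_ag.Ax.ModL

/-!
Levelwise localisation of a simplicial ring at a vertex.
-/

namespace Pool.Agent.P.MP_932208_ag.Ax

open CategoryTheory

variable {A B : SRing}

/-- The map of localisations induced by a ring map `g` with `g r = s`. -/
noncomputable def LocR_away {R S : Type} [CommRing R] [CommRing S] (g : R →+* S) {r : R} {s : S}
    (h : g r = s) : Localization.Away r →+* Localization.Away s :=
  IsLocalization.Away.lift r (g := (algebraMap S (Localization.Away s)).comp g)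
    (by rw [RingHom.comp_apply, h]; exact IsLocalization.Away.algebraMap_isUnit s)

theorem LocR_away_alg {R S : Type} [CommRing R] [CommRing S] (g : R →+* S) {r : R} {s : S}
    (h : g r = s) (x : R) :
    LocR_away g h (algebraMap R (Localization.Away r) x) =
      algebraMap S (Localization.Away s) (g x) :=
  IsLocalization.Away.lift_eq r _ x

theorem LocR_ext {R T : Type} [CommRing R] [CommRing T] {r : R}
    {j k : Localization.Away r →+* T}
    (h : ∀ x, j (algebraMap R (Localization.Away r) x) = k (algebraMap R (Localization.Away r) x))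
    (z : Localization.Away r) : j z = k z :=
  RingHom.congr_fun (IsLocalization.ringHom_ext (Submonoid.powers r) (RingHom.ext h)) z

theorem LocR_away_surj {R S : Type} [CommRing R] [CommRing S] (g : R →+* S) {r : R} {s : S}
    (h : g r = s) (hg : Function.Surjective g) : Function.Surjective (LocR_away g h) := by
  intro z
  obtain ⟨n, y, hy⟩ := IsLocalization.Away.surj s z
  obtain ⟨x, rfl⟩ := hg y
  refine ⟨algebraMap R _ x * IsLocalization.Away.invSelf r ^ n, ?_⟩
  have h1 : LocR_away g h (IsLocalization.Away.invSelf r) *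
      algebraMap S (Localization.Away s) s = 1 := by
    have := congrArg (LocR_away g h)
      (IsLocalization.Away.mul_invSelf (S := Localization.Away r) r)
    rwa [map_mul, map_one, LocR_away_alg, h, mul_comm] at this
  rw [map_mul, map_pow, LocR_away_alg, ← hy, mul_assoc, ← mul_pow, mul_comm (algebraMap _ _ s), h1,
    one_pow, mul_one]

/-- The degeneracy of a vertex. -/
def LocR_fv (A : SRing) (f : A.obj 0) (n : ℕ) : A.obj n := A.map (vert n 0) f

theorem LocR_map_fv (A : SRing) (f : A.obj 0) {k n : ℕ} (θ : Op k n) :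
    A.map θ (LocR_fv A f n) = LocR_fv A f k := A.map_comp _ _ f

theorem LocR_fv_zero (A : SRing) (f : A.obj 0) : LocR_fv A f 0 = f := by
  have : (vert 0 0 : Op 0 0) = OrderHom.id := by ext i; simp [vert]
  rw [LocR_fv, this, A.map_id]

theorem LocR_app_fv (φ : A ⟶ B) (f : A.obj 0) (n : ℕ) :
    φ.app n (LocR_fv A f n) = LocR_fv B (φ.app 0 f) n := φ.nat _ f

theorem LocR_loc_id (A : SRing) (f : A.obj 0) (n : ℕ) (x : Localization.Away (LocR_fv A f n)) :
    LocR_away (A.map OrderHom.id) (LocR_map_fv A f OrderHom.id) x = x :=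
  LocR_ext (k := RingHom.id _) (fun y => by rw [LocR_away_alg, A.map_id]; rfl) x

theorem LocR_loc_comp (A : SRing) (f : A.obj 0) {l k n : ℕ} (θ : Op k n) (η : Op l k)
    (x : Localization.Away (LocR_fv A f n)) :
    LocR_away (A.map η) (LocR_map_fv A f η) (LocR_away (A.map θ) (LocR_map_fv A f θ) x) =
      LocR_away (A.map (θ.comp η)) (LocR_map_fv A f (θ.comp η)) x :=
  LocR_ext (j := (LocR_away (A.map η) (LocR_map_fv A f η)).comp
    (LocR_away (A.map θ) (LocR_map_fv A f θ)))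
    (fun y => by rw [RingHom.comp_apply, LocR_away_alg, LocR_away_alg, LocR_away_alg, A.map_comp]) x

/-- `A[1/f]`, levelwise `Localization.Away (A.map (vert n 0) f)`. -/
noncomputable def SRing.loc (A : SRing) (f : A.obj 0) : SRing where
  obj n := Localization.Away (LocR_fv A f n)
  map θ := LocR_away (A.map θ) (LocR_map_fv A f θ)
  map_id := LocR_loc_id A f
  map_comp := LocR_loc_comp A f

/-- The localisation map. -/
noncomputable def SRing.toLoc (A : SRing) (f : A.obj 0) : A ⟶ A.loc f where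
  app n := algebraMap (A.obj n) (Localization.Away (LocR_fv A f n))
  nat θ x := (LocR_away_alg (A.map θ) (LocR_map_fv A f θ) x).symm

theorem LocR_isUnit (A : SRing) (f : A.obj 0) (n : ℕ) :
    IsUnit ((A.toLoc f).app n (LocR_fv A f n)) :=
  IsLocalization.Away.algebraMap_isUnit (S := Localization.Away (LocR_fv A f n)) (LocR_fv A f n)

theorem SRing.isUnit_toLoc (A : SRing) (f : A.obj 0) : IsUnit ((A.toLoc f).app 0 f) := by
  have := LocR_isUnit A f 0
  rwa [LocR_fv_zero] at this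

theorem LocR_locMap_nat (φ : A ⟶ B) (f : A.obj 0) {k n : ℕ} (θ : Op k n)
    (x : Localization.Away (LocR_fv A f n)) :
    LocR_away (φ.app k) (LocR_app_fv φ f k) (LocR_away (A.map θ) (LocR_map_fv A f θ) x) =
      LocR_away (B.map θ) (LocR_map_fv B (φ.app 0 f) θ)
        (LocR_away (φ.app n) (LocR_app_fv φ f n) x) :=
  LocR_ext (j := (LocR_away (φ.app k) (LocR_app_fv φ f k)).comp
    (LocR_away (A.map θ) (LocR_map_fv A f θ)))
    (k := (LocR_away (B.map θ) (LocR_map_fv B (φ.app 0 f) θ)).comp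
      (LocR_away (φ.app n) (LocR_app_fv φ f n)))
    (fun y => by
      rw [RingHom.comp_apply, RingHom.comp_apply, LocR_away_alg, LocR_away_alg, LocR_away_alg,
        LocR_away_alg, φ.nat]) x

/-- Functoriality of the localisation. -/
noncomputable def SRing.locMap (φ : A ⟶ B) (f : A.obj 0) : A.loc f ⟶ B.loc (φ.app 0 f) where
  app n := LocR_away (φ.app n) (LocR_app_fv φ f n)
  nat := LocR_locMap_nat φ f

theorem SRing.toLoc_locMap (φ : A ⟶ B) (f : A.obj 0) :
    A.toLoc f ≫ SRing.locMap φ f = φ ≫ B.toLoc (φ.app 0 f) :=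
  SRing.hom_ext fun n x => LocR_away_alg (φ.app n) (LocR_app_fv φ f n) x

theorem SRing.locMap_surjective (φ : A ⟶ B) (f : A.obj 0)
    (h : ∀ n, Function.Surjective (φ.app n)) (n : ℕ) :
    Function.Surjective ((SRing.locMap φ f).app n) :=
  LocR_away_surj (φ.app n) (LocR_app_fv φ f n) (h n)

theorem LocR_surj (f : A.obj 0) (n : ℕ) (z : (A.loc f).obj n) :
    ∃ (m : ℕ) (y : A.obj n), (A.toLoc f).app n y = (A.toLoc f).app n (LocR_fv A f n) ^ m * z := by
  obtain ⟨m, y, hy⟩ :=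
    IsLocalization.Away.surj (S := Localization.Away (LocR_fv A f n)) (LocR_fv A f n) z
  exact ⟨m, y, hy.symm.trans (mul_comm _ _)⟩

theorem LocR_inj (f : A.obj 0) (n : ℕ) (y : A.obj n) (h : (A.toLoc f).app n y = 0) :
    ∃ m : ℕ, LocR_fv A f n ^ m * y = 0 := by
  obtain ⟨⟨_, m, rfl⟩, hm⟩ := (IsLocalization.map_eq_zero_iff (Submonoid.powers (LocR_fv A f n))
    (Localization.Away (LocR_fv A f n)) y).1 h
  exact ⟨m, hm⟩

theorem LocR_unif {ι : Type} (s : Finset ι) (P : ι → ℕ → Prop)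
    (mono : ∀ i e e', e ≤ e' → P i e → P i e') (h : ∀ i, ∃ e, P i e) : ∃ E, ∀ i ∈ s, P i E := by
  choose e he using h
  exact ⟨s.sup e, fun i hi => mono i _ _ (Finset.le_sup hi) (he i)⟩

theorem LocR_kill {R : Type} [CommRing R] {r y : R} {e e' : ℕ} (h : e ≤ e') (hy : r ^ e * y = 0) :
    r ^ e' * y = 0 := by
  obtain ⟨d, rfl⟩ := Nat.exists_eq_add_of_le h
  rw [add_comm, pow_add, mul_assoc, hy, mul_zero]

theorem N.loc_surj (f : A.obj 0) (x : N (A.loc f)) :
    ∃ (n : ℕ) (a : N A), N.map (A.toLoc f) a = N.inc ((A.toLoc f).app 0 f ^ n) * x := by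
  obtain ⟨b, hb⟩ := x.2.2
  obtain ⟨M, hM⟩ := LocR_unif (Finset.range b) (fun n m => ∃ y : A.obj n,
      (A.toLoc f).app n y = (A.toLoc f).app n (LocR_fv A f n) ^ m * x.1 n)
    (fun n e e' h ⟨y, hy⟩ => by
      obtain ⟨d, rfl⟩ := Nat.exists_eq_add_of_le h
      exact ⟨LocR_fv A f n ^ d * y, by rw [map_mul, map_pow, hy, add_comm, pow_add, mul_assoc]⟩)
    fun n => LocR_surj f n (x.1 n)
  have hex : ∀ n, ∃ y : A.obj n,
      (A.toLoc f).app n y = (A.toLoc f).app n (LocR_fv A f n) ^ M * x.1 n ∧ (b ≤ n → y = 0) := by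
    intro n
    by_cases hn : n < b
    · obtain ⟨y, hy⟩ := hM n (Finset.mem_range.2 hn)
      exact ⟨y, hy, fun h => absurd hn (not_lt.2 h)⟩
    · exact ⟨0, by rw [hb n (not_lt.1 hn), map_zero, mul_zero], fun _ => rfl⟩
  choose y hy hy0 using hex
  obtain ⟨E, hE⟩ := LocR_unif (Finset.range b) (fun n e => ∀ i : Fin (n + 1),
      LocR_fv A f n ^ e * A.map (face i.succ) (y (n + 1)) = 0)
    (fun n e e' h H i => LocR_kill h (H i)) fun n => by
      obtain ⟨E, hE⟩ := LocR_unif Finset.univ (fun (i : Fin (n + 1)) e =>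
          LocR_fv A f n ^ e * A.map (face i.succ) (y (n + 1)) = 0)
        (fun i e e' h H => LocR_kill h H) fun i => LocR_inj f n _ (by
          rw [(A.toLoc f).nat, hy, map_mul, x.2.1 n i, mul_zero])
      exact ⟨E, fun i => hE i (Finset.mem_univ i)⟩
  refine ⟨E + M, ⟨fun n => LocR_fv A f n ^ E * y n, fun n i => ?_, b, fun n hn => ?_⟩,
    N.ext' fun n => ?_⟩
  · change A.map _ (LocR_fv A f (n + 1) ^ E * y (n + 1)) = 0
    rw [map_mul, map_pow, LocR_map_fv]
    by_cases hn : n < b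
    · exact hE n (Finset.mem_range.2 hn) i
    · rw [hy0 (n + 1) (by omega), map_zero, mul_zero]
  · change LocR_fv A f n ^ E * y n = 0
    rw [hy0 n hn, mul_zero]
  · rw [N.inc_mul_apply, map_pow, ← (A.toLoc f).nat]
    change (A.toLoc f).app n (LocR_fv A f n ^ E * y n) =
      (A.toLoc f).app n (LocR_fv A f n) ^ (E + M) * x.1 n
    rw [map_mul, map_pow, hy, pow_add, mul_assoc]

theorem N.loc_inj (f : A.obj 0) (a : N A) (h : N.map (A.toLoc f) a = 0) :
    ∃ n : ℕ, N.inc (f ^ n) * a = 0 := by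
  obtain ⟨b, hb⟩ := a.2.2
  obtain ⟨E, hE⟩ := LocR_unif (Finset.range b) (fun n e => LocR_fv A f n ^ e * a.1 n = 0)
    (fun n e e' h H => LocR_kill h H) fun n =>
      LocR_inj f n _ (congrArg (fun z : N (A.loc f) => z.1 n) h)
  refine ⟨E, N.ext' fun n => ?_⟩
  rw [N.inc_mul_apply, map_pow]
  change LocR_fv A f n ^ E * a.1 n = 0
  by_cases hn : n < b
  · exact hE n (Finset.mem_range.2 hn)
  · rw [hb n (not_lt.1 hn), mul_zero]

theorem LocR_inc_mem (c : A.obj 0) {k : ℤ} {x : N A} (hx : x ∈ N.deg A k) :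
    N.inc c * x ∈ N.deg A k := (DG.unit A).inc_smul_mem c hx

theorem LocR_bd_inc (c : A.obj 0) (x : N A) : N.bd (N.inc c * x) = N.inc c * N.bd x :=
  (DG.unit A).d_inc_smul c x

theorem LocR_inc_inc (c d : A.obj 0) (x : N A) :
    N.inc c * (N.inc d * x) = N.inc (c * d) * x := by
  rw [map_mul, mul_assoc]

theorem LocR_map_inc (φ : A ⟶ B) (c : A.obj 0) (x : N A) :
    N.map φ (N.inc c * x) = N.inc (φ.app 0 c) * N.map φ x := by
  rw [map_mul, N.map_inc]

theorem LocR_killN {f : A.obj 0} {x : N A} {e e' : ℕ} (h : e ≤ e')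
    (hx : N.inc (f ^ e) * x = 0) : N.inc (f ^ e') * x = 0 := by
  obtain ⟨d, rfl⟩ := Nat.exists_eq_add_of_le h
  rw [add_comm, pow_add, ← LocR_inc_inc, hx, mul_zero]

theorem LocR_surj_deg (f : A.obj 0) {k : ℤ} {x : N (A.loc f)} (hx : x ∈ N.deg (A.loc f) k) :
    ∃ (n : ℕ) (a : N A), a ∈ N.deg A k ∧
      N.map (A.toLoc f) a = N.inc ((A.toLoc f).app 0 f ^ n) * x := by
  obtain ⟨n, a, ha⟩ := N.loc_surj f x
  refine ⟨n, (DG.unit A).proj k a, (DG.unit A).proj_mem k a, ?_⟩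
  have h1 := (DG.unitHom (A.toLoc f)).map_proj k a
  change N.map (A.toLoc f) _ = (DG.unit (A.loc f)).proj k (N.map (A.toLoc f) a) at h1
  rw [h1, ha]
  exact (DG.unit (A.loc f)).proj_of_mem (LocR_inc_mem _ hx)

theorem LocR_sq (φ : A ⟶ B) (f : A.obj 0) (a : N A) :
    N.map (SRing.locMap φ f) (N.map (A.toLoc f) a) =
      N.map (B.toLoc (φ.app 0 f)) (N.map φ a) := by
  rw [N.map_map, N.map_map, SRing.toLoc_locMap]

theorem LocR_inv (f : A.obj 0) (n : ℕ) : ∃ v : (A.loc f).obj 0, ∀ x : N (A.loc f),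
    N.inc v * (N.inc ((A.toLoc f).app 0 f ^ n) * x) = x := by
  obtain ⟨v, hv⟩ := ((A.isUnit_toLoc f).pow n).exists_left_inv
  exact ⟨v, fun x => by rw [LocR_inc_inc, hv, map_one, one_mul]⟩

theorem KerGen.loc {φ : A ⟶ B} {ν : A.obj 0} (h : KerGen (DG.unitHom φ) ν) (f : A.obj 0) :
    KerGen (DG.unitHom (SRing.locMap φ f)) ((A.toLoc f).app 0 ν) := by
  obtain ⟨h0, h⟩ := kerGen_iff'.1 h
  change N.map φ (N.inc ν) = 0 at h0
  refine kerGen_iff'.2 ⟨?_, fun k => ⟨fun x hx hφ => ?_, fun a' b' ha' hb' hφ e => ?_⟩⟩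
  · change N.map (SRing.locMap φ f) _ = 0
    rw [← N.map_inc, LocR_sq, h0, map_zero]
  · change N.map (SRing.locMap φ f) x = 0 at hφ
    have hx2 : N.bd x = 0 := hx.2
    obtain ⟨n, a, ha, e⟩ := LocR_surj_deg f hx.1
    obtain ⟨m₁, h₁⟩ := N.loc_inj f (N.bd a) (by rw [N.map_bd, e, LocR_bd_inc, hx2, mul_zero])
    obtain ⟨m₂, h₂⟩ := N.loc_inj (φ.app 0 f) (N.map φ a)
      (by rw [← LocR_sq, e, map_mul, hφ, mul_zero])
    obtain ⟨c, b, hc, hb, hφb, e'⟩ := (h k).1 (N.inc (f ^ (m₁ + m₂)) * a)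
      ⟨LocR_inc_mem _ ha, (LocR_bd_inc _ a).trans (LocR_killN (Nat.le_add_right _ _) h₁)⟩
      (by
        change N.map φ _ = 0
        rw [LocR_map_inc, map_pow]
        exact LocR_killN (Nat.le_add_left _ _) h₂)
    change N.map φ b = 0 at hφb
    have hc2 : N.bd c = 0 := hc.2
    obtain ⟨v, hv⟩ := LocR_inv f (m₁ + m₂ + n)
    refine ⟨N.inc v * N.map (A.toLoc f) c, N.inc v * N.map (A.toLoc f) b,
      ⟨LocR_inc_mem _ (N.Hg.map _ hc.1), ?_⟩, LocR_inc_mem _ (N.Hg.map _ hb), ?_, ?_⟩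
    · change N.bd _ = 0
      rw [LocR_bd_inc, ← N.map_bd, hc2, map_zero, mul_zero]
    · change N.map (SRing.locMap φ f) _ = 0
      rw [map_mul, LocR_sq, hφb, map_zero, mul_zero]
    · have e2 := congrArg (N.map (A.toLoc f)) e'
      rw [LocR_map_inc, e, LocR_inc_inc, map_pow, ← pow_add, map_add, map_mul, N.map_inc,
        N.map_bd] at e2
      rw [LocR_bd_inc, mul_assoc, ← mul_add, ← e2, hv]
  · change N.map (SRing.locMap φ f) b' = 0 at hφ
    have ha2 : N.bd a' = 0 := ha'.2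
    obtain ⟨n, a, ha, ea⟩ := LocR_surj_deg f ha'.1
    obtain ⟨m, b, hb, eb⟩ := LocR_surj_deg f hb'
    have ea₁ : N.map (A.toLoc f) (N.inc (f ^ m) * a) =
        N.inc ((A.toLoc f).app 0 f ^ (m + n)) * a' := by
      rw [LocR_map_inc, ea, LocR_inc_inc, map_pow, ← pow_add]
    have eb₁ : N.map (A.toLoc f) (N.inc (f ^ n) * b) =
        N.inc ((A.toLoc f).app 0 f ^ (m + n)) * b' := by
      rw [LocR_map_inc, eb, LocR_inc_inc, map_pow, ← pow_add, add_comm]
    have ha₁ := LocR_inc_mem (f ^ m) ha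
    have hb₁ := LocR_inc_mem (f ^ n) hb
    generalize N.inc (f ^ m) * a = a₁ at ea₁ ha₁
    generalize N.inc (f ^ n) * b = b₁ at eb₁ hb₁
    obtain ⟨m₁, h₁⟩ := N.loc_inj f (N.bd a₁) (by rw [N.map_bd, ea₁, LocR_bd_inc, ha2, mul_zero])
    obtain ⟨m₂, h₂⟩ := N.loc_inj (φ.app 0 f) (N.map φ b₁)
      (by rw [← LocR_sq, eb₁, map_mul, hφ, mul_zero])
    obtain ⟨m₃, h₃⟩ := N.loc_inj f (a₁ * N.inc ν - N.bd b₁) (by
      rw [map_sub, map_mul, N.map_bd, N.map_inc, ea₁, eb₁, LocR_bd_inc, mul_assoc, e, sub_self])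
    obtain ⟨c, hc, ec⟩ := (h k).2 (N.inc (f ^ (m₁ + m₂ + m₃)) * a₁)
      (N.inc (f ^ (m₁ + m₂ + m₃)) * b₁)
      ⟨LocR_inc_mem _ ha₁, (LocR_bd_inc _ a₁).trans (LocR_killN (by omega) h₁)⟩
      (LocR_inc_mem _ hb₁)
      (by
        change N.map φ _ = 0
        rw [LocR_map_inc, map_pow]
        exact LocR_killN (by omega) h₂)
      (by
        rw [LocR_bd_inc, mul_assoc, ← sub_eq_zero, ← mul_sub]
        exact LocR_killN (by omega) h₃)
    change N.bd c = _ at ec
    obtain ⟨v, hv⟩ := LocR_inv f (m₁ + m₂ + m₃ + (m + n))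
    refine ⟨N.inc v * N.map (A.toLoc f) c, LocR_inc_mem _ (N.Hg.map _ hc), ?_⟩
    change N.bd _ = a'
    rw [LocR_bd_inc, ← N.map_bd, ec, LocR_map_inc, ea₁, LocR_inc_inc ((A.toLoc f).app 0 _),
      map_pow, ← pow_add, hv]

theorem SRing.exists_prime_loc (f : A.obj 0) (p : Ideal (A.obj 0)) [p.IsPrime]
    (hb : ∀ b ∈ A.bdry, b ∈ p) (hf : f ∉ p) :
    ∃ q : Ideal ((A.loc f).obj 0), q.IsPrime ∧ (∀ b ∈ (A.loc f).bdry, b ∈ q) ∧
      ∀ a, (A.toLoc f).app 0 a ∈ q ↔ a ∈ p := by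
  have hd : Disjoint (Submonoid.powers (LocR_fv A f 0) : Set (A.obj 0)) (p : Set (A.obj 0)) := by
    rw [LocR_fv_zero, Set.disjoint_left]
    rintro _ ⟨n, rfl⟩ hn
    exact hf (Ideal.IsPrime.mem_of_pow_mem inferInstance n hn)
  refine ⟨Ideal.map ((A.toLoc f).app 0) p,
    IsLocalization.isPrime_of_isPrime_disjoint (Submonoid.powers (LocR_fv A f 0))
      (Localization.Away (LocR_fv A f 0)) p inferInstance hd, fun b hb' => ?_, fun a => ?_⟩
  · obtain ⟨y, hy, e⟩ := hb'
    change N.bd y = N.inc b at e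
    obtain ⟨n, a, ha, ea⟩ := LocR_surj_deg f hy
    have h0 : N.bd a = N.inc ((N.bd a).1 0) := N.ext' fun m => by
      cases m with
      | zero => rfl
      | succ m => exact N.Hg.bd ha (m + 1) (by omega)
    have h1 : (N.bd a).1 0 ∈ p := hb _ ⟨a, ha, h0⟩
    have h2 : (A.toLoc f).app 0 ((N.bd a).1 0) = (A.toLoc f).app 0 f ^ n * b := by
      have h3 : N.map (A.toLoc f) (N.bd a) = N.inc ((A.toLoc f).app 0 f ^ n * b) := by
        rw [N.map_bd, ea, LocR_bd_inc, e, ← map_mul]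
      exact congrArg (fun z : N (A.loc f) => z.1 0) h3
    have h4 := Ideal.mem_map_of_mem ((A.toLoc f).app 0) h1
    rw [h2] at h4
    exact (Ideal.unit_mul_mem_iff_mem _ ((A.isUnit_toLoc f).pow n)).1 h4
  · have h1 := IsLocalization.under_map_of_isPrime_disjoint (Submonoid.powers (LocR_fv A f 0))
      (Localization.Away (LocR_fv A f 0)) (I := p) inferInstance hd
    exact Iff.of_eq (congrArg (fun I : Ideal (A.obj 0) => a ∈ I) h1)

attribute [irreducible] SRing.loc SRing.toLoc SRing.locMap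

end Pool.Agent.P.MP_932208_ag.Ax
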