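import Pool.Agent.P.MP_932208_ag.Ax.WtB

/-!
Comparison of weight spaces under base change.
-/

namespace Pool.Agent.P.MP_932208_ag.Ax

open CategoryTheory SimplexCategory

variable {A : SRing} {R R' : SimplexCategory ⥤ SRing}

namespace Mon
variable {m : Mon A R}

theorem WtC_laur_unit (m : Mon A R) : m.Laur (Mod.unit R) := m.laur

/-- The weight zero component of `∑ t a • ι (f a)` is `ι (f 0)`. -/
theorem WtC_pr_dec (k : ℤ) (f : ℤ →₀ (DG.unit A).H k) :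
    (WtC_laur_unit m).pr 0 k ((Finsupp.liftAddHom fun a : ℤ =>
      ((DG.unitHom (m.ι (.mk 0))).scale (m.t a)).H k :
        (ℤ →₀ (DG.unit A).H k) →+ (DG.unit (R.obj (.mk 0))).H k) f) =
      (DG.unitHom (m.ι (.mk 0))).H k (f 0) := by
  induction f using Finsupp.induction_linear with
  | zero => simp only [map_zero, Finsupp.coe_zero, Pi.zero_apply]
  | add f g hf hg => simp only [map_add, Finsupp.coe_add, Pi.add_apply, hf, hg]
  | single a β =>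
    rw [Finsupp.liftAddHom_apply_single, DG.Hom.scale_H]
    have hmem := m.t_smul_mem (m.ι_mem k β) a
    by_cases e : a = 0
    · subst e
      rw [Finsupp.single_eq_same, m.t_zero, one_smul]
      exact (WtC_laur_unit m).pr_of_mem (m.ι_mem k β)
    · rw [Finsupp.single_eq_of_ne (Ne.symm e), map_zero]
      exact (WtC_laur_unit m).pr_of_ne hmem (by omega)

theorem WtC_exists_pr (k : ℤ) (ρ : (DG.unit (R.obj (.mk 0))).H k) :
    ∃ α : (DG.unit A).H k, (WtC_laur_unit m).pr 0 k ρ = (DG.unitHom (m.ι (.mk 0))).H k α := by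
  obtain ⟨f, rfl⟩ := (m.dec k).2 ρ
  exact ⟨f 0, WtC_pr_dec k f⟩

theorem WtC_ι_inj (m : Mon A R) {k : ℤ} {α : (DG.unit A).H k}
    (e : (DG.unitHom (m.ι (.mk 0))).H k α = 0) : α = 0 := by
  have h := (m.dec k).1 (a₁ := Finsupp.single 0 α) (a₂ := 0) (by
    rw [Finsupp.liftAddHom_apply_single, DG.Hom.scale_H, e, smul_zero, map_zero])
  exact Finsupp.single_eq_zero.1 h

/-- A homogeneous generator identifies `H(A)` with its weight space, after inverting `S`. -/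
theorem Laur.gen_surj {M : Mod R} (h : m.Laur M) {S : Submonoid (A.obj 0)} {w : ℤ}
    {ε : (M.obj (.mk 0)).H 0} (hε : ε ∈ m.W M w 0) (hg : (M.obj (.mk 0)).Gen S m.σ ε) {k : ℤ}
    {ξ : (M.obj (.mk 0)).H k} (hξ : ξ ∈ m.W M w k) : ∃ s ∈ S, ∃ α : (DG.unit A).H k,
      (M.obj (.mk 0)).act k ε ((DG.unitHom (m.ι (.mk 0))).H k α) = m.σ s • ξ := by
  obtain ⟨s, hs, ρ, e⟩ := (hg k).surj ξ
  obtain ⟨α, hα⟩ := WtC_exists_pr (m := m) k ρ
  refine ⟨s, hs, α, ?_⟩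
  have h₁ := h.pr_act hε 0 k ρ
  rw [zero_add, e, h.pr_of_mem (m.σ_smul_mem hξ s)] at h₁
  rw [h₁, ← hα]

theorem gen_inj {M : Mod R} {S : Submonoid (A.obj 0)} {ε : (M.obj (.mk 0)).H 0}
    (hg : (M.obj (.mk 0)).Gen S m.σ ε) {k : ℤ} {α : (DG.unit A).H k}
    (e : (M.obj (.mk 0)).act k ε ((DG.unitHom (m.ι (.mk 0))).H k α) = 0) :
    ∃ s ∈ S, s • α = 0 := by
  obtain ⟨s, hs, p⟩ := (hg k).inj _ e
  refine ⟨s, hs, WtC_ι_inj m ?_⟩
  rw [DG.Hom.H_smul]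
  exact p

theorem WtC_σ_eq {m' : Mon A R'} {η : R ⟶ R'}
    (hι : m.ι (.mk 0) ≫ η.app (.mk 0) = m'.ι (.mk 0)) :
    ((η.app (.mk 0)).app 0).comp m.σ = m'.σ := by
  ext a
  change (m.ι (.mk 0) ≫ η.app (.mk 0)).app 0 a = (m'.ι (.mk 0)).app 0 a
  rw [hι]

theorem WtC_H_ι {m' : Mon A R'} {η : R ⟶ R'}
    (hι : m.ι (.mk 0) ≫ η.app (.mk 0) = m'.ι (.mk 0)) (k : ℤ) (α : (DG.unit A).H k) :
    (DG.unitHom (η.app (.mk 0))).H k ((DG.unitHom (m.ι (.mk 0))).H k α) =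
      (DG.unitHom (m'.ι (.mk 0))).H k α := by
  refine DG.H_comp _ _ _ (fun x => ?_) k α
  change N.map (η.app (.mk 0)) (N.map (m.ι (.mk 0)) x) = N.map (m'.ι (.mk 0)) x
  rw [N.map_map, hι]

theorem WtC_locIso {η : R ⟶ R'} {M : Mod R} {M' : Mod R'} (g : Mod.Hom η M M')
    (hg : (g.app (.mk 0)).LineBaseChange) {ν : A.obj 0}
    (hν : (DG.unitHom (η.app (.mk 0))).QIsoAway (m.σ ν)) {S : Submonoid (A.obj 0)} (hS : ν ∈ S)
    (k : ℤ) : LocIso S m.σ (((η.app (.mk 0)).app 0).comp m.σ) ((g.app (.mk 0)).H k) := by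
  refine hg.locIso k ?_
  have h₁ := (DG.Hom.qisoAway_iff _ _).1 hν k
  rw [← Submonoid.map_powers] at h₁
  exact ((locIso_map_iff m.σ (Submonoid.powers ν)).1 h₁).mono (Submonoid.powers_le.2 hS)

theorem bijOn_W {m' : Mon A R'} {η : R ⟶ R'} (hι : m.ι (.mk 0) ≫ η.app (.mk 0) = m'.ι (.mk 0))
    (hu : (η.app (.mk 1)).app 0 (m.u (.mk 1) 0 1) = m'.u (.mk 1) 0 1) {M : Mod R} {M' : Mod R'}
    (h : m.Laur M) (h' : m'.Laur M') (g : Mod.Hom η M M') (hg : (g.app (.mk 0)).LineBaseChange)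
    {ν : A.obj 0} (hν : (DG.unitHom (η.app (.mk 0))).QIsoAway (m.σ ν)) {b : ℤ}
    (hw : ∀ (p : Ideal (A.obj 0)) [p.IsPrime], (∀ a ∈ A.bdry, a ∈ p) → ν ∈ p → m.Wt p M b)
    (k : ℤ) : Set.BijOn ((g.app (.mk 0)).H k) (m.W M b k) (m'.W M' b k) := by
  have hσ := WtC_σ_eq hι
  refine ⟨fun ξ hξ => m.map_mem m' hu g hξ, fun ξ₁ h₁ ξ₂ h₂ e => ?_, fun ξ' hξ' => ?_⟩
  · have hξ : ξ₁ - ξ₂ ∈ m.W M b k := sub_mem h₁ h₂
    have e0 : (g.app (.mk 0)).H k (ξ₁ - ξ₂) = 0 := by rw [map_sub, e, sub_self]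
    rw [← sub_eq_zero]
    generalize ξ₁ - ξ₂ = ξ at hξ e0
    have h1 : (1 : A.obj 0) ∈ annIdeal m.σ ξ := by
      refine one_mem_of_primes _ (B := A.bdry)
        (fun a ha => DG.bdry_smul_H (SRing.map_bdry (m.ι (.mk 0)) ha) ξ) fun p _ hp => ?_
      by_cases hνp : ν ∈ p
      · obtain ⟨ε, hε, hgen⟩ := hw p hp hνp
        obtain ⟨s, hs, α, q⟩ := h.gen_surj hε hgen hξ
        have hgen' := hg.gen hgen
        rw [hσ] at hgen'
        have q' : (M'.obj (.mk 0)).act k ((g.app (.mk 0)).H 0 ε)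
            ((DG.unitHom (m'.ι (.mk 0))).H k α) = 0 := by
          rw [← WtC_H_ι hι, ← DG.Hom.H_act, q, DG.Hom.H_smul, e0, smul_zero]
        obtain ⟨s', hs', r⟩ := gen_inj hgen' q'
        refine ⟨s' * s, mul_mem hs' hs, ?_⟩
        change m.σ (s' * s) • ξ = 0
        rw [map_mul, mul_smul, ← q, ← DG.act_smul_right, ← DG.Hom.H_smul, r, map_zero, map_zero]
      · exact (WtC_locIso g hg hν (S := p.primeCompl) hνp k).inj ξ e0
    have h2 : m.σ 1 • ξ = 0 := h1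
    rwa [map_one, one_smul] at h2
  · have h1 : (1 : A.obj 0) ∈ ((g.app (.mk 0)).H_lin k m.σ).surjIdeal ξ' := by
      refine one_mem_of_primes _ (B := A.bdry) (fun a ha => ⟨0, ?_⟩) fun p _ hp => ?_
      · rw [map_zero, hσ]
        exact (DG.bdry_smul_H (SRing.map_bdry (m'.ι (.mk 0)) ha) ξ').symm
      by_cases hνp : ν ∈ p
      · obtain ⟨ε, hε, hgen⟩ := hw p hp hνp
        have hgen' := hg.gen hgen
        rw [hσ] at hgen'
        obtain ⟨s, hs, α, q⟩ := h'.gen_surj (m.map_mem m' hu g hε) hgen' hξ'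
        refine ⟨s, hs, (M.obj (.mk 0)).act k ε ((DG.unitHom (m.ι (.mk 0))).H k α), ?_⟩
        rw [DG.Hom.H_act, WtC_H_ι hι, q, hσ]
      · exact (WtC_locIso g hg hν (S := p.primeCompl) hνp k).surj ξ'
    obtain ⟨x, hx⟩ := h1
    rw [map_one, one_smul] at hx
    refine ⟨h.pr b k x, h.pr_mem b k x, ?_⟩
    rw [← h.pr_map h' hu g, hx, h'.pr_of_mem hξ']

theorem bijOn_gen {M : Mod R} (h : m.Laur M) {P : DG A} (g : DG.Hom (m.ι (.mk 0)) P (M.obj (.mk 0)))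
    (hg : g.LineBaseChange) (hW : ∀ k ξ, g.H k ξ ∈ m.W M 0 k) {b : ℤ} (hb : IsUnit (m.t b))
    (k : ℤ) : Set.BijOn ((g.scale (m.t b)).H k) Set.univ (m.W M b k) := by
  have hmem : ∀ k ξ, m.t b • g.H k ξ ∈ m.W M b k := fun k ξ => by
    have := m.t_smul_mem (hW k ξ) b
    rwa [add_zero] at this
  have hcov := SRing.covers_iff.1 hg.covers
  refine ⟨fun ξ _ => ?_, fun ξ₁ _ ξ₂ _ e => ?_, fun ξ' hξ' => ?_⟩
  · rw [DG.Hom.scale_H]
    exact hmem k ξ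
  · have e0 : g.H k (ξ₁ - ξ₂) = 0 := by
      rw [DG.Hom.scale_H, DG.Hom.scale_H] at e
      rw [map_sub, hb.smul_left_cancel.1 e, sub_self]
    rw [← sub_eq_zero]
    generalize ξ₁ - ξ₂ = ξ at e0
    obtain ⟨s, hs, p⟩ := exists_mem_of_cover (annIdeal (RingHom.id (A.obj 0)) ξ) ⊥ hcov
      (fun a ha => DG.bdry_smul_H ha ξ) (by
        rintro f ⟨ε, hε, hε'⟩
        obtain ⟨s, hs, α, q⟩ := (hε k).surj ξ
        have q' : (M.obj (.mk 0)).act k (g.H 0 ε) ((DG.unitHom (m.ι (.mk 0))).H k α) = 0 := by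
          rw [← DG.Hom.H_act, q, DG.Hom.H_smul, e0, smul_zero]
        obtain ⟨s', hs', r⟩ := gen_inj (m := m) hε' q'
        refine ⟨s' * s, Submonoid.mem_sup_right (mul_mem hs' hs), ?_⟩
        change (s' * s) • ξ = 0
        have q'' : P.act k ε α = s • ξ := q
        rw [mul_smul, ← q'', ← DG.act_smul_right, r, map_zero])
    have p' : s • ξ = 0 := p
    rwa [Submonoid.mem_bot.1 hs, one_smul] at p'
  · obtain ⟨s, hs, x, p⟩ := exists_mem_of_cover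
      (((g.scale (m.t b)).H_lin k (RingHom.id (A.obj 0))).surjIdeal ξ') ⊥ hcov
      (fun a ha => ⟨0, by
        rw [map_zero]
        exact (DG.bdry_smul_H (SRing.map_bdry (m.ι (.mk 0)) ha) ξ').symm⟩) (by
        rintro f ⟨ε, hε, hε'⟩
        obtain ⟨s, hs, α, q⟩ := h.gen_surj (hmem 0 ε) (hε'.smul_unit hb) hξ'
        refine ⟨s, Submonoid.mem_sup_right hs, P.act k ε α, ?_⟩
        rw [DG.Hom.scale_H, DG.Hom.H_act, ← DG.act_smul_left, q]
        rfl)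
    rw [Submonoid.mem_bot.1 hs, map_one, one_smul] at p
    exact ⟨x, Set.mem_univ _, p⟩

end Mon

end Pool.Agent.P.MP_932208_ag.Ax
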