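import Pool.Agent.P.MP_932208_ag.Ax.PhiJ
import Pool.Agent.P.MP_932208_ag.Ax.WtC

/-!
The determinant of the pushforward along a virtual Cartier divisor.
-/

namespace Pool.Agent.P.MP_932208_ag.Ax

open CategoryTheory

namespace Determinant
variable (D : Determinant)

theorem det_of_equiv {J : Type} [SmallCategory J] {A : J ⥤ SRing} {L : Mod A} (hL : L.IsLine)
    {γ : Cocycle A} (e : ((Mod.unit A).twist γ).Equiv L) : (D.det L).Equiv L :=
  (D.invariant hL.perfect e.symm).trans ((D.rankOne γ).trans e)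

section chart
variable (c : Chart)

/-- The point of the one point index category. -/
abbrev pt : Discrete PUnit := ⟨PUnit.unit⟩

/-- `E[y]` on the Rees stack of a single chart. -/
noncomputable abbrev GΔ (E : DG c.B) : Mod (slice pt ⋙ (VirtualCartier.ofChart c).RJ Wgt.star) :=
  ((VirtualCartier.ofChart c).G GoodW.star (Mod.single E)).restrict (slice pt)

/-- The graded structure of the Rees stack of a single chart. -/
noncomputable abbrev monΔ : Mon c.A (slice pt ⋙ (VirtualCartier.ofChart c).RJ Wgt.star) :=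
  (VirtualCartier.ofChart c).mon Wgt.star pt

/-- `E ↦ E[y]` on maps. -/
noncomputable abbrev GΔmap {E E' : DG c.B} (g : DG.Hom (𝟙 c.B) E E') :
    Mod.Hom (𝟙 _) (GΔ c E) (GΔ c E') :=
  ((VirtualCartier.ofChart c).Gmap GoodW.star (Mod.Hom.single g)).restrict' (slice pt)

theorem perfect_GΔ {a : Arr (𝟙 c.B)} {l : ℤ} (h : Arr.Cellular 1 l a) : (GΔ c a.src).Perfect :=
  ((VirtualCartier.ofChart c).perfect_G GoodW.star (Mod.perfectOfRank_single h.src)).restrict _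

theorem wt_add {R : SimplexCategory ⥤ SRing} {A : SRing} {m : Mon A R} {q : Ideal (A.obj 0)}
    [q.IsPrime] (hq : m.Node q) {M₁ M₂ M₃ : Mod R} (i : Mod.Hom (𝟙 R) M₁ M₂)
    (g : Mod.Hom (𝟙 R) M₂ M₃) (h₁ : M₁.Perfect) (h₂ : M₂.Perfect) (h₃ : M₃.Perfect)
    (h : ∀ s, DG.ShortExact (i.app s) (g.app s)) : ∃ w₁ w₃, m.Wt q (D.det M₁) w₁ ∧
      m.Wt q (D.det M₃) w₃ ∧ m.Wt q (D.det M₂) (w₁ + w₃) := by
  obtain ⟨w₁, e₁⟩ := Mon.exists_wt hq (D.isLine h₁)
  obtain ⟨w₂, e₂⟩ := Mon.exists_wt hq (D.isLine h₂)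
  obtain ⟨w₃, e₃⟩ := Mon.exists_wt hq (D.isLine h₃)
  refine ⟨w₁, w₃, e₁, e₃, ?_⟩
  rwa [← Mon.wt_tensor hq (D.multiplicative i g h₁ h₂ h₃ h) (m.laur_of_line (D.isLine h₂))
    e₁ e₃ e₂]

variable {c} {p : Ideal (c.A.obj 0)} [p.IsPrime] (hp : (monΔ c).Node p)
include hp

theorem wt_unit : (monΔ c).Wt p (D.det (GΔ c (DG.unit c.B))) 1 := by
  let Z := VirtualCartier.ofChart c
  let π := (Z.πJ GoodW.star).restrict' (slice pt)
  have hK : π.ker.IsLine := (Z.isLine_ker_πJ GoodW.star).restrict (slice pt)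
  have hG : (GΔ c (DG.unit c.B)).Perfect := perfect_GΔ c (a := Arr.unit _) .unit
  obtain ⟨w₁, w₃, e₁, e₃, e₂⟩ := D.wt_add hp π.kerIncl π hK.perfect
    (Mod.isLine_unit _).perfect hG
    (π.shortExact_ker fun s => c.π_surjective GoodW.star s.len)
  have f₁ : (monΔ c).Wt p π.ker (-1) := Mon.wt_ker π (by
    have : KerGen (c.π GoodW.star 0) (c.τ Wgt.star 0) := c.kerGen_π GoodW.star 0
    rw [c.τ_star] at this
    exact this)
  have eK := π.equiv_twist_ker (fun s => c.τ Wgt.star s.len)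
    (fun s => c.kerGen_π GoodW.star s.len) ((Z.cJ Wgt.star).restrict (slice pt)) (by
      intro s s' θ
      have h := Z.ReesJ_sec Wgt.star (-1) ((slice pt).map θ)
      have h' : Z.γ.c ((slice pt).map θ).1 = 1 := rfl
      rw [h', one_zpow, one_zpow, mul_one, Units.val_one, map_one, mul_one] at h
      rw [c.τ_star, c.τ_star]
      refine Eq.trans ?_ (congrArg (_ * ·) h)
      change _ = Units.val _ * (Units.val (_ ^ (-1 : ℤ)) * _)
      rw [← mul_assoc, ← Units.val_mul, zpow_neg_one, mul_inv_cancel, Units.val_one, one_mul]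
      rfl)
  have g₁ := Mon.Wt.unique hp ((monΔ c).laur_of_line hK)
    ((Mon.wt_iff (D.det_of_equiv hK eK) _).1 e₁) f₁
  have g₂ := Mon.Wt.unique hp ((monΔ c).laur_of_line (Mod.isLine_unit _))
    ((Mon.wt_iff (D.det_of_equiv (Mod.isLine_unit _) (Mod.equiv_twist_one _)) _).1 e₂) Mon.wt_unit
  obtain rfl : w₃ = 1 := by omega
  exact e₃

theorem wt_cellular {a : Arr (𝟙 c.B)} {l : ℤ} (h : Arr.Cellular 1 l a) :
    (monΔ c).Wt p (D.det (GΔ c a.src)) l := by
  have hq : ∀ {E E' : DG c.B} (g : DG.Hom (𝟙 c.B) E E'), g.QIsoAway 1 →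
      (GΔ c E).Equiv (GΔ c E') := fun g hg =>
    Mod.Equiv.of_hom (GΔmap c g) fun s => by
      have := c.Gmap_qiso GoodW.star s.len (g := g) (f := 1) (by rwa [map_one])
      rw [map_one] at this
      exact this
  have hu : ∀ {a : Arr (𝟙 c.B)} {l w w' : ℤ}, Arr.Cellular 1 l a →
      (monΔ c).Wt p (D.det (GΔ c a.src)) w → (monΔ c).Wt p (D.det (GΔ c a.src)) w' → w = w' :=
    fun h => Mon.Wt.unique hp ((monΔ c).laur_of_line (D.isLine (perfect_GΔ c h)))
  have hs : ∀ {a b e : Arr (𝟙 c.B)} {la lb le : ℤ} (i : a.Hom b) (g : b.Hom e),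
      Arr.ShortExact i g → Arr.Cellular 1 la a → Arr.Cellular 1 lb b → Arr.Cellular 1 le e →
      ∃ w₁ w₃, (monΔ c).Wt p (D.det (GΔ c a.src)) w₁ ∧ (monΔ c).Wt p (D.det (GΔ c e.src)) w₃ ∧
        (monΔ c).Wt p (D.det (GΔ c b.src)) (w₁ + w₃) := fun i g h ha hb he =>
    D.wt_add hp (GΔmap c i.s) (GΔmap c g.s) (perfect_GΔ c ha) (perfect_GΔ c hb)
      (perfect_GΔ c he) fun s => c.Gmap_ses GoodW.star s.len h.1
  induction h with
  | unit => exact D.wt_unit hp
  | forward g hg ha ih => exact (Mon.wt_iff (D.invariant (perfect_GΔ c ha) (hq g.s hg.1)) _).1 ih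
  | backward g hg hb ih =>
    exact (Mon.wt_iff (D.invariant (perfect_GΔ c hb) (hq g.s hg.1).symm) _).1 ih
  | middle i g h ha he ih ih' =>
    obtain ⟨w₁, w₃, e₁, e₃, e₂⟩ := hs i g h ha (.middle i g h ha he) he
    rwa [hu ha e₁ ih, hu he e₃ ih'] at e₂
  | left i g h hb he ih ih' =>
    obtain ⟨w₁, w₃, e₁, e₃, e₂⟩ := hs i g h (.left i g h hb he) hb he
    rwa [← hu hb e₂ ih, ← hu he e₃ ih', add_sub_cancel_right]
  | right i g h hb ha ih ih' =>
    obtain ⟨w₁, w₃, e₁, e₃, e₂⟩ := hs i g h ha hb (.right i g h hb ha)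
    rwa [← hu hb e₂ ih, ← hu ha e₁ ih', add_sub_cancel_left]

end chart

variable {J : Type} [SmallCategory J] {A B : J ⥤ SRing} {φ : A ⟶ B} (Z : VirtualCartier φ)
  {F : Mod B} {l : ℤ}

theorem wt_G (hF : F.PerfectOfRank l) (j : J) (p : Ideal ((A.obj j).obj 0)) [p.IsPrime]
    (hb : ∀ b ∈ (A.obj j).bdry, b ∈ p) (hν : Z.ν j ∈ p) :
    (Z.mon Wgt.star j).Wt p ((D.det (Z.G GoodW.star F)).restrict (slice j)) l := by
  have hG := Z.perfect_G GoodW.star hF
  have hn := Z.node j p hb hν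
  obtain ⟨f, hf, hfp⟩ := ((Z.chart j).covers (hF.id j)).exists_notMem
    (Ideal.IsPrime.ne_top inferInstance) hb
  obtain ⟨q, hq, hqb, hqp⟩ := SRing.exists_prime_loc f p hb hfp
  have hn' : (monΔ ((Z.chart j).loc f)).Node q := (Z.locAt j f).node pt q hqb ((hqp _).2 hν)
  have hc := Arr.Cellular.loc hf
  have hP := perfect_GΔ ((Z.chart j).loc f) hc
  obtain ⟨P, P', g, e, e', hg⟩ := D.baseChange (Z.toLocG j f F) (hG.restrict _)
    hP (Z.perfect_toLocG j f hF)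
  obtain ⟨w, hw⟩ := Mon.exists_wt hn ((D.isLine hG).restrict (slice j))
  have h₁ := (Mon.wt_iff (e.trans (D.restrict (slice j) hG)) w).2 hw
  have h₂ : (monΔ ((Z.chart j).loc f)).Wt q P' w := h₁.baseChange ((A.obj j).toLoc f)
    (Rr.ι_map (n := 0) ((A.obj j).toLoc f) 1 ((Z.chart j).toLoc f).hν (fun _ => le_rfl)
      OrderHom.id)
    (Rr.map_ratio (n := 1) ((A.obj j).toLoc f) 1 ((Z.chart j).toLoc f).hν (fun _ => le_rfl)
      OrderHom.id 0 1) (fun a => (hqp a).1) g (hg _)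
  have h₃ := (Mon.wt_iff e' w).1 h₂
  have h₄ := D.wt_cellular hn' hc
  have h₅ := (monΔ ((Z.chart j).loc f)).laur_of_line (D.isLine hP)
  have h₆ : w = l := Mon.Wt.unique hn' h₅ h₃ h₄
  rwa [h₆] at hw

/-- The weight `l` part of a module on the Rees stack. -/
noncomputable def part (w : Wgt) (l : ℤ) (M : Mod (Z.RJ w)) : Mod A :=
  Mod.tot (Z.ιJ w) (M.twist ((Z.cJ w).zpow l))

theorem ex_part {w : Wgt} {M : Mod (Z.RJ w)} (j : J)
    (h : (Z.mon w j).Laur (M.restrict (slice j))) :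
    ((M.twist ((Z.cJ w).zpow l)).restrict (slice j)).Ex :=
  h.ex_twist (((Z.cJ w).zpow l).restrict (slice j)) l (Z.cJ_slice w l j)

theorem inv_part {w : Wgt} (M : Mod (Z.RJ w)) (j : J) (k : ℤ) :
    ((M.twist ((Z.cJ w).zpow l)).restrict (slice j)).Inv k =
      (Z.mon w j).W (M.restrict (slice j)) l k :=
  (Z.mon w j).inv_twist (M.restrict (slice j)) (((Z.cJ w).zpow l).restrict (slice j)) l
    (Z.cJ_slice w l j) k

theorem laur_of_equiv {w : Wgt} {M L : Mod (Z.RJ w)} (e : M.Equiv L) (h : L.IsLine) (j : J) :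
    (Z.mon w j).Laur (M.restrict (slice j)) :=
  ((Z.mon w j).laur_iff (e.restrict _)).2 ((Z.mon w j).laur_of_line (h.restrict _))

theorem part_equiv {w : Wgt} {M L : Mod (Z.RJ w)} (e : M.Equiv L) (h : L.IsLine) :
    (part Z w l M).Equiv (part Z w l L) :=
  (e.twist _).tot _ fun j => ex_part Z j (laur_of_equiv Z e h j)

theorem part_det (hF : F.PerfectOfRank l) {w : Wgt} (hw : ∀ b, w.φ b ≤ Wgt.star.φ b)
    {M : Mod (Z.RJ w)} (hM : M.Perfect) (g : Mod.Hom (Z.ηJ hw) (Z.G GoodW.star F) M)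
    (hg : ∀ p, (g.app p).PerfectBaseChange) :
    (part Z Wgt.star l (D.det (Z.G GoodW.star F))).Equiv (part Z w l (D.det M)) := by
  have hG := Z.perfect_G GoodW.star hF
  obtain ⟨P, P', h, e, e', hh⟩ := D.baseChange g hG hM hg
  have hP := laur_of_equiv Z e (D.isLine hG)
  have hP' := laur_of_equiv Z e' (D.isLine hM)
  refine (part_equiv Z e (D.isLine hG)).symm.trans (Mod.Equiv.trans ?_
    (part_equiv Z e' (D.isLine hM)))
  refine Mod.equiv_tot_of_hom (Z.ιJ_ηJ hw) (h.twist _ _ (Z.ηJ_cJ hw l))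
    (fun j => ex_part Z j (hP j)) (fun j => ex_part Z j (hP' j)) fun j k => ?_
  rw [inv_part, inv_part]
  exact Mon.bijOn_W (ν := Z.ν j)
    ((Rr.ι_map (n := 0) (𝟙 _) 1 (Z.one_mul_ν j) hw OrderHom.id).trans (Category.id_comp _))
    (Rr.map_ratio (n := 1) (𝟙 _) 1 (Z.one_mul_ν j) hw OrderHom.id 0 1) (hP j) (hP' j)
    (h.restrict (slice j)) (hh _) (Rr.qisoAway_map (Z.one_mul_ν j) hw)
    (fun p _ hb hν => (Mon.wt_iff (e.restrict _) l).2 (D.wt_G Z hF j p hb hν)) k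

theorem part_of_const {w : Wgt} (hu : ∀ j, IsUnit ((Z.mon w j).t l)) {X : Mod A}
    {S : Mod (prJ J ⋙ A)} {M : Mod (Z.RJ w)} (hM : ∀ j, (Z.mon w j).Laur (M.restrict (slice j)))
    (g : Mod.Hom (Z.ιJ w) S M) (hg : ∀ p, (g.app p).LineBaseChange)
    (hS : ∀ j k ξ, ξ ∈ (S.restrict (slice j)).Inv k) (c : Cocycle (prJ J ⋙ A))
    (e : (S.twist c).Equiv (X.restrict (prJ J)))
    (hc : ∀ {p q : J × SimplexCategory} (f : p ⟶ q), Z.sec w l q * ((Z.ιJ w).app q).app 0 (c.c f) =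
      ((Z.cJ w).zpow l).c f * ((Z.RJ w).map f).app 0 (Z.sec w l p)) :
    X.Equiv (part Z w l M) := by
  refine Mod.equiv_tot_of_const _ e (g.scale c _ (Z.sec w l) hc) (fun j => ex_part Z j (hM j))
    fun j k => ?_
  rw [inv_part]
  refine Mon.bijOn_gen (hM j) (g.app (j, .mk 0)) (hg _) (fun k ξ => ?_) (hu j) k
  refine (Z.mon w j).mem_W_zero_of_inv ?_
  have h₁ := fun (i : Fin 2) => DG.H_comm (S.map ((slice j).map (SimplexCategory.δ i))).cmap
    (g.app _).cmap (g.app _).cmap (M.map ((slice j).map (SimplexCategory.δ i))).cmap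
    (g.nat _) k ξ
  exact (h₁ 0).symm.trans ((congrArg ((g.app (j, .mk 1)).H k) (hS j k ξ)).trans (h₁ 1))

theorem det_push (hF : F.PerfectOfRank l) : (D.det (F.push φ)).Equiv (Z.O l) := by
  have hX := Z.perfect_push hF
  have hY := Z.perfect_G GoodW.y hF
  have h₁ := D.part_det Z hF Wgt.t_le_star (Mod.perfect_zero _) (Mod.Hom.toZero _ _)
    (Z.perfect_toT hF)
  have h₂ := D.part_det Z hF Wgt.y_le_star hY (Z.toY F) (Z.perfect_toY hF)
  have h₃ : (part Z Wgt.t l (D.det (Mod.zero _))).Equiv (part Z Wgt.t l (Mod.unit _)) :=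
    part_equiv Z (D.rankZero fun _ _ _ _ => ⟨PUnit.unit, trivial, rfl⟩) (Mod.isLine_unit _)
  have h₄ : (Z.O l).Equiv (part Z Wgt.t l (Mod.unit _)) :=
    part_of_const Z (fun _ => Rr.isUnit_mono_t _) (S := (Mod.unit A).restrict (prJ J))
      (fun j => (Z.mon Wgt.t j).laur)
      ⟨fun p => DG.unitHom ((Z.ιJ Wgt.t).app p), fun f x =>
        congrArg (fun h => N.map h x) ((Z.ιJ Wgt.t).naturality f)⟩
      (fun p => SRing.covers_of_one ⟨⟨DG.Hom.id _, DG.Hom.id _, fun _ => rfl⟩,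
        DG.Hom.qiso_id _ _, DG.Hom.qiso_id _ _⟩)
      (Mod.const_inv _) ((Z.γ.zpow (-l)).restrict (prJ J)) (Mod.Equiv.refl _) (Z.sec_t l)
  obtain ⟨S, S', g, e, e', hg⟩ := D.baseChange (Z.fromX F) (hX.restrict _) hY
    (Z.perfect_fromX hF)
  have e₁ := e.trans (D.restrict (prJ J) hX)
  have h₅ : (D.det (F.push φ)).Equiv (part Z Wgt.y l S') :=
    part_of_const Z (fun _ => Rr.isUnit_mono_y _) (laur_of_equiv Z e' (D.isLine hY)) g hg
      e₁.inv_of_const ⟨fun _ => 1, fun _ => rfl, fun _ _ => by simp⟩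
      (Mod.Equiv.trans (M' := S) (Mod.Equiv.of_hom ⟨fun p => DG.Hom.id (S.obj p), fun _ _ => by
        simp [DG.Hom.scale_apply, DG.Hom.id]⟩ fun _ => DG.Hom.qiso_id _ _) e₁)
      fun f => by rw [Units.val_one, map_one, mul_one]; exact Z.sec_y l f
  exact h₅.trans ((part_equiv Z e' (D.isLine hY)).trans (h₂.symm.trans (h₁.trans
    (h₃.trans h₄.symm))))

end Determinant

end Pool.Agent.P.MP_932208_ag.Ax
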