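import Pool.Agent.P.MP_932208_ag.Ax.Gen

/-!
Formal properties of cellular arrows and of diagrams of modules.
-/

namespace Pool.Agent.P.MP_932208_ag.Ax

open CategoryTheory

section arrows
variable {A B R R' : SRing}

/-- An exact functor between categories of modules over arrows. -/
structure ArrFun (φ : A ⟶ B) (χ : R ⟶ R') where
  obj : Arr φ → Arr χ
  map : ∀ {a b : Arr φ}, a.Hom b → (obj a).Hom (obj b)
  ses : ∀ {a b c : Arr φ} {i : a.Hom b} {p : b.Hom c}, Arr.ShortExact i p →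
    Arr.ShortExact (map i) (map p)

theorem Arr.Cellular.map {φ : A ⟶ B} {χ : R ⟶ R'} (Φ : ArrFun φ χ) {f : A.obj 0} {f' : R.obj 0}
    (hq : ∀ {a b : Arr φ} (g : a.Hom b), g.QIsoAway f → (Φ.map g).QIsoAway f') {c : ℤ}
    (hu : Arr.Cellular f' c (Φ.obj (Arr.unit φ))) {l : ℤ} {a : Arr φ} (h : Arr.Cellular f l a) :
    Arr.Cellular f' (c * l) (Φ.obj a) := by
  induction h with
  | unit => simpa using hu
  | forward g hg _ ih => exact .forward (Φ.map g) (hq g hg) ih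
  | backward g hg _ ih => exact .backward (Φ.map g) (hq g hg) ih
  | middle i p hs _ _ ih ih' => rw [mul_add]; exact .middle _ _ (Φ.ses hs) ih ih'
  | left i p hs _ _ ih ih' => rw [mul_sub]; exact .left _ _ (Φ.ses hs) ih ih'
  | right i p hs _ _ ih ih' => rw [mul_sub]; exact .right _ _ (Φ.ses hs) ih ih'

/-- An exact functor between categories of dg modules. -/
structure ExFun (B R : SRing) where
  obj : DG B → DG R
  map : ∀ {E E' : DG B}, DG.Hom (𝟙 B) E E' → DG.Hom (𝟙 R) (obj E) (obj E')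
  ses : ∀ {E₁ E₂ E₃ : DG B} {i : DG.Hom (𝟙 B) E₁ E₂} {p : DG.Hom (𝟙 B) E₂ E₃},
    DG.ShortExact i p → DG.ShortExact (map i) (map p)

/-- The identity functor. -/
@[reducible] def ExFun.id (B : SRing) : ExFun B B := ⟨fun E => E, fun g => g, fun h => h⟩

/-- Restriction of scalars. -/
@[reducible] def ExFun.res (φ : A ⟶ B) : ExFun B A :=
  ⟨fun E => E.res φ, fun g => ⟨g.toFun, fun a => g.map_smul (N.map φ a), g.map_gr, g.map_d⟩,
    fun h => h⟩

theorem ExFun.res_qiso (φ : A ⟶ B) (f : A.obj 0) {E E' : DG B} (g : DG.Hom (𝟙 B) E E')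
    (h : g.QIsoAway (φ.app 0 f)) : ((ExFun.res φ).map g).QIsoAway f := by
  have key : ∀ (M : DG B) (n : ℕ) (y : M.V),
      HSMul.hSMul (β := (M.res φ).V) (γ := (M.res φ).V) (N.inc (f ^ n)) y =
        N.inc (φ.app 0 f ^ n) • y := by
    intro M n y
    rw [DG.res_smul, N.map_inc, map_pow]
  intro k
  refine ⟨fun y hy => ?_, fun x hx p => ?_⟩
  · obtain ⟨n, x, hx, p⟩ := (h k).1 y hy
    refine ⟨n, x, hx, ?_⟩
    have := key E' n y
    change E'.Bdry k (HSub.hSub (α := E'.V) (β := E'.V) (γ := E'.V) (g.toFun x)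
      (HSMul.hSMul (β := (E'.res φ).V) (γ := (E'.res φ).V) (N.inc (f ^ n)) y))
    rw [this]
    exact p
  · obtain ⟨n, q⟩ := (h k).2 x hx p
    refine ⟨n, ?_⟩
    have := key E n x
    change E.Bdry k (HSMul.hSMul (β := (E.res φ).V) (γ := (E.res φ).V) (N.inc (f ^ n)) x)
    rw [this]
    exact q

/-- The zero functor. -/
@[reducible] def ExFun.zero (B R : SRing) : ExFun B R :=
  ⟨fun _ => DG.zero R, fun _ => DG.Hom.id _, fun _ =>
    ⟨fun _ _ h => h, fun _ => ⟨fun _ => ⟨0, rfl⟩, fun _ => rfl⟩, fun y => ⟨y, rfl⟩⟩⟩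

theorem DG.Hom.qiso_id (M : DG A) (f : A.obj 0) : (DG.Hom.id M).QIsoAway f :=
  ((DG.Hom.id M).qiso_of_bijective Function.bijective_id).of_dvd (one_dvd f)

/-- An exact functor on arrows from a pair of exact functors and a natural map. -/
@[reducible] def ArrFun.ofPair {B' : SRing} {β : B ⟶ B'} {χ : R ⟶ R'} (Φ : ExFun B R)
    (Φ' : ExFun B' R') (T : ∀ a : Arr β, DG.Hom χ (Φ.obj a.src) (Φ'.obj a.tgt))
    (hT : ∀ {a b : Arr β} (g : a.Hom b) x,
      (Φ'.map g.t).toFun ((T a).toFun x) = (T b).toFun ((Φ.map g.s).toFun x)) : ArrFun β χ where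
  obj a := ⟨Φ.obj a.src, Φ'.obj a.tgt, T a⟩
  map g := ⟨Φ.map g.s, Φ'.map g.t, hT g⟩
  ses h := ⟨Φ.ses h.1, Φ'.ses h.2⟩

variable {φ : A ⟶ B}

theorem Arr.Cellular.of_dvd {f f' : A.obj 0} (e : f ∣ f') {l : ℤ} {a : Arr φ}
    (h : Arr.Cellular f l a) : Arr.Cellular f' l a := by
  have key : ∀ {a b : Arr φ} (g : a.Hom b), g.QIsoAway f → g.QIsoAway f' := fun g hg =>
    ⟨hg.1.of_dvd e, hg.2.of_dvd (map_dvd _ e)⟩
  induction h with
  | unit => exact .unit
  | forward g hg _ ih => exact .forward g (key g hg) ih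
  | backward g hg _ ih => exact .backward g (key g hg) ih
  | middle i p hs _ _ ih ih' => exact .middle i p hs ih ih'
  | left i p hs _ _ ih ih' => exact .left i p hs ih ih'
  | right i p hs _ _ ih ih' => exact .right i p hs ih ih'

theorem ModL_qiso_zero {M : DG A} {M' : DG B} (g : DG.Hom φ M M') : g.QIsoAway 0 :=
  g.qisoAway_of_chain 0 (fun y => ⟨1, 0, by simp⟩) fun x _ => ⟨1, by simp⟩

/-- The zero map of arrows. -/
def ModL_zeroHom (a b : Arr φ) : a.Hom b :=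
  ⟨DG.Hom.zero _ _ _, DG.Hom.zero _ _ _, fun _ => (map_zero b.map.toFun).symm⟩

theorem ModL_arr_qiso_zero {a b : Arr φ} (g : a.Hom b) : g.QIsoAway 0 :=
  ⟨ModL_qiso_zero _, by rw [map_zero]; exact ModL_qiso_zero _⟩

theorem ModL_ses_zero (i p : DG.Hom (𝟙 A) (DG.zero A) (DG.zero A)) : DG.ShortExact i p :=
  ⟨fun _ _ _ => Subsingleton.elim _ _,
    fun y => ⟨fun _ => ⟨y, Subsingleton.elim _ _⟩, fun _ => Subsingleton.elim _ _⟩,
    fun y => ⟨y, Subsingleton.elim _ _⟩⟩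

/-- After inverting `0` everything is cellular. -/
theorem Arr.cellular_zero (l : ℤ) (a : Arr φ) : Arr.Cellular 0 l a := by
  let z : Arr φ := ⟨DG.zero A, DG.zero B, DG.Hom.zero _ _ _⟩
  have h1 : Arr.Cellular 0 1 z := .forward (ModL_zeroHom _ _) (ModL_arr_qiso_zero _) .unit
  have hs : Arr.ShortExact (ModL_zeroHom z z) (ModL_zeroHom z z) :=
    ⟨ModL_ses_zero _ _, ModL_ses_zero _ _⟩
  have h2 : Arr.Cellular 0 l z := by
    induction l using Int.induction_on with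
    | zero => simpa using Arr.Cellular.left _ _ hs h1 h1
    | succ n ih => exact .middle _ _ hs ih h1
    | pred n ih => exact .left _ _ hs ih h1
  exact .forward (ModL_zeroHom _ _) (ModL_arr_qiso_zero _) h2

theorem ModL_ses_id (M : DG A) (p : DG.Hom (𝟙 A) M (DG.zero A)) :
    DG.ShortExact (DG.Hom.id M) p :=
  ⟨fun _ _ h => h, fun y => ⟨fun _ => ⟨y, rfl⟩, fun _ => Subsingleton.elim _ _⟩,
    fun _ => ⟨0, Subsingleton.elim _ _⟩⟩

theorem ModL_hom_ext {M : DG A} {M' : DG B} {g g' : DG.Hom φ M M'}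
    (e : ∀ x, g.toFun x = g'.toFun x) : g = g' := by
  cases g; cases g'
  congr
  exact AddMonoidHom.ext e

theorem Arr.cellular_zeroMod (f : A.obj 0) (g : DG.Hom φ (DG.zero A) (DG.zero B)) :
    Arr.Cellular f 0 ⟨DG.zero A, DG.zero B, g⟩ := by
  have := Arr.Cellular.right (f := f) (a := Arr.unit φ) (b := Arr.unit φ)
    (c := ⟨DG.zero A, DG.zero B, g⟩) ⟨DG.Hom.id _, DG.Hom.id _, fun _ => rfl⟩
    (ModL_zeroHom _ _) ⟨ModL_ses_id _ _, ModL_ses_id _ _⟩ .unit .unit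
  simpa using this

/-- The source of a cellular arrow is cellular. -/
theorem Arr.Cellular.src {f : A.obj 0} {l : ℤ} {a : Arr φ} (h : Arr.Cellular f l a) :
    Arr.Cellular (φ := 𝟙 A) f l ⟨a.src, a.src, DG.Hom.id _⟩ := by
  let Φ : ArrFun φ (𝟙 A) :=
    ⟨fun a => ⟨a.src, a.src, DG.Hom.id _⟩, fun g => ⟨g.s, g.s, fun _ => rfl⟩, fun h => ⟨h.1, h.1⟩⟩
  have hu : Arr.Cellular f 1 (Φ.obj (Arr.unit φ)) :=
    .forward (a := Arr.unit (𝟙 A)) ⟨DG.Hom.id _, DG.Hom.id _, fun _ => rfl⟩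
      ⟨DG.Hom.qiso_id _ _, DG.Hom.qiso_id _ _⟩ .unit
  have := Arr.Cellular.map Φ (f' := f) (fun g hg => ⟨hg.1, hg.1⟩) hu h
  rwa [one_mul] at this

/-- Cellularity only depends on the ring map and the underlying function. -/
theorem Arr.Cellular.congr {φ' : A ⟶ B} (e : φ = φ') {M : DG A} {M' : DG B} {g : DG.Hom φ M M'}
    {g' : DG.Hom φ' M M'} (e' : ∀ x, g.toFun x = g'.toFun x) {f : A.obj 0} {l : ℤ}
    (h : Arr.Cellular f l ⟨M, M', g⟩) : Arr.Cellular f l ⟨M, M', g'⟩ := by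
  subst e
  rwa [← ModL_hom_ext e']

theorem DG.Hom.LineBaseChange.perfect {M : DG A} {M' : DG B} {g : DG.Hom φ M M'}
    (h : g.LineBaseChange) : g.PerfectBaseChange :=
  SRing.Covers.mono h fun _ ⟨e, he⟩ => ⟨1, .forward e he .unit⟩

/-- `τ` generates the kernel of `π` up to quasi-isomorphism. -/
def KerGen {Q : DG B} (π : DG.Hom φ (DG.unit A) Q) (τ : A.obj 0) : Prop :=
  ∃ e : DG.Hom (𝟙 A) (DG.unit A) π.ker, (e.toFun (1 : N A)).1 = N.inc τ ∧ e.QIsoAway 1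

theorem KerGen.map_eq_zero {Q : DG B} {π : DG.Hom φ (DG.unit A) Q} {τ : A.obj 0}
    (h : KerGen π τ) : π.toFun (N.inc τ) = 0 := by
  obtain ⟨e, he, -⟩ := h
  rw [← he]; exact (e.toFun 1).2

theorem KerGen.cycle {Q : DG B} {π : DG.Hom φ (DG.unit A) Q} {τ : A.obj 0}
    (h : π.toFun (N.inc τ) = 0) : π.ker.Cycle 0 ⟨N.inc τ, h⟩ :=
  ⟨N.hg_inc τ, Subtype.ext (N.bd_inc τ)⟩

theorem kerGen_iff {Q : DG B} {π : DG.Hom φ (DG.unit A) Q} {τ : A.obj 0} :
    KerGen π τ ↔ ∃ h : π.toFun (N.inc τ) = 0,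
      (π.ker.toSpan ⟨N.inc τ, h⟩ (KerGen.cycle h)).QIsoAway 1 := by
  constructor
  · intro h
    refine ⟨h.map_eq_zero, ?_⟩
    have h0 := h.map_eq_zero
    obtain ⟨e, he, hq⟩ := h
    have : π.ker.toSpan ⟨N.inc τ, h0⟩ (KerGen.cycle h0) = e := by
      refine ModL_hom_ext fun r => ?_
      have h1 : e.toFun (1 : N A) = ⟨N.inc τ, h0⟩ := Subtype.ext he
      have h2 := e.map_smul r (1 : N A)
      rw [smul_eq_mul, mul_one, h1] at h2
      exact h2.symm
    rw [this]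
    exact hq
  · rintro ⟨h, hq⟩
    exact ⟨_, one_mul _, hq⟩

theorem KerGen.generates {f : A ⟶ B} (hf : f.Onto) {ν : A.obj 0}
    (h : KerGen (DG.unitHom f) ν) : f.Generates ν := by
  obtain ⟨e, he, hq⟩ := h
  exact ⟨_, (DG.unitHom f).kerIncl, e, ⟨Subtype.val_injective,
    fun y => ⟨fun p => ⟨⟨y, p⟩, rfl⟩, fun ⟨x, p⟩ => p ▸ x.2⟩, N.map_surjective f hf⟩, he, hq⟩

theorem KerGen.of_generates {f : A ⟶ B} {ν : A.obj 0} (h : f.Generates ν) :
    KerGen (DG.unitHom f) ν := by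
  obtain ⟨K, i, e, hs, he, hq⟩ := h
  let c : DG.Hom (𝟙 A) K (DG.unitHom f).ker := i.codSub _ _ _ fun x => hs.2.1.apply_apply_eq_zero x
  have hc : c.QIsoAway 1 := c.qiso_of_bijective
    ⟨fun x y p => hs.1 (congrArg Subtype.val p), fun y => by
      obtain ⟨x, hx⟩ := (hs.2.1 y.1).1 y.2
      exact ⟨x, Subtype.ext hx⟩⟩
  refine ⟨e.comp c (Category.id_comp _), he, (DG.Hom.qiso_iff _).2 fun k => ?_⟩
  have := ((DG.Hom.qiso_iff _).1 hc k).comp ((DG.Hom.qiso_iff _).1 hq k)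
  convert this using 1
  funext ξ
  exact (DG.H_comp e.cmap c.cmap (e.comp c (Category.id_comp _)).cmap (fun _ => rfl) k ξ).symm

/-- Elementwise form. -/
theorem kerGen_iff' {Q : DG B} {π : DG.Hom φ (DG.unit A) Q} {τ : A.obj 0} :
    KerGen π τ ↔ π.toFun (N.inc τ) = 0 ∧ ∀ k,
      (∀ x, (DG.unit A).Cycle k x → π.toFun x = 0 → ∃ a b, (DG.unit A).Cycle k a ∧
        b ∈ N.deg A (k + 1) ∧ π.toFun b = 0 ∧ x = a * N.inc τ + N.bd b) ∧
      ∀ a b, (DG.unit A).Cycle k a → b ∈ N.deg A (k + 1) → π.toFun b = 0 →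
        a * N.inc τ = N.bd b → (DG.unit A).Bdry k a := by
  rw [kerGen_iff]
  constructor
  · rintro ⟨h, hq⟩
    refine ⟨h, fun k => ⟨fun x hx hπ => ?_, fun a b ha hb hπ e => ?_⟩⟩
    · obtain ⟨n, a, ha, w, hw, p⟩ := (hq k).1 ⟨x, hπ⟩ ⟨hx.1, Subtype.ext hx.2⟩
      refine ⟨a, -w.1, ha, neg_mem hw, by rw [map_neg, show π.toFun w.1 = 0 from w.2, neg_zero], ?_⟩
      have p' : N.bd w.1 = a * N.inc τ - N.inc ((1 : A.obj 0) ^ n) * x := congrArg Subtype.val p
      rw [map_neg, p', one_pow, map_one, one_mul]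
      abel
    · obtain ⟨n, p⟩ := (hq k).2 a ha ⟨⟨b, hπ⟩, hb, Subtype.ext e.symm⟩
      simpa using p
  · rintro ⟨h, hq⟩
    refine ⟨h, fun k => ⟨fun y hy => ?_, fun a ha ⟨w, hw, p⟩ => ?_⟩⟩
    · obtain ⟨a, b, ha, hb, hπ, e⟩ := (hq k).1 y.1 ⟨hy.1, congrArg Subtype.val hy.2⟩ y.2
      refine ⟨0, a, ha, ⟨-b, ?_⟩, neg_mem hb, Subtype.ext ?_⟩
      · change π.toFun (-b) = 0
        rw [map_neg, hπ, neg_zero]
      · change N.bd (-b) = a * N.inc τ - N.inc (_ ^ 0) * y.1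
        rw [pow_zero, map_one, one_mul, map_neg, e]
        abel
    · refine ⟨0, ?_⟩
      rw [pow_zero, map_one, one_smul]
      exact (hq k).2 a w.1 ha hw w.2 (congrArg Subtype.val p).symm

theorem KerGen.unit_mul {Q : DG B} {π : DG.Hom φ (DG.unit A) Q} {τ u : A.obj 0}
    (h : KerGen π τ) (hu : IsUnit u) : KerGen π (u * τ) := by
  obtain ⟨v, hv⟩ := hu.exists_left_inv
  obtain ⟨h0, hq⟩ := kerGen_iff'.1 h
  have hZ : ∀ (c : A.obj 0) {k a}, (DG.unit A).Cycle k a → (DG.unit A).Cycle k (N.inc c * a) :=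
    fun c _ _ ha => ((DG.unit A).Z _).smul_mem c ha
  refine kerGen_iff'.2 ⟨?_, fun k => ⟨fun x hx hπ => ?_, fun a b ha hb hπ e => ?_⟩⟩
  · have := π.map_smul (N.inc u) (N.inc τ)
    rw [h0, smul_zero, smul_eq_mul, ← map_mul] at this
    exact this
  · obtain ⟨a, b, ha, hb, hb', e⟩ := (hq k).1 x hx hπ
    refine ⟨N.inc v * a, b, hZ v ha, hb, hb', ?_⟩
    rw [N.inc_comm, mul_assoc, ← map_mul, ← mul_assoc, hv, one_mul]
    exact e
  · have h1 := (hq k).2 (N.inc u * a) b (hZ u ha) hb hπ (by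
      rw [N.inc_comm, mul_assoc, ← map_mul]; exact e)
    have h2 : (DG.unit A).Bdry k (N.inc v * (N.inc u * a)) := ((DG.unit A).Bd k).smul_mem v h1
    rwa [← mul_assoc, ← map_mul, hv, map_one, one_mul] at h2

theorem kerGen_zero (π : DG.Hom φ (DG.unit A) (DG.zero B)) {u : A.obj 0} (hu : IsUnit u) :
    KerGen π u := by
  have h1 : KerGen π 1 := kerGen_iff'.2 ⟨Subsingleton.elim _ _, fun k =>
    ⟨fun x hx _ => ⟨x, 0, hx, zero_mem _, Subsingleton.elim _ _, by simp⟩,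
      fun a b _ hb _ e => ⟨b, hb, by rw [map_one, mul_one] at e; exact e.symm⟩⟩⟩
  simpa using h1.unit_mul hu

theorem ModL_ses_ker {M M' : DG A} (g : DG.Hom (𝟙 A) M M') (h : Function.Surjective g.toFun) :
    DG.ShortExact g.kerIncl g :=
  ⟨Subtype.val_injective, fun y => ⟨fun p => ⟨⟨y, p⟩, rfl⟩, fun ⟨x, p⟩ => p ▸ x.2⟩, h⟩

/-- The quotient of the structure sheaf by a line bundle is cellular of class zero. -/
theorem cellular_quot {χ : R ⟶ R'} {Q : DG R} {Q' : DG R'} (T : DG.Hom χ Q Q')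
    (π : DG.Hom (𝟙 R) (DG.unit R) Q) (π' : DG.Hom (𝟙 R') (DG.unit R') Q')
    (hπ : Function.Surjective π.toFun) (hπ' : Function.Surjective π'.toFun)
    (hc : ∀ x, π'.toFun (N.map χ x) = T.toFun (π.toFun x)) {τ : R.obj 0} (h : KerGen π τ)
    (h' : KerGen π' (χ.app 0 τ)) (f : R.obj 0) : Arr.Cellular f 0 ⟨Q, Q', T⟩ := by
  obtain ⟨h0, hq⟩ := kerGen_iff.1 h
  obtain ⟨h0', hq'⟩ := kerGen_iff.1 h'
  let κ : DG.Hom χ π.ker π'.ker :=
    (π.kerIncl.comp (DG.unitHom χ) (Category.id_comp _)).codSub _ _ _ fun x => by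
      change π'.toFun (N.map χ x.1) = 0
      rw [hc, show π.toFun x.1 = 0 from x.2, map_zero]
  let K : Arr χ := ⟨π.ker, π'.ker, κ⟩
  have hK : Arr.Cellular f 1 K := by
    refine .forward (a := Arr.unit χ) (b := K) ⟨π.ker.toSpan _ (KerGen.cycle h0),
      π'.ker.toSpan _ (KerGen.cycle h0'), fun x => Subtype.ext ?_⟩
      ⟨hq.of_dvd (one_dvd _), hq'.of_dvd (one_dvd _)⟩ .unit
    change N.map χ x * N.inc (χ.app 0 τ) = N.map χ (x * N.inc τ)
    rw [map_mul, N.map_inc]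
  have := Arr.Cellular.right (f := f) (a := K) (b := Arr.unit χ) (c := ⟨Q, Q', T⟩)
    ⟨π.kerIncl, π'.kerIncl, fun _ => rfl⟩ ⟨π, π', hc⟩
    ⟨ModL_ses_ker π hπ, ModL_ses_ker π' hπ'⟩ .unit hK
  simpa using this

theorem ModL_toSpan_congr {M : DG A} {e e' : M.V} (he : M.Cycle 0 e) (he' : M.Cycle 0 e')
    (p : e = e') : M.toSpan e he = M.toSpan e' he' := by
  subst p; rfl

end arrows

variable {J J' : Type} [SmallCategory J] [SmallCategory J']

/-- Restriction of a cocycle. -/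
@[reducible] def Cocycle.restrict {A : J ⥤ SRing} (u : J' ⥤ J) (γ : Cocycle A) :
    Cocycle (u ⋙ A) where
  c ψ := γ.c (u.map ψ)
  c_id j := by rw [u.map_id]; exact γ.c_id _
  c_comp ψ χ := by rw [u.map_comp]; exact γ.c_comp _ _

namespace Mod
variable {A B : J ⥤ SRing}

theorem Equiv.refl (M : Mod A) : M.Equiv M := Relation.EqvGen.refl M
theorem Equiv.symm {M M' : Mod A} (h : M.Equiv M') : M'.Equiv M := Relation.EqvGen.symm _ _ h
theorem Equiv.trans {M M' M'' : Mod A} (h : M.Equiv M') (h' : M'.Equiv M'') : M.Equiv M'' :=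
  Relation.EqvGen.trans _ _ _ h h'
theorem Equiv.of_hom {M M' : Mod A} (g : Hom (𝟙 A) M M') (h : ∀ j, (g.app j).QIsoAway 1) :
    M.Equiv M' := Relation.EqvGen.rel _ _ ⟨g, h⟩

/-- A property that is invariant under quasi-isomorphisms is invariant under `Equiv`. -/
theorem Equiv.iff {Q : Mod A → Prop}
    (hQ : ∀ {P P' : Mod A} (g : Hom (𝟙 A) P P'), (∀ j, (g.app j).QIsoAway 1) → (Q P ↔ Q P'))
    {M M' : Mod A} (h : M.Equiv M') : Q M ↔ Q M' := by
  induction h with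
  | rel _ _ h => exact h.elim fun g hg => hQ g hg
  | refl => rfl
  | symm _ _ _ ih => exact ih.symm
  | trans _ _ _ _ _ ih ih' => exact ih.trans ih'

/-- A construction that preserves quasi-isomorphisms between objects with an invariant property
`Q` preserves `Equiv`. -/
theorem Equiv.map {A' : J' ⥤ SRing} (T : Mod A → Mod A') {Q : Mod A → Prop}
    (hQ : ∀ {P P' : Mod A} (g : Hom (𝟙 A) P P'), (∀ j, (g.app j).QIsoAway 1) → (Q P ↔ Q P'))
    (hT : ∀ {P P' : Mod A} (g : Hom (𝟙 A) P P'), (∀ j, (g.app j).QIsoAway 1) → Q P → Q P' →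
      (T P).Equiv (T P'))
    {M M' : Mod A} (h : M.Equiv M') (hM : Q M) : (T M).Equiv (T M') := by
  induction h with
  | rel _ _ h => exact h.elim fun g hg => hT g hg hM ((hQ g hg).1 hM)
  | refl => exact Equiv.refl _
  | symm _ _ h ih => exact (ih ((Equiv.iff hQ h).2 hM)).symm
  | trans _ _ _ h _ ih ih' => exact (ih hM).trans (ih' ((Equiv.iff hQ h).1 hM))

/-- Restriction of a map of diagrams. -/
@[reducible] def Hom.restrict (u : J' ⥤ J) {η : A ⟶ B} {M : Mod A} {M' : Mod B} (g : Hom η M M') :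
    Hom (Functor.whiskerLeft u η) (M.restrict u) (M'.restrict u) where
  app j := g.app (u.obj j)
  nat ψ := g.nat (u.map ψ)

/-- Restriction of a linear map of diagrams. -/
@[reducible] def Hom.restrict' (u : J' ⥤ J) {M M' : Mod A} (g : Hom (𝟙 A) M M') :
    Hom (𝟙 (u ⋙ A)) (M.restrict u) (M'.restrict u) where
  app j := g.app (u.obj j)
  nat ψ := g.nat (u.map ψ)

theorem Equiv.restrict (u : J' ⥤ J) {M M' : Mod A} (h : M.Equiv M') :
    (M.restrict u).Equiv (M'.restrict u) :=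
  Equiv.map (Mod.restrict u) (Q := fun _ => True) (fun _ _ => Iff.rfl)
    (fun g hg _ _ => Equiv.of_hom (g.restrict' u) fun j => hg (u.obj j)) h trivial

/-- Twisting a map of diagrams. -/
@[reducible] def Hom.twist {η : A ⟶ B} {M : Mod A} {M' : Mod B} (g : Hom η M M') (c : Cocycle A)
    (c' : Cocycle B)
    (h : ∀ {i j : J} (ψ : i ⟶ j), (η.app j).app 0 (c.c ψ) = c'.c ψ) :
    Hom η (M.twist c) (M'.twist c') where
  app := g.app
  nat ψ x := by
    rw [DG.Hom.scale_apply, DG.Hom.scale_apply, DG.Hom.map_smul0, h, g.nat]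

theorem Equiv.twist (c : Cocycle A) {M M' : Mod A} (h : M.Equiv M') :
    (M.twist c).Equiv (M'.twist c) :=
  Equiv.map (fun M => M.twist c) (Q := fun _ => True) (fun _ _ => Iff.rfl)
    (fun g hg _ _ => Equiv.of_hom (g.twist c c fun _ => rfl) hg) h trivial

/-- Multiplying a map of diagrams by a section `s` of the line bundle given by `c'`. -/
@[reducible] def Hom.scale {η : A ⟶ B} {M : Mod A} {M' : Mod B} (g : Hom η M M') (c : Cocycle A)
    (c' : Cocycle B) (s : ∀ j, (B.obj j).obj 0)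
    (h : ∀ {i j : J} (ψ : i ⟶ j),
      s j * (η.app j).app 0 (c.c ψ) = c'.c ψ * (B.map ψ).app 0 (s i)) :
    Hom η (M.twist c) (M'.twist c') where
  app j := (g.app j).scale (s j)
  nat ψ x := by
    rw [DG.Hom.scale_apply, DG.Hom.scale_apply, DG.Hom.scale_apply, DG.Hom.scale_apply,
      DG.Hom.map_smul0, DG.Hom.map_smul0, g.nat, smul_smul, smul_smul, ← map_mul, ← map_mul, h]

theorem PerfectOfRank.perfect {M : Mod A} {l : ℤ} (h : M.PerfectOfRank l) : M.Perfect :=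
  fun _ _ ψ => SRing.Covers.mono (h _ _ ψ) fun _ p => ⟨l, p⟩

theorem IsLine.perfect {M : Mod A} (h : M.IsLine) : M.Perfect :=
  fun _ _ ψ => (h _ _ ψ).perfect

theorem Perfect.restrict (u : J' ⥤ J) {M : Mod A} (h : M.Perfect) : (M.restrict u).Perfect :=
  fun _ _ ψ => h _ _ (u.map ψ)

theorem IsLine.restrict (u : J' ⥤ J) {M : Mod A} (h : M.IsLine) : (M.restrict u).IsLine :=
  fun _ _ ψ => h _ _ (u.map ψ)

theorem isLine_unit (A : J ⥤ SRing) : (unit A).IsLine := fun _ _ _ =>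
  SRing.covers_of_one ⟨⟨DG.Hom.id _, DG.Hom.id _, fun _ => rfl⟩,
    DG.Hom.qiso_id _ _, DG.Hom.qiso_id _ _⟩

/-- The zero module. -/
@[reducible] def zero (A : J ⥤ SRing) : Mod A where
  obj j := DG.zero (A.obj j)
  map _ := DG.Hom.zero _ _ _
  map_id _ _ := rfl
  map_comp _ _ _ := rfl

theorem perfect_zero (A : J ⥤ SRing) : (zero A).Perfect := fun _ _ _ =>
  SRing.covers_of_one ⟨0, Arr.cellular_zeroMod _ _⟩

/-- The zero map. -/
@[reducible] def Hom.toZero (η : A ⟶ B) (M : Mod A) : Hom η M (zero B) where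
  app _ := DG.Hom.zero _ _ _
  nat _ _ := rfl

/-- The kernel of a map of diagrams. -/
@[reducible] def Hom.ker {η : A ⟶ B} {M : Mod A} {M' : Mod B} (g : Hom η M M') : Mod A where
  obj j := (g.app j).ker
  map {i j} ψ := ((g.app i).kerIncl.comp (M.map ψ) (Category.id_comp _)).codSub _ _ _ fun x => by
    change (g.app j).toFun ((M.map ψ).toFun x.1) = 0
    rw [g.nat, show (g.app i).toFun x.1 = 0 from x.2, map_zero]
  map_id j x := Subtype.ext (M.map_id j x.1)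
  map_comp ψ χ x := Subtype.ext (M.map_comp ψ χ x.1)

/-- The inclusion of the kernel. -/
@[reducible] def Hom.kerIncl {η : A ⟶ B} {M : Mod A} {M' : Mod B} (g : Hom η M M') :
    Hom (𝟙 A) g.ker M where
  app j := (g.app j).kerIncl
  nat _ _ := rfl

theorem Hom.shortExact_ker {M M' : Mod A} (g : Hom (𝟙 A) M M')
    (h : ∀ j, Function.Surjective (g.app j).toFun) (j : J) :
    DG.ShortExact (g.kerIncl.app j) (g.app j) :=
  ⟨Subtype.val_injective, fun y => ⟨fun p => ⟨⟨y, p⟩, rfl⟩, fun ⟨x, p⟩ => p ▸ x.2⟩, h j⟩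

theorem Hom.isLine_ker {Q : Mod A} (π : Hom (𝟙 A) (unit A) Q) (τ : ∀ j, (A.obj j).obj 0)
    (h : ∀ j, KerGen (π.app j) (τ j))
    (h' : ∀ {i j : J} (ψ : i ⟶ j), KerGen (π.app j) ((A.map ψ).app 0 (τ i))) : π.ker.IsLine := by
  intro i j ψ
  obtain ⟨h0, hq⟩ := kerGen_iff.1 (h i)
  obtain ⟨h0', hq'⟩ := kerGen_iff.1 (h' ψ)
  refine (π.ker.map ψ).lineBaseChange_of_cycle (KerGen.cycle h0) hq ?_
  rw [ModL_toSpan_congr _ (KerGen.cycle h0') (Subtype.ext (N.map_inc (A.map ψ) (τ i)))]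
  exact hq'

theorem Hom.equiv_twist_ker {Q : Mod A} (π : Hom (𝟙 A) (unit A) Q) (τ : ∀ j, (A.obj j).obj 0)
    (h : ∀ j, KerGen (π.app j) (τ j)) (γ : Cocycle A)
    (hγ : ∀ {i j : J} (ψ : i ⟶ j), (A.map ψ).app 0 (τ i) = γ.c ψ * τ j) :
    ((unit A).twist γ).Equiv π.ker := by
  refine Equiv.of_hom ⟨fun j => (π.app j).ker.toSpan ⟨N.inc (τ j), (h j).map_eq_zero⟩
    (KerGen.cycle (h j).map_eq_zero), fun {i j} ψ x => Subtype.ext ?_⟩
    fun j => (kerGen_iff.1 (h j)).2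
  change N.inc (γ.c ψ : (A.obj j).obj 0) * N.map (A.map ψ) x * N.inc (τ j) =
    N.map (A.map ψ) (x * N.inc (τ i))
  rw [map_mul, N.map_inc, hγ, map_mul, N.inc_comm, mul_assoc]

/-- The trivial cocycle. -/
@[reducible] def _root_.Pool.Agent.P.MP_932208_ag.Ax.Cocycle.one (A : J ⥤ SRing) : Cocycle A :=
  ⟨fun _ => 1, fun _ => rfl, fun _ _ => by simp⟩

theorem equiv_twist_one (M : Mod A) : (M.twist (Cocycle.one A)).Equiv M :=
  Equiv.of_hom ⟨fun p => DG.Hom.id (M.obj p), fun _ _ => by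
    simp [DG.Hom.scale_apply, DG.Hom.id]⟩ fun _ => DG.Hom.qiso_id _ _

/-- A module over a single chart. -/
@[reducible] def single {R : SRing} (E : DG R) :
    Mod ((Functor.const (Discrete PUnit)).obj R) where
  obj _ := E
  map _ := DG.Hom.id E
  map_id _ _ := rfl
  map_comp _ _ _ := rfl

/-- A map of modules over a single chart. -/
@[reducible] def Hom.single {R : SRing} {E E' : DG R} (g : DG.Hom (𝟙 R) E E') :
    Hom (𝟙 _) (Mod.single E) (Mod.single E') where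
  app _ := g
  nat _ _ := rfl

theorem perfectOfRank_single {R : SRing} {E : DG R} {l : ℤ}
    (h : Arr.Cellular (φ := 𝟙 R) 1 l ⟨E, E, DG.Hom.id E⟩) : (single E).PerfectOfRank l :=
  fun _ _ _ => SRing.covers_of_one h

end Mod

end Pool.Agent.P.MP_932208_ag.Ax
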