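import Pool.Agent.P.MP_932208_ag.Ax.Shuffle

/-!
The Moore (normalised chain) differential graded ring `N A` of a simplicial commutative ring.
-/

namespace Pool.Agent.P.MP_932208_ag.Ax

open CategoryTheory


theorem plus_face {n : ℕ} (i : Fin (n + 2)) : plus (face i) = face i.succ := by
  ext a
  rcases Fin.eq_zero_or_eq_succ a with rfl | ⟨a, rfl⟩
  · simp [face]
  · simp [face]

theorem face_succ_zero {n : ℕ} (i : Fin (n + 1)) : (face i.succ : Op n (n + 1)) 0 = 0 := by
  simp [face]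

theorem degen_face_one (n : ℕ) :
    (degen 0 : Op (n + 1) n).comp (face (Fin.succ 0)) = OrderHom.id := by
  ext a
  rcases Fin.eq_zero_or_eq_succ a with rfl | ⟨a, rfl⟩
  · simp [face, degen]
  · simp [face, degen]

theorem degen_face_zero (n : ℕ) : (degen 0 : Op (n + 1) n).comp (face 0) = OrderHom.id := by
  ext a; simp [face, degen]

theorem face_zero_comp {k n : ℕ} (θ : Op k n) :
    (plus θ).comp (face 0) = (face 0).comp θ := by
  ext a; simp [face]

theorem SRing.Hom.based_nat {A B : SRing} (f : A ⟶ B) {k n : ℕ} (θ : Op k n) (_ : θ 0 = 0) :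
    RingSq (A.map θ) (f.app k) (f.app n) (B.map θ) := f.nat θ

/-- A map of simplicial rings as a based map. -/
def SRing.Hom.based {A B : SRing} (f : A ⟶ B) : BHom A B := ⟨f.app, @SRing.Hom.based_nat A B f⟩

/-- The zeroth face as a map from the decalage. -/
def SRing.d0Hom (A : SRing) : BHom A.dec A where
  app n := A.map (face 0)
  nat θ _ x := by
    change A.map _ (A.map _ x) = A.map _ (A.map _ x)
    rw [A.map_comp, A.map_comp, face_zero_comp]

namespace Ch
variable {A : SRing}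

/-- The differential: the zeroth face. -/
def bd (x : Ch A) : Ch A := fun n => A.map (face 0) (x (n + 1))

/-- A normalised (Moore) chain: all faces except the zeroth ones vanish. -/
def Mo (x : Ch A) : Prop := ∀ n (i : Fin (n + 1)), A.map (face i.succ) (x (n + 1)) = 0

/-- A chain with finitely many nonzero components. -/
def Bdd (x : Ch A) : Prop := ∃ b, ∀ n, b ≤ n → x n = 0

theorem bd_add (x y : Ch A) : (x + y).bd = x.bd + y.bd := by ext n; simp [bd]

theorem bd_mul (x y : Ch A) : (x * y).bd = x.bd * y + x.sgn * y.bd := by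
  have h : ∀ z : Ch A, A.d0Hom.ch z.sz = z := fun z => Ch.ext fun n => by
    change A.map _ (A.map _ _) = _
    rw [A.map_comp, degen_face_zero, A.map_id]
  have h1 : (x * y).bd = A.d0Hom.ch (x * y).tail := rfl
  have h2 : ∀ a b : Ch A.dec, A.d0Hom.ch (a + b) = A.d0Hom.ch a + A.d0Hom.ch b := fun a b =>
    Ch.ext fun n => map_add _ _ _
  rw [h1, tail_mul, h2, BHom.ch_mul, BHom.ch_mul, h, h]; rfl

theorem mo_iff {x : Ch A} :
    x.Mo ↔ ∀ n (i : Fin (n + 1)), A.map (face i.succ) (x (n + 1)) = 0 := Iff.rfl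

theorem Mo.tail {x : Ch A} (h : x.Mo) : x.tail.Mo := mo_iff.2 fun n i => by
  change A.map (plus _) (x (n + 2)) = 0
  rw [plus_face]; exact mo_iff.1 h _ _

theorem Mo.map {B : SRing} (f : BHom A B) {x : Ch A} (h : x.Mo) : (f.ch x).Mo :=
  mo_iff.2 fun n i => by
    change B.map _ (f.app _ _) = 0
    rw [← f.nat _ (face_succ_zero i), mo_iff.1 h, map_zero]

theorem Mo.sz {x : Ch A} (h : x.Mo) : x.sz.Mo := h.map A.szHom

theorem Mo.sgn {x : Ch A} (h : x.Mo) : x.sgn.Mo := mo_iff.2 fun n i => by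
  simp [Ch.sgn, mo_iff.1 h]

theorem Mo.bd_tail {x : Ch A} (h : x.Mo) : x.tail.bd = 0 := Ch.ext fun n => by
  change A.map (plus _) (x (n + 2)) = 0
  rw [plus_face]; exact mo_iff.1 h _ _

theorem bd_sz (x : Ch A) : x.sz.bd = x.tail := Ch.ext fun n => by
  change A.map (plus _) (A.map _ (x (n + 1))) = x (n + 1)
  rw [plus_face, A.map_comp, degen_face_one, A.map_id]

theorem mo_sh (n : ℕ) : ∀ (A : SRing) (x y : Ch A), x.Mo → y.Mo → ∀ i : Fin (n + 1),
    A.map (face i.succ) ((x * y) (n + 1)) = 0 := by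
  induction n with
  | zero =>
    intro A x y hx hy i
    have h1 := mo_iff.1 hx 0 i
    have h2 := mo_iff.1 hy 0 i
    change A.map _ (x 1 * _ + _ * y 1) = 0
    rw [map_add, map_mul, map_mul, h1, h2, zero_mul, mul_zero, add_zero]
  | succ n ih =>
    intro A x y hx hy i
    rw [← plus_face]
    change A.dec.map (face i) ((x * y).tail (n + 1)) = 0
    rw [tail_mul]
    rcases Fin.eq_zero_or_eq_succ i with rfl | ⟨i, rfl⟩
    · change (x.tail * y.sz + x.sgn.sz * y.tail).bd n = 0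
      rw [bd_add, bd_mul, bd_mul, hx.bd_tail, hy.bd_tail, bd_sz, bd_sz, tail_sgn, zero_mul,
        mul_zero, zero_add, add_zero, neg_mul, add_neg_cancel]
      rfl
    · rw [add_apply, map_add, ih A.dec _ _ hx.tail hy.sz, ih A.dec _ _ hx.sgn.sz hy.tail, add_zero]

theorem Mo.mul {x y : Ch A} (hx : x.Mo) (hy : y.Mo) : (x * y).Mo :=
  mo_iff.2 fun n i => mo_sh n A x y hx hy i

theorem mo_deg0 (a : A.obj 0) : (deg0 a).Mo := mo_iff.2 fun n i => map_zero _
theorem Mo.add {x y : Ch A} (hx : x.Mo) (hy : y.Mo) : (x + y).Mo :=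
  mo_iff.2 fun n i => by simp [mo_iff.1 hx, mo_iff.1 hy]
theorem Mo.neg {x : Ch A} (hx : x.Mo) : (-x).Mo := mo_iff.2 fun n i => by simp [mo_iff.1 hx]
theorem mo_zero : (0 : Ch A).Mo := mo_iff.2 fun n i => map_zero _

theorem face_face_zero {n : ℕ} (i : Fin (n + 2)) :
    (face 0 : Op (n + 1) (n + 2)).comp (face i) = (face i.succ).comp (face 0) := by
  rw [← plus_face, face_zero_comp]

theorem Mo.bd {x : Ch A} (hx : x.Mo) : x.bd.Mo := mo_iff.2 fun n i => by
  change A.map _ (A.map _ (x (n + 2))) = 0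
  rw [A.map_comp, face_face_zero, ← A.map_comp, mo_iff.1 hx, map_zero]

theorem Mo.bd_bd {x : Ch A} (hx : x.Mo) : x.bd.bd = 0 := Ch.ext fun n => by
  change A.map _ (A.map _ (x (n + 2))) = 0
  rw [A.map_comp, face_face_zero, ← A.map_comp, mo_iff.1 hx, map_zero]

theorem sgn_one : (1 : Ch A).sgn = 1 := sgn_deg0 1

theorem deg0_add (a b : A.obj 0) : deg0 (a + b) = deg0 a + deg0 b := by
  ext n; cases n <;> simp [deg0]
theorem deg0_zero : deg0 (0 : A.obj 0) = 0 := by
  ext n; cases n <;> simp [deg0]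
theorem deg0_mul (a b : A.obj 0) : deg0 (a * b) = deg0 a * deg0 b := by
  ext n; rw [sh_deg0_left]
  cases n with
  | zero =>
    have : (vert 0 0 : Op 0 0) = OrderHom.id := by ext i; simp [vert]
    rw [this, A.map_id]; rfl
  | succ n => simp [deg0]

theorem sh_eq_zero (n : ℕ) : ∀ (A : SRing) (x y : Ch A),
    (∀ p q, p + q = n → x p = 0 ∨ y q = 0) → sh n A x y = 0 := by
  induction n with
  | zero =>
    intro A x y h
    rcases h 0 0 rfl with h | h <;> simp [sh, h]
  | succ n ih =>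
    intro A x y h
    have h1 : sh n A.dec x.tail y.sz = 0 := ih _ _ _ fun p q e =>
      (h (p + 1) q (by omega)).imp id fun h => by simp [sz, h]
    have h2 : sh n A.dec x.sgn.sz y.tail = 0 := ih _ _ _ fun p q e =>
      (h p (q + 1) (by omega)).imp (fun h => by simp [sz, sgn, h]) id
    simp only [sh, h1, h2, add_zero]

theorem Bdd.mul {x y : Ch A} (hx : x.Bdd) (hy : y.Bdd) : (x * y).Bdd := by
  obtain ⟨a, ha⟩ := hx
  obtain ⟨b, hb⟩ := hy
  refine ⟨a + b, fun n hn => sh_eq_zero n A x y fun p q e => ?_⟩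
  by_cases hp : a ≤ p
  · exact Or.inl (ha p hp)
  · exact Or.inr (hb q (by omega))

theorem bdd_deg0 (a : A.obj 0) : (deg0 a).Bdd :=
  ⟨1, fun n hn => by cases n with
    | zero => omega
    | succ n => rfl⟩

theorem Bdd.add {x y : Ch A} (hx : x.Bdd) (hy : y.Bdd) : (x + y).Bdd := by
  obtain ⟨a, ha⟩ := hx
  obtain ⟨b, hb⟩ := hy
  exact ⟨a + b, fun n hn => by rw [add_apply, ha n (by omega), hb n (by omega), add_zero]⟩

theorem Bdd.of_imp {B : SRing} {x : Ch A} {y : Ch B} (hx : x.Bdd)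
    (h : ∀ n, (∀ m, n ≤ m → x m = 0) → y n = 0) : y.Bdd := by
  obtain ⟨a, ha⟩ := hx
  exact ⟨a, fun n hn => h n fun m hm => ha m (hn.trans hm)⟩

theorem Bdd.neg {x : Ch A} (hx : x.Bdd) : (-x).Bdd :=
  hx.of_imp fun n h => by rw [neg_apply, h n le_rfl, neg_zero]
theorem Bdd.bd {x : Ch A} (hx : x.Bdd) : x.bd.Bdd :=
  hx.of_imp fun n h => by simp [Ch.bd, h (n + 1) (by omega)]
theorem Bdd.sgn {x : Ch A} (hx : x.Bdd) : x.sgn.Bdd :=
  hx.of_imp fun n h => by simp [Ch.sgn, h n le_rfl]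
theorem Bdd.map {B : SRing} (f : BHom A B) {x : Ch A} (hx : x.Bdd) : (f.ch x).Bdd :=
  hx.of_imp fun n h => by simp [BHom.ch, h n le_rfl]

/-- A normalised chain with finitely many nonzero components. -/
def Nm (x : Ch A) : Prop := x.Mo ∧ x.Bdd

theorem Nm.mul {x y : Ch A} (hx : x.Nm) (hy : y.Nm) : (x * y).Nm := ⟨hx.1.mul hy.1, hx.2.mul hy.2⟩
theorem nm_deg0 (a : A.obj 0) : (deg0 a).Nm := ⟨mo_deg0 a, bdd_deg0 a⟩
theorem nm_one (A : SRing) : (1 : Ch A).Nm := nm_deg0 1
theorem Nm.add {x y : Ch A} (hx : x.Nm) (hy : y.Nm) : (x + y).Nm := ⟨hx.1.add hy.1, hx.2.add hy.2⟩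
theorem nm_zero (A : SRing) : (0 : Ch A).Nm := ⟨mo_zero, 0, fun _ _ => rfl⟩
theorem Nm.neg {x : Ch A} (hx : x.Nm) : (-x).Nm := ⟨hx.1.neg, hx.2.neg⟩

end Ch

/-- The normalised chains with finitely many components, a subring of the chains. -/
def NS (A : SRing) : Subring (Ch A) where
  carrier := {x | x.Nm}
  mul_mem' := @Ch.Nm.mul A
  one_mem' := Ch.nm_one A
  add_mem' := @Ch.Nm.add A
  zero_mem' := Ch.nm_zero A
  neg_mem' := @Ch.Nm.neg A

/-- The normalised chains `N A` with the shuffle product: the differential graded ring whose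
dg modules present the derived category of `A`. -/
abbrev N (A : SRing) : Type := NS A

namespace N
variable {A B C : SRing}

/-- The underlying chain. -/
abbrev ch (x : N A) : Ch A := x.1

/-- The element of `N A` given by a normalised chain. -/
abbrev mk (x : Ch A) (h : x.Nm) : N A := ⟨x, h⟩

theorem nm_bd (x : N A) : x.ch.bd.Nm := ⟨x.2.1.bd, x.2.2.bd⟩

/-- The zeroth face. -/
def bdFun (x : N A) : N A := mk x.ch.bd (nm_bd x)

theorem pres_bd (A : SRing) : PresAdd (bdFun (A := A)) :=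
  fun x y => Subtype.ext (Ch.bd_add x.1 y.1)

/-- The differential of `N A`. -/
def bd : N A →+ N A := (pres_bd A).hom

theorem nm_sgn (x : N A) : x.ch.sgn.Nm := ⟨x.2.1.sgn, x.2.2.sgn⟩

/-- The sign. -/
def sgFun (x : N A) : N A := mk x.ch.sgn (nm_sgn x)

theorem pres_sg (A : SRing) : PresRing (sgFun (A := A)) :=
  ⟨Subtype.ext Ch.sgn_one, fun x y => Subtype.ext (Ch.sgn_mul x.1 y.1),
    fun x y => Subtype.ext (Ch.sgn_add x.1 y.1)⟩

/-- The sign automorphism `x ↦ (-1)^{deg x} x` of `N A`. -/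
def sg : N A →+* N A := (pres_sg A).hom

/-- `x` is homogeneous of degree `k` (so `x = 0` if `k < 0`). -/
def Hg (k : ℤ) (x : N A) : Prop := ∀ n : ℕ, (n : ℤ) ≠ k → x.1 n = 0

/-- A vertex as a chain. -/
def incFun (a : A.obj 0) : N A := mk (Ch.deg0 a) (Ch.nm_deg0 a)

theorem pres_inc (A : SRing) : PresRing (incFun (A := A)) :=
  ⟨rfl, fun a b => Subtype.ext (Ch.deg0_mul a b), fun a b => Subtype.ext (Ch.deg0_add a b)⟩

/-- The inclusion of `A_0` as the degree zero part. -/
def inc : A.obj 0 →+* N A := (pres_inc A).hom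

theorem map_one_aux (f : A ⟶ B) : f.based.ch 1 = 1 := by
  ext n; cases n with
  | zero => exact map_one (f.app 0)
  | succ n => exact map_zero (f.app (n + 1))
theorem map_zero_aux (f : A ⟶ B) : f.based.ch 0 = 0 := Ch.ext fun n => map_zero (f.app n)
theorem map_add_aux (f : A ⟶ B) (x y : Ch A) :
    f.based.ch (x + y) = f.based.ch x + f.based.ch y := Ch.ext fun n => map_add (f.app n) _ _

theorem nm_map (f : A ⟶ B) (x : N A) : (f.based.ch x.ch).Nm :=
  ⟨x.2.1.map f.based, x.2.2.map f.based⟩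

/-- The image of a chain. -/
def mapFun (f : A ⟶ B) (x : N A) : N B := mk (f.based.ch x.ch) (nm_map f x)

theorem pres_map (f : A ⟶ B) : PresRing (mapFun f) :=
  ⟨Subtype.ext (map_one_aux f), fun x y => Subtype.ext (f.based.ch_mul x.1 y.1),
    fun x y => Subtype.ext (map_add_aux f x.1 y.1)⟩

/-- The map of Moore dg rings induced by a map of simplicial rings. -/
def map (f : A ⟶ B) : N A →+* N B := (pres_map f).hom

theorem ext' {x y : N A} (h : ∀ n, x.1 n = y.1 n) : x = y := Subtype.ext (Ch.ext h)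

theorem map_apply (f : A ⟶ B) (x : N A) (n : ℕ) : (map f x).1 n = f.app n (x.1 n) := rfl

theorem map_map (f : A ⟶ B) (g : B ⟶ C) (x : N A) : map g (map f x) = map (f ≫ g) x := rfl

@[simp] theorem map_id (x : N A) : map (𝟙 A) x = x := rfl

theorem map_bd (f : A ⟶ B) (x : N A) : map f (bd x) = bd (map f x) :=
  ext' fun _ => f.nat _ _

theorem map_sg (f : A ⟶ B) (x : N A) : map f (sg x) = sg (map f x) :=
  ext' fun n => by
    change f.app n ((-1) ^ n * x.1 n) = (-1) ^ n * f.app n (x.1 n)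
    simp

theorem map_inc (f : A ⟶ B) (a : A.obj 0) : map f (inc a) = inc (f.app 0 a) :=
  ext' fun n => by
    cases n with
    | zero => rfl
    | succ n => exact map_zero (f.app (n + 1))

theorem Hg.map (f : A ⟶ B) {k : ℤ} {x : N A} (h : Hg k x) : Hg k (map f x) := fun n hn => by
  rw [map_apply, h n hn, map_zero]

theorem bd_mul (x y : N A) : bd (x * y) = bd x * y + sg x * bd y :=
  Subtype.ext (Ch.bd_mul x.1 y.1)

theorem bd_bd (x : N A) : bd (bd x) = 0 := Subtype.ext x.2.1.bd_bd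

theorem bd_inc (a : A.obj 0) : bd (inc a) = 0 := ext' fun n => map_zero (A.map (face 0))

theorem sg_inc (a : A.obj 0) : sg (inc a) = inc a := Subtype.ext (Ch.sgn_deg0 a)

theorem inc_mul_apply (a : A.obj 0) (x : N A) (n : ℕ) :
    (inc a * x).1 n = A.map (vert n 0) a * x.1 n := Ch.sh_deg0_left n A a x.1

theorem inc_comm (a : A.obj 0) (x : N A) : inc a * x = x * inc a :=
  ext' fun n => (Ch.sh_deg0_left n A a x.1).trans (Ch.sh_deg0_right n A a x.1).symm

theorem Hg.mul {k l : ℤ} {x y : N A} (hx : Hg k x) (hy : Hg l y) : Hg (k + l) (x * y) :=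
  fun n hn => Ch.sh_eq_zero n A x.1 y.1 fun p q e => by
    by_cases hp : (p : ℤ) = k
    · exact Or.inr (hy q (by omega))
    · exact Or.inl (hx p hp)

theorem Hg.bd {k : ℤ} {x : N A} (hx : Hg (k + 1) x) : Hg k (bd x) := fun n hn => by
  change A.map (face 0) (x.1 (n + 1)) = 0
  rw [hx (n + 1) (by push_cast; omega), map_zero]

theorem Hg.sg {k : ℤ} {x : N A} (hx : Hg k x) : Hg k (sg x) := fun n hn => by
  change (-1) ^ n * x.1 n = 0
  rw [hx n hn, mul_zero]

theorem hg_inc (a : A.obj 0) : Hg 0 (inc a) := fun n hn => by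
  cases n with
  | zero => exact absurd rfl hn
  | succ n => rfl

theorem Hg.add {k : ℤ} {x y : N A} (hx : Hg k x) (hy : Hg k y) : Hg k (x + y) := fun n hn => by
  change x.1 n + y.1 n = 0
  rw [hx n hn, hy n hn, add_zero]

theorem hg_zero (A : SRing) (k : ℤ) : Hg k (0 : N A) := fun _ _ => rfl

theorem Hg.neg {k : ℤ} {x : N A} (hx : Hg k x) : Hg k (-x) := fun n hn => by
  change -x.1 n = 0
  rw [hx n hn, neg_zero]

/-- The chains of degree `k`. -/
def deg (A : SRing) (k : ℤ) : AddSubgroup (N A) where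
  carrier := {x | Hg k x}
  add_mem' := @Hg.add A k
  zero_mem' := hg_zero A k
  neg_mem' := @Hg.neg A k

end N

end Pool.Agent.P.MP_932208_ag.Ax
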