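import Pool.Agent.P.MP_932208_ag.Ax.Psi

/-!
The modules `F[y]` and `F[y^±]` on the Rees stack: pull back to the divisor `t = 0` and push
forward.
-/

namespace Pool.Agent.P.MP_932208_ag.Ax

open CategoryTheory

/-- A chart of a virtual Cartier divisor. -/
structure Chart where
  A : SRing
  B : SRing
  φ : A ⟶ B
  ν : A.obj 0
  surj : ∀ n, Function.Surjective (φ.app n)
  gen : KerGen (DG.unitHom φ) ν

/-- A map of charts. -/
structure ChartMap (c c' : Chart) where
  ψ : c.A ⟶ c'.A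
  β : c.B ⟶ c'.B
  comm : c.φ ≫ β = ψ ≫ c'.φ
  γ : (c'.A.obj 0)ˣ
  hν : ψ.app 0 c.ν = γ * c'.ν

/-- The identity of a chart. -/
@[reducible] def ChartMap.id (c : Chart) : ChartMap c c :=
  ⟨𝟙 _, 𝟙 _, by simp, 1, by simp⟩

/-- The exponent functions `star` and `y`. -/
structure GoodW extends Wgt where
  y_le : ∀ b, Wgt.y.φ b ≤ φ b
  step : ∀ b, φ (b + 1) - φ b = if φ b = b then 1 else 0

/-- The Rees algebra. -/
@[reducible] def GoodW.star : GoodW :=
  ⟨Wgt.star, Wgt.y_le_star, fun b => by simp only [Wgt.star]; split_ifs <;> omega⟩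

/-- The localisation at `y`. -/
@[reducible] def GoodW.y : GoodW := ⟨Wgt.y, fun _ => le_rfl, fun b => by simp [Wgt.y]⟩

namespace Chart
variable (c : Chart) (w : GoodW) (n : ℕ)

/-- The bar construction of the Rees algebra of the chart. -/
noncomputable abbrev R (w : Wgt) (n : ℕ) : SRing := Rr c.A c.ν w n

theorem φ_ν : c.φ.app 0 c.ν = (1 : (c.B.obj 0)ˣ) * 0 := by
  have h : N.map c.φ (N.inc c.ν) = 0 := c.gen.map_eq_zero
  rw [N.map_inc] at h
  rw [mul_zero]
  exact congrFun (congrArg Subtype.val h) 0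

/-- The map `R → B[y^±]`, `t ↦ 0`. -/
noncomputable def ρ : c.R w.toWgt n ⟶ LB c.B n := Rr.map c.φ 1 c.φ_ν w.y_le OrderHom.id

theorem ρ_mon (e : Lam n) (a : N c.A) : N.map (c.ρ w n) ((Rr.mon e).toFun a) =
    if w.φ e.degree = e.degree then (Rr.mon e).toFun (N.map c.φ a) else 0 := by
  rw [ρ, Rr.map_mon, Lam.push_id]
  have hy : Wgt.y.φ e.degree = e.degree := rfl
  have hle := w.y_le e.degree
  split_ifs with h
  · have h0 : (w.φ e.degree - Wgt.y.φ e.degree).toNat = 0 := by omega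
    rw [Wgt.fac, h0, one_zpow, pow_zero, Units.val_one, mul_one, map_one, one_mul]
  · have h0 : (w.φ e.degree - Wgt.y.φ e.degree).toNat ≠ 0 := by omega
    rw [Wgt.fac, zero_pow h0, mul_zero, map_zero, zero_mul, map_zero]

theorem Phi_mon_smul_apply {B : SRing} {n : ℕ} (E : DG B) (e e' : Lam n) (b : N B)
    (x : Lam n →₀ E.V) :
    ((Rr.mon (ν := 0) (w := Wgt.y) e).toFun b • x) e' = b • x (e' - e) := by
  induction x using Finsupp.induction_linear with
  | zero => rw [smul_zero, Finsupp.zero_apply, Finsupp.zero_apply, smul_zero]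
  | add x y hx hy => rw [smul_add, Finsupp.add_apply, Finsupp.add_apply, hx, hy, smul_add]
  | single e₁ v =>
    rw [E.mon_smul_single]
    by_cases h : e + e₁ = e'
    · subst h
      rw [Finsupp.single_eq_same, add_sub_cancel_left, Finsupp.single_eq_same]
    · rw [Finsupp.single_eq_of_ne (Ne.symm h), Finsupp.single_eq_of_ne, smul_zero]
      intro h'
      exact h (by rw [← h']; abel)

theorem Phi_good_add {a b : ℤ} (ha : w.φ a = a) (hb : w.φ b = b) : w.φ (a + b) = a + b := by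
  have h₁ := w.sub a b
  have h₂ : a + b ≤ w.φ (a + b) := w.y_le (a + b)
  omega

theorem Phi_smul_supp (E : DG c.B) (a : N (c.R w.toWgt n)) (x : Lam n →₀ E.V)
    (hx : ∀ e : Lam n, ¬ w.φ e.degree = e.degree → x e = 0) (e : Lam n)
    (he : ¬ w.φ e.degree = e.degree) : (N.map (c.ρ w n) a • x) e = 0 := by
  induction a using Rr.induction with
  | h0 => rw [map_zero, zero_smul, Finsupp.zero_apply]
  | hadd a b ha hb => rw [map_add, add_smul, Finsupp.add_apply, ha, hb, add_zero]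
  | hm e₁ a =>
    rw [ρ_mon]
    split_ifs with h
    · rw [Phi_mon_smul_apply, hx, smul_zero]
      intro h'
      have := Phi_good_add w h h'
      rw [← map_add, add_sub_cancel] at this
      exact he this
    · rw [zero_smul, Finsupp.zero_apply]

/-- The elements supported on the exponents with `φ |e| = |e|`. -/
def supp (E : DG c.B) : Submodule (N (c.R w.toWgt n)) ((E.laurent n).res (c.ρ w n)).V where
  carrier := {x | ∀ e : Lam n, ¬ w.φ e.degree = e.degree →
    DFunLike.coe (F := Lam n →₀ E.V) x e = 0}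
  add_mem' {x y} hx hy e he := by
    have h : DFunLike.coe (F := Lam n →₀ E.V) (x + y) e =
      DFunLike.coe (F := Lam n →₀ E.V) x e + DFunLike.coe (F := Lam n →₀ E.V) y e := rfl
    rw [h, hx e he, hy e he, add_zero]
  zero_mem' _ _ := rfl
  smul_mem' a x hx e he := c.Phi_smul_supp w n E a x hx e he

theorem proj_mem_supp (E : DG c.B) (k : ℤ) (x) (h : x ∈ c.supp w n E) :
    ((E.laurent n).res (c.ρ w n)).proj k x ∈ c.supp w n E := fun e he =>
  (E.laurent_proj k x e).trans (by rw [h e he, map_zero])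

theorem d_mem_supp (E : DG c.B) (x) (h : x ∈ c.supp w n E) :
    ((E.laurent n).res (c.ρ w n)).d x ∈ c.supp w n E := fun e he => by
  have h' : DFunLike.coe (F := Lam n →₀ E.V) (((E.laurent n).res (c.ρ w n)).d x) e =
    E.d (DFunLike.coe (F := Lam n →₀ E.V) x e) := rfl
  rw [h', h e he, map_zero]

/-- `E[y]` for `w = star`, `E[y^±]` for `w = y`. -/
noncomputable def G (E : DG c.B) : DG (c.R w.toWgt n) :=
  ((E.laurent n).res (c.ρ w n)).sub (c.supp w n E) (c.proj_mem_supp w n E) (c.d_mem_supp w n E)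

variable {c w n} {E : DG c.B}

/-- The coefficients of an element of `G`. -/
noncomputable def val : (c.G w n E).V →+ (Lam n →₀ E.V) := (c.supp w n E).subtype.toAddMonoidHom

/-- An element of `G` from its coefficients. -/
def mkG (x : Lam n →₀ E.V) (h : ∀ e : Lam n, ¬ w.φ e.degree = e.degree → x e = 0) :
    (c.G w n E).V := ⟨x, h⟩

theorem val_mkG (x : Lam n →₀ E.V) (h : ∀ e : Lam n, ¬ w.φ e.degree = e.degree → x e = 0) :
    val (mkG x h : (c.G w n E).V) = x := rfl

theorem val_injective : Function.Injective (val : (c.G w n E).V → _) := Subtype.val_injective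

theorem val_eq_zero (x : (c.G w n E).V) {e : Lam n} (h : ¬ w.φ e.degree = e.degree) :
    val x e = 0 := x.2 e h

theorem val_smul (a : N (c.R w.toWgt n)) (x : (c.G w n E).V) :
    val (a • x) = N.map (c.ρ w n) a • val x := rfl

theorem val_d (x : (c.G w n E).V) (e : Lam n) : val ((c.G w n E).d x) e = E.d (val x e) := rfl

theorem mem_gr {k : ℤ} {x : (c.G w n E).V} :
    x ∈ (c.G w n E).gr k ↔ ∀ e, val x e ∈ E.gr k := Iff.rfl

theorem Phi_ext {x y : (c.G w n E).V} (h : ∀ e, val x e = val y e) : x = y :=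
  val_injective (Finsupp.ext h)

theorem Phi_ρ_ι (a : N c.A) : N.map (c.ρ w n) (N.map (Rr.ι c.A c.ν w.toWgt n) a) =
    (Rr.mon (0 : Lam n)).toFun (N.map c.φ a) := by
  have h : N.map (Rr.ι c.A c.ν w.toWgt n) a = (Rr.mon (0 : Lam n)).toFun a := by
    rw [Rr.mon_apply, Rr.mono_zero, map_one, one_mul]
  rw [h, ρ_mon, if_pos]
  rw [map_zero]; exact w.zero

theorem Phi_val_ι_smul (a : N c.A) (x : (c.G w n E).V) (e : Lam n) :
    val (N.map (Rr.ι c.A c.ν w.toWgt n) a • x) e = N.map c.φ a • val x e := by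
  rw [val_smul, Phi_ρ_ι, Phi_mon_smul_apply, sub_zero]

theorem Phi_val_inc_smul (f : c.A.obj 0) (m : ℕ) (x : (c.G w n E).V) (e : Lam n) :
    val (N.inc ((Rr.ι c.A c.ν w.toWgt n).app 0 f ^ m) • x) e =
      N.inc (c.φ.app 0 f ^ m) • val x e := by
  rw [← map_pow, ← N.map_inc, Phi_val_ι_smul, N.map_inc, map_pow (c.φ.app 0)]

theorem Phi_single_supp {e : Lam n} (he : w.φ e.degree = e.degree) (v : E.V) (e' : Lam n)
    (h : ¬ w.φ e'.degree = e'.degree) : Finsupp.single e v e' = 0 :=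
  Finsupp.single_eq_of_ne fun p => h (p ▸ he)

/-- The element `v u_e` of `G`. -/
noncomputable def Phi_sing {e : Lam n} (he : w.φ e.degree = e.degree) :
    E.V →+ (c.G w n E).V :=
  AddMonoidHom.mk' (fun v => mkG (Finsupp.single e v) (Phi_single_supp he v)) fun v v' =>
    val_injective (by rw [map_add]; exact Finsupp.single_add e v v')

theorem Phi_val_sing {e : Lam n} (he : w.φ e.degree = e.degree) (v : E.V) :
    val (Phi_sing (c := c) he v) = Finsupp.single e v := rfl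

theorem Phi_sing_map {c' : Chart} {w' : GoodW} {E' : DG c'.B} (T : (c.G w n E).V → (c'.G w' n E').V)
    (t : E.V →+ E'.V) (hT : ∀ x e, val (T x) e = t (val x e)) {e : Lam n}
    (he : w.φ e.degree = e.degree) (he' : w'.φ e.degree = e.degree) (v : E.V) :
    T (Phi_sing he v) = Phi_sing he' (t v) := Phi_ext fun e' => by
  rw [hT, Phi_val_sing, Phi_val_sing]
  by_cases h : e = e'
  · subst h; rw [Finsupp.single_eq_same, Finsupp.single_eq_same]
  · rw [Finsupp.single_eq_of_ne (Ne.symm h), Finsupp.single_eq_of_ne (Ne.symm h), map_zero]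

theorem Phi_d_sing {e : Lam n} (he : w.φ e.degree = e.degree) (v : E.V) :
    (c.G w n E).d (Phi_sing he v) = Phi_sing he (E.d v) :=
  Phi_sing_map _ E.d val_d he he v

theorem Phi_ι_smul_sing {e : Lam n} (he : w.φ e.degree = e.degree) (a : N c.A) (v : E.V) :
    N.map (Rr.ι c.A c.ν w.toWgt n) a • (Phi_sing he v : (c.G w n E).V) =
      Phi_sing he (N.map c.φ a • v) :=
  Phi_sing_map (fun x => N.map (Rr.ι c.A c.ν w.toWgt n) a • x)
    (DistribSMul.toAddMonoidHom E.V (N.map c.φ a)) (Phi_val_ι_smul a) he he v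

theorem Phi_inc_smul_sing {e : Lam n} (he : w.φ e.degree = e.degree) (f : c.A.obj 0) (m : ℕ)
    (v : E.V) :
    N.inc ((Rr.ι c.A c.ν w.toWgt n).app 0 f ^ m) • (Phi_sing he v : (c.G w n E).V) =
      Phi_sing he (N.inc (c.φ.app 0 f ^ m) • v) := by
  rw [← map_pow, ← N.map_inc, Phi_ι_smul_sing, N.map_inc, map_pow (c.φ.app 0)]

theorem Phi_sing_mem {e : Lam n} (he : w.φ e.degree = e.degree) {k : ℤ} {v : E.V}
    (hv : v ∈ E.gr k) : (Phi_sing he v : (c.G w n E).V) ∈ (c.G w n E).gr k := mem_gr.2 fun e' => by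
  rw [Phi_val_sing]
  by_cases h : e = e'
  · subst h; rwa [Finsupp.single_eq_same]
  · rw [Finsupp.single_eq_of_ne (Ne.symm h)]; exact zero_mem _

theorem Phi_sing_cycle {e : Lam n} (he : w.φ e.degree = e.degree) {k : ℤ} {v : E.V}
    (hv : E.Cycle k v) : (c.G w n E).Cycle k (Phi_sing he v) :=
  ⟨Phi_sing_mem he hv.1, by rw [Phi_d_sing, hv.2, map_zero]⟩

theorem Phi_sing_bdry {e : Lam n} (he : w.φ e.degree = e.degree) {k : ℤ} {v : E.V}
    (hv : E.Bdry k v) : (c.G w n E).Bdry k (Phi_sing he v) := by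
  obtain ⟨y, hy, rfl⟩ := hv
  exact ⟨_, Phi_sing_mem he hy, Phi_d_sing he y⟩

theorem Phi_cycle_val {k : ℤ} {x : (c.G w n E).V} (h : (c.G w n E).Cycle k x) (e : Lam n) :
    E.Cycle k (val x e) :=
  ⟨mem_gr.1 h.1 e, by rw [← val_d, h.2, map_zero, Finsupp.zero_apply]⟩

theorem Phi_bdry_val {k : ℤ} {x : (c.G w n E).V} (h : (c.G w n E).Bdry k x) (e : Lam n) :
    E.Bdry k (val x e) := by
  obtain ⟨y, hy, rfl⟩ := h
  exact ⟨val y e, mem_gr.1 hy e, (val_d y e).symm⟩

/-- An element of `G` is the sum of its terms. -/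
theorem Phi_ind {P : (c.G w n E).V → Prop} (h0 : P 0) (hadd : ∀ x y, P x → P y → P (x + y))
    (x : (c.G w n E).V) (hs : ∀ (e : Lam n) (he : w.φ e.degree = e.degree),
      P (Phi_sing he (val x e))) : P x := by
  have hg : ∀ e : (val x).support, w.φ e.1.degree = e.1.degree := fun e =>
    by_contra fun h => Finsupp.mem_support_iff.1 e.2 (val_eq_zero x h)
  have hx : x = ∑ e : (val x).support, Phi_sing (hg e) (val x e.1) := val_injective (by
    rw [map_sum]
    simp only [Phi_val_sing]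
    rw [Finset.sum_coe_sort (val x).support fun e => Finsupp.single e (val x e)]
    exact (Finsupp.sum_single (val x)).symm)
  rw [hx]
  exact Finset.sum_induction _ P hadd h0 fun e _ => hs e.1 (hg e)

end Chart

namespace ChartMap
variable {c c' : Chart} (f : ChartMap c c') {w w' : GoodW} (hw : ∀ b, w'.φ b ≤ w.φ b) {n n' : ℕ}
  (θ : Op n n')

/-- The map of Rees algebras. -/
noncomputable abbrev R {w w' : Wgt} (hw : ∀ b, w'.φ b ≤ w.φ b) (θ : Op n n') :
    c.R w n ⟶ c'.R w' n' := Rr.map f.ψ f.γ f.hν hw θ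

/-- The image of `γ` in `B'`. -/
abbrev γB : (c'.B.obj 0)ˣ := Units.map (c'.φ.app 0).toMonoidHom f.γ

theorem Phi_ρ_comm : c.ρ w n ≫ Rr.map f.β f.γB (map_zero_eq _ _) (fun _ => le_rfl) θ =
    f.R hw θ ≫ c'.ρ w' n' := by
  have hν : SRing.Hom.app (c.φ ≫ f.β) 0 c.ν = f.γB * 0 := by
    rw [SRing.comp_app, c.φ_ν, mul_zero, mul_zero, map_zero]
  exact (Rr.map_comp (hν'' := hν) (hw'' := w.y_le) (θ'' := θ) rfl (by rw [map_one, mul_one])
    (OrderHom.comp_id _)).trans
    (Rr.map_comp f.comm.symm (one_mul _) (OrderHom.id_comp _)).symm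

include hw in
theorem Phi_T_supp {E : DG c.B} {E' : DG c'.B} (g : DG.Hom f.β E E') (x : (c.G w n E).V)
    (e : Lam n') (he : ¬ w'.φ e.degree = e.degree) :
    DG.laurFun g f.γB θ (Chart.val x) e = 0 :=
  DG.laurFun_degree g f.γB θ (P := fun b => w'.φ b = b) (fun e' he' => Chart.val_eq_zero x fun h => by
    have h₁ := hw e'.degree
    have h₂ : e'.degree ≤ w'.φ e'.degree := w'.y_le e'.degree
    exact he' (by omega)) e he

/-- Functoriality of `G`. -/
noncomputable def T {E : DG c.B} {E' : DG c'.B} (g : DG.Hom f.β E E') :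
    DG.Hom (f.R hw θ) (c.G w n E) (c'.G w' n' E') where
  toFun := AddMonoidHom.mk' (fun x => Chart.mkG (DG.laurFun g f.γB θ (Chart.val x))
    (f.Phi_T_supp hw θ g x)) fun x y => Chart.val_injective (by
      rw [Chart.val_mkG, map_add, map_add, map_add, Chart.val_mkG, Chart.val_mkG])
  map_smul a x := Chart.val_injective (by
    rw [Chart.val_smul, N.map_map, ← f.Phi_ρ_comm hw θ, ← N.map_map]
    exact (DG.laurMap g f.γB θ).map_smul (N.map (c.ρ w n) a) (Chart.val x))
  map_gr h := Chart.mem_gr.2 ((DG.laurMap g f.γB θ).map_gr (Chart.mem_gr.1 h))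
  map_d x := Chart.val_injective ((DG.laurMap g f.γB θ).map_d (Chart.val x))

theorem T_val {E : DG c.B} {E' : DG c'.B} (g : DG.Hom f.β E E') (x : (c.G w n E).V) :
    Chart.val ((f.T hw θ g).toFun x) = DG.laurFun g f.γB θ (Chart.val x) := rfl

end ChartMap

namespace Chart
variable (c : Chart) (w : GoodW) (n : ℕ)

/-- `G` on linear maps. -/
noncomputable def Gmap {E E' : DG c.B} (g : DG.Hom (𝟙 c.B) E E') :
    DG.Hom (𝟙 _) (c.G w n E) (c.G w n E') :=
  ((ChartMap.id c).T (fun _ => le_rfl) OrderHom.id g).cast (Rr.map_id rfl rfl rfl)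

theorem Gmap_val {E E' : DG c.B} (g : DG.Hom (𝟙 c.B) E E') (x : (c.G w n E).V) :
    val ((c.Gmap w n g).toFun x) = DG.laurFun g 1 OrderHom.id (val x) := by
  rw [← map_one (Units.map (c.φ.app 0).toMonoidHom)]; rfl

theorem Phi_Gmap_apply {E E' : DG c.B} (g : DG.Hom (𝟙 c.B) E E') (x : (c.G w n E).V) (e : Lam n) :
    val ((c.Gmap w n g).toFun x) e = g.toFun (val x e) := by
  rw [Gmap_val, DG.laurFun_one_apply]

theorem Phi_Gmap_sing {E E' : DG c.B} (g : DG.Hom (𝟙 c.B) E E') {e : Lam n}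
    (he : w.φ e.degree = e.degree) (v : E.V) :
    (c.Gmap w n g).toFun (Phi_sing he v) = Phi_sing he (g.toFun v) :=
  Phi_sing_map _ g.toFun (c.Phi_Gmap_apply w n g) he he v

theorem Phi_mem_range {E E' : DG c.B} (g : DG.Hom (𝟙 c.B) E E') (y : (c.G w n E').V)
    (h : ∀ e, ∃ v, g.toFun v = val y e) : ∃ x, (c.Gmap w n g).toFun x = y := by
  refine Phi_ind (P := fun y => ∃ x, (c.Gmap w n g).toFun x = y) ⟨0, map_zero _⟩ ?_ y ?_
  · rintro _ _ ⟨x, rfl⟩ ⟨x', rfl⟩
    exact ⟨x + x', map_add _ _ _⟩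
  · intro e he
    obtain ⟨v, hv⟩ := h e
    exact ⟨Phi_sing he v, by rw [Phi_Gmap_sing, hv]⟩

theorem Gmap_ses {E₁ E₂ E₃ : DG c.B} {i : DG.Hom (𝟙 c.B) E₁ E₂} {p : DG.Hom (𝟙 c.B) E₂ E₃}
    (h : DG.ShortExact i p) : DG.ShortExact (c.Gmap w n i) (c.Gmap w n p) := by
  refine ⟨fun x y e => Phi_ext fun e' => h.1 ?_, fun y => ⟨fun hy => ?_, ?_⟩, fun y => ?_⟩
  · rw [← Phi_Gmap_apply, ← Phi_Gmap_apply, e]
  · refine c.Phi_mem_range w n i y fun e => (h.2.1 _).1 ?_
    rw [← Phi_Gmap_apply, hy, map_zero, Finsupp.zero_apply]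
  · rintro ⟨x, rfl⟩
    refine Phi_ext fun e => ?_
    rw [Phi_Gmap_apply, Phi_Gmap_apply, map_zero, Finsupp.zero_apply]
    exact (h.2.1 _).2 ⟨_, rfl⟩
  · exact c.Phi_mem_range w n p y fun e => h.2.2 _

theorem Gmap_qiso {E E' : DG c.B} {g : DG.Hom (𝟙 c.B) E E'} {f : c.A.obj 0}
    (h : g.QIsoAway (c.φ.app 0 f)) :
    (c.Gmap w n g).QIsoAway ((Rr.ι c.A c.ν w.toWgt n).app 0 f) := by
  intro k
  set s := (Rr.ι c.A c.ν w.toWgt n).app 0 f with hs
  refine ⟨fun y hy => ?_, fun x hx hb => ?_⟩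
  · refine Phi_ind (P := fun y => ∃ (m : ℕ) (x : (c.G w n E).V), (c.G w n E).Cycle k x ∧
      (c.G w n E').Bdry k ((c.Gmap w n g).toFun x - N.inc (s ^ m) • y)) ?_ ?_ y ?_
    · exact ⟨0, 0, ((c.G w n E).Z k).zero_mem, by
        rw [map_zero, smul_zero, sub_zero]; exact ((c.G w n E').Bd k).zero_mem⟩
    · rintro y y' ⟨m, x, hx, p⟩ ⟨m', x', hx', p'⟩
      refine ⟨m' + m, N.inc (s ^ m') • x + N.inc (s ^ m) • x',
        ((c.G w n E).Z k).add_mem (((c.G w n E).Z k).smul_mem _ hx)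
          (((c.G w n E).Z k).smul_mem _ hx'), ?_⟩
      have q := ((c.G w n E').Bd k).add_mem (((c.G w n E').Bd k).smul_mem (s ^ m') p)
        (((c.G w n E').Bd k).smul_mem (s ^ m) p')
      rw [DG.smul0, DG.smul0, smul_sub, smul_sub, smul_smul, smul_smul, ← map_mul, ← map_mul,
        ← pow_add, ← pow_add, add_comm m m'] at q
      rw [map_add, DG.Hom.map_smul0, DG.Hom.map_smul0, SRing.id_app, SRing.id_app, smul_add,
        add_sub_add_comm]
      exact q
    · intro e he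
      obtain ⟨m, v, hv, p⟩ := (h k).1 _ (Phi_cycle_val hy e)
      refine ⟨m, Phi_sing he v, Phi_sing_cycle he hv, ?_⟩
      rw [Phi_Gmap_sing, hs, Phi_inc_smul_sing, ← map_sub]
      exact Phi_sing_bdry he p
  · refine Phi_ind (P := fun x => ∃ m : ℕ, (c.G w n E).Bdry k (N.inc (s ^ m) • x)) ?_ ?_ x ?_
    · exact ⟨0, by rw [smul_zero]; exact ((c.G w n E).Bd k).zero_mem⟩
    · rintro x x' ⟨m, p⟩ ⟨m', p'⟩
      have q := ((c.G w n E).Bd k).add_mem (((c.G w n E).Bd k).smul_mem (s ^ m') p)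
        (((c.G w n E).Bd k).smul_mem (s ^ m) p')
      rw [DG.smul0, DG.smul0, smul_smul, smul_smul, ← map_mul, ← map_mul,
        ← pow_add, ← pow_add, add_comm m m', ← smul_add] at q
      exact ⟨m' + m, q⟩
    · intro e he
      obtain ⟨m, p⟩ := (h k).2 _ (Phi_cycle_val hx e) (by
        rw [← c.Phi_Gmap_apply w n g]; exact Phi_bdry_val hb e)
      refine ⟨m, ?_⟩
      rw [hs, Phi_inc_smul_sing]
      exact Phi_sing_bdry he p

/-- `G` as an exact functor. -/
@[reducible] noncomputable def Φ : ExFun c.B (c.R w.toWgt n) :=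
  ⟨c.G w n, c.Gmap w n, c.Gmap_ses w n⟩

theorem Phi_good_zero : w.φ (0 : Lam n).degree = (0 : Lam n).degree := by
  rw [map_zero]; exact w.zero

/-- The inclusion of the coefficient of `u_0`. -/
noncomputable def incl (E : DG c.B) :
    DG.Hom (Rr.ι c.A c.ν w.toWgt n) (E.res c.φ) (c.G w n E) where
  toFun := AddMonoidHom.mk' (fun x => mkG (Finsupp.single (0 : Lam n) x)
    (Phi_single_supp (Phi_good_zero w n) x)) (Phi_sing (Phi_good_zero w n)).map_add
  map_smul a x := (Phi_ι_smul_sing (Phi_good_zero w n) a x).symm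
  map_gr h := Phi_sing_mem (Phi_good_zero w n) h
  map_d x := (Phi_d_sing (Phi_good_zero w n) x).symm

theorem incl_val (E : DG c.B) (x : E.V) :
    val ((c.incl w n E).toFun x) = Finsupp.single 0 x := rfl

theorem cycle_incl_one :
    (c.G w n (DG.unit c.B)).Cycle 0 ((c.incl w n (DG.unit c.B)).toFun (1 : N c.B)) :=
  (c.incl w n _).cycle ⟨N.hg_inc 1, N.bd_inc 1⟩

/-- The projection `R → R / t`. -/
noncomputable def π : DG.Hom (𝟙 _) (DG.unit (c.R w.toWgt n)) (c.G w n (DG.unit c.B)) :=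
  DG.toSpan _ _ (c.cycle_incl_one w n)

end Chart

end Pool.Agent.P.MP_932208_ag.Ax
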