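import Pool.Agent.P.MP_932208_ag.Ax.Phi

/-!
The ideal of the divisor `t = 0` is a line bundle; `G` preserves perfect complexes.
-/

namespace Pool.Agent.P.MP_932208_ag.Ax

open CategoryTheory

theorem PhiC_neg_one (w : GoodW) : w.φ (-1) ≤ 0 := by
  have h := w.step (-1)
  rw [show (-1 : ℤ) + 1 = 0 from rfl, w.zero] at h
  split_ifs at h <;> omega

theorem PhiC_exp (w : GoodW) (b : ℤ) :
    w.toWgt.κ (b + 1) (-1) + (-w.φ (-1)).toNat = if w.φ b = b then 1 else 0 := by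
  have h1 := PhiC_neg_one w
  have h2 := w.step b
  have h3 := w.sub (b + 1) (-1)
  rw [Wgt.κ]
  rw [show b + 1 + -1 = b by ring] at h3 ⊢
  split_ifs at h2 ⊢ <;> omega

theorem PhiC_sum {A : SRing} {ν : A.obj 0} {w : Wgt} {n : ℕ} (x : N (Rr A ν w n)) :
    x = ∑ e ∈ (Rr.coefE x).support, (Rr.mon e).toFun (Rr.coefE x e) := by
  apply Rr.coefE.injective
  rw [map_sum]
  exact (Finsupp.sum_single (Rr.coefE x)).symm.trans
    (Finset.sum_congr rfl fun e _ => (Rr.coefE_mon e _).symm)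

theorem PhiC_coef_cycle {A : SRing} {ν : A.obj 0} {w : Wgt} {n : ℕ} {k : ℤ} {x : N (Rr A ν w n)}
    (h : (DG.unit _).Cycle k x) (e : Lam n) : (DG.unit A).Cycle k (Rr.coefE x e) :=
  (Rr.coef e).cycle h

theorem PhiC_bdry {A : SRing} {ν : A.obj 0} {w : Wgt} {n : ℕ} {k : ℤ} {x : N (Rr A ν w n)}
    (h : ∀ e, (DG.unit A).Bdry k (Rr.coefE x e)) : (DG.unit _).Bdry k x := by
  rw [PhiC_sum x]
  exact ((DG.unit (Rr A ν w n)).Bd k).sum_mem fun e _ => (Rr.mon e).bdry (h e)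

theorem PhiC_kerGen_res {A B : SRing} {φ : A ⟶ B} {τ : A.obj 0} (h : KerGen (DG.unitHom φ) τ) :
    KerGen (DG.unitHom φ).toRes τ :=
  kerGen_iff'.2 (kerGen_iff'.1 h)

namespace Chart
variable (c : Chart) (w : GoodW) (n : ℕ)

theorem π_mon (e : Lam n) (a : N c.A) : val ((c.π w n).toFun ((Rr.mon e).toFun a)) =
    if w.φ e.degree = e.degree then Finsupp.single e (N.map c.φ a) else 0 := by
  rw [π, DG.toSpan_apply, val_smul, incl_val, ρ_mon]
  split_ifs with h
  · refine (DG.mon_smul_single (DG.unit c.B) e 0 (N.map c.φ a) (1 : N c.B)).trans ?_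
    rw [add_zero, smul_eq_mul, mul_one]
  · refine (DG.laur_smul (DG.unit c.B) 0 _).trans ?_
    rw [map_zero]
    rfl

theorem π_apply (x : N (c.R w.toWgt n)) (e : Lam n) : val ((c.π w n).toFun x) e =
    if w.φ e.degree = e.degree then N.map c.φ (Rr.coefE x e) else 0 := by
  induction x using Rr.induction with
  | h0 => simp
  | hm e' a =>
    rw [π_mon, Rr.coefE_mon]
    by_cases h : e' = e
    · subst h
      split_ifs <;> simp
    · rw [Finsupp.single_eq_of_ne (Ne.symm h), map_zero, ite_self]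
      split_ifs
      · exact Finsupp.single_eq_of_ne (Ne.symm h)
      · rfl
  | hadd x y hx hy =>
    rw [map_add, map_add, Finsupp.add_apply, hx, hy, map_add, Finsupp.add_apply]
    split_ifs
    · rw [map_add]
    · exact add_zero _

theorem π_surjective : Function.Surjective (c.π w n).toFun := by
  intro y
  obtain ⟨z, hz⟩ := Finsupp.mapRange_surjective (α := Lam n) (N.map c.φ) (map_zero _)
    (N.map_surjective c.φ c.surj) (val y)
  refine ⟨Rr.coefE.symm z, val_injective (Finsupp.ext fun e => ?_)⟩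
  rw [π_apply, AddEquiv.apply_symm_apply]
  split_ifs with h
  · rw [← hz, Finsupp.mapRange_apply]
  · exact (val_eq_zero y h).symm

theorem PhiC_π_eq_zero {x : N (c.R w.toWgt n)} : (c.π w n).toFun x = 0 ↔
    ∀ e : Lam n, w.φ e.degree = e.degree → N.map c.φ (Rr.coefE x e) = 0 := by
  constructor
  · intro h e he
    have := c.π_apply w n x e
    rw [h, if_pos he, map_zero] at this
    exact this.symm
  · intro h
    refine val_injective (Finsupp.ext fun e => ?_)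
    rw [π_apply, map_zero]
    split_ifs with he
    · exact h e he
    · rfl

/-- The equation `t` of the divisor. -/
noncomputable def τ (w : Wgt) (n : ℕ) : (c.R w n).obj 0 :=
  (Rr.ι c.A c.ν w n).app 0 (c.ν ^ (-w.φ (-1)).toNat) * Rr.mono c.A c.ν w (Finsupp.single 0 (-1))

theorem τ_star (n : ℕ) : c.τ Wgt.star n = Rr.mono c.A c.ν Wgt.star (Finsupp.single 0 (-1)) := by
  rw [τ, show (-Wgt.star.φ (-1)).toNat = 0 from rfl, pow_zero, map_one, one_mul]

theorem PhiC_inc_τ (w : Wgt) : N.inc (c.τ w n) =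
    (Rr.mon (Finsupp.single 0 (-1))).toFun (N.inc (c.ν ^ (-w.φ (-1)).toNat)) := by
  rw [Rr.mon_apply, N.map_inc, ← map_mul, τ, mul_comm]

theorem PhiC_mon_τ (e : Lam n) (a : N c.A) :
    (Rr.mon (e + Finsupp.single 0 1)).toFun a * N.inc (c.τ w.toWgt n) =
      (Rr.mon e).toFun (if w.φ e.degree = e.degree then a * N.inc c.ν else a) := by
  rw [PhiC_inc_τ, Rr.mon_mul, add_assoc, ← Finsupp.single_add, add_neg_cancel,
    Finsupp.single_zero, add_zero, ← N.inc_comm, ← mul_assoc, ← map_mul, ← pow_add, map_add,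
    Finsupp.degree_single, Finsupp.degree_single, PhiC_exp]
  split_ifs
  · rw [pow_one, N.inc_comm]
  · rw [pow_zero, map_one, one_mul]

theorem PhiC_coef_τ (x : N (c.R w.toWgt n)) (e : Lam n) :
    Rr.coefE (x * N.inc (c.τ w.toWgt n)) e =
      if w.φ e.degree = e.degree then Rr.coefE x (e + Finsupp.single 0 1) * N.inc c.ν
      else Rr.coefE x (e + Finsupp.single 0 1) := by
  induction x using Rr.induction with
  | h0 => simp
  | hm e' a =>
    obtain ⟨e'', rfl⟩ : ∃ e'', e' = e'' + Finsupp.single 0 1 := ⟨e' - Finsupp.single 0 1, by simp⟩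
    rw [PhiC_mon_τ, Rr.coefE_mon, Rr.coefE_mon]
    by_cases h : e'' = e
    · subst h
      simp only [Finsupp.single_eq_same]
    · rw [Finsupp.single_eq_of_ne (Ne.symm h),
        Finsupp.single_eq_of_ne fun h' => h (add_right_cancel h').symm, zero_mul, ite_self]
  | hadd x y hx hy =>
    rw [add_mul, map_add, Finsupp.add_apply, hx, hy, map_add Rr.coefE x y, Finsupp.add_apply]
    split_ifs
    · rw [add_mul]
    · rfl

theorem kerGen_π : KerGen (c.π w n) (c.τ w.toWgt n) := by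
  obtain ⟨g0, hg⟩ := kerGen_iff'.1 c.gen
  have g0' : N.map c.φ (N.inc c.ν) = 0 := g0
  refine kerGen_iff'.2 ⟨?_, fun k => ⟨fun x hx h => ?_, fun a b ha hb h e => ?_⟩⟩
  · refine (c.PhiC_π_eq_zero w n).2 fun e he => ?_
    rw [← one_mul (N.inc _), PhiC_coef_τ, if_pos he, map_mul, g0', mul_zero]
  · rw [PhiC_sum x]
    refine Finset.sum_induction _ (fun x => ∃ a b, (DG.unit _).Cycle k a ∧
      b ∈ N.deg _ (k + 1) ∧ (c.π w n).toFun b = 0 ∧ x = a * N.inc (c.τ w.toWgt n) + N.bd b)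
      ?_ ?_ fun e _ => ?_
    · rintro _ _ ⟨a, b, h1, h2, h3, rfl⟩ ⟨a', b', h1', h2', h3', rfl⟩
      refine ⟨a + a', b + b', ((DG.unit _).Z k).add_mem h1 h1', add_mem h2 h2', ?_, ?_⟩
      · rw [map_add, h3, h3', add_zero]
      · rw [add_mul, map_add]
        abel
    · exact ⟨0, 0, ((DG.unit _).Z k).zero_mem, zero_mem _, map_zero _, by simp⟩
    · have hc := PhiC_coef_cycle hx e
      by_cases he : w.φ e.degree = e.degree
      · obtain ⟨a, b, h1, h2, h3, h4⟩ := (hg k).1 _ hc ((c.PhiC_π_eq_zero w n).1 h e he)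
        refine ⟨(Rr.mon (e + Finsupp.single 0 1)).toFun a, (Rr.mon e).toFun b,
          (Rr.mon _).cycle h1, (Rr.mon e).map_gr h2, val_injective ?_, ?_⟩
        · have h3' : N.map c.φ b = 0 := h3
          rw [π_mon, if_pos he, h3', Finsupp.single_zero, map_zero]
        · rw [PhiC_mon_τ, if_pos he, h4, map_add]
          exact congrArg _ ((Rr.mon e).map_d b)
      · refine ⟨(Rr.mon (e + Finsupp.single 0 1)).toFun (Rr.coefE x e), 0, (Rr.mon _).cycle hc,
          zero_mem _, map_zero _, ?_⟩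
        rw [PhiC_mon_τ, if_neg he, map_zero, add_zero]
  · refine PhiC_bdry fun e' => ?_
    obtain ⟨e'', rfl⟩ : ∃ e'', e' = e'' + Finsupp.single 0 1 := ⟨e' - Finsupp.single 0 1, by simp⟩
    have h1 := c.PhiC_coef_τ w n a e''
    rw [e, Rr.coefE_bd] at h1
    have h2 := Rr.coefE_mem_deg.1 hb e''
    split_ifs at h1 with he
    · exact (hg k).2 _ _ (PhiC_coef_cycle ha _) h2 ((c.PhiC_π_eq_zero w n).1 h e'' he) h1.symm
    · exact ⟨_, h2, h1⟩

theorem kerGen_π_ν : KerGen (c.π GoodW.y n) ((Rr.ι c.A c.ν Wgt.y n).app 0 c.ν) := by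
  obtain ⟨u, hu⟩ := Rr.isUnit_mono_y (A := c.A) (ν := c.ν) (Finsupp.single (0 : Fin (n + 1)) (-1))
  have h := (c.kerGen_π GoodW.y n).unit_mul (u⁻¹).isUnit
  have e : ((u⁻¹ : ((c.R Wgt.y n).obj 0)ˣ) : (c.R Wgt.y n).obj 0) * c.τ Wgt.y n =
      (Rr.ι c.A c.ν Wgt.y n).app 0 c.ν := by
    rw [τ, ← hu, show (-Wgt.y.φ (-1)).toNat = 1 from rfl, pow_one, mul_left_comm, Units.inv_mul,
      mul_one]
  exact e ▸ h

theorem covers {B' : SRing} {β : c.B ⟶ B'} {a : Arr β} {l : ℤ}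
    (h : c.B.Covers {f | Arr.Cellular f l a}) :
    c.A.Covers {f | Arr.Cellular (c.φ.app 0 f) l a} :=
  h.comap c.φ c.surj (Arr.cellular_zero l a)

theorem PhiC_Gmap_incl {E E' : DG c.B} (g : DG.Hom (𝟙 c.B) E E') (x : E.V) :
    (c.Gmap w n g).toFun ((c.incl w n E).toFun x) = (c.incl w n E').toFun (g.toFun x) := by
  apply val_injective
  rw [Gmap_val, incl_val, incl_val, DG.laurFun_single, Lam.push_id, one_zpow, Units.val_one,
    map_one, one_smul]

/-- The inclusion as a functor on arrows. -/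
noncomputable def PhiC_inclF : ArrFun (𝟙 c.B) (Rr.ι c.A c.ν w.toWgt n) :=
  ArrFun.ofPair (ExFun.res c.φ) (c.Φ w n)
    (fun a => ((ExFun.res c.φ).map a.map).comp (c.incl w n a.tgt) (Category.id_comp _))
    fun g x => (c.PhiC_Gmap_incl w n g.t _).trans (congrArg _ (g.comm x))

theorem cellular_incl {E : DG c.B} {f : c.A.obj 0} {l : ℤ}
    (h : Arr.Cellular (φ := 𝟙 c.B) (c.φ.app 0 f) l ⟨E, E, DG.Hom.id E⟩) :
    Arr.Cellular f 0 ⟨E.res c.φ, c.G GoodW.y n E, c.incl GoodW.y n E⟩ := by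
  have h1 := Arr.Cellular.map (c.PhiC_inclF GoodW.y n) (f' := f) (c := 0)
    (fun g hg => ⟨ExFun.res_qiso c.φ f g.s hg.1, c.Gmap_qiso GoodW.y n hg.2⟩)
    (cellular_quot _ (DG.unitHom c.φ).toRes (c.π GoodW.y n) (N.map_surjective c.φ c.surj)
      (c.π_surjective GoodW.y n) (fun x => ?_) (PhiC_kerGen_res c.gen) (c.kerGen_π_ν n) f) h
  · rw [zero_mul] at h1
    exact Arr.Cellular.congr rfl (fun _ => rfl) h1
  · apply val_injective
    have h2 : N.map (Rr.ι c.A c.ν Wgt.y n) x = (Rr.mon (0 : Lam n)).toFun x := by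
      rw [Rr.mon_apply, Rr.mono_zero, map_one, one_mul]
    exact (congrArg (fun z => val ((c.π GoodW.y n).toFun z)) h2).trans
      ((c.π_mon GoodW.y n 0 x).trans (if_pos rfl))

end Chart

namespace ChartMap
variable {c c' : Chart} (f : ChartMap c c') {w w' : GoodW} (hw : ∀ b, w'.φ b ≤ w.φ b) {n n' : ℕ}
  (θ : Op n n')

theorem T_π (x : N (c.R w.toWgt n)) : (c'.π w' n').toFun (N.map (f.R hw θ) x) =
    (f.T hw θ (DG.unitHom f.β)).toFun ((c.π w n).toFun x) := by
  have h : (f.T hw θ (DG.unitHom f.β)).toFun ((c.incl w n (DG.unit c.B)).toFun (1 : N c.B)) =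
      (c'.incl w' n' (DG.unit c'.B)).toFun (1 : N c'.B) := by
    apply Chart.val_injective
    rw [T_val, Chart.incl_val, Chart.incl_val, DG.laurFun_single, map_zero, map_zero, zpow_zero,
      Units.val_one, map_one, one_smul]
    exact congrArg _ (map_one (N.map f.β))
  rw [Chart.π, Chart.π, DG.toSpan_apply, DG.toSpan_apply, DG.Hom.map_smul, h]

theorem kerGen_map_τ : KerGen (c'.π w' n') ((f.R hw θ).app 0 (c.τ w.toWgt n)) := by
  have hd : (Finsupp.single (θ 0) (-1) - Finsupp.single 0 (-1) : Lam n').degree = 0 := by simp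
  have h := (c'.kerGen_π w' n').unit_mul (Rr.unitOf c'.A c'.ν w'.toWgt _ hd).isUnit
  have h1 := PhiC_neg_one w
  have h2 := hw (-1)
  have e1 : f.ψ.app 0 (c.ν ^ (-w.φ (-1)).toNat) * w.toWgt.fac w'.toWgt f.γ c'.ν (-1) =
      c'.ν ^ (-w'.φ (-1)).toNat := by
    have e2 : (f.γ : c'.A.obj 0) ^ (-w.φ (-1)).toNat *
        ((f.γ ^ w.φ (-1) : (c'.A.obj 0)ˣ) : c'.A.obj 0) = 1 := by
      rw [← Units.val_pow_eq_pow_val, ← Units.val_mul, ← zpow_natCast, ← zpow_add,
        Int.toNat_of_nonneg (by omega), neg_add_cancel, zpow_zero, Units.val_one]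
    rw [map_pow, f.hν, Wgt.fac, mul_pow, mul_mul_mul_comm, e2, one_mul, ← pow_add]
    congr 1
    omega
  have e : (f.R hw θ).app 0 (c.τ w.toWgt n) =
      (Rr.unitOf c'.A c'.ν w'.toWgt _ hd : (c'.R w'.toWgt n').obj 0) * c'.τ w'.toWgt n' := by
    rw [Chart.τ, Chart.τ, map_mul, Rr.map_ι_apply, Rr.map_mono, Lam.push_single,
      Finsupp.degree_single, ← mul_assoc, ← map_mul, e1, mul_left_comm]
    congr 1
    exact ((Rr.mono_mul_of_degree_zero hd _).trans (by rw [sub_add_cancel])).symm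
  exact e ▸ h

theorem PhiC_comm (s : c.A.obj 0) : f.β.app 0 (c.φ.app 0 s) = c'.φ.app 0 (f.ψ.app 0 s) :=
  congrArg (fun g => SRing.Hom.app g 0 s) f.comm

theorem PhiC_T_nat {a b : Arr f.β} (g : a.Hom b) (x : (c.G w n a.src).V) :
    (c'.Gmap w' n' g.t).toFun ((f.T hw θ a.map).toFun x) =
      (f.T hw θ b.map).toFun ((c.Gmap w n g.s).toFun x) := by
  apply Chart.val_injective
  rw [Chart.Gmap_val, T_val, T_val, Chart.Gmap_val]
  have h1 := DG.laurFun_comp (g := a.map) (g' := g.t)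
    (g'' := a.map.comp g.t (Category.comp_id _)) (γ := f.γB) (γ' := 1) (γ'' := f.γB) (θ := θ)
    (θ' := OrderHom.id) (θ'' := θ) (fun _ => rfl) (by rw [one_mul]; rfl) rfl (Chart.val x)
  have h2 := DG.laurFun_comp (g := g.s) (g' := b.map)
    (g'' := a.map.comp g.t (Category.comp_id _)) (γ := 1) (γ' := f.γB) (γ'' := f.γB)
    (θ := OrderHom.id) (θ' := θ) (θ'' := θ) (fun y => (g.comm y).symm)
    (by rw [map_one, mul_one]) rfl (Chart.val x)
  exact h1.trans h2.symm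

theorem cellular_T {a : Arr f.β} {s : c.A.obj 0} {l : ℤ} (h : Arr.Cellular (c.φ.app 0 s) l a) :
    Arr.Cellular ((Rr.ι c.A c.ν w.toWgt n).app 0 s) 0
      ⟨c.G w n a.src, c'.G w' n' a.tgt, f.T hw θ a.map⟩ := by
  have h1 := Arr.Cellular.map
    (ArrFun.ofPair (c.Φ w n) (c'.Φ w' n') (fun a => f.T hw θ a.map) (f.PhiC_T_nat hw θ))
    (f' := (Rr.ι c.A c.ν w.toWgt n).app 0 s) (c := 0)
    (fun g hg => ⟨c.Gmap_qiso w n hg.1, ?_⟩)
    (cellular_quot _ (c.π w n) (c'.π w' n') (c.π_surjective w n) (c'.π_surjective w' n')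
      (f.T_π hw θ) (c.kerGen_π w n) (f.kerGen_map_τ hw θ) _) h
  · rwa [zero_mul] at h1
  · have h2 := hg.2
    rw [f.PhiC_comm] at h2
    rw [Rr.map_ι_apply]
    exact c'.Gmap_qiso w' n' h2

theorem cellular_toZero {a : Arr f.β} {s : c.A.obj 0} {l : ℤ}
    (h : Arr.Cellular (c.φ.app 0 s) l a) :
    Arr.Cellular ((Rr.ι c.A c.ν Wgt.star n).app 0 s) 0
      ⟨c.G GoodW.star n a.src, DG.zero _, DG.Hom.zero (f.R Wgt.t_le_star θ) _ _⟩ := by
  have hu : IsUnit ((f.R Wgt.t_le_star θ).app 0 (c.τ Wgt.star n)) := by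
    rw [Chart.τ_star, Rr.map_mono, Finsupp.degree_single]
    refine IsUnit.mul (IsUnit.map _ ?_) (Rr.isUnit_mono_t _)
    rw [Wgt.fac, show (Wgt.star.φ (-1) - Wgt.t.φ (-1)).toNat = 0 from rfl, pow_zero, mul_one]
    exact Units.isUnit _
  have h1 := Arr.Cellular.map
    (ArrFun.ofPair (c.Φ GoodW.star n) (ExFun.zero c'.B (c'.R Wgt.t n'))
      (fun _ => DG.Hom.zero (f.R Wgt.t_le_star θ) _ _) fun _ _ => rfl)
    (f' := (Rr.ι c.A c.ν Wgt.star n).app 0 s) (c := 0)
    (fun g hg => ⟨c.Gmap_qiso GoodW.star n hg.1, DG.Hom.qiso_id _ _⟩)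
    (cellular_quot _ (c.π GoodW.star n) (DG.Hom.zero _ _ _) (c.π_surjective GoodW.star n)
      (fun _ => ⟨0, rfl⟩) (fun _ => rfl) (c.kerGen_π GoodW.star n) (kerGen_zero _ hu) _) h
  rwa [zero_mul] at h1

/-- Restriction of scalars on arrows. -/
def resHom {E : DG c.B} {E' : DG c'.B} (g : DG.Hom f.β E E') :
    DG.Hom f.ψ (E.res c.φ) (E'.res c'.φ) :=
  ⟨g.toFun, fun a x => (g.map_smul (N.map c.φ a) x).trans (by
    rw [N.map_map, f.comm, ← N.map_map]; rfl), g.map_gr, g.map_d⟩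

theorem cellular_res {a : Arr f.β} {s : c.A.obj 0} {l : ℤ} (h : Arr.Cellular (c.φ.app 0 s) l a) :
    Arr.Cellular s 0 ⟨a.src.res c.φ, a.tgt.res c'.φ, f.resHom a.map⟩ := by
  have hk : KerGen (DG.unitHom c'.φ).toRes (f.ψ.app 0 c.ν) := by
    rw [f.hν]
    exact (PhiC_kerGen_res c'.gen).unit_mul f.γ.isUnit
  have h1 := Arr.Cellular.map
    (ArrFun.ofPair (ExFun.res c.φ) (ExFun.res c'.φ) (fun a => f.resHom a.map) fun g => g.comm)
    (f' := s) (c := 0) (fun g hg => ⟨ExFun.res_qiso c.φ s g.s hg.1, ?_⟩)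
    (cellular_quot _ (DG.unitHom c.φ).toRes (DG.unitHom c'.φ).toRes (N.map_surjective c.φ c.surj)
      (N.map_surjective c'.φ c'.surj) (fun x => ?_) (PhiC_kerGen_res c.gen) hk _) h
  · rwa [zero_mul] at h1
  · have h2 := hg.2
    rw [f.PhiC_comm] at h2
    exact ExFun.res_qiso c'.φ _ g.t h2
  · change N.map c'.φ (N.map f.ψ x) = N.map f.β (N.map c.φ x)
    rw [N.map_map, N.map_map, f.comm]

theorem perfect_T {a : Arr f.β} {l : ℤ} (h : a.map.RankBaseChange l) :
    (f.T hw θ a.map).PerfectBaseChange :=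
  (c.covers h).map _ fun _ p => ⟨0, f.cellular_T hw θ p⟩

theorem perfect_toZero {a : Arr f.β} {l : ℤ} (h : a.map.RankBaseChange l) :
    (DG.Hom.zero (f.R Wgt.t_le_star θ) (c.G GoodW.star n a.src) (DG.zero _)).PerfectBaseChange :=
  (c.covers h).map _ fun _ p => ⟨0, f.cellular_toZero θ p⟩

theorem perfect_res {a : Arr f.β} {l : ℤ} (h : a.map.RankBaseChange l) :
    (f.resHom a.map).PerfectBaseChange :=
  (c.covers h).mono fun _ p => ⟨0, f.cellular_res p⟩

end ChartMap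

theorem Chart.perfect_incl (c : Chart) (n : ℕ) {E : DG c.B} {l : ℤ}
    (h : (DG.Hom.id E).RankBaseChange l) : (c.incl GoodW.y n E).PerfectBaseChange :=
  (c.covers h).mono fun _ p => ⟨0, c.cellular_incl n p⟩

end Pool.Agent.P.MP_932208_ag.Ax
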