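import Pool.Agent.P.MP_932208_ag.Ax.TotR

/-!
The total complex in families: pushforward along `J × Δ → J`.
-/

namespace Pool.Agent.P.MP_932208_ag.Ax

open CategoryTheory

variable {J : Type} [SmallCategory J] {A : J ⥤ SRing} {R R' : J × SimplexCategory ⥤ SRing}

/-- The slice over the chart `j`. -/
abbrev slice (j : J) : SimplexCategory ⥤ J × SimplexCategory := Prod.sectR j SimplexCategory

/-- The projection to the charts. -/
abbrev prJ (J : Type) [SmallCategory J] : J × SimplexCategory ⥤ J :=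
  CategoryTheory.Prod.fst J SimplexCategory

/-- The augmentation of a slice. -/
def augAt (ι : prJ J ⋙ A ⟶ R) (j : J) : Aug (A.obj j) (slice j ⋙ R) where
  ι s := ι.app (j, s)
  comm {s s'} θ := by
    have h := ι.naturality (X := (j, s)) (Y := (j, s')) ((slice j).map θ)
    have h' : A.map (𝟙 j) ≫ ι.app (j, s') = ι.app (j, s') := by
      rw [A.map_id]; exact Category.id_comp _
    exact h.symm.trans h'

/-- The arrow `(ψ, 𝟙 s)` of the product category. -/
abbrev totG_arr {i j : J} (ψ : i ⟶ j) (s : SimplexCategory) :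
    ((i, s) : J × SimplexCategory) ⟶ (j, s) := (ψ, 𝟙 s)

theorem totG_arr_comm {i j : J} (ψ : i ⟶ j) {s s' : SimplexCategory} (θ : s ⟶ s') :
    (slice i).map θ ≫ totG_arr ψ s' = totG_arr ψ s ≫ (slice j).map θ :=
  Prod.ext ((Category.id_comp ψ).trans (Category.comp_id ψ).symm)
    ((Category.comp_id θ).trans (Category.id_comp θ).symm)

/-- The map between two slices. -/
def totG_nat (R : J × SimplexCategory ⥤ SRing) {i j : J} (ψ : i ⟶ j) :
    slice i ⋙ R ⟶ slice j ⋙ R where
  app s := R.map (totG_arr ψ s)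
  naturality _ _ θ := (R.map_comp _ _).symm.trans
    ((congrArg R.map (totG_arr_comm ψ θ)).trans (R.map_comp _ _))

theorem totG_aug (ι : prJ J ⋙ A ⟶ R) {i j : J} (ψ : i ⟶ j) (s : SimplexCategory) :
    (augAt ι i).ι s ≫ (totG_nat R ψ).app s = A.map ψ ≫ (augAt ι j).ι s :=
  (ι.naturality (totG_arr ψ s)).symm

namespace Mod

/-- The map of modules between two slices. -/
def totG_hom (M : Mod R) {i j : J} (ψ : i ⟶ j) :
    Hom (totG_nat R ψ) (M.restrict (slice i)) (M.restrict (slice j)) where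
  app s := M.map (totG_arr ψ s)
  nat θ x := (M.map_comp _ _ x).symm.trans
    ((M.map_congr (totG_arr_comm ψ θ) x).trans (M.map_comp _ _ x))

/-- The total complex in families. -/
noncomputable def tot (ι : prJ J ⋙ A ⟶ R) (M : Mod R) : Mod A where
  obj j := totΔ (augAt ι j) (M.restrict (slice j))
  map {i j} ψ := totMap (augAt ι i) (augAt ι j) (A.map ψ)
    (η := fun p => (totG_nat R ψ).app (.mk p)) (fun p => totG_aug ι ψ (.mk p))
    (fun p => (M.totG_hom ψ).app (.mk p)) fun p x => (M.totG_hom ψ).map_cob p x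
  map_id j x := Subtype.ext (funext fun p => M.map_id (j, .mk p) (x.1 p))
  map_comp ψ χ x := Subtype.ext (funext fun p =>
    (M.map_congr (χ := totG_arr ψ (.mk p) ≫ totG_arr χ (.mk p))
      (Prod.ext rfl (Category.comp_id _).symm) (x.1 p)).trans (M.map_comp _ _ (x.1 p)))

theorem totG_e {ι : prJ J ⋙ A ⟶ R} {ι' : prJ J ⋙ A ⟶ R'} {η : R ⟶ R'} (e : ι ≫ η = ι') (j : J)
    (s : SimplexCategory) :
    (augAt ι j).ι s ≫ η.app (j, s) = 𝟙 (A.obj j) ≫ (augAt ι' j).ι s := by
  subst e
  exact (Category.id_comp _).symm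

/-- Functoriality of the total complex in families. -/
noncomputable def totG_map {ι : prJ J ⋙ A ⟶ R} {ι' : prJ J ⋙ A ⟶ R'} {η : R ⟶ R'}
    (e : ι ≫ η = ι') {M : Mod R} {M' : Mod R'} (g : Hom η M M') :
    Hom (𝟙 A) (tot ι M) (tot ι' M') where
  app j := totMap (augAt ι j) (augAt ι' j) (𝟙 (A.obj j)) (M := M.restrict (slice j))
    (M' := M'.restrict (slice j)) (η := fun p => η.app (j, .mk p))
    (fun p => totG_e e j (.mk p)) (fun p => g.app (j, .mk p))
    fun p x => (g.restrict (slice j)).map_cob p x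
  nat ψ x := Subtype.ext (funext fun p => g.nat (totG_arr ψ (.mk p)) (x.1 p))

theorem equiv_tot_of_hom {ι : prJ J ⋙ A ⟶ R} {ι' : prJ J ⋙ A ⟶ R'} {η : R ⟶ R'} (e : ι ≫ η = ι')
    {M : Mod R} {M' : Mod R'} (g : Hom η M M') (hM : ∀ j, (M.restrict (slice j)).Ex)
    (hM' : ∀ j, (M'.restrict (slice j)).Ex)
    (h : ∀ j k, Set.BijOn ((g.app (j, .mk 0)).H k) ((M.restrict (slice j)).Inv k)
      ((M'.restrict (slice j)).Inv k)) : (tot ι M).Equiv (tot ι' M') :=
  Equiv.of_hom (totG_map e g) fun j =>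
    totMap_qiso (augAt ι j) (augAt ι' j) (𝟙 (A.obj j)) (M := M.restrict (slice j))
      (M' := M'.restrict (slice j)) (η := fun p => η.app (j, .mk p))
      (fun p => totG_e e j (.mk p)) (fun p => g.app (j, .mk p))
      (fun p x => (g.restrict (slice j)).map_cob p x) (hM j) (hM' j) (h j)

theorem Equiv.tot (ι : prJ J ⋙ A ⟶ R) {M M' : Mod R} (h : M.Equiv M')
    (hM : ∀ j, (M.restrict (slice j)).Ex) : (tot ι M).Equiv (tot ι M') :=
  Equiv.map (Mod.tot ι) (Q := fun P => ∀ j, (P.restrict (slice j)).Ex)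
    (fun g hg => forall_congr' fun j => (g.restrict' (slice j)).ex_iff fun s => hg (j, s))
    (fun g hg hP hP' => equiv_tot_of_hom (Category.comp_id ι) g hP hP' fun j k =>
      (g.restrict' (slice j)).bijOn_inv (fun s => hg (j, s)) k) h hM

theorem totG_alt (n : ℕ) :
    ∑ i : Fin n, (-1 : ℤ) ^ (i : ℕ) = if Even n then 0 else 1 := by
  rw [Fin.sum_univ_eq_sum_range (fun i => (-1 : ℤ) ^ i) n, neg_one_geom_sum]

theorem totG_const_map (X : Mod A) (j : J) {s s' : SimplexCategory} (θ : s ⟶ s')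
    (x : (X.obj j).V) : (((X.restrict (prJ J)).restrict (slice j)).map θ).toFun x = x :=
  X.map_id j x

theorem totG_const_H (X : Mod A) (j : J) {s s' : SimplexCategory} (θ : s ⟶ s') (k : ℤ)
    (ξ : (X.obj j).H k) : (((X.restrict (prJ J)).restrict (slice j)).map θ).H k ξ = ξ :=
  DG.H_id (X.map (𝟙 j)).cmap (X.map_id j) k ξ

theorem totG_const_cob (X : Mod A) (j : J) (p : ℕ) (x : (X.obj j).V) :
    ((X.restrict (prJ J)).restrict (slice j)).cob p x =
      (if Even (p + 2) then (0 : ℤ) else 1) • x := by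
  refine (cob_apply ((X.restrict (prJ J)).restrict (slice j)) p x).trans ?_
  rw [← totG_alt, Finset.sum_smul]
  exact Finset.sum_congr rfl fun i _ => congrArg _ (totG_const_map X j _ x)

theorem totG_const_cobH (X : Mod A) (j : J) (p : ℕ) (k : ℤ) (ξ : (X.obj j).H k) :
    (((X.restrict (prJ J)).restrict (slice j)).cobC p).H k ξ =
      (if Even (p + 2) then (0 : ℤ) else 1) • ξ := by
  refine (cobC_H ((X.restrict (prJ J)).restrict (slice j)) p k ξ).trans ?_
  rw [← totG_alt, Finset.sum_smul]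
  exact Finset.sum_congr rfl fun i _ => congrArg _ (totG_const_H X j _ k ξ)

theorem const_ex (X : Mod A) (j : J) : ((X.restrict (prJ J)).restrict (slice j)).Ex := by
  intro k p ξ hξ
  by_cases hp : Even (p + 2)
  · have hp' : ¬ Even (p + 1 + 2) := by
      rw [show p + 1 + 2 = (p + 2) + 1 by ring, Nat.even_add_one]
      exact not_not.2 hp
    have h := (totG_const_cobH X j (p + 1) k ξ).symm.trans hξ
    rw [if_neg hp'] at h
    exact ⟨0, (map_zero _).trans ((one_smul ℤ ξ).symm.trans h).symm⟩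
  · refine ⟨ξ, (totG_const_cobH X j p k ξ).trans ?_⟩
    rw [if_neg hp]
    exact one_smul ℤ ξ

theorem const_inv (X : Mod A) (j : J) (k : ℤ) (ξ) :
    ξ ∈ ((X.restrict (prJ J)).restrict (slice j)).Inv k :=
  (totG_const_H X j (SimplexCategory.δ (n := 0) 0) k ξ).trans
    (totG_const_H X j (SimplexCategory.δ (n := 0) 1) k ξ).symm

/-- The identity as a map along the augmentation of a constant diagram. -/
def totG_unit (X : Mod A) (j : J) :
    DG.Hom ((augAt (𝟙 (prJ J ⋙ A)) j).ι (.mk 0)) (X.obj j)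
      (((X.restrict (prJ J)).restrict (slice j)).obj (.mk 0)) :=
  DG.Hom.id (X.obj j)

theorem totG_unit_cob (X : Mod A) (j : J) (x : (X.obj j).V) :
    ((X.restrict (prJ J)).restrict (slice j)).cob 0 ((totG_unit X j).toFun x) = 0 := by
  refine (totG_const_cob X j 0 x).trans ?_
  rw [if_pos (by decide)]
  exact zero_smul ℤ x

/-- The augmentation map of a constant diagram. -/
noncomputable def totG_const (X : Mod A) : Hom (𝟙 A) X (tot (𝟙 _) (X.restrict (prJ J))) where
  app j := totAug (augAt (𝟙 (prJ J ⋙ A)) j) (totG_unit X j) (totG_unit_cob X j)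
  nat {i j} ψ x := Subtype.ext (funext fun p => by
    cases p with
    | zero => rfl
    | succ p => exact (map_zero (X.map ψ).toFun).symm)

theorem equiv_tot_const (X : Mod A) : X.Equiv (tot (𝟙 _) (X.restrict (prJ J))) :=
  Equiv.of_hom (totG_const X) fun j =>
    totAug_qiso (augAt (𝟙 (prJ J ⋙ A)) j) (totG_unit X j) (totG_unit_cob X j) (const_ex X j)
      fun k => by
        have hid : ∀ ξ, (totG_unit X j).H k ξ = ξ := fun ξ =>
          DG.H_id (DG.Hom.id (X.obj j)).cmap (fun _ => rfl) k ξ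
        refine ⟨fun ξ _ => const_inv X j k _, fun ξ _ ζ _ h => ?_, fun ξ _ => ⟨ξ, trivial, hid ξ⟩⟩
        exact (hid ξ).symm.trans (h.trans (hid ζ))

theorem Equiv.inv_of_const {X : Mod A} {S : Mod (prJ J ⋙ A)} (hS : S.Equiv (X.restrict (prJ J)))
    (j : J) (k : ℤ) (ξ) : ξ ∈ (S.restrict (slice j)).Inv k :=
  (hS.restrict (slice j)).inv_top.2 (const_inv X j) k ξ

theorem equiv_tot_of_const (ι : prJ J ⋙ A ⟶ R) {X : Mod A} {S : Mod (prJ J ⋙ A)}
    (hS : S.Equiv (X.restrict (prJ J))) {M : Mod R} (g : Hom ι S M)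
    (hM : ∀ j, (M.restrict (slice j)).Ex)
    (h : ∀ j k, Set.BijOn ((g.app (j, .mk 0)).H k) Set.univ ((M.restrict (slice j)).Inv k)) :
    X.Equiv (tot ι M) := by
  have hS' : ∀ j, (S.restrict (slice j)).Ex := fun j =>
    (hS.restrict (slice j)).ex.2 (const_ex X j)
  refine (equiv_tot_const X).trans ((hS.tot _ hS').symm.trans
    (equiv_tot_of_hom (Category.id_comp ι) g hS' hM fun j k => ?_))
  rw [Set.eq_univ_of_forall (hS.inv_of_const j k)]
  exact h j k

attribute [irreducible] tot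

end Mod

end Pool.Agent.P.MP_932208_ag.Ax
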