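import Pool.Agent.P.MP_932208_ag.Ax.WtE

/-!
The weight of a line bundle at a fixed point.
-/

namespace Pool.Agent.P.MP_932208_ag.Ax

open CategoryTheory SimplexCategory

variable {A A' : SRing} {R R' : SimplexCategory ⥤ SRing}

section helpers
variable {B : SRing} {K : Type} [CommRing K] {S : Submonoid K} {σ : K →+* B.obj 0} {E : DG B}

theorem WtB_exists_smul {ε : E.H 0} (h : E.Gen S σ ε) (ξ : E.H 0) :
    ∃ s ∈ S, ∃ r : B.obj 0, σ s • ξ = r • ε := by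
  obtain ⟨s, hs, ρ, e⟩ := (h 0).surj ξ
  obtain ⟨a, rfl⟩ := DG.exists_smul_one ρ
  exact ⟨s, hs, a, by rw [← e, DG.act_smul_right, DG.act_one]⟩

theorem WtB_ann {ε : E.H 0} (h : E.Gen S σ ε) {r : B.obj 0} (e : r • ε = 0) :
    ∃ s ∈ S, σ s * r ∈ B.bdry := by
  obtain ⟨s, hs, e'⟩ := (h 0).inj (r • DG.one B) (by rw [DG.act_smul_right, DG.act_one, e])
  exact ⟨s, hs, DG.smul_one_eq_zero.1 (by rw [mul_smul]; exact e')⟩

theorem WtB_surj_sum {R₁ R₂ X Y I : Type} [CommRing R₁] [CommRing R₂] [AddCommGroup X]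
    [AddCommGroup Y] [Module R₁ X] [Module R₂ Y] {σ₁ : K →+* R₁} {σ₂ : K →+* R₂} {g : X →+ Y}
    (lg : Lin σ₁ σ₂ g) (y : I → Y) (h : ∀ i, ∃ s ∈ S, ∃ x, g x = σ₂ s • y i) (T : Finset I) :
    ∃ s ∈ S, ∃ x, g x = σ₂ s • ∑ i ∈ T, y i := by
  classical
  induction T using Finset.induction_on with
  | empty => exact ⟨1, S.one_mem, 0, by simp⟩
  | insert i T hi ih =>
    obtain ⟨s, hs, x, e⟩ := ih
    obtain ⟨s', hs', x', e'⟩ := h i
    refine ⟨s * s', S.mul_mem hs hs', σ₁ s • x' + σ₁ s' • x, ?_⟩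
    rw [Finset.sum_insert hi, map_add, lg, lg, e, e', smul_add, map_mul, smul_smul, smul_smul,
      mul_comm (σ₂ s')]

theorem WtB_ann_sum {R₁ X I : Type} [CommRing R₁] [AddCommGroup X] [Module R₁ X]
    {σ₁ : K →+* R₁} (y : I → X) (h : ∀ i, ∃ s ∈ S, σ₁ s • y i = 0) (T : Finset I) :
    ∃ s ∈ S, σ₁ s • ∑ i ∈ T, y i = 0 := by
  classical
  induction T using Finset.induction_on with
  | empty => exact ⟨1, S.one_mem, by simp⟩
  | insert i T hi ih =>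
    obtain ⟨s, hs, e⟩ := ih
    obtain ⟨s', hs', e'⟩ := h i
    refine ⟨s * s', S.mul_mem hs hs', ?_⟩
    rw [Finset.sum_insert hi, smul_add, map_mul, mul_smul, e', mul_comm, mul_smul, e, smul_zero,
      smul_zero, add_zero]

/-- Over a prime `q` above the boundaries, one summand of a generator is a generator. -/
theorem WtB_gen_summand {I : Type} {q : Ideal (B.obj 0)} [hq : q.IsPrime]
    (hb : ∀ b ∈ B.bdry, b ∈ q) (y : I → E.H 0) (T : Finset I)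
    (h : E.Gen q.primeCompl (RingHom.id _) (∑ i ∈ T, y i)) :
    ∃ i, E.Gen q.primeCompl (RingHom.id _) (y i) := by
  classical
  by_contra hc
  push Not at hc
  set ε := ∑ i ∈ T, y i with hε
  have key : ∀ T' : Finset I, ∃ s, s ∉ q ∧ ∃ r ∈ q, s • ∑ i ∈ T', y i = r • ε := by
    intro T'
    induction T' using Finset.induction_on with
    | empty => exact ⟨1, q.primeCompl.one_mem, 0, q.zero_mem, by simp⟩
    | insert i T' hi ih =>
      obtain ⟨s, hs, r, hr, e⟩ := ih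
      obtain ⟨s', hs', r', e'⟩ := WtB_exists_smul h (y i)
      have hr' : r' ∈ q := by
        by_contra hr'
        exact hc i (h.of_assoc (s := r') (s' := s') hr' hs' (a := s') (a' := r') e'.symm e')
      refine ⟨s * s', q.primeCompl.mul_mem hs hs', s * r' + s' * r,
        q.add_mem (q.mul_mem_left _ hr') (q.mul_mem_left _ hr), ?_⟩
      rw [RingHom.id_apply] at e'
      rw [Finset.sum_insert hi, smul_add, mul_smul, e', mul_comm s s', mul_smul, e, add_smul,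
        mul_smul, mul_smul]
  obtain ⟨s, hs, r, hr, e⟩ := key T
  obtain ⟨s', hs', e'⟩ := WtB_ann h (r := s - r) (by rw [sub_smul, ← e, sub_self])
  rcases hq.mem_or_mem (hb _ e') with p | p
  · exact hs' p
  · exact hs (by simpa using q.add_mem p hr)

end helpers

section pairing
variable {J : Type} [SmallCategory J] {B : J ⥤ SRing} {L L' P : Mod B} (n : Mod.Pairing L L' P)

theorem WtB_pair_cycle (j : J) {x : (L.obj j).V} {y : (L'.obj j).V} (hx : (L.obj j).Cycle 0 x)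
    (hy : (L'.obj j).Cycle 0 y) : (P.obj j).Cycle 0 (n.μ j x y) :=
  ⟨by simpa using n.μ_gr j hx.1 hy.1, by
    rw [n.leibniz j y hx.1, hx.2, hy.2]; simp⟩

theorem WtB_pair_left (j : J) {x : (L.obj j).V} {y : (L'.obj j).V} (hx : (L.obj j).Bdry 0 x)
    (hy : (L'.obj j).Cycle 0 y) : (P.obj j).Bdry 0 (n.μ j x y) := by
  obtain ⟨z, hz, rfl⟩ := hx
  refine ⟨n.μ j z y, by simpa using n.μ_gr j hz hy.1, ?_⟩
  rw [n.leibniz j y hz, hy.2]; simp

theorem WtB_pair_right (j : J) {x : (L.obj j).V} {y : (L'.obj j).V} (hx : (L.obj j).Cycle 0 x)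
    (hy : (L'.obj j).Bdry 0 y) : (P.obj j).Bdry 0 (n.μ j x y) := by
  obtain ⟨z, hz, rfl⟩ := hy
  refine ⟨n.μ j x z, by simpa using n.μ_gr j hx.1 hz, ?_⟩
  rw [n.leibniz j z hx.1, hx.2]; simp

theorem WtB_pair_smul (j : J) {x : (L.obj j).V} (y : (L'.obj j).V) (hx : x ∈ (L.obj j).gr 0)
    (a b : (B.obj j).obj 0) :
    n.μ j (N.inc a • x) (N.inc b • y) = N.inc (a * b) • n.μ j x y := by
  rw [n.smul_left, n.smul_right j y (N.hg_inc b) hx, map_mul, mul_smul]; simp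

theorem WtB_pair_cls (j : J) {x x' : (L.obj j).V} {y y' : (L'.obj j).V}
    (hx : (L.obj j).Cycle 0 x) (hx' : (L.obj j).Cycle 0 x') (hy : (L'.obj j).Cycle 0 y)
    (hy' : (L'.obj j).Cycle 0 y') {a a' b b' : (B.obj j).obj 0}
    (e : a • (L.obj j).cls x hx = a' • (L.obj j).cls x' hx')
    (e' : b • (L'.obj j).cls y hy = b' • (L'.obj j).cls y' hy') :
    (a * b) • (P.obj j).cls _ (WtB_pair_cycle n j hx hy)
      = (a' * b') • (P.obj j).cls _ (WtB_pair_cycle n j hx' hy') := by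
  replace e : (L.obj j).Bdry 0 (N.inc a • x - N.inc a' • x') := (DG.cls_eq_iff _ _).1 e
  replace e' : (L'.obj j).Bdry 0 (N.inc b • y - N.inc b' • y') := (DG.cls_eq_iff _ _).1 e'
  refine (DG.cls_eq_iff (x := N.inc (a * b) • n.μ j x y) (y := N.inc (a' * b') • n.μ j x' y')
    _ _).2 ?_
  have h₁ := WtB_pair_left n j e (((L'.obj j).Z 0).smul_mem b hy)
  have h₂ := WtB_pair_right n j (((L.obj j).Z 0).smul_mem a' hx') e'
  have h₃ := ((P.obj j).Bd 0).add_mem h₁ h₂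
  rw [← WtB_pair_smul n j y hx.1, ← WtB_pair_smul n j y' hx'.1]
  simp only [DG.smul0, map_sub, AddMonoidHom.sub_apply, sub_add_sub_cancel] at h₃
  exact h₃

end pairing

namespace Mon
variable (m : Mon A R)

/-- The prime `p` of `π_0 A` lifts to a fixed point of the `G_m`-action. -/
def Node (p : Ideal (A.obj 0)) : Prop :=
  ∃ q : Ideal ((R.obj (.mk 0)).obj 0), q.IsPrime ∧ (∀ b ∈ (R.obj (.mk 0)).bdry, b ∈ q) ∧
    ∀ r, r ∈ q ↔ m.co r 0 ∈ p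

/-- `M` has a homogeneous generator of weight `w` near `p`. -/
def Wt (p : Ideal (A.obj 0)) [p.IsPrime] (M : Mod R) (w : ℤ) : Prop :=
  ∃ ε ∈ m.W M w 0, (M.obj (.mk 0)).Gen p.primeCompl m.σ ε

variable {m} {p : Ideal (A.obj 0)} [p.IsPrime]

/-- A homogeneous generator near `q` is a generator near `p`. -/
theorem WtB_gen_of_node {q : Ideal ((R.obj (.mk 0)).obj 0)} [q.IsPrime]
    (hq : ∀ r, r ∈ q ↔ m.co r 0 ∈ p) {M : Mod R} (h : m.Laur M) {w : ℤ}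
    {ε : (M.obj (.mk 0)).H 0} (hε : ε ∈ m.W M w 0)
    (hg : (M.obj (.mk 0)).Gen q.primeCompl (RingHom.id _) ε) :
    (M.obj (.mk 0)).Gen p.primeCompl m.σ ε := by
  intro k
  have hu : m.Laur (Mod.unit R) := m.laur
  refine ⟨fun y => ?_, fun ρ hρ => ?_⟩
  · obtain ⟨T, -, hT⟩ := h.exists_sum_pr y
    rw [← hT]
    refine WtB_surj_sum ((M.obj (.mk 0)).act_lin k ε m.σ) (fun c => h.pr c k y) (fun c => ?_) T
    obtain ⟨g, hg', ρ, e⟩ := (hg k).surj (h.pr c k y)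
    refine ⟨m.co g 0, fun hc => hg' ((hq g).2 hc), hu.pr (c - w) k ρ, ?_⟩
    rw [← h.pr_act hε, e, sub_add_cancel, RingHom.id_apply, h.pr_smul (h.pr_mem c k y)]
  · obtain ⟨T, -, hT⟩ := hu.exists_sum_pr ρ
    rw [← hT]
    refine WtB_ann_sum (fun c => hu.pr c k ρ) (fun c => ?_) T
    obtain ⟨g, hg', e⟩ := (hg k).inj (hu.pr c k ρ) (by rw [← h.pr_act hε, hρ, map_zero])
    refine ⟨m.co g 0, fun hc => hg' ((hq g).2 hc), ?_⟩
    rw [RingHom.id_apply] at e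
    rw [← hu.pr_smul (hu.pr_mem c k ρ), e, map_zero]

/-- Graded Nakayama lemma. -/
theorem exists_wt (hp : m.Node p) {M : Mod R} (h : M.IsLine) : ∃ w, m.Wt p M w := by
  obtain ⟨q, hq, hb, hqp⟩ := hp
  have hL := m.laur_of_line h
  obtain ⟨f, ⟨ε, hε, -⟩, hf⟩ :=
    (h (.mk 0) (.mk 0) (𝟙 _)).covers.exists_notMem hq.ne_top hb
  have hε' : (M.obj (.mk 0)).Gen q.primeCompl (RingHom.id _) ε :=
    hε.mono (Submonoid.powers_le.2 hf)
  obtain ⟨T, -, hT⟩ := hL.exists_sum_pr ε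
  rw [← hT] at hε'
  obtain ⟨w, hw⟩ := WtB_gen_summand hb (fun c => hL.pr c 0 ε) T hε'
  exact ⟨w, _, hL.pr_mem w 0 ε, WtB_gen_of_node hqp hL (hL.pr_mem w 0 ε) hw⟩

theorem eq_of_smul_eq (hp : m.Node p) {M : Mod R} (h : m.Laur M) {w w' : ℤ}
    {ε μ : (M.obj (.mk 0)).H 0} (hε : ε ∈ m.W M w 0)
    (hg : (M.obj (.mk 0)).Gen p.primeCompl m.σ ε) (hμ : μ ∈ m.W M w' 0) {s : A.obj 0} (hs : s ∉ p)
    {r : (R.obj (.mk 0)).obj 0} (e : m.σ s • ε = r • μ) : w = w' := by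
  obtain ⟨q, hq, hb, hqp⟩ := hp
  have hσ : ∀ a, a ∈ p.primeCompl → m.σ a ∉ q := fun a ha hc =>
    ha (by have := (hqp _).1 hc; rwa [m.co_ι] at this)
  have hann : ∀ c, c • ε = 0 → c ∈ q := fun c hc => by
    obtain ⟨s', hs', e'⟩ := WtB_ann hg hc
    exact (hq.mem_or_mem (hb _ e')).resolve_left (hσ _ hs')
  obtain ⟨s', hs', r', e'⟩ := WtB_exists_smul hg μ
  have h₁ : m.σ (s' * s) - r * r' ∈ q := hann _ (by
    rw [sub_smul, map_mul, mul_smul, e, mul_smul, ← e', smul_comm, sub_self])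
  have hr : r ∉ q := fun hr => hσ _ (p.primeCompl.mul_mem hs' hs)
    (by simpa using q.add_mem h₁ (q.mul_mem_right r' hr))
  by_contra hne
  have h₂ : m.σ (m.co r 0) • μ = 0 := by
    rw [← h.pr_smul hμ, ← e, h.pr_of_ne (m.σ_smul_mem hε s) hne]
  refine hσ _ (p.primeCompl.mul_mem (fun hc => hr ((hqp r).2 hc)) hs) (hann _ ?_)
  rw [map_mul, mul_smul, e, smul_comm, h₂, smul_zero]

theorem Wt.unique (hp : m.Node p) {M : Mod R} (h : m.Laur M) {w w' : ℤ} (h₁ : m.Wt p M w)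
    (h₂ : m.Wt p M w') : w = w' := by
  obtain ⟨ε, hε, hg⟩ := h₁
  obtain ⟨ε', hε', hg'⟩ := h₂
  obtain ⟨s, hs, r, e⟩ := WtB_exists_smul hg' ε
  exact eq_of_smul_eq hp h hε hg hε' hs e

theorem wt_iff {M M' : Mod R} (h : M.Equiv M') (w : ℤ) : m.Wt p M w ↔ m.Wt p M' w := by
  refine Mod.Equiv.iff (Q := fun M => m.Wt p M w) (fun {P P'} g hg => ⟨?_, ?_⟩) h
  · rintro ⟨ε, hε, hG⟩
    exact ⟨_, m.map_mem m rfl g hε,
      (DG.Gen.map_qiso (g.app (.mk 0)) (hg (.mk 0)) ε).2 hG⟩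
  · rintro ⟨ε', hε', hG⟩
    obtain ⟨ε, rfl⟩ := (((g.app (.mk 0)).qiso_iff.1 (hg (.mk 0))) 0).2 ε'
    refine ⟨ε, ?_, (DG.Gen.map_qiso (g.app (.mk 0)) (hg (.mk 0)) ε).1 hG⟩
    rw [m.mem_W] at hε' ⊢
    apply (((g.app (.mk 1)).qiso_iff.1 (hg (.mk 1))) 0).1
    have nat : ∀ θ : (.mk 0 : SimplexCategory) ⟶ .mk 1,
        (g.app (.mk 1)).H 0 ((P.map θ).H 0 ε) = (P'.map θ).H 0 ((g.app (.mk 0)).H 0 ε) :=
      fun θ => DG.H_comm _ _ _ _ (g.nat θ) 0 ε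
    rw [DG.Hom.H_smul, nat, nat, hε']
    rfl

theorem wt_tensor (hp : m.Node p) {L L' P : Mod R} (h : Mod.IsTensor L L' P) (hP : m.Laur P)
    {w w' w'' : ℤ} (h₁ : m.Wt p L w) (h₂ : m.Wt p L' w') (h₃ : m.Wt p P w'') :
    w'' = w + w' := by
  obtain ⟨L₁, L₁', P₁, n, e₁, e₂, e₃, hn⟩ := h
  obtain ⟨ε, hε, hg⟩ := (wt_iff e₁ w).2 h₁
  obtain ⟨ε', hε', hg'⟩ := (wt_iff e₂ w').2 h₂
  obtain ⟨ε'', hε'', hg''⟩ := (wt_iff e₃ w'').2 h₃
  have hP₁ := (m.laur_iff e₃).2 hP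
  obtain ⟨x, hx, rfl⟩ := DG.cls_surj ε
  obtain ⟨y, hy, rfl⟩ := DG.cls_surj ε'
  obtain ⟨z, hz, rfl⟩ := DG.cls_surj ε''
  have hμ : (P₁.obj (.mk 0)).cls _ (WtB_pair_cycle n _ hx hy) ∈ m.W P₁ (w + w') 0 := by
    rw [m.mem_W] at hε hε' ⊢
    rw [DG.Hom.H_cls, DG.Hom.H_cls] at hε hε' ⊢
    have := WtB_pair_cls n (.mk 1) _ _ _ _ ((one_smul _ _).trans hε) ((one_smul _ _).trans hε')
    rw [one_mul, one_smul, ← Units.val_mul, ← zpow_add] at this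
    rw [DG.cls_congr _ (WtB_pair_cycle n _ ((L₁.map (δ 1)).cycle hx) ((L₁'.map (δ 1)).cycle hy))
      (n.nat (δ 1) x y), this,
      DG.cls_congr _ (WtB_pair_cycle n _ ((L₁.map (δ 0)).cycle hx) ((L₁'.map (δ 0)).cycle hy))
      (n.nat (δ 0) x y)]
  obtain ⟨v, hv, hzv⟩ := hn (.mk 0) z hz
  have key : ∃ hv : (P₁.obj (.mk 0)).Cycle 0 v, ∃ s ∈ p.primeCompl, ∃ r : (R.obj (.mk 0)).obj 0,
      m.σ s • (P₁.obj (.mk 0)).cls v hv
        = r • (P₁.obj (.mk 0)).cls _ (WtB_pair_cycle n _ hx hy) := by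
    clear hzv
    induction hv using AddSubgroup.closure_induction with
    | mem v hv =>
      obtain ⟨x', y', hx', hy', rfl⟩ := hv
      obtain ⟨s, hs, r, e⟩ := WtB_exists_smul hg ((L₁.obj (.mk 0)).cls x' hx')
      obtain ⟨s', hs', r', e'⟩ := WtB_exists_smul hg' ((L₁'.obj (.mk 0)).cls y' hy')
      refine ⟨WtB_pair_cycle n _ hx' hy', s * s', p.primeCompl.mul_mem hs hs', r * r', ?_⟩
      rw [map_mul]
      exact WtB_pair_cls n _ _ _ _ _ e e'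
    | zero =>
      refine ⟨((P₁.obj (.mk 0)).Z 0).zero_mem, 1, p.primeCompl.one_mem, 0, ?_⟩
      rw [zero_smul]
      exact smul_zero _
    | add v v' _ _ ih ih' =>
      obtain ⟨hv, s, hs, r, e⟩ := ih
      obtain ⟨hv', s', hs', r', e'⟩ := ih'
      refine ⟨((P₁.obj (.mk 0)).Z 0).add_mem hv hv', s * s', p.primeCompl.mul_mem hs hs',
        m.σ s' * r + m.σ s * r', ?_⟩
      rw [← DG.cls_add hv hv', smul_add, add_smul, mul_smul, mul_smul, ← e, ← e', map_mul,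
        smul_smul, smul_smul, mul_comm (m.σ s')]
    | neg v _ ih =>
      obtain ⟨hv, s, hs, r, e⟩ := ih
      refine ⟨((P₁.obj (.mk 0)).Z 0).neg_mem hv, s, hs, -r, ?_⟩
      rw [neg_smul, ← e, ← smul_neg]
      rfl
  obtain ⟨hv', s, hs, r, e⟩ := key
  rw [← (DG.cls_eq_iff hz hv').2 hzv] at e
  exact eq_of_smul_eq hp hP₁ hε'' hg'' hμ hs e

theorem wt_unit : m.Wt p (Mod.unit R) 0 := ⟨_, m.one_mem, DG.gen_one⟩

theorem wt_ker {Q : Mod R} (π : Mod.Hom (𝟙 R) (Mod.unit R) Q) {b : ℤ}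
    (h : KerGen (π.app (.mk 0)) (m.t b)) : m.Wt p π.ker b := by
  obtain ⟨h0, hq⟩ := kerGen_iff.1 h
  refine ⟨(π.ker.obj (.mk 0)).cls _ (KerGen.cycle h0), ?_, fun k => ?_⟩
  · rw [m.mem_W, DG.Hom.H_cls, DG.Hom.H_cls, DG.cls_smul]
    refine DG.cls_congr _ _ (Subtype.ext ?_)
    change N.map (R.map (δ 1)) (N.inc (m.t b)) = N.inc _ * N.map (R.map (δ 0)) (N.inc (m.t b))
    rw [N.map_inc, N.map_inc, m.t_wt, map_mul]
  · rw [DG.act_toSpan]
    exact LocIso.of_bijective ((DG.Hom.qiso_iff _).1 hq k)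

theorem Wt.baseChange {m' : Mon A' R'} {p' : Ideal (A'.obj 0)} [p'.IsPrime] {η : R ⟶ R'}
    (ψ : A ⟶ A') (hι : m.ι (.mk 0) ≫ η.app (.mk 0) = ψ ≫ m'.ι (.mk 0))
    (hu : (η.app (.mk 1)).app 0 (m.u (.mk 1) 0 1) = m'.u (.mk 1) 0 1)
    (hp : ∀ a, ψ.app 0 a ∈ p' → a ∈ p) {M : Mod R} {M' : Mod R'} (g : Mod.Hom η M M')
    (hg : (g.app (.mk 0)).LineBaseChange) {w : ℤ} (h : m.Wt p M w) : m'.Wt p' M' w := by
  obtain ⟨ε, hε, hG⟩ := h
  refine ⟨_, m.map_mem m' hu g hε, fun k => ?_⟩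
  have e : ((η.app (.mk 0)).app 0).comp m.σ = m'.σ.comp (ψ.app 0) :=
    congrArg (fun f => SRing.Hom.app f 0) hι
  have h₁ := hg.gen hG k
  rw [e, ← locIso_map_iff] at h₁
  refine h₁.mono ?_
  rintro _ ⟨a, ha, rfl⟩ hc
  exact ha (hp a hc)

end Mon

end Pool.Agent.P.MP_932208_ag.Ax
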