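import Pool.Agent.P.MP_932208_ag.Ax.ReesL
import Pool.Agent.P.MP_932208_ag.Ax.TotG
import Pool.Agent.P.MP_932208_ag.Ax.WtB

/-!
The Rees stack of a virtual Cartier divisor as a diagram over `J × Δ`.
-/

namespace Pool.Agent.P.MP_932208_ag.Ax

open CategoryTheory

variable {J : Type} [SmallCategory J] {A B : J ⥤ SRing} {φ : A ⟶ B}

section ReesJhelpers
variable {K : SRing} {ν : K.obj 0} {w : Wgt} {n n' : ℕ}

theorem ReesJ_bij {K' : SRing} {I : Type} {P : DG K} {Q : DG K'} (m : I → DG.CMap P Q)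
    (c : I → DG.CMap Q P) (h₁ : ∀ i x, (c i).toFun ((m i).toFun x) = x)
    (h₂ : ∀ i i' x, i ≠ i' → (c i).toFun ((m i').toFun x) = 0)
    (h₃ : ∀ S : Q.V → Prop, S 0 → (∀ i x, S ((m i).toFun x)) → (∀ x y, S x → S y → S (x + y)) →
      ∀ y, S y) (k : ℤ) :
    Function.Bijective (Finsupp.liftAddHom fun i => (m i).H k : (I →₀ P.H k) →+ Q.H k) := by
  classical
  refine DG.bijective_liftAddHom m c h₁ h₂ (fun y => ?_) k
  suffices h : ∃ T : Finset I, ∀ T', T ⊆ T' → ∑ i ∈ T', (m i).toFun ((c i).toFun y) = y by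
    obtain ⟨T, hT⟩ := h
    exact ⟨T, hT T subset_rfl⟩
  refine h₃ (fun y => ∃ T : Finset I, ∀ T', T ⊆ T' →
    ∑ i ∈ T', (m i).toFun ((c i).toFun y) = y) ⟨∅, fun T' _ => by simp⟩ (fun i x => ?_)
    (fun x y hx hy => ?_) y
  · refine ⟨{i}, fun T' hT => ?_⟩
    rw [Finset.sum_eq_single i, h₁]
    · intro b _ hb
      rw [h₂ _ _ _ hb, map_zero]
    · intro hi
      exact absurd (hT (Finset.mem_singleton_self i)) hi
  · obtain ⟨T₁, h₁'⟩ := hx
    obtain ⟨T₂, h₂'⟩ := hy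
    refine ⟨T₁ ∪ T₂, fun T' hT => ?_⟩
    simp only [map_add, Finset.sum_add_distrib]
    rw [h₁' T' (Finset.subset_union_left.trans hT), h₂' T' (Finset.subset_union_right.trans hT)]

/-- Reading off the coefficients along an injective map of exponents. -/
noncomputable def ReesJ_pullFun (E : Lam n → Lam n') (hE : Function.Injective E) :
    N (Rr K ν w n') →+ N (Rr K ν w n) :=
  Rr.coefE.symm.toAddMonoidHom.comp
    ((Finsupp.comapDomain.addMonoidHom hE).comp Rr.coefE.toAddMonoidHom)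

theorem ReesJ_coefE_pull (E : Lam n → Lam n') (hE : Function.Injective E)
    (y : N (Rr K ν w n')) (e : Lam n) :
    Rr.coefE (ReesJ_pullFun E hE y) e = Rr.coefE y (E e) := by
  change Rr.coefE (Rr.coefE.symm _) e = _
  rw [AddEquiv.apply_symm_apply]
  rfl

/-- Reading off the coefficients along an injective map of exponents, as a chain map. -/
noncomputable def ReesJ_pull (E : Lam n → Lam n') (hE : Function.Injective E) :
    DG.CMap (DG.unit (Rr K ν w n')) (DG.unit (Rr K ν w n)) where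
  toFun := ReesJ_pullFun E hE
  map_gr h := Rr.coefE_mem_deg.2 fun e => by
    rw [ReesJ_coefE_pull]
    exact Rr.coefE_mem_deg.1 h _
  map_d x := Rr.coefE.injective (Finsupp.ext fun e => by
    change Rr.coefE (ReesJ_pullFun E hE (N.bd x)) e = Rr.coefE (N.bd (ReesJ_pullFun E hE x)) e
    rw [Rr.coefE_bd, ReesJ_coefE_pull, ReesJ_coefE_pull, Rr.coefE_bd])

/-- The exponent of `(z_0 / z_1) ^ c` times the shifted monomial. -/
noncomputable def ReesJ_E (c : ℤ) (e : Lam n) : Lam (n + 1) :=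
  (Finsupp.single 0 c - Finsupp.single 1 c) + Lam.push (face 0) e

theorem ReesJ_push_zero (e : Lam n) : (Lam.push (face 0) e : Lam (n + 1)) 0 = 0 := by
  refine Finsupp.mapDomain_of_notMem_range _ _ ?_
  rintro ⟨a, ha⟩
  exact Fin.succAbove_ne 0 a ha

theorem ReesJ_push_succ (e : Lam n) (a : Fin (n + 1)) :
    (Lam.push (face 0) e : Lam (n + 1)) a.succ = e a :=
  Finsupp.mapDomain_apply (f := (face 0 : Op n (n + 1)))
    (Fin.succAbove_right_injective (p := (0 : Fin (n + 2)))) e a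

theorem ReesJ_E_zero (c : ℤ) (e : Lam n) : ReesJ_E c e 0 = c := by
  simp [ReesJ_E, ReesJ_push_zero]

theorem ReesJ_E_inj (c : ℤ) : Function.Injective (ReesJ_E c : Lam n → Lam (n + 1)) := by
  intro e e' h
  have h' : (Lam.push (face 0) e : Lam (n + 1)) = Lam.push (face 0) e' := add_left_cancel h
  ext a
  rw [← ReesJ_push_succ, h', ReesJ_push_succ]

theorem ReesJ_E_surj (e' : Lam (n + 1)) : ∃ c e, ReesJ_E c e = e' := by
  refine ⟨e' 0, Finsupp.single 0 (e' 0) + Finsupp.equivFunOnFinite.symm fun a => e' a.succ, ?_⟩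
  ext a
  refine Fin.cases (ReesJ_E_zero _ _) (fun a => ?_) a
  rw [ReesJ_E, Finsupp.add_apply, ReesJ_push_succ, Finsupp.sub_apply,
    Finsupp.single_eq_of_ne (Fin.succ_ne_zero a), Finsupp.add_apply, ← Fin.succ_zero_eq_one',
    Finsupp.single_apply_left (Fin.succ_injective _)]
  simp

theorem ReesJ_lam0 (e : Lam 0) : e = Finsupp.single 0 (e 0) := by
  ext a
  rw [Subsingleton.elim (α := Fin 1) a 0]
  exact Finsupp.single_eq_same.symm

theorem ReesJ_lam0_inj : Function.Injective fun e : Lam 0 => e 0 := fun e e' h => by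
  rw [ReesJ_lam0 e, ReesJ_lam0 e']
  exact congrArg _ h

theorem ReesJ_ind0 {S : (Rr K ν w 0).obj 0 → Prop} (h0 : S 0)
    (hm : ∀ c a, S ((Rr.ι K ν w 0).app 0 c * Rr.mono K ν w (Finsupp.single (0 : Fin 1) a)))
    (hadd : ∀ x y, S x → S y → S (x + y)) (r : (Rr K ν w 0).obj 0) : S r := by
  obtain ⟨f, rfl⟩ := Rr.coef0.symm.surjective r
  induction f using Finsupp.induction_linear with
  | zero => rw [map_zero]; exact h0
  | add f g hf hg => rw [map_add]; exact hadd _ _ hf hg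
  | single e c => rw [Rr.coef0_symm_single, ReesJ_lam0 e]; exact hm _ _

theorem ReesJ_ratio_self (a : Fin (n + 1)) : Rr.ratio K ν w a a = 1 :=
  mul_left_cancel (a := Rr.ratio K ν w a a) (by rw [Rr.ratio_trans, mul_one])

theorem ReesJ_ratio_mul (a b : Fin (n + 1)) (l : ℤ) :
    ((Rr.ratio K ν w a b ^ l : ((Rr K ν w n).obj 0)ˣ) : (Rr K ν w n).obj 0) *
      Rr.mono K ν w (Finsupp.single b l) = Rr.mono K ν w (Finsupp.single a l) := by
  rw [Rr.ratio_zpow, Rr.mono_mul_of_degree_zero (by simp), sub_add_cancel]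

theorem ReesJ_map_ratio {K' : SRing} {ν' : K'.obj 0} {w' : Wgt} (ψ : K ⟶ K') (γ : (K'.obj 0)ˣ)
    (hν : ψ.app 0 ν = γ * ν') (hw : ∀ b, w'.φ b ≤ w.φ b) (θ : Op n n') (a b : Fin (n + 1)) :
    Units.map ((Rr.map ψ γ hν hw θ).app 0).toMonoidHom (Rr.ratio K ν w a b) =
      Rr.ratio K' ν' w' (θ a) (θ b) :=
  Units.ext (Rr.map_ratio ψ γ hν hw θ a b)

theorem ReesJ_map_ι {K' : SRing} {ν' : K'.obj 0} {w' : Wgt} (ψ : K ⟶ K') (γ : (K'.obj 0)ˣ)
    (hν : ψ.app 0 ν = γ * ν') (hw : ∀ b, w'.φ b ≤ w.φ b) (θ : Op n n') (u : (K.obj 0)ˣ) :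
    Units.map ((Rr.map ψ γ hν hw θ).app 0).toMonoidHom
        (Units.map ((Rr.ι K ν w n).app 0).toMonoidHom u) =
      Units.map ((Rr.ι K' ν' w' n').app 0).toMonoidHom (Units.map (ψ.app 0).toMonoidHom u) :=
  Units.ext (Rr.map_ι_apply ψ γ hν hw θ 0 u)

end ReesJhelpers

namespace VirtualCartier
variable (Z : VirtualCartier φ) (w : Wgt)

theorem kerGen (j : J) : KerGen (DG.unitHom (φ.app j)) (Z.ν j) := .of_generates (Z.generates j)

theorem φ_ν (j : J) : (φ.app j).app 0 (Z.ν j) = 0 := by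
  have h : N.map (φ.app j) (N.inc (Z.ν j)) = 0 := (Z.kerGen j).map_eq_zero
  rw [N.map_inc] at h
  exact congrFun (congrArg Subtype.val h) 0

/-- The Rees stack (`w = star`) and its two open substacks (`w = t`, `w = y`). -/
@[reducible] noncomputable def RJ : J × SimplexCategory ⥤ SRing where
  obj p := Rr (A.obj p.1) (Z.ν p.1) w p.2.len
  map f := Rr.map (A.map f.1) (Z.γ.c f.1) (Z.map_ν f.1) (fun _ => le_rfl) f.2.toOrderHom
  map_id p := Rr.map_id (A.map_id _) (Z.γ.c_id _) rfl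
  map_comp f g := (Rr.map_comp (A.map_comp _ _).symm (Z.γ.c_comp _ _).symm rfl).symm

/-- The projection of the Rees stack to `X`. -/
@[reducible] noncomputable def ιJ : prJ J ⋙ A ⟶ Z.RJ w where
  app p := Rr.ι (A.obj p.1) (Z.ν p.1) w p.2.len
  naturality _ _ f :=
    (Rr.ι_map (A.map f.1) (Z.γ.c f.1) (Z.map_ν f.1) (fun _ => le_rfl) f.2.toOrderHom).symm

theorem one_mul_ν (j : J) :
    SRing.Hom.app (𝟙 (A.obj j)) 0 (Z.ν j) = (1 : ((A.obj j).obj 0)ˣ) * Z.ν j := by simp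

variable {w} in
/-- The open immersions. -/
@[reducible] noncomputable def ηJ {w' : Wgt} (hw : ∀ b, w'.φ b ≤ w.φ b) : Z.RJ w ⟶ Z.RJ w' where
  app p := Rr.map (𝟙 _) 1 (Z.one_mul_ν p.1) hw OrderHom.id
  naturality p q f :=
    (Rr.map_comp (hν'' := Z.map_ν f.1) (hw'' := hw) (θ'' := f.2.toOrderHom) (γ'' := Z.γ.c f.1)
      (Category.comp_id _) (one_mul _) (OrderHom.id_comp _)).trans
      (Rr.map_comp (γ := 1) (θ := OrderHom.id) (θ' := f.2.toOrderHom) (γ' := Z.γ.c f.1)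
        (hν := Z.one_mul_ν p.1) (hw := hw) (hν' := Z.map_ν f.1) (hw' := fun _ => le_rfl)
        (Category.id_comp _) (by rw [map_one, mul_one]) (OrderHom.comp_id _)).symm

theorem ιJ_ηJ {w w' : Wgt} (hw : ∀ b, w'.φ b ≤ w.φ b) : Z.ιJ w ≫ Z.ηJ hw = Z.ιJ w' := by
  ext p : 2
  rw [NatTrans.comp_app]
  exact (Rr.ι_map (n := p.2.len) (𝟙 _) 1 (Z.one_mul_ν p.1) hw OrderHom.id).trans
    (Category.id_comp _)

/-- The structure maps of a slice: `(slice j ⋙ Z.RJ w).map θ = Z.sl w j θ.toOrderHom` by `rfl`. -/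
noncomputable abbrev sl (j : J) {n n' : ℕ} (θ : Op n n') :
    Rr (A.obj j) (Z.ν j) w n ⟶ Rr (A.obj j) (Z.ν j) w n' :=
  Rr.map (A.map (𝟙 j)) (Z.γ.c (𝟙 j)) (Z.map_ν (𝟙 j)) (fun _ => le_rfl) θ

theorem slice_map (j : J) {s s' : SimplexCategory} (θ : s ⟶ s') :
    (slice j ⋙ Z.RJ w).map θ = Z.sl w j θ.toOrderHom := rfl

theorem ι_sl (j : J) {n n' : ℕ} (θ : Op n n') : Rr.ι _ _ w n ≫ Z.sl w j θ = Rr.ι _ _ w n' := by
  rw [Rr.ι_map, A.map_id, Category.id_comp]

theorem sl_mono (j : J) {n n' : ℕ} (θ : Op n n') (e : Lam n) :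
    (Z.sl w j θ).app 0 (Rr.mono _ _ w e) = Rr.mono _ _ w (Lam.push θ e) := by
  rw [Rr.map_mono, Z.γ.c_id]
  simp [Wgt.fac]

theorem ReesJ_sl_mon (j : J) {n n' : ℕ} (θ : Op n n') (e : Lam n) (a : N (A.obj j)) :
    N.map (Z.sl w j θ) ((Rr.mon e).toFun a) = (Rr.mon (Lam.push θ e)).toFun a := by
  rw [Rr.mon_apply, Rr.mon_apply, map_mul, N.map_inc, N.map_map, Z.sl_mono, Z.ι_sl]

/-- The map `x ↦ (z_0 / z_1) ^ c δ_0 x`. -/
noncomputable def ReesJ_m (j : J) (n : ℕ) (c : ℤ) :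
    DG.CMap (DG.unit (Rr (A.obj j) (Z.ν j) w n)) (DG.unit (Rr (A.obj j) (Z.ν j) w (n + 1))) :=
  ((DG.unitHom (Z.sl w j (face (0 : Fin (n + 2))))).scale
    ((Rr.ratio (n := n + 1) (A.obj j) (Z.ν j) w 0 1 ^ c :
      ((Rr (A.obj j) (Z.ν j) w (n + 1)).obj 0)ˣ) : _)).cmap

theorem ReesJ_m_mon (j : J) (n : ℕ) (c : ℤ) (e : Lam n) (a : N (A.obj j)) :
    (Z.ReesJ_m w j n c).toFun ((Rr.mon e).toFun a) = (Rr.mon (ReesJ_E c e)).toFun a := by
  change N.inc _ * N.map (Z.sl w j (face (0 : Fin (n + 2)))) ((Rr.mon e).toFun a) = _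
  rw [ReesJ_sl_mon, Rr.mon_apply, Rr.mon_apply, ← mul_assoc, ← map_mul, Rr.ratio_zpow,
    Rr.mono_mul_of_degree_zero (by simp)]
  rfl

theorem laur_unit (j : J) (n : ℕ) (k : ℤ) : Function.Bijective
    ((Mod.unit (slice j ⋙ Z.RJ w)).laurMap n (Rr.ratio (n := n + 1) (A.obj j) (Z.ν j) w 0 1) k) := by
  refine ReesJ_bij (Z.ReesJ_m w j n) (fun c => ReesJ_pull (ReesJ_E c) (ReesJ_E_inj c))
    (fun c x => ?_) (fun c c' x h => ?_) (fun S h0 hm hadd y => ?_) k
  · induction x using Rr.induction with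
    | h0 => rw [map_zero, map_zero]
    | hm e a =>
      rw [ReesJ_m_mon]
      refine Rr.coefE.injective (Finsupp.ext fun e' => ?_)
      change Rr.coefE (ReesJ_pullFun _ (ReesJ_E_inj c) _) e' = _
      rw [ReesJ_coefE_pull, Rr.coefE_mon, Rr.coefE_mon,
        Finsupp.single_apply_left (ReesJ_E_inj c)]
    | hadd x y hx hy => rw [map_add, map_add, hx, hy]
  · induction x using Rr.induction with
    | h0 => rw [map_zero, map_zero]
    | hm e a =>
      rw [ReesJ_m_mon]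
      refine Rr.coefE.injective (Finsupp.ext fun e' => ?_)
      change Rr.coefE (ReesJ_pullFun _ (ReesJ_E_inj c) _) e' = _
      rw [ReesJ_coefE_pull, Rr.coefE_mon, map_zero, Finsupp.zero_apply, Finsupp.single_eq_of_ne]
      intro p
      apply h
      rw [← ReesJ_E_zero c e', p, ReesJ_E_zero]
    | hadd x y hx hy => rw [map_add, map_add, hx, hy, add_zero]
  · induction y using Rr.induction with
    | h0 => exact h0
    | hm e a =>
      obtain ⟨c, e, rfl⟩ := ReesJ_E_surj e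
      rw [← ReesJ_m_mon]
      exact hm _ _
    | hadd x y hx hy => exact hadd _ _ hx hy

theorem t_wt (j : J) (a : ℤ) :
    (Z.sl w j (face (1 : Fin 2))).app 0
        (Rr.mono (A.obj j) (Z.ν j) w (Finsupp.single (0 : Fin 1) a)) =
      (Rr.ratio (n := 1) (A.obj j) (Z.ν j) w 0 1 ^ a : ((Rr (A.obj j) (Z.ν j) w 1).obj 0)ˣ) *
        (Z.sl w j (face (0 : Fin 2))).app 0
          (Rr.mono (A.obj j) (Z.ν j) w (Finsupp.single (0 : Fin 1) a)) := by
  rw [Z.sl_mono, Z.sl_mono, Lam.push_single, Lam.push_single]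
  exact (ReesJ_ratio_mul (0 : Fin 2) 1 a).symm

/-- The coefficients of a vertex of the Rees algebra. -/
noncomputable def co (j : J) : (Rr (A.obj j) (Z.ν j) w 0).obj 0 →+ (ℤ →₀ (A.obj j).obj 0) :=
  (Finsupp.mapDomain.addMonoidHom fun e : Lam 0 => e 0).comp Rr.coef0.toAddMonoidHom

theorem co_ι_mul (j : J) (c : (A.obj j).obj 0) (a : ℤ) :
    Z.co w j ((Rr.ι _ _ w 0).app 0 c * Rr.mono _ _ w (Finsupp.single (0 : Fin 1) a)) =
      Finsupp.single a c := by
  rw [← Rr.coef0_symm_single]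
  change Finsupp.mapDomain _ (Rr.coef0 (Rr.coef0.symm _)) = _
  rw [AddEquiv.apply_symm_apply, Finsupp.mapDomain_single, Finsupp.single_eq_same]

theorem co_sum (j : J) (r : (Rr (A.obj j) (Z.ν j) w 0).obj 0) :
    ((Z.co w j r).sum fun a c =>
      (Rr.ι _ _ w 0).app 0 c * Rr.mono _ _ w (Finsupp.single (0 : Fin 1) a)) = r := by
  induction r using ReesJ_ind0 with
  | h0 => rw [map_zero, Finsupp.sum_zero_index]
  | hm c a => rw [co_ι_mul, Finsupp.sum_single_index (by rw [map_zero, zero_mul])]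
  | hadd x y hx hy =>
    rw [map_add, Finsupp.sum_add_index' (fun _ => by rw [map_zero, zero_mul])
      (fun _ _ _ => by rw [map_add, add_mul]), hx, hy]

theorem co_ι (j : J) (c : (A.obj j).obj 0) : Z.co w j ((Rr.ι _ _ w 0).app 0 c) 0 = c := by
  have h := Z.co_ι_mul w j c 0
  rw [Finsupp.single_zero, Rr.mono_zero, mul_one] at h
  rw [h, Finsupp.single_eq_same]

theorem dec_unit (j : J) (k : ℤ) : Function.Bijective (Finsupp.liftAddHom fun a : ℤ =>
    ((DG.unitHom (Rr.ι (A.obj j) (Z.ν j) w 0)).scale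
      (Rr.mono _ _ w (Finsupp.single (0 : Fin 1) a))).H k :
      (ℤ →₀ (DG.unit (A.obj j)).H k) →+ (DG.unit (Rr (A.obj j) (Z.ν j) w 0)).H k) := by
  refine ReesJ_bij (fun a : ℤ => (Rr.mon (Finsupp.single (0 : Fin 1) a)).cmap)
    (fun a => Rr.coef (Finsupp.single (0 : Fin 1) a))
    (fun c x => ?_) (fun c c' x h => ?_) (fun S h0 hm hadd y => ?_) k
  · change Rr.coefE ((Rr.mon _).toFun x) _ = x
    rw [Rr.coefE_mon, Finsupp.single_eq_same]
  · change Rr.coefE ((Rr.mon _).toFun x) _ = 0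
    rw [Rr.coefE_mon, Finsupp.single_eq_of_ne]
    intro p
    exact h (Finsupp.single_injective _ p)
  · induction y using Rr.induction with
    | h0 => exact h0
    | hm e a =>
      rw [ReesJ_lam0 e]
      exact hm _ _
    | hadd x y hx hy => exact hadd _ _ hx hy

/-- The slices of the Rees stack are bar constructions of graded rings. -/
@[reducible] noncomputable def mon (j : J) : Mon (A.obj j) (slice j ⋙ Z.RJ w) where
  ι s := Rr.ι (A.obj j) (Z.ν j) w s.len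
  comm θ := Z.ι_sl w j θ.toOrderHom
  u _ := Rr.ratio (A.obj j) (Z.ν j) w
  u_trans _ := Rr.ratio_trans
  u_map _ := Rr.map_ratio _ _ _ _ _
  laur := Z.laur_unit w j
  t a := Rr.mono (A.obj j) (Z.ν j) w (Finsupp.single (0 : Fin 1) a)
  t_zero := by rw [Finsupp.single_zero]; exact Rr.mono_zero
  t_wt := Z.t_wt w j
  co := Z.co w j
  co_sum := Z.co_sum w j
  co_ι := Z.co_ι w j
  dec := Z.dec_unit w j

theorem ReesJ_co_zero (j : J) (r : (Rr (A.obj j) (Z.ν j) w 0).obj 0) :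
    Z.co w j r 0 = Rr.coef0 r 0 :=
  Finsupp.mapDomain_apply ReesJ_lam0_inj (Rr.coef0 r) 0

theorem ReesJ_co_mul (j : J) (p : Ideal ((A.obj j).obj 0)) (hν : Z.ν j ∈ p)
    (x y : (Rr (A.obj j) (Z.ν j) Wgt.star 0).obj 0) :
    Ideal.Quotient.mk p (Z.co Wgt.star j (x * y) 0) =
      Ideal.Quotient.mk p (Z.co Wgt.star j x 0) * Ideal.Quotient.mk p (Z.co Wgt.star j y 0) := by
  induction x using ReesJ_ind0 with
  | h0 => simp
  | hadd x x' hx hx' => simp only [add_mul, map_add, Finsupp.add_apply, hx, hx']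
  | hm c a =>
    induction y using ReesJ_ind0 with
    | h0 => simp
    | hadd y y' hy hy' => simp only [mul_add, map_add, Finsupp.add_apply, hy, hy']
    | hm c' a' =>
      rw [mul_mul_mul_comm, Rr.mono_mul, ← mul_assoc, ← map_mul, ← map_mul, ← Finsupp.single_add,
        co_ι_mul, co_ι_mul, co_ι_mul, Finsupp.degree_single, Finsupp.degree_single]
      simp only [Finsupp.single_apply]
      have hκ : Wgt.star.κ a a' = (max a 0 + max a' 0 - max (a + a') 0).toNat := rfl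
      by_cases h : a + a' = 0
      · rw [if_pos h]
        by_cases ha : a = 0
        · have ha' : a' = 0 := by omega
          rw [if_pos ha, if_pos ha', show Wgt.star.κ a a' = 0 by rw [hκ]; omega, pow_zero, mul_one,
            map_mul]
        · rw [if_neg ha, map_zero, zero_mul, Ideal.Quotient.eq_zero_iff_mem]
          exact p.mul_mem_left _ (p.pow_mem_of_mem hν _ (by rw [hκ]; omega))
      · rw [if_neg h, map_zero]
        by_cases ha : a = 0
        · rw [if_neg (show ¬a' = 0 by omega), map_zero, mul_zero]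
        · rw [if_neg ha, map_zero, zero_mul]

/-- Evaluation at the fixed point over `p`. -/
noncomputable def ReesJ_ev (j : J) (p : Ideal ((A.obj j).obj 0)) (hν : Z.ν j ∈ p) :
    (Rr (A.obj j) (Z.ν j) Wgt.star 0).obj 0 →+* (A.obj j).obj 0 ⧸ p where
  toFun r := Ideal.Quotient.mk p (Z.co Wgt.star j r 0)
  map_one' := by
    have h := Z.co_ι Wgt.star j 1
    rw [map_one] at h
    rw [h, map_one]
  map_mul' := Z.ReesJ_co_mul j p hν
  map_zero' := by simp
  map_add' x y := by simp only [map_add, Finsupp.add_apply]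

theorem node (j : J) (p : Ideal ((A.obj j).obj 0)) [p.IsPrime]
    (hb : ∀ b ∈ (A.obj j).bdry, b ∈ p) (hν : Z.ν j ∈ p) : (Z.mon Wgt.star j).Node p := by
  have key : ∀ r, r ∈ RingHom.ker (Z.ReesJ_ev j p hν) ↔ Z.co Wgt.star j r 0 ∈ p := fun r =>
    Ideal.Quotient.eq_zero_iff_mem
  refine ⟨RingHom.ker (Z.ReesJ_ev j p hν), RingHom.ker_isPrime _, fun b h => ?_, key⟩
  refine (key b).2 (hb _ ?_)
  have h' := (Rr.coef (A := A.obj j) (ν := Z.ν j) (w := Wgt.star) (0 : Lam 0)).bdry h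
  change (DG.unit (A.obj j)).Bdry 0 (Rr.coefE (N.inc b) 0) at h'
  rw [Rr.coefE_inc] at h'
  exact (Z.ReesJ_co_zero Wgt.star j b).symm ▸ h'

/-- The cocycle `(ψ, θ) ↦ (z_0 / z_{θ 0}) γ_ψ⁻¹`. -/
noncomputable def cJ : Cocycle (Z.RJ w) where
  c {_ q} f := Rr.ratio (A.obj q.1) (Z.ν q.1) w 0 (f.2.toOrderHom 0) *
    Units.map ((Rr.ι (A.obj q.1) (Z.ν q.1) w q.2.len).app 0).toMonoidHom (Z.γ.c f.1)⁻¹
  c_id q := by
    have h : Z.γ.c (𝟙 q : q ⟶ q).1 = 1 := Z.γ.c_id q.1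
    rw [h, inv_one, map_one, mul_one]
    exact ReesJ_ratio_self 0
  c_comp {p q r} f g := by
    have h : Z.γ.c (f ≫ g).1 = _ := Z.γ.c_comp f.1 g.1
    rw [h, UnitTri, map_mul, ReesJ_map_ratio, ReesJ_map_ι, mul_mul_mul_comm, Rr.ratio_trans,
      ← map_mul, mul_inv, map_inv]
    rfl

theorem cJ_slice (l : ℤ) (j : J) {s s' : SimplexCategory} (θ : s ⟶ s') :
    (((Z.cJ w).zpow l).restrict (slice j)).c θ = (Z.mon w j).u s' 0 (θ.toOrderHom 0) ^ l := by
  change (Rr.ratio (A.obj j) (Z.ν j) w 0 (θ.toOrderHom 0) *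
    Units.map ((Rr.ι (A.obj j) (Z.ν j) w s'.len).app 0).toMonoidHom (Z.γ.c (𝟙 j))⁻¹) ^ l = _
  rw [Z.γ.c_id, inv_one, map_one, mul_one]
  rfl

theorem ηJ_cJ {w w' : Wgt} (hw : ∀ b, w'.φ b ≤ w.φ b) (l : ℤ) {p q : J × SimplexCategory}
    (f : p ⟶ q) :
    ((Z.ηJ hw).app q).app 0 (((Z.cJ w).zpow l).c f) = ((Z.cJ w').zpow l).c f := by
  have h : Units.map (((Z.ηJ hw).app q).app 0).toMonoidHom ((Z.cJ w).c f) = (Z.cJ w').c f := by
    change Units.map _ (_ * _) = _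
    rw [map_mul, ReesJ_map_ratio, ReesJ_map_ι]
    rfl
  change ((Units.map (((Z.ηJ hw).app q).app 0).toMonoidHom ((Z.cJ w).c f ^ l) :
    (((Z.RJ w').obj q).obj 0)ˣ) : ((Z.RJ w').obj q).obj 0) = _
  rw [map_zpow, h]
  rfl

/-- The section `z_0 ^ l`. -/
noncomputable def sec (l : ℤ) (p : J × SimplexCategory) : ((Z.RJ w).obj p).obj 0 :=
  Rr.mono (A.obj p.1) (Z.ν p.1) w (Finsupp.single 0 l)

theorem ReesJ_sec (l : ℤ) {p q : J × SimplexCategory} (f : p ⟶ q) :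
    ((Z.cJ w).zpow l).c f * ((Z.RJ w).map f).app 0 (Z.sec w l p) =
      Z.sec w l q * (Rr.ι (A.obj q.1) (Z.ν q.1) w q.2.len).app 0
        (Units.val (Z.γ.c f.1 ^ (-l) * Z.γ.c f.1 ^ w.φ l)) := by
  change Units.val ((Rr.ratio (A.obj q.1) (Z.ν q.1) w 0 (f.2.toOrderHom 0) *
    Units.map ((Rr.ι (A.obj q.1) (Z.ν q.1) w q.2.len).app 0).toMonoidHom (Z.γ.c f.1)⁻¹) ^ l) *
      (Rr.map (A.map f.1) (Z.γ.c f.1) (Z.map_ν f.1) (fun _ => le_rfl) f.2.toOrderHom).app 0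
        (Rr.mono (A.obj p.1) (Z.ν p.1) w (Finsupp.single 0 l)) =
      Rr.mono (A.obj q.1) (Z.ν q.1) w (Finsupp.single 0 l) *
        (Rr.ι (A.obj q.1) (Z.ν q.1) w q.2.len).app 0 _
  rw [Rr.map_mono, Lam.push_single, Finsupp.degree_single, mul_zpow, ← map_zpow, Units.val_mul,
    ← ReesJ_ratio_mul 0 (f.2.toOrderHom 0) l, Wgt.fac, sub_self, Int.toNat_zero, pow_zero, mul_one,
    Units.val_mul, map_mul, inv_zpow', Units.coe_map]
  change _ * (Rr.ι (A.obj q.1) (Z.ν q.1) w q.2.len).app 0 _ * _ = _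
  ring

theorem sec_t (l : ℤ) {p q : J × SimplexCategory} (f : p ⟶ q) :
    Z.sec Wgt.t l q * ((Z.ιJ Wgt.t).app q).app 0 (((Z.γ.zpow (-l)).restrict (prJ J)).c f) =
      ((Z.cJ Wgt.t).zpow l).c f * ((Z.RJ Wgt.t).map f).app 0 (Z.sec Wgt.t l p) := by
  rw [ReesJ_sec, show Wgt.t.φ l = 0 from rfl, zpow_zero, mul_one]
  rfl

theorem sec_y (l : ℤ) {p q : J × SimplexCategory} (f : p ⟶ q) :
    Z.sec Wgt.y l q =
      ((Z.cJ Wgt.y).zpow l).c f * ((Z.RJ Wgt.y).map f).app 0 (Z.sec Wgt.y l p) := by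
  rw [ReesJ_sec, show Wgt.y.φ l = l from rfl, ← zpow_add, neg_add_cancel, zpow_zero, Units.val_one,
    map_one, mul_one]

end VirtualCartier

end Pool.Agent.P.MP_932208_ag.Ax
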