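import Pool.Agent.P.MP_932208_ag.Ax.PhiC
import Pool.Agent.P.MP_932208_ag.Ax.ReesJ
import Pool.Agent.P.MP_932208_ag.Ax.LocM

/-!
The perfect complex `G = i_* p^* F` on the Rees stack.
-/

namespace Pool.Agent.P.MP_932208_ag.Ax

open CategoryTheory

variable {J : Type} [SmallCategory J] {A B : J ⥤ SRing} {φ : A ⟶ B}

theorem Mod.PerfectOfRank.id {F : Mod B} {l : ℤ} (h : F.PerfectOfRank l) (j : J) :
    (DG.Hom.id (F.obj j)).RankBaseChange l :=
  SRing.Covers.mono (h _ _ (𝟙 j)) fun _ p => p.src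

namespace VirtualCartier
variable (Z : VirtualCartier φ) (w : GoodW)

/-- The chart `j`. -/
@[reducible] def chart (j : J) : Chart :=
  ⟨A.obj j, B.obj j, φ.app j, Z.ν j, Z.surjective j, Z.kerGen j⟩

/-- The transition maps. -/
@[reducible] def chartMap {i j : J} (ψ : i ⟶ j) : ChartMap (Z.chart i) (Z.chart j) :=
  ⟨A.map ψ, B.map ψ, (φ.naturality ψ).symm, Z.γ.c ψ, Z.map_ν ψ⟩

theorem γB_comp {i j k : J} (ψ : i ⟶ j) (χ : j ⟶ k) :
    (Z.chartMap χ).γB * Units.map ((B.map χ).app 0).toMonoidHom (Z.chartMap ψ).γB =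
      (Z.chartMap (ψ ≫ χ)).γB := by
  ext
  have := congrArg (fun f => SRing.Hom.app f 0 (Z.γ.c ψ : (A.obj j).obj 0)) (φ.naturality χ)
  simp only [SRing.comp_app] at this
  simp [Z.γ.c_comp, this]

theorem γB_id (j : J) : (Z.chartMap (𝟙 j)).γB = 1 := by
  ext; simp [Z.γ.c_id]

/-- `G = F[y]` on the Rees stack, `F[y^±]` on the open substack `y ≠ 0`. -/
@[reducible] noncomputable def G (F : Mod B) : Mod (Z.RJ w.toWgt) where
  obj p := (Z.chart p.1).G w p.2.len (F.obj p.1)
  map f := (Z.chartMap f.1).T (fun _ => le_rfl) f.2.toOrderHom (F.map f.1)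
  map_id p x := Chart.val_injective (DG.laurFun_id (F.map_id p.1) (Z.γB_id p.1) rfl _)
  map_comp f g x := Chart.val_injective
    (DG.laurFun_comp (fun y => (F.map_comp f.1 g.1 y).symm) (Z.γB_comp f.1 g.1) rfl _).symm

/-- `G` on maps. -/
@[reducible] noncomputable def Gmap {F F' : Mod B} (g : Mod.Hom (𝟙 B) F F') :
    Mod.Hom (𝟙 _) (Z.G w F) (Z.G w F') where
  app p := (Z.chart p.1).Gmap w p.2.len (g.app p.1)
  nat {p q} f x := Chart.val_injective (by
    rw [Chart.Gmap_val, ChartMap.T_val, ChartMap.T_val, Chart.Gmap_val]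
    exact (DG.laurFun_comp (g'' := (F.map f.1).comp (g.app q.1) rfl) (fun _ => rfl)
      (one_mul _) (OrderHom.id_comp _) _).trans (DG.laurFun_comp (fun y => (g.nat f.1 y).symm)
        (by rw [map_one, mul_one]; rfl) (OrderHom.comp_id _) _).symm)

theorem perfect_G {F : Mod B} {l : ℤ} (h : F.PerfectOfRank l) : (Z.G w F).Perfect :=
  fun _ _ f => (Z.chartMap f.1).perfect_T (a := ⟨_, _, F.map f.1⟩) _ _ (h _ _ f.1)

include Z in
theorem perfect_push {F : Mod B} {l : ℤ} (h : F.PerfectOfRank l) : (F.push φ).Perfect :=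
  fun _ _ ψ => (Z.chartMap ψ).perfect_res (a := ⟨_, _, F.map ψ⟩) (h _ _ ψ)

/-- The restriction to `y ≠ 0`. -/
@[reducible] noncomputable def toY (F : Mod B) :
    Mod.Hom (Z.ηJ Wgt.y_le_star) (Z.G GoodW.star F) (Z.G GoodW.y F) where
  app p := (ChartMap.id (Z.chart p.1)).T (w := GoodW.star) (w' := GoodW.y) Wgt.y_le_star
    OrderHom.id (DG.Hom.id _)
  nat {p q} f x := Chart.val_injective (by
    rw [ChartMap.T_val, ChartMap.T_val, ChartMap.T_val, ChartMap.T_val]
    exact (DG.laurFun_comp (g'' := F.map f.1) (γ'' := (Z.chartMap f.1).γB) (fun _ => rfl)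
      (by ext; simp) (OrderHom.id_comp _) _).trans (DG.laurFun_comp (fun _ => rfl)
        (by ext; simp) (OrderHom.comp_id _) _).symm)

theorem perfect_toY {F : Mod B} {l : ℤ} (h : F.PerfectOfRank l) (p : J × SimplexCategory) :
    ((Z.toY F).app p).PerfectBaseChange :=
  (ChartMap.id (Z.chart p.1)).perfect_T (a := ⟨_, _, DG.Hom.id _⟩) _ _ (h.id p.1)

theorem perfect_toT {F : Mod B} {l : ℤ} (h : F.PerfectOfRank l) (p : J × SimplexCategory) :
    ((Mod.Hom.toZero (Z.ηJ Wgt.t_le_star) (Z.G GoodW.star F)).app p).PerfectBaseChange :=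
  (ChartMap.id (Z.chart p.1)).perfect_toZero (a := ⟨_, _, DG.Hom.id _⟩) _ (h.id p.1)

/-- The comparison of `f_* F` with `G` on `y ≠ 0`. -/
@[reducible] noncomputable def fromX (F : Mod B) :
    Mod.Hom (Z.ιJ Wgt.y) ((F.push φ).restrict (prJ J)) (Z.G GoodW.y F) where
  app p := (Z.chart p.1).incl GoodW.y p.2.len (F.obj p.1)
  nat {p q} f x := Chart.val_injective (by
    rw [ChartMap.T_val, Chart.incl_val, Chart.incl_val, DG.laurFun_single, map_zero, map_zero,
      zpow_zero, Units.val_one, map_one, one_smul]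
    rfl)

theorem perfect_fromX {F : Mod B} {l : ℤ} (h : F.PerfectOfRank l) (p : J × SimplexCategory) :
    ((Z.fromX F).app p).PerfectBaseChange :=
  (Z.chart p.1).perfect_incl _ (h.id p.1)

/-- The projection `O → O / t`. -/
@[reducible] noncomputable def πJ : Mod.Hom (𝟙 _) (Mod.unit (Z.RJ w.toWgt)) (Z.G w (Mod.unit B)) where
  app p := (Z.chart p.1).π w p.2.len
  nat f x := (Z.chartMap f.1).T_π (fun _ => le_rfl) f.2.toOrderHom x

theorem isLine_ker_πJ : (Z.πJ w).ker.IsLine :=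
  (Z.πJ w).isLine_ker (fun p => (Z.chart p.1).τ w.toWgt p.2.len)
    (fun p => (Z.chart p.1).kerGen_π w p.2.len)
    fun f => (Z.chartMap f.1).kerGen_map_τ (fun _ => le_rfl) f.2.toOrderHom

/-- A single chart as a virtual Cartier divisor. -/
@[reducible] def ofChart (c : Chart) :
    VirtualCartier ((Functor.const (Discrete PUnit)).map c.φ) where
  surjective _ := c.surj
  ν _ := c.ν
  γ := ⟨fun _ => 1, fun _ => rfl, fun _ _ => by simp⟩
  map_ν _ := by simp [MapsUpTo]
  generates _ := c.gen.generates c.surj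

end VirtualCartier

/-- The localisation of a chart. -/
@[reducible] noncomputable def Chart.loc (c : Chart) (f : c.A.obj 0) : Chart :=
  ⟨c.A.loc f, c.B.loc (c.φ.app 0 f), SRing.locMap c.φ f, (c.A.toLoc f).app 0 c.ν,
    SRing.locMap_surjective c.φ f c.surj, c.gen.loc f⟩

/-- The localisation map. -/
@[reducible] noncomputable def Chart.toLoc (c : Chart) (f : c.A.obj 0) : ChartMap c (c.loc f) :=
  ⟨c.A.toLoc f, c.B.toLoc _, (SRing.toLoc_locMap c.φ f).symm, 1, by simp⟩

namespace VirtualCartier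
variable (Z : VirtualCartier φ) (j : J) (f : (A.obj j).obj 0)

/-- The localised chart as a virtual Cartier divisor. -/
noncomputable abbrev locAt := ofChart ((Z.chart j).loc f)

/-- The localisation map of Rees stacks. -/
@[reducible] noncomputable def ηLoc :
    slice j ⋙ Z.RJ Wgt.star ⟶ slice ⟨PUnit.unit⟩ ⋙ (Z.locAt j f).RJ Wgt.star where
  app s := ((Z.chart j).toLoc f).R (fun _ => le_rfl) OrderHom.id
  naturality s s' θ :=
    (Rr.map_comp (ψ := A.map (𝟙 j)) (γ := Z.γ.c (𝟙 j)) (hν := Z.map_ν (𝟙 j))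
      (hw := fun _ => le_rfl) (θ := θ.toOrderHom) (hν' := ((Z.chart j).toLoc f).hν)
      (hw' := fun _ => le_rfl) (θ' := OrderHom.id) (hν'' := ((Z.chart j).toLoc f).hν)
      (hw'' := fun _ => le_rfl) (θ'' := θ.toOrderHom) (by rw [A.map_id, Category.id_comp])
      (by rw [Z.γ.c_id, map_one, mul_one]) (OrderHom.id_comp _)).trans
    (Rr.map_comp (hν := ((Z.chart j).toLoc f).hν) (hw := fun _ => le_rfl) (θ := OrderHom.id)
      (ψ' := 𝟙 _) (γ' := 1) (hν' := (Z.locAt j f).map_ν (𝟙 ⟨PUnit.unit⟩))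
      (hw' := fun _ => le_rfl) (θ' := θ.toOrderHom) (Category.comp_id _)
      (by rw [map_one, mul_one]) (OrderHom.comp_id _)).symm

/-- The localisation map of modules. -/
@[reducible] noncomputable def toLocG (F : Mod B) : Mod.Hom (Z.ηLoc j f)
    ((Z.G GoodW.star F).restrict (slice j))
    (((Z.locAt j f).G GoodW.star (Mod.single ((F.obj j).loc ((φ.app j).app 0 f)))).restrict
      (slice ⟨PUnit.unit⟩)) where
  app s := ((Z.chart j).toLoc f).T (w := GoodW.star) (w' := GoodW.star) (fun _ => le_rfl)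
    OrderHom.id ((F.obj j).toLoc _)
  nat {s s'} θ x := Chart.val_injective
    ((DG.laurFun_comp (g := F.map (𝟙 j)) (g'' := (F.obj j).toLoc _) (γ'' := 1)
      (γ := (Z.chartMap (𝟙 j)).γB) (θ := θ.toOrderHom) (θ'' := θ.toOrderHom)
      (fun y => congrArg _ (F.map_id j y)) (by rw [Z.γB_id]; ext; simp) (OrderHom.id_comp _)
      (Chart.val x)).trans
    (DG.laurFun_comp (g := (F.obj j).toLoc _) (g' := DG.Hom.id _) (θ := OrderHom.id)
      (γ := ((Z.chart j).toLoc f).γB)
      (γ' := ((Z.locAt j f).chartMap (𝟙 ⟨PUnit.unit⟩)).γB) (θ' := θ.toOrderHom)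
      (fun _ => rfl) (by ext; simp) (OrderHom.comp_id _) (Chart.val x)).symm)

theorem perfect_toLocG {F : Mod B} {l : ℤ} (h : F.PerfectOfRank l) (s : SimplexCategory) :
    ((Z.toLocG j f F).app s).PerfectBaseChange :=
  ((Z.chart j).toLoc f).perfect_T (a := ⟨_, _, (F.obj j).toLoc _⟩) _ _
    (SRing.Covers.mono (h.id j) fun _ p => p.toLoc _)

end VirtualCartier

end Pool.Agent.P.MP_932208_ag.Ax
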