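import Pool.Agent.P.MP_932208_ag.Ax.ReesL

/-!
Laurent modules `E[z_0^±, ..., z_n^±]`.
-/

namespace Pool.Agent.P.MP_932208_ag.Ax

open CategoryTheory

variable {B B' B'' : SRing} {n n' n'' : ℕ}

/-- The Laurent ring `B[z_0^±, ..., z_n^±]`. -/
noncomputable abbrev LB (B : SRing) (n : ℕ) : SRing := Rr B 0 Wgt.y n

theorem map_zero_eq {K K' : Type} [CommRing K] [CommRing K'] (β : K →+* K') (γ : K'ˣ) :
    β 0 = γ * 0 := by simp

namespace DG

/-- Multiplication by `b u_e`. -/
noncomputable def Psi_mul (E : DG B) (e : Lam n) : N B →+ (Lam n →₀ E.V) →+ (Lam n →₀ E.V) :=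
  (Finsupp.liftAddHom fun e' =>
    ((smulAddHom (N B) E.V).compr₂ (Finsupp.singleAddHom (e + e'))).flip).flip

theorem Psi_mul_single (E : DG B) (e e' : Lam n) (b : N B) (x : E.V) :
    E.Psi_mul e b (Finsupp.single e' x) = Finsupp.single (e + e') (b • x) := by
  rw [Psi_mul, AddMonoidHom.flip_apply, Finsupp.liftAddHom_apply_single]; rfl

/-- The action as a biadditive map. -/
noncomputable def Psi_act (E : DG B) (n : ℕ) :
    N (LB B n) →+ (Lam n →₀ E.V) →+ (Lam n →₀ E.V) :=
  (Finsupp.liftAddHom fun e => E.Psi_mul e).comp Rr.coefE.toAddMonoidHom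

theorem Psi_act_mon (E : DG B) (e e' : Lam n) (b : N B) (x : E.V) :
    E.Psi_act n ((Rr.mon e).toFun b) (Finsupp.single e' x) = Finsupp.single (e + e') (b • x) := by
  rw [Psi_act, AddMonoidHom.comp_apply, AddEquiv.coe_toAddMonoidHom, Rr.coefE_mon,
    Finsupp.liftAddHom_apply_single, Psi_mul_single]

theorem Psi_mon_mul (e e' : Lam n) (a b : N B) :
    (Rr.mon (ν := 0) (w := Wgt.y) e).toFun a * (Rr.mon e').toFun b =
      (Rr.mon (e + e')).toFun (a * b) := by
  have h : Wgt.y.κ e.degree e'.degree = 0 := by simp [Wgt.κ, Wgt.y]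
  rw [Rr.mon_mul, h, pow_zero, map_one, one_mul]

theorem Psi_act_mul (E : DG B) (a b : N (LB B n)) (x : Lam n →₀ E.V) :
    E.Psi_act n (a * b) x = E.Psi_act n a (E.Psi_act n b x) := by
  induction x using Finsupp.induction_linear with
  | zero => simp
  | add x y hx hy => simp only [map_add, hx, hy]
  | single e'' x =>
    induction a using Rr.induction with
    | h0 => simp
    | hadd a a' ha ha' => simp only [add_mul, map_add, AddMonoidHom.add_apply, ha, ha']
    | hm e a =>
      induction b using Rr.induction with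
      | h0 => simp
      | hadd b b' hb hb' => simp only [mul_add, map_add, AddMonoidHom.add_apply, hb, hb']
      | hm e' b =>
        rw [Psi_mon_mul, Psi_act_mon, Psi_act_mon, Psi_act_mon, add_assoc, mul_smul]

theorem Psi_act_one (E : DG B) (x : Lam n →₀ E.V) : E.Psi_act n 1 x = x := by
  induction x using Finsupp.induction_linear with
  | zero => simp
  | add x y hx hy => simp only [map_add, hx, hy]
  | single e x => rw [← Rr.mon_zero_one, Psi_act_mon, zero_add, one_smul]

/-- The action of the Laurent ring: `(b u_e) • (x u_e') = (b • x) u_(e + e')`. -/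
noncomputable def laurAct (E : DG B) (n : ℕ) : N (LB B n) →+* AddMonoid.End (Lam n →₀ E.V) where
  toFun a := E.Psi_act n a
  map_one' := AddMonoidHom.ext E.Psi_act_one
  map_mul' a b := AddMonoidHom.ext (E.Psi_act_mul a b)
  map_zero' := map_zero (E.Psi_act n)
  map_add' := map_add (E.Psi_act n)

theorem laurAct_mon (E : DG B) (e e' : Lam n) (b : N B) (x : E.V) :
    E.laurAct n ((Rr.mon e).toFun b) (Finsupp.single e' x) = Finsupp.single (e + e') (b • x) :=
  E.Psi_act_mon e e' b x

attribute [irreducible] laurAct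

noncomputable instance laurModule (E : DG B) (n : ℕ) : Module (N (LB B n)) (Lam n →₀ E.V) :=
  Module.compHom _ (E.laurAct n)

theorem laur_smul (E : DG B) (a : N (LB B n)) (x : Lam n →₀ E.V) : a • x = E.laurAct n a x := rfl

theorem mon_smul_single (E : DG B) (e e' : Lam n) (b : N B) (x : E.V) :
    (Rr.mon (ν := 0) (w := Wgt.y) e).toFun b • Finsupp.single e' x =
      Finsupp.single (e + e') (b • x) := E.laurAct_mon e e' b x

/-- The elements all of whose coefficients have degree `k`. -/
def laurGr (E : DG B) (n : ℕ) (k : ℤ) : AddSubgroup (Lam n →₀ E.V) where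
  carrier := {x | ∀ e, x e ∈ E.gr k}
  add_mem' hx hy e := add_mem (hx e) (hy e)
  zero_mem' _ := zero_mem _
  neg_mem' hx e := neg_mem (hx e)

theorem Psi_single_mem (E : DG B) {k : ℤ} (e : Lam n) {x : E.V} (h : x ∈ E.gr k) :
    Finsupp.single e x ∈ E.laurGr n k := fun e' => by
  classical
  rw [Finsupp.single_apply]
  split_ifs
  · exact h
  · exact zero_mem _

theorem Psi_internal (E : DG B) (n : ℕ) : DirectSum.IsInternal (E.laurGr n) := by
  classical
  refine internal_of_proj _ (fun k => Finsupp.mapRange.addMonoidHom (E.proj k))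
    (fun k x e => E.proj_mem k (x e)) (fun k x hx => Finsupp.ext fun e => E.proj_of_mem (hx e))
    (fun k l x hx h => Finsupp.ext fun e => E.proj_of_ne (hx e) h) fun x => ?_
  choose S h₁ h₂ using E.exists_sum_proj
  refine ⟨x.support.biUnion fun e => S (x e), Finsupp.ext fun e => ?_⟩
  rw [Finsupp.finset_sum_apply]
  change ∑ k ∈ x.support.biUnion fun e => S (x e), E.proj k (x e) = x e
  by_cases he : e ∈ x.support
  · rw [← Finset.sum_subset (Finset.subset_biUnion_of_mem (fun e => S (x e)) he)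
      fun k _ hk => h₁ _ k hk, h₂]
  · rw [Finsupp.notMem_support_iff.1 he]; simp

theorem Psi_sum_mon {A : SRing} {ν : A.obj 0} {w : Wgt} (a : N (Rr A ν w n)) :
    a = ∑ e ∈ (Rr.coefE a).support, (Rr.mon e).toFun (Rr.coefE a e) := by
  apply Rr.coefE.injective
  rw [map_sum, Finset.sum_congr rfl fun e _ => Rr.coefE_mon e (Rr.coefE a e)]
  exact (Finsupp.sum_single (Rr.coefE a)).symm

theorem Psi_smul_mem (E : DG B) {m k : ℤ} {a : N (LB B n)} {x : Lam n →₀ E.V}
    (ha : a ∈ N.deg (LB B n) m) (hx : x ∈ E.laurGr n k) : a • x ∈ E.laurGr n (m + k) := by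
  rw [Psi_sum_mon a, ← Finsupp.sum_single x, Finsupp.sum, Finset.sum_smul]
  refine sum_mem fun e _ => ?_
  rw [Finset.smul_sum]
  refine sum_mem fun e' _ => ?_
  rw [mon_smul_single]
  exact E.Psi_single_mem _ (E.smul_mem (Rr.coefE_mem_deg.1 ha e) (hx e'))

theorem Psi_sg_mon {A : SRing} {ν : A.obj 0} {w : Wgt} (e : Lam n) (a : N A) :
    N.sg ((Rr.mon (ν := ν) (w := w) e).toFun a) = (Rr.mon e).toFun (N.sg a) := by
  rw [Rr.mon_apply, Rr.mon_apply, map_mul, N.sg_inc, N.map_sg]

theorem Psi_bd_mon {A : SRing} {ν : A.obj 0} {w : Wgt} (e : Lam n) (a : N A) :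
    N.bd ((Rr.mon (ν := ν) (w := w) e).toFun a) = (Rr.mon e).toFun (N.bd a) :=
  ((Rr.mon e).map_d a).symm

theorem Psi_mapRange_single {V V' : Type} [AddCommGroup V] [AddCommGroup V'] (f : V →+ V')
    (e : Lam n) (x : V) :
    Finsupp.mapRange.addMonoidHom f (Finsupp.single e x) = Finsupp.single e (f x) :=
  Finsupp.mapRange_single (hf := map_zero f)

theorem Psi_d_smul (E : DG B) (a : N (LB B n)) (x : Lam n →₀ E.V) :
    Finsupp.mapRange.addMonoidHom E.d (a • x) =
      N.bd a • x + N.sg a • Finsupp.mapRange.addMonoidHom E.d x := by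
  induction x using Finsupp.induction_linear with
  | zero => simp
  | add x y hx hy =>
    simp only [smul_add, map_add, hx, hy]
    abel
  | single e' x =>
    induction a using Rr.induction with
    | h0 => simp
    | hadd a a' ha ha' =>
      simp only [add_smul, map_add, ha, ha']
      abel
    | hm e a =>
      rw [Psi_bd_mon, Psi_sg_mon, Psi_mapRange_single, mon_smul_single, mon_smul_single,
        mon_smul_single, Psi_mapRange_single, E.d_smul, Finsupp.single_add]

/-- The Laurent module. -/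
@[reducible] noncomputable def laurent (E : DG B) (n : ℕ) : DG (LB B n) where
  V := Lam n →₀ E.V
  gr := E.laurGr n
  internal := E.Psi_internal n
  d := Finsupp.mapRange.addMonoidHom E.d
  smul_mem := E.Psi_smul_mem
  d_mem h e := E.d_mem (h e)
  d_d x := Finsupp.ext fun e => E.d_d (x e)
  d_smul := E.Psi_d_smul

theorem laurent_proj (E : DG B) (k : ℤ) (x : Lam n →₀ E.V) (e : Lam n) :
    (E.laurent n).proj k x e = E.proj k (x e) := by
  have h := proj_comm (M := E.laurent n) (M' := E) (Finsupp.applyAddHom e) 0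
    (fun k x h => by rw [add_zero]; exact h e) k x
  rw [add_zero] at h
  exact h

/-- The additive map `x u_e ↦ γ ^ |e| g x u_(θ e)`. -/
noncomputable def laurFun {β : B ⟶ B'} {E : DG B} {E' : DG B'} (g : Hom β E E') (γ : (B'.obj 0)ˣ)
    (θ : Op n n') : (Lam n →₀ E.V) →+ (Lam n' →₀ E'.V) :=
  Finsupp.liftAddHom fun e => (Finsupp.singleAddHom (Lam.push θ e)).comp
    (g.scale ((γ ^ e.degree : (B'.obj 0)ˣ) : B'.obj 0)).toFun

theorem laurFun_single {β : B ⟶ B'} {E : DG B} {E' : DG B'} (g : Hom β E E') (γ : (B'.obj 0)ˣ)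
    (θ : Op n n') (e : Lam n) (x : E.V) : laurFun g γ θ (Finsupp.single e x) =
      Finsupp.single (Lam.push θ e)
        (N.inc ((γ ^ e.degree : (B'.obj 0)ˣ) : B'.obj 0) • g.toFun x) := by
  rw [laurFun, Finsupp.liftAddHom_apply_single]; rfl

theorem laurFun_comp {β : B ⟶ B'} {β' : B' ⟶ B''} {β'' : B ⟶ B''} {E : DG B} {E' : DG B'}
    {E'' : DG B''} {g : Hom β E E'} {g' : Hom β' E' E''} {g'' : Hom β'' E E''} {γ : (B'.obj 0)ˣ}
    {γ' γ'' : (B''.obj 0)ˣ} {θ : Op n n'} {θ' : Op n' n''} {θ'' : Op n n''}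
    (e₁ : ∀ x, g'.toFun (g.toFun x) = g''.toFun x)
    (e₂ : γ' * Units.map (β'.app 0).toMonoidHom γ = γ'') (e₃ : θ'.comp θ = θ'')
    (x : Lam n →₀ E.V) : laurFun g' γ' θ' (laurFun g γ θ x) = laurFun g'' γ'' θ'' x := by
  induction x using Finsupp.induction_linear with
  | zero => simp
  | add x y hx hy => simp only [map_add, hx, hy]
  | single e x =>
    rw [laurFun_single, laurFun_single, laurFun_single, Lam.push_comp, e₃, Lam.degree_push,
      g'.map_smul0, e₁, smul_smul, ← map_mul, ← e₂, mul_zpow, ← map_zpow]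
    rfl

theorem laurFun_one_apply {β : B ⟶ B'} {E : DG B} {E' : DG B'} (g : Hom β E E')
    (x : Lam n →₀ E.V) (e : Lam n) : laurFun g 1 OrderHom.id x e = g.toFun (x e) := by
  classical
  induction x using Finsupp.induction_linear with
  | zero => simp
  | add x y hx hy => simp only [map_add, Finsupp.add_apply, hx, hy]
  | single e' x =>
    rw [laurFun_single, Lam.push_id, one_zpow, Units.val_one, map_one, one_smul,
      Finsupp.single_apply, Finsupp.single_apply]
    split_ifs
    · rfl
    · exact (map_zero _).symm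

theorem laurFun_id {β : B ⟶ B} {E : DG B} {g : Hom β E E} {γ : (B.obj 0)ˣ} {θ : Op n n}
    (e₁ : ∀ x, g.toFun x = x) (e₂ : γ = 1) (e₃ : θ = OrderHom.id) (x : Lam n →₀ E.V) :
    laurFun g γ θ x = x := by
  subst e₂ e₃
  exact Finsupp.ext fun e => (laurFun_one_apply g x e).trans (e₁ _)

theorem laurFun_degree {β : B ⟶ B'} {E : DG B} {E' : DG B'} (g : Hom β E E') (γ : (B'.obj 0)ˣ)
    (θ : Op n n') {P : ℤ → Prop} {x : Lam n →₀ E.V} (h : ∀ e : Lam n, ¬ P e.degree → x e = 0)
    (e : Lam n') (he : ¬ P e.degree) : laurFun g γ θ x e = 0 := by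
  classical
  rw [← Finsupp.sum_single x, Finsupp.sum, map_sum, Finsupp.finset_sum_apply]
  refine Finset.sum_eq_zero fun e' he' => ?_
  rw [laurFun_single, Finsupp.single_apply]
  split_ifs with h'
  · rw [h e' (by rwa [← h', Lam.degree_push] at he), map_zero, smul_zero]
  · rfl

theorem Psi_fac {K : Type} [CommRing K] (γ : Kˣ) (b : ℤ) :
    Wgt.y.fac Wgt.y γ 0 b = ((γ ^ b : Kˣ) : K) := by
  simp [Wgt.fac, Wgt.y]

theorem Psi_map_smul {β : B ⟶ B'} {E : DG B} {E' : DG B'} (g : Hom β E E') (γ : (B'.obj 0)ˣ)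
    (θ : Op n n') (a : N (LB B n)) (x : Lam n →₀ E.V) :
    laurFun g γ θ (a • x) =
      N.map (Rr.map β γ (map_zero_eq _ _) (fun _ => le_rfl) θ : LB B n ⟶ LB B' n') a •
        laurFun g γ θ x := by
  induction x using Finsupp.induction_linear with
  | zero => simp
  | add x y hx hy => simp only [smul_add, map_add, hx, hy]
  | single e' x =>
    induction a using Rr.induction with
    | h0 => simp
    | hadd a a' ha ha' => simp only [add_smul, map_add, ha, ha']
    | hm e a =>
      rw [mon_smul_single, laurFun_single, laurFun_single, Rr.map_mon, mon_smul_single, Psi_fac,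
        map_add, map_add, zpow_add, Units.val_mul, map_mul, g.map_smul, smul_smul, smul_smul,
        mul_assoc, mul_assoc, N.inc_comm _ (N.map β a)]

theorem Psi_map_gr {β : B ⟶ B'} {E : DG B} {E' : DG B'} (g : Hom β E E') (γ : (B'.obj 0)ˣ)
    (θ : Op n n') {k : ℤ} {x : Lam n →₀ E.V} (h : x ∈ E.laurGr n k) :
    laurFun g γ θ x ∈ E'.laurGr n' k := by
  rw [← Finsupp.sum_single x, Finsupp.sum, map_sum]
  refine sum_mem fun e _ => ?_
  rw [laurFun_single]
  exact E'.Psi_single_mem _ (E'.inc_smul_mem _ (g.map_gr (h e)))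

theorem Psi_map_d {β : B ⟶ B'} {E : DG B} {E' : DG B'} (g : Hom β E E') (γ : (B'.obj 0)ˣ)
    (θ : Op n n') (x : Lam n →₀ E.V) :
    laurFun g γ θ (Finsupp.mapRange.addMonoidHom E.d x) =
      Finsupp.mapRange.addMonoidHom E'.d (laurFun g γ θ x) := by
  induction x using Finsupp.induction_linear with
  | zero => simp
  | add x y hx hy => simp only [map_add, hx, hy]
  | single e x =>
    rw [Psi_mapRange_single, laurFun_single, laurFun_single, Psi_mapRange_single, g.map_d,
      E'.d_inc_smul]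

/-- Functoriality of the Laurent module. -/
noncomputable def laurMap {β : B ⟶ B'} {E : DG B} {E' : DG B'} (g : Hom β E E') (γ : (B'.obj 0)ˣ)
    (θ : Op n n') : Hom (Rr.map β γ (map_zero_eq _ _) (fun _ => le_rfl) θ)
      (E.laurent n) (E'.laurent n') where
  toFun := laurFun g γ θ
  map_smul := Psi_map_smul g γ θ
  map_gr := Psi_map_gr g γ θ
  map_d := Psi_map_d g γ θ

end DG

end Pool.Agent.P.MP_932208_ag.Ax
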