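import Pool.Agent.P.MP_932208_ag.Ax.ModL

/-!
The bar constructions of the extended Rees algebra `A[t, y]/(t y - ν)` and of its localisations:
twisted monoid algebras `⨁_e A u_e`, `u_e = ν ^ φ(|e|) z ^ e`.
-/

namespace Pool.Agent.P.MP_932208_ag.Ax

open CategoryTheory

/-- A subadditive exponent function. -/
structure Wgt where
  φ : ℤ → ℤ
  zero : φ 0 = 0
  sub : ∀ a b, φ (a + b) ≤ φ a + φ b

/-- The Rees algebra. -/
def Wgt.star : Wgt := ⟨fun b => max b 0, by simp, fun a b => by omega⟩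
/-- The localisation at `t`. -/
def Wgt.t : Wgt := ⟨fun _ => 0, rfl, fun _ _ => le_rfl⟩
/-- The localisation at `y`. -/
def Wgt.y : Wgt := ⟨fun b => b, rfl, fun _ _ => le_rfl⟩

theorem Wgt.t_le_star (b : ℤ) : Wgt.t.φ b ≤ Wgt.star.φ b := le_max_right _ _
theorem Wgt.y_le_star (b : ℤ) : Wgt.y.φ b ≤ Wgt.star.φ b := le_max_left _ _

/-- The twisting exponent. -/
def Wgt.κ (w : Wgt) (a b : ℤ) : ℕ := (w.φ a + w.φ b - w.φ (a + b)).toNat

/-- The factor `γ ^ φ(b) ν ^ (φ(b) - φ'(b))`. -/
def Wgt.fac {K : Type} [CommRing K] (w w' : Wgt) (γ : Kˣ) (ν : K) (b : ℤ) : K :=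
  ((γ ^ w.φ b : Kˣ) : K) * ν ^ (w.φ b - w'.φ b).toNat

/-- Exponents of Laurent monomials in `z_0, ..., z_n`. -/
abbrev Lam (n : ℕ) : Type := Fin (n + 1) →₀ ℤ

/-- Pushforward of exponents: `z_a ↦ z_{θ a}`. -/
noncomputable def Lam.push {n n' : ℕ} (θ : Op n n') : Lam n →+ Lam n' :=
  Finsupp.mapDomain.addMonoidHom θ

@[simp] theorem Lam.push_single {n n' : ℕ} (θ : Op n n') (a : Fin (n + 1)) (c : ℤ) :
    Lam.push θ (Finsupp.single a c) = Finsupp.single (θ a) c := Finsupp.mapDomain_single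

@[simp] theorem Lam.degree_push {n n' : ℕ} (θ : Op n n') (e : Lam n) :
    (Lam.push θ e).degree = e.degree := Finsupp.degree_mapDomain _ _

@[simp] theorem Lam.push_id {n : ℕ} (e : Lam n) : Lam.push OrderHom.id e = e :=
  Finsupp.mapDomain_id

theorem Lam.push_comp {n n' n'' : ℕ} (θ : Op n n') (θ' : Op n' n'') (e : Lam n) :
    Lam.push θ' (Lam.push θ e) = Lam.push (θ'.comp θ) e := Finsupp.mapDomain_comp.symm

theorem Wgt.rees_κ_zero_left (w : Wgt) (b : ℤ) : w.κ 0 b = 0 := by
  rw [Wgt.κ, w.zero, zero_add, zero_add, sub_self]; rfl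

theorem Wgt.rees_κ_comm (w : Wgt) (a b : ℤ) : w.κ a b = w.κ b a := by
  rw [Wgt.κ, Wgt.κ, add_comm a b, add_comm (w.φ a)]

theorem Wgt.rees_κ_assoc (w : Wgt) (a b c : ℤ) :
    w.κ a b + w.κ (a + b) c = w.κ b c + w.κ a (b + c) := by
  have h1 := w.sub a b
  have h2 := w.sub (a + b) c
  have h3 := w.sub b c
  have h4 := w.sub a (b + c)
  simp only [Wgt.κ]
  rw [add_assoc a b c] at h2 ⊢
  omega

theorem Wgt.rees_fac_zero {K : Type} [CommRing K] (w w' : Wgt) (γ : Kˣ) (ν : K) :
    w.fac w' γ ν 0 = 1 := by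
  rw [Wgt.fac, w.zero, w'.zero, zpow_zero, sub_self]
  simp

theorem Wgt.rees_fac_mul {K : Type} [CommRing K] (w w' : Wgt) (γ : Kˣ) (ν : K)
    (hw : ∀ b, w'.φ b ≤ w.φ b) (a b : ℤ) :
    w.fac w' γ ν a * w.fac w' γ ν b * ν ^ w'.κ a b =
      ((γ : K) * ν) ^ w.κ a b * w.fac w' γ ν (a + b) := by
  have h1 := w.sub a b
  have h2 := w'.sub a b
  have h3 := hw a
  have h4 := hw b
  have h5 := hw (a + b)
  have e1 : γ ^ w.φ a * γ ^ w.φ b = γ ^ w.κ a b * γ ^ w.φ (a + b) := by
    rw [← zpow_natCast, ← zpow_add, ← zpow_add]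
    congr 1
    simp only [Wgt.κ]
    omega
  have e2 : (w.φ a - w'.φ a).toNat + (w.φ b - w'.φ b).toNat + w'.κ a b =
      w.κ a b + (w.φ (a + b) - w'.φ (a + b)).toNat := by
    simp only [Wgt.κ]
    omega
  have e3 : ((γ ^ w.φ a : Kˣ) : K) * ((γ ^ w.φ b : Kˣ) : K) =
      (γ : K) ^ w.κ a b * ((γ ^ w.φ (a + b) : Kˣ) : K) := by
    rw [← Units.val_mul, e1, Units.val_mul, Units.val_pow_eq_pow_val]
  have e4 : ν ^ (w.φ a - w'.φ a).toNat * ν ^ (w.φ b - w'.φ b).toNat * ν ^ w'.κ a b =
      ν ^ w.κ a b * ν ^ (w.φ (a + b) - w'.φ (a + b)).toNat := by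
    rw [← pow_add, ← pow_add, e2, pow_add]
  simp only [Wgt.fac]
  rw [mul_pow]
  calc _ = (((γ ^ w.φ a : Kˣ) : K) * ((γ ^ w.φ b : Kˣ) : K)) *
        (ν ^ (w.φ a - w'.φ a).toNat * ν ^ (w.φ b - w'.φ b).toNat * ν ^ w'.κ a b) := by ring
    _ = _ := by rw [e3, e4]; ring

/-- The twisted monoid algebra over a commutative ring. -/
def ReesTw (K : Type) [CommRing K] (_ν : K) (_w : Wgt) (n : ℕ) : Type := Lam n →₀ K

namespace ReesTw
variable {K K' : Type} [CommRing K] [CommRing K'] {ν : K} {ν' : K'} {w : Wgt} {n : ℕ}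

noncomputable instance : AddCommGroup (ReesTw K ν w n) :=
  inferInstanceAs (AddCommGroup (Lam n →₀ K))

/-- The underlying family of coefficients. -/
noncomputable def co : ReesTw K ν w n ≃+ (Lam n →₀ K) := AddEquiv.refl _

/-- The element `a u_e`. -/
noncomputable def sg (e : Lam n) : K →+ ReesTw K ν w n := Finsupp.singleAddHom e

theorem co_sg (e : Lam n) (a : K) : co (sg (ν := ν) (w := w) e a) = Finsupp.single e a := rfl

theorem induction {P : ReesTw K ν w n → Prop} (x : ReesTw K ν w n) (h0 : P 0)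
    (hadd : ∀ x y, P x → P y → P (x + y)) (hs : ∀ e a, P (sg e a)) : P x :=
  Finsupp.induction_linear (motive := P) x h0 hadd hs

/-- An additive map given on the elements `a u_e`. -/
noncomputable def liftAdd {R : Type} [AddCommGroup R] (F : Lam n → K →+ R) :
    ReesTw K ν w n →+ R := Finsupp.liftAddHom F

theorem liftAdd_sg {R : Type} [AddCommGroup R] (F : Lam n → K →+ R) (e : Lam n) (a : K) :
    liftAdd (ν := ν) (w := w) F (sg e a) = F e a := Finsupp.liftAddHom_apply_single F e a

/-- The product of two terms. -/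
noncomputable def bil (e e' : Lam n) : K →+ K →+ ReesTw K ν w n :=
  (AddMonoidHom.mul (R := K)).compr₂
    ((sg (e + e')).comp (AddMonoidHom.mulRight (ν ^ w.κ e.degree e'.degree)))

/-- The product. -/
noncomputable def mulHom : ReesTw K ν w n →+ ReesTw K ν w n →+ ReesTw K ν w n :=
  liftAdd fun e => (liftAdd fun e' => (bil e e').flip).flip

theorem mulHom_sg (e e' : Lam n) (a a' : K) :
    mulHom (sg (ν := ν) (w := w) e a) (sg e' a') =
      sg (e + e') (a * a' * ν ^ w.κ e.degree e'.degree) := by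
  rw [mulHom, liftAdd_sg, AddMonoidHom.flip_apply, liftAdd_sg]
  rfl

theorem mulHom_comm (x y : ReesTw K ν w n) : mulHom x y = mulHom y x := by
  induction x using induction with
  | h0 => simp
  | hadd x x' h h' => simp only [map_add, AddMonoidHom.add_apply, h, h']
  | hs e a =>
    induction y using induction with
    | h0 => simp
    | hadd y y' h h' => simp only [map_add, AddMonoidHom.add_apply, h, h']
    | hs e' a' => rw [mulHom_sg, mulHom_sg, add_comm e e', mul_comm a a', w.rees_κ_comm]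

theorem mulHom_assoc (x y z : ReesTw K ν w n) :
    mulHom (mulHom x y) z = mulHom x (mulHom y z) := by
  induction x using induction with
  | h0 => simp
  | hadd x x' h h' => simp only [map_add, AddMonoidHom.add_apply, h, h']
  | hs e a =>
    induction y using induction with
    | h0 => simp
    | hadd y y' h h' => simp only [map_add, AddMonoidHom.add_apply, h, h']
    | hs e' a' =>
      induction z using induction with
      | h0 => simp
      | hadd y y' h h' => simp only [map_add, h, h']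
      | hs e'' a'' =>
        rw [mulHom_sg, mulHom_sg, mulHom_sg, mulHom_sg, add_assoc, map_add, map_add]
        congr 1
        have h := congrArg (ν ^ ·) (w.rees_κ_assoc e.degree e'.degree e''.degree)
        simp only [pow_add] at h
        linear_combination a * a' * a'' * h

theorem one_mulHom (x : ReesTw K ν w n) : mulHom (sg 0 1) x = x := by
  induction x using induction with
  | h0 => simp
  | hadd x x' h h' => simp only [map_add, h, h']
  | hs e a => rw [mulHom_sg, zero_add, map_zero, w.rees_κ_zero_left, pow_zero, one_mul, mul_one]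

noncomputable instance : CommRing (ReesTw K ν w n) where
  __ := (inferInstance : AddCommGroup (ReesTw K ν w n))
  mul x y := mulHom x y
  one := sg 0 1
  left_distrib x y z := map_add (mulHom x) y z
  right_distrib x y z := congrArg (fun f : ReesTw K ν w n →+ ReesTw K ν w n => f z)
    (map_add mulHom x y)
  zero_mul x := congrArg (fun f : ReesTw K ν w n →+ ReesTw K ν w n => f x)
    (map_zero (mulHom (K := K) (ν := ν) (w := w) (n := n)))
  mul_zero x := map_zero (mulHom x)
  mul_assoc := mulHom_assoc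
  one_mul := one_mulHom
  mul_one x := (mulHom_comm x _).trans (one_mulHom x)
  mul_comm := mulHom_comm

theorem sg_mul (e e' : Lam n) (a a' : K) :
    sg (ν := ν) (w := w) e a * sg e' a' = sg (e + e') (a * a' * ν ^ w.κ e.degree e'.degree) :=
  mulHom_sg e e' a a'

theorem one_def : (1 : ReesTw K ν w n) = sg 0 1 := rfl

theorem sg_zero_mul (e : Lam n) (a a' : K) :
    sg (ν := ν) (w := w) 0 a * sg e a' = sg e (a * a') := by
  rw [sg_mul, zero_add, map_zero, w.rees_κ_zero_left, pow_zero, mul_one]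

/-- A ring map out of the twisted algebra, from an additive map that is multiplicative on terms. -/
noncomputable def mkHom {R : Type} [CommRing R] (F : ReesTw K ν w n →+ R) (h1 : F (sg 0 1) = 1)
    (hm : ∀ e e' a a', F (sg (e + e') (a * a' * ν ^ w.κ e.degree e'.degree)) =
      F (sg e a) * F (sg e' a')) : ReesTw K ν w n →+* R where
  toFun := F
  map_one' := h1
  map_zero' := map_zero F
  map_add' := map_add F
  map_mul' x y := by
    induction x using induction with
    | h0 => simp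
    | hadd x x' h h' => simp only [add_mul, map_add, h, h']
    | hs e a =>
      induction y using induction with
      | h0 => simp
      | hadd y y' h h' => simp only [mul_add, map_add, h, h']
      | hs e' a' => rw [sg_mul, hm]

/-- The coefficients. -/
noncomputable def C : K →+* ReesTw K ν w n where
  toFun := sg 0
  map_one' := rfl
  map_zero' := map_zero _
  map_add' := map_add _
  map_mul' a b := (sg_zero_mul 0 a b).symm

theorem C_apply (a : K) : (C a : ReesTw K ν w n) = sg 0 a := rfl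

/-- A map of coefficients, additive version. -/
noncomputable def cadd (f : K →+* K') : ReesTw K ν w n →+ ReesTw K' ν' w n :=
  Finsupp.mapRange.addMonoidHom f.toAddMonoidHom

theorem cadd_sg (f : K →+* K') (e : Lam n) (a : K) :
    cadd (ν := ν) (ν' := ν') (w := w) f (sg e a) = sg e (f a) :=
  Finsupp.mapRange_single (hf := map_zero f)

/-- A map of coefficients. -/
noncomputable def cmap (f : K →+* K') (h : f ν = ν') : ReesTw K ν w n →+* ReesTw K' ν' w n :=
  mkHom (cadd f) (by rw [cadd_sg, map_one]; rfl) fun e e' a a' => by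
    rw [cadd_sg, cadd_sg, cadd_sg, sg_mul, f.map_mul, f.map_mul, f.map_pow, h]

theorem cmap_sg (f : K →+* K') (h : f ν = ν') (e : Lam n) (a : K) :
    cmap (w := w) f h (sg e a) = sg e (f a) := cadd_sg f e a

theorem co_cmap (f : K →+* K') (h : f ν = ν') (x : ReesTw K ν w n) (e : Lam n) :
    co (cmap f h x) e = f (co x e) := Finsupp.mapRange_apply (hf := map_zero f)

theorem ext' {x y : ReesTw K ν w n} (h : ∀ e, co x e = co y e) : x = y :=
  co.injective (Finsupp.ext h)

end ReesTw

theorem Rees_map_vert (A : SRing) {k m : ℕ} (θ : Op k m) (a : A.obj 0) :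
    A.map θ (A.map (vert m 0) a) = A.map (vert k 0) a := A.map_comp _ _ _

theorem Rees_map_vert_zero (A : SRing) (a : A.obj 0) : A.map (vert 0 0) a = a := by
  have : (vert 0 0 : Op 0 0) = OrderHom.id := by ext i; simp [vert]
  rw [this, A.map_id]

/-- The twisted monoid algebra: in simplicial degree `m` the module `Lam n →₀ A.obj m` with
`u_e u_e' = ν ^ κ(|e|, |e'|) u_(e + e')`. -/
noncomputable def Rr (A : SRing) (ν : A.obj 0) (w : Wgt) (n : ℕ) : SRing where
  obj m := ReesTw (A.obj m) (A.map (vert m 0) ν) w n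
  map θ := ReesTw.cmap (A.map θ) (Rees_map_vert A θ ν)
  map_id m x := ReesTw.ext' fun e => by rw [ReesTw.co_cmap, A.map_id]
  map_comp θ η x := ReesTw.ext' fun e => by
    rw [ReesTw.co_cmap, ReesTw.co_cmap, ReesTw.co_cmap, A.map_comp]

namespace Rr
variable {A A' A'' : SRing} {ν : A.obj 0} {ν' : A'.obj 0} {ν'' : A''.obj 0} {w w' w'' : Wgt}
  {n n' n'' : ℕ}

/-- The term `a u_e` in simplicial degree `m`. -/
noncomputable def reesSg (m : ℕ) (e : Lam n) : A.obj m →+ (Rr A ν w n).obj m := ReesTw.sg e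

/-- The coefficients in simplicial degree `m`. -/
noncomputable def reesCo (m : ℕ) : (Rr A ν w n).obj m ≃+ (Lam n →₀ A.obj m) := ReesTw.co

theorem reesCo_sg (m : ℕ) (e : Lam n) (a : A.obj m) :
    reesCo m (reesSg (ν := ν) (w := w) m e a) = Finsupp.single e a := rfl

theorem rees_map_sg {k m : ℕ} (θ : Op k m) (e : Lam n) (a : A.obj m) :
    (Rr A ν w n).map θ (reesSg m e a) = reesSg k e (A.map θ a) :=
  ReesTw.cmap_sg _ (Rees_map_vert A θ ν) e a

theorem reesCo_map {k m : ℕ} (θ : Op k m) (x : (Rr A ν w n).obj m) (e : Lam n) :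
    reesCo k ((Rr A ν w n).map θ x) e = A.map θ (reesCo m x e) :=
  ReesTw.co_cmap _ (Rees_map_vert A θ ν) x e

theorem rees_sg_mul (m : ℕ) (e e' : Lam n) (a a' : A.obj m) :
    reesSg (ν := ν) (w := w) m e a * reesSg m e' a' =
      reesSg m (e + e') (a * a' * A.map (vert m 0) ν ^ w.κ e.degree e'.degree) :=
  ReesTw.sg_mul e e' a a'

theorem rees_sg_zero_mul (m : ℕ) (e : Lam n) (a a' : A.obj m) :
    reesSg (ν := ν) (w := w) m 0 a * reesSg m e a' = reesSg m e (a * a') :=
  ReesTw.sg_zero_mul e a a'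

theorem rees_induction {m : ℕ} {P : (Rr A ν w n).obj m → Prop} (x : (Rr A ν w n).obj m)
    (h0 : P 0) (hadd : ∀ x y, P x → P y → P (x + y)) (hs : ∀ e a, P (reesSg m e a)) : P x :=
  ReesTw.induction (P := P) x h0 hadd hs

/-- The coefficients `a ↦ a u_0`. -/
noncomputable def ι (A : SRing) (ν : A.obj 0) (w : Wgt) (n : ℕ) : A ⟶ Rr A ν w n where
  app _ := ReesTw.C
  nat θ a := (rees_map_sg θ 0 a).symm

theorem rees_ι_app (m : ℕ) (a : A.obj m) : (ι A ν w n).app m a = reesSg m 0 a := rfl

/-- The monomial `u_e`. -/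
noncomputable def mono (A : SRing) (ν : A.obj 0) (w : Wgt) {n : ℕ} (e : Lam n) :
    (Rr A ν w n).obj 0 := reesSg 0 e 1

theorem mono_zero : mono A ν w (0 : Lam n) = 1 := rfl

theorem mono_mul (e e' : Lam n) : mono A ν w e * mono A ν w e' =
    (ι A ν w n).app 0 (ν ^ w.κ e.degree e'.degree) * mono A ν w (e + e') := by
  rw [mono, mono, mono, rees_ι_app, rees_sg_zero_mul, rees_sg_mul, Rees_map_vert_zero, one_mul,
    one_mul, mul_one]

/-- The coefficients of a vertex. -/
noncomputable def coef0 : (Rr A ν w n).obj 0 ≃+ (Lam n →₀ A.obj 0) := reesCo 0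

theorem coef0_symm_single (e : Lam n) (a : A.obj 0) :
    coef0.symm (Finsupp.single e a) = (ι A ν w n).app 0 a * mono A ν w e := by
  rw [mono, rees_ι_app, rees_sg_zero_mul, mul_one]
  rfl

/-- The chain `a u_e`. -/
noncomputable def mon (e : Lam n) : DG.Hom (ι A ν w n) (DG.unit A) (DG.unit (Rr A ν w n)) :=
  (DG.unitHom (ι A ν w n)).scale (mono A ν w e)

theorem mon_apply (e : Lam n) (a : N A) :
    (mon (ν := ν) (w := w) e).toFun a = N.inc (mono A ν w e) * N.map (ι A ν w n) a := rfl

theorem rees_mon_val (e : Lam n) (a : N A) (m : ℕ) :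
    ((mon (ν := ν) (w := w) e).toFun a).1 m = reesSg m e (a.1 m) := by
  rw [mon_apply, N.inc_mul_apply, N.map_apply, mono, rees_map_sg, rees_ι_app, mul_comm,
    rees_sg_zero_mul, map_one, mul_one]

/-- One coefficient of a chain. -/
noncomputable def reesCoefAt (x : N (Rr A ν w n)) (e : Lam n) : N A :=
  ⟨fun m => reesCo m (x.1 m) e,
    fun m i => by
      have h := congrArg (fun y => reesCo m y e) (x.2.1 m i)
      simp only [reesCo_map, map_zero, Finsupp.coe_zero, Pi.zero_apply] at h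
      exact h,
    x.2.2.of_imp fun m h => by
      rw [h m le_rfl, map_zero, Finsupp.coe_zero, Pi.zero_apply]⟩

theorem rees_finite (x : N (Rr A ν w n)) : (Function.support (reesCoefAt x)).Finite := by
  obtain ⟨b, hb⟩ := x.2.2
  refine ((Finset.range b).biUnion fun m => (reesCo m (x.1 m)).support).finite_toSet.subset
    fun e he => ?_
  by_contra hne
  refine he (N.ext' fun m => ?_)
  change reesCo m (x.1 m) e = 0
  by_cases hm : m < b
  · by_contra h0
    exact hne (Finset.mem_coe.2 (Finset.mem_biUnion.2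
      ⟨m, Finset.mem_range.2 hm, Finsupp.mem_support_iff.2 h0⟩))
  · rw [hb m (by omega), map_zero, Finsupp.coe_zero, Pi.zero_apply]

/-- The coefficients of a chain as an additive map. -/
noncomputable def reesCoefHom : N (Rr A ν w n) →+ (Lam n →₀ N A) :=
  AddMonoidHom.mk' (fun x => Finsupp.ofSupportFinite (reesCoefAt x) (rees_finite x))
    fun x y => Finsupp.ext fun e => N.ext' fun m => by
      change reesCo m (x.1 m + y.1 m) e = reesCo m (x.1 m) e + reesCo m (y.1 m) e
      rw [map_add, Finsupp.add_apply]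

theorem reesCoefHom_val (x : N (Rr A ν w n)) (e : Lam n) (m : ℕ) :
    (reesCoefHom x e).1 m = reesCo m (x.1 m) e := rfl

theorem reesCoefHom_mon (e : Lam n) (a : N A) :
    reesCoefHom ((mon (ν := ν) (w := w) e).toFun a) = Finsupp.single e a := by
  refine Finsupp.ext fun e' => N.ext' fun m => ?_
  rw [reesCoefHom_val, rees_mon_val, reesCo_sg]
  by_cases h : e = e'
  · subst h
    rw [Finsupp.single_eq_same, Finsupp.single_eq_same]
  · rw [Finsupp.single_eq_of_ne' h, Finsupp.single_eq_of_ne' h]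
    rfl

theorem reesCoefHom_bijective :
    Function.Bijective (reesCoefHom : N (Rr A ν w n) →+ (Lam n →₀ N A)) := by
  constructor
  · intro x y h
    refine N.ext' fun m => (reesCo m).injective (Finsupp.ext fun e => ?_)
    rw [← reesCoefHom_val, ← reesCoefHom_val, h]
  · intro z
    induction z using Finsupp.induction_linear with
    | zero => exact ⟨0, map_zero _⟩
    | add z z' h h' =>
      obtain ⟨x, rfl⟩ := h
      obtain ⟨x', rfl⟩ := h'
      exact ⟨x + x', map_add _ _ _⟩
    | single e a => exact ⟨_, reesCoefHom_mon e a⟩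

/-- The coefficients of a chain. -/
noncomputable def coefE : N (Rr A ν w n) ≃+ (Lam n →₀ N A) :=
  AddEquiv.ofBijective reesCoefHom reesCoefHom_bijective

theorem rees_coefE_val (x : N (Rr A ν w n)) (e : Lam n) (m : ℕ) :
    (coefE x e).1 m = reesCo m (x.1 m) e := rfl

theorem coefE_symm_single (e : Lam n) (a : N A) :
    coefE.symm (Finsupp.single e a) = (mon (ν := ν) (w := w) e).toFun a := by
  rw [AddEquiv.symm_apply_eq]
  exact (reesCoefHom_mon e a).symm

theorem coefE_mem_deg {k : ℤ} {x : N (Rr A ν w n)} :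
    x ∈ N.deg _ k ↔ ∀ e, coefE x e ∈ N.deg A k := by
  constructor
  · intro h e m hm
    rw [rees_coefE_val, h m hm, map_zero, Finsupp.coe_zero, Pi.zero_apply]
  · intro h m hm
    refine (reesCo m).injective (Finsupp.ext fun e => ?_)
    rw [← rees_coefE_val, h e m hm, map_zero, Finsupp.coe_zero, Pi.zero_apply]

theorem coefE_bd (x : N (Rr A ν w n)) (e : Lam n) : coefE (N.bd x) e = N.bd (coefE x e) :=
  N.ext' fun m => reesCo_map (face 0) (x.1 (m + 1)) e

theorem coefE_inc (r : (Rr A ν w n).obj 0) (e : Lam n) :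
    coefE (N.inc r) e = N.inc (coef0 r e) :=
  N.ext' fun m => by
    cases m with
    | zero => rfl
    | succ m => rfl

/-- Maps out of the twisted monoid algebra are determined by coefficients and monomials. -/
theorem hom_ext {C : SRing} {f g : Rr A ν w n ⟶ C} (h₁ : ι A ν w n ≫ f = ι A ν w n ≫ g)
    (h₂ : ∀ e, f.app 0 (mono A ν w e) = g.app 0 (mono A ν w e)) : f = g := by
  refine SRing.hom_ext fun m x => ?_
  induction x using rees_induction with
  | h0 => rw [map_zero, map_zero]
  | hadd x y hx hy => rw [map_add, map_add, hx, hy]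
  | hs e a =>
    have h : reesSg m e a =
        (ι A ν w n).app m a * (Rr A ν w n).map (vert m 0) (mono A ν w e) := by
      rw [mono, rees_map_sg, rees_ι_app, rees_sg_zero_mul, map_one, mul_one]
    have h1 : f.app m ((ι A ν w n).app m a) = g.app m ((ι A ν w n).app m a) :=
      congrArg (fun φ : A ⟶ C => φ.app m a) h₁
    rw [h, map_mul, map_mul, h1, f.nat, g.nat, h₂]

/-- The additive map underlying `map` in simplicial degree `m`. -/
noncomputable def reesMapAdd (ψ : A ⟶ A') (γ : (A'.obj 0)ˣ) (θ : Op n n') (m : ℕ) :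
    (Rr A ν w n).obj m →+ (Rr A' ν' w' n').obj m :=
  ReesTw.liftAdd fun e => (reesSg m (Lam.push θ e)).comp
    ((AddMonoidHom.mulRight (A'.map (vert m 0) (w.fac w' γ ν' e.degree))).comp
      (ψ.app m).toAddMonoidHom)

theorem reesMapAdd_sg (ψ : A ⟶ A') (γ : (A'.obj 0)ˣ) (θ : Op n n') (m : ℕ) (e : Lam n)
    (a : A.obj m) : reesMapAdd (ν := ν) (ν' := ν') (w := w) (w' := w') ψ γ θ m (reesSg m e a) =
      reesSg m (Lam.push θ e) (ψ.app m a * A'.map (vert m 0) (w.fac w' γ ν' e.degree)) :=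
  ReesTw.liftAdd_sg _ e a

/-- The ring map underlying `map` in simplicial degree `m`. -/
noncomputable def reesMapApp (ψ : A ⟶ A') (γ : (A'.obj 0)ˣ) (hν : ψ.app 0 ν = γ * ν')
    (hw : ∀ b, w'.φ b ≤ w.φ b) (θ : Op n n') (m : ℕ) :
    (Rr A ν w n).obj m →+* (Rr A' ν' w' n').obj m :=
  ReesTw.mkHom (reesMapAdd ψ γ θ m)
    (by
      refine (reesMapAdd_sg ψ γ θ m 0 1).trans ?_
      rw [map_zero, map_zero, w.rees_fac_zero, map_one, map_one, one_mul]
      rfl)
    fun e e' a a' => by
      refine (reesMapAdd_sg ψ γ θ m _ _).trans (Eq.trans ?_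
        (congrArg₂ (· * ·) (reesMapAdd_sg ψ γ θ m e a) (reesMapAdd_sg ψ γ θ m e' a')).symm)
      rw [rees_sg_mul, map_add (Lam.push θ), Lam.degree_push, Lam.degree_push]
      congr 1
      have h := congrArg (A'.map (vert m 0)) (w.rees_fac_mul w' γ ν' hw e.degree e'.degree)
      rw [← hν] at h
      simp only [map_mul, map_pow] at h
      rw [map_mul, map_mul, map_pow, ψ.nat, map_add Finsupp.degree]
      linear_combination (-(ψ.app m a * ψ.app m a')) * h

theorem reesMapApp_sg (ψ : A ⟶ A') (γ : (A'.obj 0)ˣ) (hν : ψ.app 0 ν = γ * ν')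
    (hw : ∀ b, w'.φ b ≤ w.φ b) (θ : Op n n') (m : ℕ) (e : Lam n) (a : A.obj m) :
    reesMapApp ψ γ hν hw θ m (reesSg m e a) =
      reesSg m (Lam.push θ e) (ψ.app m a * A'.map (vert m 0) (w.fac w' γ ν' e.degree)) :=
  reesMapAdd_sg ψ γ θ m e a

/-- The map `a u_e ↦ ψ a γ ^ φ(|e|) ν' ^ (φ(|e|) - φ'(|e|)) u_(θ e)`. -/
noncomputable def map (ψ : A ⟶ A') (γ : (A'.obj 0)ˣ) (hν : ψ.app 0 ν = γ * ν')
    (hw : ∀ b, w'.φ b ≤ w.φ b) (θ : Op n n') : Rr A ν w n ⟶ Rr A' ν' w' n' where
  app := reesMapApp ψ γ hν hw θ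
  nat η x := by
    induction x using rees_induction with
    | h0 => simp only [map_zero]
    | hadd x y hx hy => simp only [map_add, hx, hy]
    | hs e a =>
      rw [rees_map_sg, reesMapApp_sg, reesMapApp_sg, rees_map_sg, (A'.map η).map_mul, ψ.nat,
        Rees_map_vert]

theorem ι_map (ψ : A ⟶ A') (γ : (A'.obj 0)ˣ) (hν : ψ.app 0 ν = γ * ν')
    (hw : ∀ b, w'.φ b ≤ w.φ b) (θ : Op n n') :
    ι A ν w n ≫ map ψ γ hν hw θ = ψ ≫ ι A' ν' w' n' := by
  refine SRing.hom_ext fun m a => (reesMapApp_sg ψ γ hν hw θ m 0 a).trans ?_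
  rw [map_zero, map_zero, w.rees_fac_zero, map_one, mul_one]
  rfl

theorem map_mono (ψ : A ⟶ A') (γ : (A'.obj 0)ˣ) (hν : ψ.app 0 ν = γ * ν')
    (hw : ∀ b, w'.φ b ≤ w.φ b) (θ : Op n n') (e : Lam n) :
    (map ψ γ hν hw θ).app 0 (mono A ν w e) =
      (ι A' ν' w' n').app 0 (w.fac w' γ ν' e.degree) * mono A' ν' w' (Lam.push θ e) := by
  refine (reesMapApp_sg ψ γ hν hw θ 0 e 1).trans ?_
  rw [mono, rees_ι_app, rees_sg_zero_mul, map_one, one_mul, mul_one, Rees_map_vert_zero]

end Rr

attribute [irreducible] Rr Rr.ι Rr.mono Rr.coef0 Rr.coefE Rr.map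

end Pool.Agent.P.MP_932208_ag.Ax
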