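import Pool.Agent.P.MP_932208_ag.Ax.Rees

/-!
Consequences of the interface of the twisted monoid algebras.
-/

namespace Pool.Agent.P.MP_932208_ag.Ax

open CategoryTheory

namespace Rr
variable {A A' A'' : SRing} {ν : A.obj 0} {ν' : A'.obj 0} {ν'' : A''.obj 0} {w w' w'' : Wgt}
  {n n' n'' : ℕ}

theorem map_ι_apply (ψ : A ⟶ A') (γ : (A'.obj 0)ˣ) (hν : ψ.app 0 ν = γ * ν')
    (hw : ∀ b, w'.φ b ≤ w.φ b) (θ : Op n n') (k : ℕ) (a : A.obj k) :
    (map ψ γ hν hw θ).app k ((ι A ν w n).app k a) = (ι A' ν' w' n').app k (ψ.app k a) :=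
  congrArg (fun f => SRing.Hom.app f k a) (ι_map ψ γ hν hw θ)

theorem ReesL_fac {K K' : Type} [CommRing K] [CommRing K'] (f : K →+* K') (γ : Kˣ) (γ' : K'ˣ)
    {μ : K} {μ' : K'} (h : f μ = γ' * μ') {b : ℤ} (hw : w'.φ b ≤ w.φ b) (hw' : w''.φ b ≤ w'.φ b) :
    f (w.fac w' γ μ b) * w'.fac w'' γ' μ' b =
      w.fac w'' (γ' * Units.map f.toMonoidHom γ) μ' b := by
  obtain ⟨p, hp⟩ := Int.le.dest hw
  obtain ⟨q, hq⟩ := Int.le.dest hw'
  have e1 : (w.φ b - w'.φ b).toNat = p := by omega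
  have e2 : (w'.φ b - w''.φ b).toNat = q := by omega
  have e3 : (w.φ b - w''.φ b).toNat = p + q := by omega
  have e4 : γ' ^ w.φ b = γ' ^ w'.φ b * γ' ^ p := by rw [← hp, zpow_add, zpow_natCast]
  have e5 : f ((γ ^ w.φ b : Kˣ) : K) = ((Units.map f.toMonoidHom γ ^ w.φ b : K'ˣ) : K') := by
    rw [← map_zpow]
    rfl
  rw [Wgt.fac, Wgt.fac, Wgt.fac, e1, e2, e3, map_mul, map_pow, h, e5, mul_zpow, e4, Units.val_mul,
    Units.val_mul, Units.val_pow_eq_pow_val]
  ring

theorem map_comp {ψ : A ⟶ A'} {γ : (A'.obj 0)ˣ} {hν : ψ.app 0 ν = γ * ν'}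
    {hw : ∀ b, w'.φ b ≤ w.φ b} {θ : Op n n'} {ψ' : A' ⟶ A''} {γ' : (A''.obj 0)ˣ}
    {hν' : ψ'.app 0 ν' = γ' * ν''} {hw' : ∀ b, w''.φ b ≤ w'.φ b} {θ' : Op n' n''}
    {ψ'' : A ⟶ A''} {γ'' : (A''.obj 0)ˣ} {hν'' : ψ''.app 0 ν = γ'' * ν''}
    {hw'' : ∀ b, w''.φ b ≤ w.φ b} {θ'' : Op n n''} (e₁ : ψ ≫ ψ' = ψ'')
    (e₂ : γ' * Units.map (ψ'.app 0).toMonoidHom γ = γ'') (e₃ : θ'.comp θ = θ'') :
    map ψ γ hν hw θ ≫ map ψ' γ' hν' hw' θ' = map ψ'' γ'' hν'' hw'' θ'' := by
  subst e₁ e₂ e₃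
  refine hom_ext ?_ fun e => ?_
  · rw [← Category.assoc, ι_map, Category.assoc, ι_map, ι_map, Category.assoc]
  · rw [SRing.comp_app, map_mono, map_mul, map_ι_apply, map_mono, map_mono, Lam.push_comp,
      Lam.degree_push, ← mul_assoc, ← map_mul, ReesL_fac _ _ _ hν' (hw _) (hw' _)]

theorem map_id {ψ : A ⟶ A} {γ : (A.obj 0)ˣ} {hν : ψ.app 0 ν = γ * ν} {hw : ∀ b, w.φ b ≤ w.φ b}
    {θ : Op n n} (e₁ : ψ = 𝟙 A) (e₂ : γ = 1) (e₃ : θ = OrderHom.id) :
    map ψ γ hν hw θ = 𝟙 _ := by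
  subst e₁ e₂ e₃
  refine hom_ext ?_ fun e => ?_
  · rw [ι_map, Category.id_comp, Category.comp_id]
  · rw [map_mono, Lam.push_id, SRing.id_app]
    simp [Wgt.fac]

theorem ReesL_inc_mon (c : A.obj 0) (e : Lam n) (a : N A) :
    N.inc ((ι A ν w n).app 0 c) * (mon (ν := ν) (w := w) e).toFun a =
      (mon e).toFun (N.inc c * a) := by
  rw [mon_apply, mon_apply, map_mul, N.map_inc, ← mul_assoc, ← mul_assoc, N.inc_comm]

theorem map_mon (ψ : A ⟶ A') (γ : (A'.obj 0)ˣ) (hν : ψ.app 0 ν = γ * ν')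
    (hw : ∀ b, w'.φ b ≤ w.φ b) (θ : Op n n') (e : Lam n) (a : N A) :
    N.map (map ψ γ hν hw θ) ((mon e).toFun a) =
      (mon (Lam.push θ e)).toFun (N.inc (w.fac w' γ ν' e.degree) * N.map ψ a) := by
  rw [← ReesL_inc_mon, mon_apply, mon_apply, map_mul, N.map_inc, map_mono, N.map_map, ι_map,
    map_mul, mul_assoc, N.map_map]

theorem mon_mul (e e' : Lam n) (a b : N A) :
    (mon (ν := ν) (w := w) e).toFun a * (mon e').toFun b =
      (mon (e + e')).toFun (N.inc (ν ^ w.κ e.degree e'.degree) * (a * b)) := by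
  rw [← ReesL_inc_mon, mon_apply, mon_apply, mon_apply, ← mul_assoc (N.inc _) (N.inc _),
    ← map_mul N.inc, ← mono_mul, map_mul, map_mul, mul_assoc, mul_assoc,
    ← mul_assoc (N.map _ a), ← N.inc_comm, mul_assoc]

theorem coefE_mon (e : Lam n) (a : N A) :
    coefE ((mon (ν := ν) (w := w) e).toFun a) = Finsupp.single e a := by
  rw [← coefE_symm_single, AddEquiv.apply_symm_apply]

theorem mon_zero_one : (mon (ν := ν) (w := w) (0 : Lam n)).toFun 1 = 1 := by
  rw [mon_apply, mono_zero, map_one, map_one, one_mul]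

/-- Induction on chains of the twisted monoid algebra. -/
theorem induction {P : N (Rr A ν w n) → Prop} (h0 : P 0) (hm : ∀ e a, P ((mon e).toFun a))
    (hadd : ∀ x y, P x → P y → P (x + y)) (x : N (Rr A ν w n)) : P x := by
  obtain ⟨y, rfl⟩ := coefE.symm.surjective x
  induction y using Finsupp.induction_linear with
  | zero => rwa [map_zero]
  | add y y' h h' => rw [map_add]; exact hadd _ _ h h'
  | single e a => rw [coefE_symm_single]; exact hm e a

/-- The coefficient of `u_e` as a chain map. -/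
noncomputable def coef (e : Lam n) : DG.CMap (DG.unit (Rr A ν w n)) (DG.unit A) where
  toFun := (Finsupp.applyAddHom e).comp coefE.toAddMonoidHom
  map_gr h := coefE_mem_deg.1 h e
  map_d x := coefE_bd x e

theorem mono_mul_of_degree_zero {e : Lam n} (h : e.degree = 0) (e' : Lam n) :
    mono A ν w e * mono A ν w e' = mono A ν w (e + e') := by
  rw [mono_mul, h, Wgt.κ, w.zero]
  simp

/-- The unit `u_e` for an exponent of degree zero. -/
noncomputable def unitOf (A : SRing) (ν : A.obj 0) (w : Wgt) {n : ℕ} (e : Lam n)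
    (h : e.degree = 0) : ((Rr A ν w n).obj 0)ˣ where
  val := mono A ν w e
  inv := mono A ν w (-e)
  val_inv := by rw [mono_mul_of_degree_zero h, add_neg_cancel, mono_zero]
  inv_val := by rw [mul_comm, mono_mul_of_degree_zero h, add_neg_cancel, mono_zero]

/-- The unit `z_a / z_b`. -/
noncomputable def ratio (A : SRing) (ν : A.obj 0) (w : Wgt) {n : ℕ} (a b : Fin (n + 1)) :
    ((Rr A ν w n).obj 0)ˣ :=
  unitOf A ν w (Finsupp.single a 1 - Finsupp.single b 1) (by simp)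

theorem ratio_zpow (a b : Fin (n + 1)) (c : ℤ) :
    ((ratio A ν w a b ^ c : ((Rr A ν w n).obj 0)ˣ) : (Rr A ν w n).obj 0) =
      mono A ν w (Finsupp.single a c - Finsupp.single b c) := by
  induction c using Int.induction_on with
  | zero => rw [zpow_zero, Finsupp.single_zero, Finsupp.single_zero, sub_zero, mono_zero]; rfl
  | succ c ih =>
    rw [zpow_add_one, Units.val_mul, ih]
    refine (mono_mul_of_degree_zero (by simp) _).trans (congrArg _ ?_)
    rw [Finsupp.single_add, Finsupp.single_add]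
    abel
  | pred c ih =>
    rw [zpow_sub_one, Units.val_mul, ih]
    refine (mono_mul_of_degree_zero (by simp) _).trans (congrArg _ ?_)
    rw [Finsupp.single_sub, Finsupp.single_sub]
    abel

theorem ratio_trans (a b c : Fin (n + 1)) :
    ratio A ν w a b * ratio A ν w b c = ratio A ν w a c := by
  refine Units.ext ((mono_mul_of_degree_zero (by simp) _).trans (congrArg (mono A ν w) ?_))
  abel

theorem map_ratio (ψ : A ⟶ A') (γ : (A'.obj 0)ˣ) (hν : ψ.app 0 ν = γ * ν')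
    (hw : ∀ b, w'.φ b ≤ w.φ b) (θ : Op n n') (a b : Fin (n + 1)) :
    (map ψ γ hν hw θ).app 0 (ratio A ν w a b) = ratio A' ν' w' (θ a) (θ b) := by
  refine (map_mono ψ γ hν hw θ _).trans ?_
  have h : (Finsupp.single a 1 - Finsupp.single b 1 : Lam n).degree = 0 := by simp
  rw [h, map_sub, Lam.push_single, Lam.push_single, Wgt.fac, w.zero, w'.zero]
  simp only [zpow_zero, Units.val_one, sub_self, Int.toNat_zero, pow_zero, mul_one, map_one,
    one_mul]
  rfl

theorem isUnit_mono_t (e : Lam n) : IsUnit (mono A ν Wgt.t e) := by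
  refine IsUnit.of_mul_eq_one (mono A ν Wgt.t (-e)) ?_
  have h : Wgt.t.κ e.degree (-e).degree = 0 := by simp [Wgt.κ, Wgt.t]
  rw [mono_mul, add_neg_cancel, mono_zero, h, pow_zero, map_one, mul_one]

theorem isUnit_mono_y (e : Lam n) : IsUnit (mono A ν Wgt.y e) := by
  refine IsUnit.of_mul_eq_one (mono A ν Wgt.y (-e)) ?_
  have h : Wgt.y.κ e.degree (-e).degree = 0 := by simp [Wgt.κ, Wgt.y]
  rw [mono_mul, add_neg_cancel, mono_zero, h, pow_zero, map_one, mul_one]

theorem ReesL_coef_inc (c : A.obj 0) (x : N (Rr A ν w n)) (e : Lam n) :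
    coefE (N.inc ((ι A ν w n).app 0 c) * x) e = N.inc c * coefE x e := by
  classical
  induction x using induction with
  | h0 => simp
  | hm e' a =>
    rw [ReesL_inc_mon, coefE_mon, coefE_mon, Finsupp.single_apply, Finsupp.single_apply]
    split_ifs <;> simp
  | hadd x y hx hy => simp only [mul_add, map_add, Finsupp.add_apply, hx, hy]

theorem ReesL_map_mon (hν : SRing.Hom.app (𝟙 A) 0 ν = (1 : (A.obj 0)ˣ) * ν)
    (hw : ∀ b, w'.φ b ≤ w.φ b) (e : Lam n) (a : N A) :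
    N.map (map (𝟙 A) 1 hν hw OrderHom.id) ((mon e).toFun a) =
      (mon e).toFun (N.inc (ν ^ (w.φ e.degree - w'.φ e.degree).toNat) * a) := by
  rw [map_mon, Lam.push_id, N.map_id, Wgt.fac, one_zpow, Units.val_one, one_mul]

theorem ReesL_coef_map (hν : SRing.Hom.app (𝟙 A) 0 ν = (1 : (A.obj 0)ˣ) * ν)
    (hw : ∀ b, w'.φ b ≤ w.φ b) (x : N (Rr A ν w n)) (e : Lam n) :
    coefE (N.map (map (𝟙 A) 1 hν hw OrderHom.id) x) e =
      N.inc (ν ^ (w.φ e.degree - w'.φ e.degree).toNat) * coefE x e := by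
  classical
  induction x using induction with
  | h0 => simp
  | hm e' a =>
    rw [ReesL_map_mon, coefE_mon, coefE_mon, Finsupp.single_apply, Finsupp.single_apply]
    split_ifs with h
    · rw [h]
    · rw [mul_zero]
  | hadd x y hx hy => simp only [mul_add, map_add, Finsupp.add_apply, hx, hy]

/-- Changing the exponent function is an equivalence away from `ν`. -/
theorem qisoAway_map (hν : SRing.Hom.app (𝟙 A) 0 ν = (1 : (A.obj 0)ˣ) * ν)
    (hw : ∀ b, w'.φ b ≤ w.φ b) :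
    (DG.unitHom (map (n := n) (𝟙 A) 1 hν hw OrderHom.id)).QIsoAway ((ι A ν w n).app 0 ν) := by
  refine DG.Hom.qisoAway_of_chain _ _ (fun y => ?_) fun x hx => ?_
  · change ∃ (m : ℕ) (x : N (Rr A ν w n)), N.map (map (𝟙 A) 1 hν hw OrderHom.id) x =
      N.inc ((map (𝟙 A) 1 hν hw OrderHom.id).app 0 ((ι A ν w n).app 0 ν) ^ m) * y
    induction y using induction with
    | h0 => exact ⟨0, 0, by simp⟩
    | hm e a =>
      refine ⟨(w.φ e.degree - w'.φ e.degree).toNat, (mon e).toFun a, ?_⟩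
      rw [ReesL_map_mon, map_ι_apply, SRing.id_app, ← map_pow, ReesL_inc_mon]
    | hadd y y' h h' =>
      obtain ⟨m, x, h⟩ := h
      obtain ⟨m', x', h'⟩ := h'
      refine ⟨m + m', N.inc ((ι A ν w n).app 0 ν ^ m') * x + N.inc ((ι A ν w n).app 0 ν ^ m) * x',
        ?_⟩
      rw [map_add, map_mul, map_mul, h, h', N.map_inc, N.map_inc, map_pow (SRing.Hom.app _ 0),
        map_pow (SRing.Hom.app _ 0), ← mul_assoc, ← mul_assoc, ← map_mul, ← map_mul, ← pow_add,
        ← pow_add, add_comm m' m, mul_add]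
  · change N.map (map (𝟙 A) 1 hν hw OrderHom.id) x = 0 at hx
    refine ⟨(coefE x).support.sup fun e => (w.φ e.degree - w'.φ e.degree).toNat, ?_⟩
    change N.inc _ * x = 0
    refine coefE.injective (Finsupp.ext fun e => ?_)
    rw [← map_pow, ReesL_coef_inc, map_zero, Finsupp.zero_apply]
    by_cases he : e ∈ (coefE x).support
    · have h1 := ReesL_coef_map hν hw x e
      rw [hx, map_zero, Finsupp.zero_apply] at h1
      obtain ⟨k, hk⟩ := Nat.exists_eq_add_of_le'
        (Finset.le_sup (f := fun e : Lam n => (w.φ e.degree - w'.φ e.degree).toNat) he)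
      rw [hk, pow_add, map_mul, mul_assoc, ← h1, mul_zero]
    · rw [Finsupp.notMem_support_iff.1 he, mul_zero]

end Rr

end Pool.Agent.P.MP_932208_ag.Ax
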