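import Pool.Agent.P.MP_932208_ag.Ax.Basic

/-!
The shuffle (Eilenberg-Zilber) product on the chains of a simplicial commutative ring.
-/

namespace Pool.Agent.P.MP_932208_ag.Ax


theorem plus_mono {k n : ℕ} (θ : Op k n) :
    Monotone (fun i : Fin (k + 2) => (Fin.cases 0 (fun a => (θ a).succ) i : Fin (n + 2))) := by
  intro a b hab
  rcases Fin.eq_zero_or_eq_succ a with rfl | ⟨a, rfl⟩
  · simp
  · rcases Fin.eq_zero_or_eq_succ b with rfl | ⟨b, rfl⟩
    · exact absurd hab (by simp)
    · simp only [Fin.cases_succ, Fin.succ_le_succ_iff] at hab ⊢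
      exact θ.monotone hab

/-- The operator `[k+1] → [n+1]` that fixes `0` and acts as `θ` on the other vertices. -/
def plus {k n : ℕ} (θ : Op k n) : Op (k + 1) (n + 1) :=
  ⟨fun i => Fin.cases 0 (fun a => (θ a).succ) i, plus_mono θ⟩

@[simp] theorem plus_zero {k n : ℕ} (θ : Op k n) : plus θ 0 = 0 := rfl
@[simp] theorem plus_succ {k n : ℕ} (θ : Op k n) (a : Fin (k + 1)) :
    plus θ a.succ = (θ a).succ := rfl

theorem plus_id (n : ℕ) : plus (OrderHom.id : Op n n) = OrderHom.id := by
  ext i; rcases Fin.eq_zero_or_eq_succ i with rfl | ⟨a, rfl⟩ <;> simp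

theorem plus_comp {l k n : ℕ} (θ : Op k n) (η : Op l k) :
    (plus θ).comp (plus η) = plus (θ.comp η) := by
  ext i; rcases Fin.eq_zero_or_eq_succ i with rfl | ⟨a, rfl⟩ <;> simp

theorem SRing.dec_id (A : SRing) (n : ℕ) : RingId (A.map (plus (OrderHom.id : Op n n))) :=
  fun x => by rw [plus_id, A.map_id]

theorem SRing.dec_comp (A : SRing) {l k n : ℕ} (θ : Op k n) (η : Op l k) :
    RingTri (A.map (plus θ)) (A.map (plus η)) (A.map (plus (θ.comp η))) :=
  fun x => by rw [A.map_comp, plus_comp]

/-- The decalage of `A`: `n ↦ A_{n+1}`, forgetting the zeroth face and degeneracy. -/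
@[reducible] def SRing.dec (A : SRing) : SRing where
  obj n := A.obj (n + 1)
  map θ := A.map (plus θ)
  map_id := A.dec_id
  map_comp := @SRing.dec_comp A

/-- Chains of `A`: one simplex in every degree. -/
def Ch (A : SRing) : Type := ∀ n, A.obj n

instance (A : SRing) : AddCommGroup (Ch A) := Pi.addCommGroup

/-- The components of positive degree, as a chain of the decalage. -/
def Ch.tail {A : SRing} (x : Ch A) : Ch A.dec := fun n => x (n + 1)

/-- The zeroth degeneracy of a chain, as a chain of the decalage. -/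
def Ch.sz {A : SRing} (x : Ch A) : Ch A.dec := fun n => A.map (degen 0) (x n)

/-- The sign `(-1)^degree`. -/
def Ch.sgn {A : SRing} (x : Ch A) : Ch A := fun n => (-1) ^ n * x n

/-- The degree `n` component of the shuffle product, by recursion on the first step of the
shuffle: a `(p,q)`-shuffle starts either in the first factor, or in the second one, with
sign `(-1)^p`. -/
def sh : ∀ (n : ℕ) (A : SRing), Ch A → Ch A → A.obj n
  | 0, _, x, y => x 0 * y 0
  | n + 1, A, x, y => sh n A.dec x.tail y.sz + sh n A.dec x.sgn.sz y.tail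

/-- The chain of degree zero with component `a`. -/
def Ch.deg0 {A : SRing} (a : A.obj 0) : Ch A
  | 0 => a
  | _ + 1 => 0

instance (A : SRing) : Mul (Ch A) := ⟨fun x y n => sh n A x y⟩
instance (A : SRing) : One (Ch A) := ⟨Ch.deg0 1⟩

namespace Ch
variable {A : SRing}

@[ext] theorem ext {x y : Ch A} (h : ∀ n, x n = y n) : x = y := funext h
theorem mul_def (x y : Ch A) (n : ℕ) : (x * y) n = sh n A x y := rfl
@[simp] theorem add_apply (x y : Ch A) (n : ℕ) : (x + y) n = x n + y n := rfl
@[simp] theorem neg_apply (x : Ch A) (n : ℕ) : (-x) n = -x n := rfl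
@[simp] theorem sub_apply (x y : Ch A) (n : ℕ) : (x - y) n = x n - y n := rfl
@[simp] theorem zero_apply (n : ℕ) : (0 : Ch A) n = 0 := rfl
theorem mul_zero_apply (x y : Ch A) : (x * y) 0 = x 0 * y 0 := rfl
theorem tail_mul (x y : Ch A) : (x * y).tail = x.tail * y.sz + x.sgn.sz * y.tail := rfl
theorem tail_add (x y : Ch A) : (x + y).tail = x.tail + y.tail := rfl
theorem tail_neg (x : Ch A) : (-x).tail = -x.tail := rfl
theorem tail_zero : (0 : Ch A).tail = 0 := rfl
theorem sz_add (x y : Ch A) : (x + y).sz = x.sz + y.sz := by ext n; simp [sz]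
theorem sz_neg (x : Ch A) : (-x).sz = -x.sz := by ext n; simp [sz]
theorem sz_zero : (0 : Ch A).sz = 0 := by ext n; simp [sz]
theorem sgn_add (x y : Ch A) : (x + y).sgn = x.sgn + y.sgn := by ext n; simp [sgn, mul_add]
theorem sgn_neg (x : Ch A) : (-x).sgn = -x.sgn := by ext n; simp [sgn]
theorem sgn_zero : (0 : Ch A).sgn = 0 := by ext n; simp [sgn]
theorem sgn_sgn (x : Ch A) : x.sgn.sgn = x := by
  ext n; simp [sgn, ← mul_assoc, ← mul_pow]
theorem tail_sgn (x : Ch A) : x.sgn.tail = -x.tail.sgn := by
  ext n; simp [sgn, tail, pow_succ]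
theorem sz_sgn (x : Ch A) : x.sgn.sz = x.sz.sgn := by
  ext n; simp [sgn, sz]

theorem ext' {x y : Ch A} (h0 : x 0 = y 0) (h : x.tail = y.tail) : x = y := by
  ext n; cases n with
  | zero => exact h0
  | succ n => exact congrFun h n

theorem sh_add_left (n : ℕ) : ∀ (A : SRing) (x x' y : Ch A),
    sh n A (x + x') y = sh n A x y + sh n A x' y := by
  induction n with
  | zero => intro A x x' y; simp [sh, add_mul]
  | succ n ih =>
    intro A x x' y
    simp only [sh, tail_add, sgn_add, sz_add, ih]; abel

theorem sh_add_right (n : ℕ) : ∀ (A : SRing) (x y y' : Ch A),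
    sh n A x (y + y') = sh n A x y + sh n A x y' := by
  induction n with
  | zero => intro A x x' y; simp [sh, mul_add]
  | succ n ih =>
    intro A x x' y
    simp only [sh, tail_add, sz_add, ih]; abel

theorem add_mul' (x x' y : Ch A) : (x + x') * y = x * y + x' * y :=
  ext fun n => sh_add_left n A x x' y
theorem mul_add' (x y y' : Ch A) : x * (y + y') = x * y + x * y' :=
  ext fun n => sh_add_right n A x y y'
theorem zero_mul' (y : Ch A) : 0 * y = 0 := by
  have h := add_mul' 0 0 y
  rw [add_zero] at h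
  exact left_eq_add.mp h
theorem mul_zero' (y : Ch A) : y * 0 = 0 := by
  have h := mul_add' y 0 0
  rw [add_zero] at h
  exact left_eq_add.mp h
theorem neg_mul' (x y : Ch A) : -x * y = -(x * y) := by
  rw [eq_neg_iff_add_eq_zero, ← add_mul', neg_add_cancel, zero_mul']
theorem mul_neg' (x y : Ch A) : x * -y = -(x * y) := by
  rw [eq_neg_iff_add_eq_zero, ← mul_add', neg_add_cancel, mul_zero']

theorem sgn_sh (n : ℕ) : ∀ (A : SRing) (x y : Ch A),
    (x * y).sgn n = (x.sgn * y.sgn) n := by
  induction n with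
  | zero => intro A x y; simp [sgn, mul_zero_apply]
  | succ n ih =>
    intro A x y
    have h1 : (x * y).sgn (n + 1) = (x * y).sgn.tail n := rfl
    have h2 : (x.sgn * y.sgn) (n + 1) = (x.sgn * y.sgn).tail n := rfl
    rw [h1, h2, tail_sgn, tail_mul, tail_mul, sgn_add, tail_sgn, tail_sgn, neg_mul', mul_neg',
      neg_apply, add_apply, ih, ih, sz_sgn y, sz_sgn x.sgn]
    simp only [add_apply, neg_apply]; abel

theorem sgn_mul (x y : Ch A) : (x * y).sgn = x.sgn * y.sgn := ext fun n => sgn_sh n A x y

end Ch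

/-- A family of ring maps that commutes with the operators fixing the vertex `0`. -/
structure BHom (A B : SRing) where
  app : ∀ n, A.obj n →+* B.obj n
  nat : ∀ {k n : ℕ} (θ : Op k n), θ 0 = 0 → RingSq (A.map θ) (app k) (app n) (B.map θ)

/-- Apply a based map to a chain. -/
def BHom.ch {A B : SRing} (f : BHom A B) (x : Ch A) : Ch B := fun n => f.app n (x n)

/-- The decalage of a based map. -/
def BHom.dec {A B : SRing} (f : BHom A B) : BHom A.dec B.dec where
  app n := f.app (n + 1)
  nat θ _ x := f.nat (plus θ) rfl x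

theorem degen_zero_zero (n : ℕ) : (degen 0 : Op (n + 1) n) 0 = 0 := by
  simp [degen]

theorem degen_zero_succ {n : ℕ} (a : Fin (n + 1)) : (degen 0 : Op (n + 1) n) a.succ = a := by
  simp [degen]

theorem BHom.ch_sh (n : ℕ) : ∀ {A B : SRing} (f : BHom A B) (x y : Ch A),
    f.app n (sh n A x y) = sh n B (f.ch x) (f.ch y) := by
  induction n with
  | zero => intro A B f x y; simp [sh, BHom.ch]
  | succ n ih =>
    intro A B f x y
    have h1 : ∀ z : Ch A, f.dec.ch z.sz = (f.ch z).sz := fun z =>
      Ch.ext fun k => f.nat (degen 0) (degen_zero_zero k) _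
    have h2 : f.ch x.sgn = (f.ch x).sgn := Ch.ext fun k => by simp [BHom.ch, Ch.sgn]
    have h3 := ih f.dec x.tail y.sz
    have h4 := ih f.dec x.sgn.sz y.tail
    rw [h1] at h3 h4
    rw [h2] at h4
    simp only [sh, map_add]
    exact congrArg₂ (· + ·) h3 h4

theorem BHom.ch_mul {A B : SRing} (f : BHom A B) (x y : Ch A) :
    f.ch (x * y) = f.ch x * f.ch y := Ch.ext fun n => f.ch_sh n x y

/-- The zeroth degeneracy as a based map into the decalage. -/
def SRing.szHom (A : SRing) : BHom A A.dec where
  app n := A.map (degen 0)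
  nat θ h x := by
    change A.map _ (A.map _ x) = A.map _ (A.map _ x)
    rw [A.map_comp, A.map_comp]
    congr 2
    ext i
    rcases Fin.eq_zero_or_eq_succ i with rfl | ⟨a, rfl⟩
    · simp [degen_zero_zero, h]
    · simp [degen_zero_succ]

namespace Ch
variable {A : SRing}

theorem sz_mul (x y : Ch A) : (x * y).sz = x.sz * y.sz := A.szHom.ch_mul x y

theorem sh_assoc (n : ℕ) : ∀ (A : SRing) (x y z : Ch A),
    (x * y * z) n = (x * (y * z)) n := by
  induction n with
  | zero => intro A x y z; simp [mul_zero_apply, mul_assoc]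
  | succ n ih =>
    intro A x y z
    have h1 : (x * y * z) (n + 1) = (x * y * z).tail n := rfl
    have h2 : (x * (y * z)) (n + 1) = (x * (y * z)).tail n := rfl
    rw [h1, h2, tail_mul, tail_mul, tail_mul, tail_mul, sgn_mul, sz_mul, sz_mul, add_mul',
      mul_add']
    simp only [add_apply, ih]; abel

theorem mul_assoc' (x y z : Ch A) : x * y * z = x * (y * z) := ext fun n => sh_assoc n A x y z

theorem tail_deg0 (a : A.obj 0) : (deg0 a).tail = 0 := rfl
theorem sz_deg0 (a : A.obj 0) : (deg0 a).sz = deg0 (A := A.dec) (A.map (degen 0) a) := by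
  ext n; cases n with
  | zero => rfl
  | succ n => simp [sz, deg0]
theorem sgn_deg0 (a : A.obj 0) : (deg0 a).sgn = deg0 a := by
  ext n; cases n with
  | zero => simp [sgn]
  | succ n => simp [sgn, deg0]

theorem sh_deg0_left (n : ℕ) : ∀ (A : SRing) (a : A.obj 0) (y : Ch A),
    (deg0 a * y) n = A.map (vert n 0) a * y n := by
  induction n with
  | zero =>
    intro A a y
    have : (vert 0 0 : Op 0 0) = OrderHom.id := by ext i; simp [vert]
    rw [this, A.map_id]; rfl
  | succ n ih =>
    intro A a y
    have h1 : (deg0 a * y) (n + 1) = (deg0 a * y).tail n := rfl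
    rw [h1, tail_mul, tail_deg0, zero_mul', zero_add, sgn_deg0, sz_deg0, ih]
    change A.map _ (A.map _ a) * y (n + 1) = _
    rw [A.map_comp]
    congr 3
    ext i; simp [vert]

theorem sh_deg0_right (n : ℕ) : ∀ (A : SRing) (a : A.obj 0) (y : Ch A),
    (y * deg0 a) n = A.map (vert n 0) a * y n := by
  induction n with
  | zero =>
    intro A a y
    have : (vert 0 0 : Op 0 0) = OrderHom.id := by ext i; simp [vert]
    rw [this, A.map_id, mul_comm]; rfl
  | succ n ih =>
    intro A a y
    have h1 : (y * deg0 a) (n + 1) = (y * deg0 a).tail n := rfl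
    rw [h1, tail_mul, tail_deg0, mul_zero', add_zero, sz_deg0, ih]
    change A.map _ (A.map _ a) * y (n + 1) = _
    rw [A.map_comp]
    congr 3
    ext i; simp [vert]

theorem one_mul' (y : Ch A) : 1 * y = y := ext fun n => by
  have := sh_deg0_left n A 1 y
  rwa [map_one, one_mul] at this

theorem mul_one' (y : Ch A) : y * 1 = y := ext fun n => by
  have := sh_deg0_right n A 1 y
  rwa [map_one, one_mul] at this

end Ch

theorem Ch.ringAx (A : SRing) : RingAx (Ch A) :=
  ⟨Ch.mul_add', Ch.add_mul', Ch.zero_mul', Ch.mul_zero', Ch.mul_assoc', Ch.one_mul', Ch.mul_one'⟩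

/-- The chains of `A` form a ring under the shuffle product. -/
instance (A : SRing) : Ring (Ch A) := (Ch.ringAx A).ring

end Pool.Agent.P.MP_932208_ag.Ax
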