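import Pool.Agent.P.MP_932208_ag.Ax.Hml

/-!
Covers of `Spec π_0`, surjections, homology of direct sums.
-/

namespace Pool.Agent.P.MP_932208_ag.Ax

open CategoryTheory

/-- The boundaries in `A_0`. -/
def SRing.bdry (A : SRing) : Set (A.obj 0) := {a | (DG.unit A).Bdry 0 (N.inc a)}

section covers
variable {A B : SRing}

theorem SRing.covers_iff {U : Set (A.obj 0)} : A.Covers U ↔ Ideal.span (U ∪ A.bdry) = ⊤ := Iff.rfl

theorem SRing.covers_of_one {U : Set (A.obj 0)} (h : (1 : A.obj 0) ∈ U) : A.Covers U :=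
  (Ideal.eq_top_iff_one _).2 (Ideal.subset_span (Or.inl h))

theorem SRing.Covers.mono {U U' : Set (A.obj 0)} (h : A.Covers U) (e : U ⊆ U') : A.Covers U' :=
  top_le_iff.1 (h ▸ Ideal.span_mono (Set.union_subset_union_left _ e))

theorem SRing.map_bdry (φ : A ⟶ B) {a : A.obj 0} (h : a ∈ A.bdry) : φ.app 0 a ∈ B.bdry := by
  have := (DG.unitHom φ).bdry h
  change (DG.unit B).Bdry 0 (N.map φ (N.inc a)) at this
  rwa [N.map_inc] at this

theorem SRing.Covers.map (φ : A ⟶ B) {U : Set (A.obj 0)} {U' : Set (B.obj 0)} (h : A.Covers U)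
    (e : ∀ f ∈ U, φ.app 0 f ∈ U') : B.Covers U' := by
  have h1 : (1 : A.obj 0) ∈ Ideal.span (U ∪ A.bdry) := (Ideal.eq_top_iff_one _).1 h
  have h2 := Ideal.mem_map_of_mem (φ.app 0) h1
  rw [map_one, Ideal.map_span] at h2
  refine (Ideal.eq_top_iff_one _).2 (Ideal.span_mono ?_ h2)
  rintro _ ⟨a, ha | ha, rfl⟩
  · exact Or.inl (e a ha)
  · exact Or.inr (SRing.map_bdry φ ha)

theorem SRing.Covers.exists_notMem {U : Set (A.obj 0)} (h : A.Covers U) {p : Ideal (A.obj 0)}
    (hp : p ≠ ⊤) (hb : ∀ b ∈ A.bdry, b ∈ p) : ∃ f ∈ U, f ∉ p := by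
  by_contra hc
  push Not at hc
  refine hp (top_le_iff.1 (h ▸ Ideal.span_le.2 ?_))
  rintro a (ha | ha)
  · exact hc a ha
  · exact hb a ha

theorem Surj_face_val {n : ℕ} (i : Fin (n + 2)) (a : Fin (n + 1)) :
    ((face i : Op n (n + 1)) a).val = if a.val < i.val then a.val else a.val + 1 := by
  change (i.succAbove a).val = _
  unfold Fin.succAbove
  by_cases h : a.val < i.val
  · rw [if_pos h, if_pos (show a.castSucc < i from h)]
    rfl
  · rw [if_neg h, if_neg (show ¬ a.castSucc < i from h)]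
    rfl

theorem Surj_degen_val {n : ℕ} (i : Fin (n + 1)) (a : Fin (n + 2)) :
    ((degen i : Op (n + 1) n) a).val = if i.val < a.val then a.val - 1 else a.val := by
  change (i.predAbove a).val = _
  unfold Fin.predAbove
  by_cases h : i.val < a.val
  · rw [if_pos h, dif_pos (show i.castSucc < a from h)]
    rfl
  · rw [if_neg h, dif_neg (show ¬ i.castSucc < a from h)]
    rfl

theorem Surj_degen_face {n : ℕ} (j : Fin (n + 1)) :
    (degen j : Op (n + 1) n).comp (face j.succ) = OrderHom.id := by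
  ext a
  simp only [OrderHom.comp_coe, Function.comp_apply, OrderHom.id_coe, id_eq, Surj_degen_val,
    Surj_face_val, Fin.val_succ]
  split_ifs <;> omega

theorem Surj_factor {n : ℕ} {i j : Fin (n + 1)} (h : j.val < i.val) :
    ((face j.succ : Op n (n + 1)).comp (degen j)).comp (face i.succ) =
      (face i.succ).comp ((degen i).comp
        (((face j.succ : Op n (n + 1)).comp (degen j)).comp (face i.succ))) := by
  ext a
  simp only [OrderHom.comp_coe, Function.comp_apply, Surj_degen_val, Surj_face_val, Fin.val_succ]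
  split_ifs <;> omega

theorem Surj_lift (φ : A ⟶ B) {n : ℕ} (h : Function.Surjective (φ.app (n + 1)))
    {y : B.obj (n + 1)} (hy : ∀ i : Fin (n + 1), B.map (face i.succ) y = 0) (t : ℕ) :
    ∃ x, φ.app (n + 1) x = y ∧
      ∀ i : Fin (n + 1), n + 1 ≤ i.val + t → A.map (face i.succ) x = 0 := by
  induction t with
  | zero =>
    obtain ⟨x, hx⟩ := h y
    exact ⟨x, hx, fun i hi => absurd i.2 (by omega)⟩
  | succ t ih =>
    obtain ⟨x, hx, hx0⟩ := ih
    obtain ⟨j, hj⟩ : ∃ j : Fin (n + 1), j.val = n - t := ⟨⟨n - t, by omega⟩, rfl⟩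
    refine ⟨x - A.map (degen j) (A.map (face j.succ) x), ?_, fun i hi => ?_⟩
    · rw [map_sub, φ.nat, φ.nat, hx, hy, map_zero, sub_zero]
    · rw [map_sub]
      by_cases hij : i = j
      · rw [hij, A.map_comp (degen j), Surj_degen_face, A.map_id, sub_self]
      · have hne : i.val ≠ j.val := fun e => hij (Fin.ext e)
        have h0 := hx0 i (by omega)
        rw [A.map_comp (face j.succ), A.map_comp, Surj_factor (by omega), ← A.map_comp, h0,
          map_zero, sub_zero]

/-- A levelwise surjection is surjective on normalised chains. -/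
theorem N.map_surjective (φ : A ⟶ B) (h : ∀ n, Function.Surjective (φ.app n)) :
    Function.Surjective (N.map φ) := by
  intro y
  have h1 : ∀ n, ∃ x : A.obj (n + 1), φ.app (n + 1) x = y.1 (n + 1) ∧
      (y.1 (n + 1) = 0 → x = 0) ∧ ∀ i : Fin (n + 1), A.map (face i.succ) x = 0 := by
    intro n
    by_cases h0 : y.1 (n + 1) = 0
    · exact ⟨0, by rw [map_zero, h0], fun _ => rfl, fun _ => map_zero _⟩
    · obtain ⟨x, hx, hx0⟩ := Surj_lift φ (h (n + 1)) (y.2.1 n) (n + 1)
      exact ⟨x, hx, fun e => absurd e h0, fun i => hx0 i (by omega)⟩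
  choose x hx hx0 hx1 using h1
  obtain ⟨x0, e0⟩ := h 0 (y.1 0)
  obtain ⟨b, hb⟩ := y.2.2
  refine ⟨⟨fun n => Nat.casesOn (motive := A.obj) n x0 x, hx1, b + 1, fun n hn => ?_⟩,
    N.ext' fun n => ?_⟩
  · cases n with
    | zero => omega
    | succ n => exact hx0 n (hb _ (by omega))
  · cases n with
    | zero => exact e0
    | succ n => exact hx n

theorem Surj_bdry (φ : A ⟶ B) (h : ∀ n, Function.Surjective (φ.app n)) {b : B.obj 0}
    (hb : b ∈ B.bdry) : ∃ a ∈ A.bdry, φ.app 0 a = b := by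
  obtain ⟨z, -, e⟩ := hb
  obtain ⟨w, rfl⟩ := N.map_surjective φ h z
  refine ⟨A.map (face 0) (w.1 1), ⟨DG.trunc A (0 + 1) w, fun n hn => if_neg hn,
    N.ext' fun n => ?_⟩, ?_⟩
  · cases n with
    | zero => rfl
    | succ n =>
      change A.map (face 0) (if ((n + 1 + 1 : ℕ) : ℤ) = 0 + 1 then w.1 (n + 1 + 1) else 0) = 0
      rw [if_neg (by omega), map_zero]
  · rw [φ.nat]
    exact congrArg (fun u : N B => u.1 0) e

/-- A cover of a closed subscheme lifts to a cover, if `0` is allowed. -/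
theorem SRing.Covers.comap (φ : A ⟶ B) (h : ∀ n, Function.Surjective (φ.app n))
    {U : Set (B.obj 0)} (hU : B.Covers U) (h0 : (0 : B.obj 0) ∈ U) :
    A.Covers {f | φ.app 0 f ∈ U} := by
  have h1 : Ideal.map (φ.app 0) (Ideal.span ({f | φ.app 0 f ∈ U} ∪ A.bdry)) = ⊤ := by
    refine top_le_iff.1 ((SRing.covers_iff.1 hU) ▸ Ideal.span_le.2 ?_)
    rintro b (hb | hb)
    · obtain ⟨a, rfl⟩ := h 0 b
      exact Ideal.mem_map_of_mem _ (Ideal.subset_span (Or.inl hb))
    · obtain ⟨a, ha, rfl⟩ := Surj_bdry φ h hb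
      exact Ideal.mem_map_of_mem _ (Ideal.subset_span (Or.inr ha))
  have h2 := Ideal.comap_map_of_surjective (φ.app 0) (h 0)
    (Ideal.span ({f | φ.app 0 f ∈ U} ∪ A.bdry))
  rw [h1, Ideal.comap_top] at h2
  refine SRing.covers_iff.2 (top_le_iff.1 (h2.le.trans (sup_le le_rfl fun a ha => ?_)))
  have h3 : φ.app 0 a = 0 := ha
  exact Ideal.subset_span (Or.inl (show φ.app 0 a ∈ U from h3 ▸ h0))

end covers

namespace DG
variable {A B : SRing}

/-- Homology of a direct sum, given by inclusions `m i` and projections `c i`. -/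
theorem bijective_liftAddHom {I : Type} {P : DG A} {Q : DG B} (m : I → CMap P Q)
    (c : I → CMap Q P) (h₁ : ∀ i x, (c i).toFun ((m i).toFun x) = x)
    (h₂ : ∀ i i' x, i ≠ i' → (c i).toFun ((m i').toFun x) = 0)
    (h₃ : ∀ y, ∃ T : Finset I, ∑ i ∈ T, (m i).toFun ((c i).toFun y) = y) (k : ℤ) :
    Function.Bijective (Finsupp.liftAddHom fun i => (m i).H k : (I →₀ P.H k) →+ Q.H k) := by
  classical
  constructor
  · have key : ∀ (f : I →₀ P.H k) (i : I),
        (c i).H k ((Finsupp.liftAddHom fun i => (m i).H k : (I →₀ P.H k) →+ Q.H k) f) = f i := by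
      intro f i
      induction f using Finsupp.induction_linear with
      | zero => rw [map_zero, map_zero, Finsupp.zero_apply]
      | add f g hf hg => rw [map_add, map_add, hf, hg, Finsupp.add_apply]
      | single j ξ =>
        rw [Finsupp.liftAddHom_apply_single]
        obtain ⟨x, hx, rfl⟩ := cls_surj ξ
        by_cases hij : i = j
        · rw [← hij, Finsupp.single_eq_same]
          exact cls_congr _ _ (h₁ i x)
        · rw [Finsupp.single_eq_of_ne hij]
          exact cls_congr _ (P.Z k).zero_mem (h₂ i j x hij)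
    intro f g e
    ext i
    rw [← key f i, e, key]
  · intro ξ
    obtain ⟨y, hy, rfl⟩ := cls_surj ξ
    obtain ⟨T, hT⟩ := h₃ y
    refine ⟨∑ i ∈ T, Finsupp.single i ((c i).H k (Q.cls y hy)), ?_⟩
    have key : ∀ T : Finset I, ∑ i ∈ T, (m i).H k ((c i).H k (Q.cls y hy)) =
        Q.cls (∑ i ∈ T, (m i).toFun ((c i).toFun y))
          ((Q.Z k).sum_mem fun i _ => (m i).cycle ((c i).cycle hy)) := by
      intro T
      induction T using Finset.induction_on with
      | empty => rfl
      | insert a T ha ih =>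
        rw [Finset.sum_insert ha, ih]
        exact cls_congr ((Q.Z k).add_mem ((m a).cycle ((c a).cycle hy))
          ((Q.Z k).sum_mem fun i _ => (m i).cycle ((c i).cycle hy))) _
          (Finset.sum_insert (f := fun i => (m i).toFun ((c i).toFun y)) ha).symm
    rw [map_sum]
    simp only [Finsupp.liftAddHom_apply_single]
    rw [key]
    exact cls_congr _ _ hT

end DG

end Pool.Agent.P.MP_932208_ag.Ax
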