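import Pool.Agent.P.MP_932208_ag.Ax.ModL

/-!
The product total complex of a cosimplicial dg module.
-/

namespace Pool.Agent.P.MP_932208_ag.Ax

open CategoryTheory

/-- An augmentation of a cosimplicial simplicial ring. -/
structure Aug (A : SRing) (R : SimplexCategory ⥤ SRing) where
  ι : ∀ s, A ⟶ R.obj s
  comm : ∀ {s s'} (θ : s ⟶ s'), ι s ≫ R.map θ = ι s'

theorem TotD_sg_sg {A : SRing} (a : N A) : N.sg (N.sg a) = a := Subtype.ext (Ch.sgn_sgn a.1)

theorem TotD_bd_sg {A : SRing} (a : N A) : N.bd (N.sg a) = -N.sg (N.bd a) :=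
  N.ext' fun n => by
    change A.map (face 0) ((-1) ^ (n + 1) * a.1 (n + 1)) =
      -((-1) ^ n * A.map (face 0) (a.1 (n + 1)))
    simp [pow_succ]

theorem TotD_pow_succ {A : SRing} (p : ℕ) (a : N A) :
    ((N.sg : N A →+* N A) ^ (p + 1)) a = N.sg (((N.sg : N A →+* N A) ^ p) a) := by
  rw [pow_succ']; rfl

theorem TotD_pow_sg {A : SRing} (p : ℕ) (a : N A) :
    ((N.sg : N A →+* N A) ^ p) (N.sg a) = N.sg (((N.sg : N A →+* N A) ^ p) a) := by
  rw [← TotD_pow_succ, pow_succ]; rfl

theorem TotD_bd_pow {A : SRing} (p : ℕ) (a : N A) :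
    (-1 : ℤ) ^ p • N.bd (((N.sg : N A →+* N A) ^ p) a) = ((N.sg : N A →+* N A) ^ p) (N.bd a) := by
  induction p with
  | zero => simp
  | succ p ih => rw [TotD_pow_succ, TotD_pow_succ, TotD_bd_sg, ← ih, map_zsmul, pow_succ]; simp

theorem TotD_hg_pow {A : SRing} (p : ℕ) {k : ℤ} {a : N A} (h : N.Hg k a) :
    N.Hg k (((N.sg : N A →+* N A) ^ p) a) := by
  induction p with
  | zero => exact h
  | succ p ih => rw [TotD_pow_succ]; exact ih.sg

theorem TotD_map_pow {A B : SRing} (ψ : A ⟶ B) (p : ℕ) (a : N A) :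
    N.map ψ (((N.sg : N A →+* N A) ^ p) a) = ((N.sg : N B →+* N B) ^ p) (N.map ψ a) := by
  induction p with
  | zero => rfl
  | succ p ih => rw [TotD_pow_succ, TotD_pow_succ, N.map_sg, ih]

theorem TotD_sum_proj {A : SRing} (M : DG A) (x : M.V) (T : Finset ℤ) (c : ℤ)
    (h : ∀ k, k ∉ T → M.proj (k + c) x = 0) : ∑ k ∈ T, M.proj (k + c) x = x := by
  obtain ⟨S, h1, h2⟩ := M.exists_sum_proj x
  have h3 : ∑ k ∈ T, M.proj (k + c) x = ∑ l ∈ T.image (· + c), M.proj l x :=
    (Finset.sum_image (f := fun l => M.proj l x) fun a _ b _ e => by simpa using e).symm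
  have h4 : ∀ l, l ∉ T.image (· + c) → M.proj l x = 0 := by
    intro l hl
    have := h (l - c) fun hk => hl (Finset.mem_image.2 ⟨l - c, hk, by simp⟩)
    simpa using this
  rw [h3, Finset.sum_subset (Finset.subset_union_right (s₁ := S)) fun l _ hl => h4 l hl,
    ← Finset.sum_subset Finset.subset_union_left fun l _ hl => h1 l hl, h2]

namespace Mod
variable {A A' : SRing} {R R' : SimplexCategory ⥤ SRing}

/-- The underlying cosimplicial abelian group. -/
def TotD_cos (M : Mod R) : CosimplicialObject AddCommGrpCat where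
  obj s := AddCommGrpCat.of (M.obj s).V
  map θ := AddCommGrpCat.ofHom (M.map θ).toFun
  map_id s := by ext x; exact M.map_id s x
  map_comp θ η := by ext x; exact M.map_comp θ η x

/-- The alternating sum of the cofaces. -/
def cob (M : Mod R) (p : ℕ) : (M.obj (.mk p)).V →+ (M.obj (.mk (p + 1))).V :=
  ∑ i : Fin (p + 2), (-1 : ℤ) ^ (i : ℕ) • (M.map (SimplexCategory.δ i)).toFun

theorem cob_apply (M : Mod R) (p : ℕ) (x : (M.obj (.mk p)).V) : M.cob p x =
    ∑ i : Fin (p + 2), (-1 : ℤ) ^ (i : ℕ) • (M.map (SimplexCategory.δ i)).toFun x := by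
  simp [cob]

theorem cob_cob (M : Mod R) (p : ℕ) (x : (M.obj (.mk p)).V) : M.cob (p + 1) (M.cob p x) = 0 := by
  have h : ∀ n, AlgebraicTopology.AlternatingCofaceMapComplex.objD M.TotD_cos n =
      AddCommGrpCat.ofHom (M.cob n) := by
    intro n
    refine AddCommGrpCat.hom_ext ?_
    exact (map_sum AddCommGrpCat.homAddEquiv _ _).trans rfl
  have h2 := AlgebraicTopology.AlternatingCofaceMapComplex.d_squared M.TotD_cos p
  rw [h, h] at h2
  exact DFunLike.congr_fun (congrArg AddCommGrpCat.Hom.hom h2) x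

theorem cob_gr (M : Mod R) (p : ℕ) {k : ℤ} {x : (M.obj (.mk p)).V} (h : x ∈ (M.obj (.mk p)).gr k) :
    M.cob p x ∈ (M.obj (.mk (p + 1))).gr k := by
  rw [cob_apply]
  exact sum_mem fun i _ => zsmul_mem ((M.map _).map_gr h) _

theorem cob_d (M : Mod R) (p : ℕ) (x : (M.obj (.mk p)).V) :
    M.cob p ((M.obj (.mk p)).d x) = (M.obj (.mk (p + 1))).d (M.cob p x) := by
  simp only [cob_apply, map_sum, map_zsmul, DG.Hom.map_d]

theorem cob_smul (u : Aug A R) (M : Mod R) (p : ℕ) (a : N A) (x : (M.obj (.mk p)).V) :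
    M.cob p (N.map (u.ι (.mk p)) a • x) = N.map (u.ι (.mk (p + 1))) a • M.cob p x := by
  simp only [cob_apply, Finset.smul_sum]
  refine Finset.sum_congr rfl fun i _ => ?_
  rw [DG.Hom.map_smul, N.map_map, u.comm, smul_comm]

theorem Hom.map_cob {η : R ⟶ R'} {M : Mod R} {M' : Mod R'} (g : Hom η M M') (p : ℕ)
    (x : (M.obj (.mk p)).V) : (g.app _).toFun (M.cob p x) = M'.cob p ((g.app _).toFun x) := by
  simp only [cob_apply, map_sum, map_zsmul, g.nat]

/-- The alternating sum of the cofaces as a chain map. -/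
def cobC (M : Mod R) (p : ℕ) : DG.CMap (M.obj (.mk p)) (M.obj (.mk (p + 1))) :=
  ⟨M.cob p, M.cob_gr p, M.cob_d p⟩

theorem cobC_H (M : Mod R) (p : ℕ) (k : ℤ) (ξ : (M.obj (.mk p)).H k) : (M.cobC p).H k ξ =
    ∑ i : Fin (p + 2), (-1 : ℤ) ^ (i : ℕ) • (M.map (SimplexCategory.δ i)).H k ξ := by
  obtain ⟨x, hx, rfl⟩ := DG.cls_surj ξ
  let c : (M.obj (.mk (p + 1))).Z k →+ (M.obj (.mk (p + 1))).H k :=
    AddMonoidHom.mk' (fun y => (M.obj (.mk (p + 1))).cls y.1 y.2) fun y y' =>
      (DG.cls_add y.2 y'.2).symm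
  have h1 : (M.cobC p).H k (DG.cls _ x hx) = c ⟨M.cob p x, (M.cobC p).cycle hx⟩ := rfl
  have h2 : ∀ i : Fin (p + 2), (M.map (SimplexCategory.δ i)).H k (DG.cls _ x hx) =
      c ⟨(M.map (SimplexCategory.δ i)).toFun x, (M.map _).cycle hx⟩ := fun _ => rfl
  simp only [h1, h2, ← map_zsmul, ← map_sum]
  congr 1
  refine Subtype.ext ?_
  rw [AddSubmonoidClass.coe_finsetSum]
  exact M.cob_apply p x

/-- The cosimplicial groups `H_k (M •)` have no cohomology in positive degree. -/
def Ex (M : Mod R) : Prop :=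
  ∀ k p (ξ : (M.obj (.mk (p + 1))).H k), (M.cobC (p + 1)).H k ξ = 0 → ∃ ζ, (M.cobC p).H k ζ = ξ

/-- The invariant classes. -/
def Inv (M : Mod R) (k : ℤ) : Set ((M.obj (.mk 0)).H k) :=
  {ξ | (M.map (SimplexCategory.δ 0)).H k ξ = (M.map (SimplexCategory.δ 1)).H k ξ}

theorem mem_inv_iff (M : Mod R) (k : ℤ) (ξ : (M.obj (.mk 0)).H k) :
    ξ ∈ M.Inv k ↔ (M.cobC 0).H k ξ = 0 := by
  rw [cobC_H, Fin.sum_univ_two]
  simp only [Fin.val_zero, pow_zero, one_smul, Fin.val_one, pow_one, neg_smul]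
  rw [← sub_eq_add_neg, sub_eq_zero]
  rfl

/-- Families `z p ∈ M (.mk p)` with finitely many total degrees. -/
def totV (M : Mod R) : AddSubgroup (∀ p : ℕ, (M.obj (.mk p)).V) where
  carrier := {z | ∃ T : Finset ℤ, ∀ k, k ∉ T → ∀ p : ℕ, (M.obj (.mk p)).proj (k + p) (z p) = 0}
  add_mem' := fun ⟨S, hS⟩ ⟨T, hT⟩ => ⟨S ∪ T, fun k hk p => by
    rw [Pi.add_apply, map_add, hS k (fun h => hk (by simp [h])) p,
      hT k (fun h => hk (by simp [h])) p, add_zero]⟩
  zero_mem' := ⟨∅, fun _ _ _ => map_zero _⟩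
  neg_mem' := fun ⟨S, hS⟩ => ⟨S, fun k hk p => by rw [Pi.neg_apply, map_neg, hS k hk p, neg_zero]⟩

theorem mem_totV_of_gr (M : Mod R) {k : ℤ} {z : ∀ p : ℕ, (M.obj (.mk p)).V}
    (h : ∀ p : ℕ, z p ∈ (M.obj (.mk p)).gr (k + p)) : z ∈ M.totV :=
  ⟨{k}, fun l hl p => (M.obj _).proj_of_ne (h p) fun e => hl (by simp; omega)⟩

theorem TotD_induction (M : Mod R) {P : (∀ p : ℕ, (M.obj (.mk p)).V) → Prop} (h0 : P 0)
    (hk : ∀ (k : ℤ) z, (∀ p : ℕ, z p ∈ (M.obj (.mk p)).gr (k + p)) → P z)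
    (hadd : ∀ z z', P z → P z' → P (z + z')) {z} (h : z ∈ M.totV) : P z := by
  obtain ⟨T, hT⟩ := h
  have e : z = ∑ k ∈ T, fun p : ℕ => (M.obj (.mk p)).proj (k + p) (z p) := by
    funext p
    rw [Finset.sum_apply]
    exact (TotD_sum_proj _ _ T p fun k hk => hT k hk p).symm
  rw [e]
  exact Finset.sum_induction _ P hadd h0 fun k _ => hk k _ fun p => (M.obj _).proj_mem _ _

/-- The total differential. -/
def totD (M : Mod R) (z : ∀ p : ℕ, (M.obj (.mk p)).V) : ∀ p : ℕ, (M.obj (.mk p)).V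
  | 0 => (M.obj (.mk 0)).d (z 0)
  | p + 1 => (-1 : ℤ) ^ (p + 1) • (M.obj (.mk (p + 1))).d (z (p + 1)) + M.cob p (z p)

/-- The action of `N A`, with the sign `(-1)^(p * deg a)` on the component `p`. -/
def totSmul (u : Aug A R) (M : Mod R) (a : N A) (z : ∀ p : ℕ, (M.obj (.mk p)).V) (p : ℕ) :
    (M.obj (.mk p)).V :=
  N.map (u.ι (.mk p)) (((N.sg : N A →+* N A) ^ p) a) • z p

theorem TotD_add (M : Mod R) (z z' : ∀ p : ℕ, (M.obj (.mk p)).V) :
    M.totD (z + z') = M.totD z + M.totD z' := by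
  funext p
  cases p with
  | zero => simp [totD]
  | succ p => simp only [totD, Pi.add_apply, map_add, smul_add]; abel

theorem TotD_zero (M : Mod R) : M.totD 0 = 0 := by
  funext p
  cases p <;> simp [totD]

theorem TotD_gr (M : Mod R) {k : ℤ} {z : ∀ p : ℕ, (M.obj (.mk p)).V}
    (h : ∀ p : ℕ, z p ∈ (M.obj (.mk p)).gr (k + 1 + p)) (p : ℕ) :
    M.totD z p ∈ (M.obj (.mk p)).gr (k + p) := by
  cases p with
  | zero => exact (M.obj _).d_mem (by simpa using h 0)
  | succ p =>
    refine add_mem (zsmul_mem ((M.obj _).d_mem ?_) _) (M.cob_gr p ?_)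
    · rw [add_right_comm]; exact h (p + 1)
    · have e : k + ((p + 1 : ℕ) : ℤ) = k + 1 + p := by push_cast; ring
      rw [e]; exact h p

theorem totD_mem (M : Mod R) {z} (h : z ∈ M.totV) : M.totD z ∈ M.totV := by
  refine M.TotD_induction (P := fun z => M.totD z ∈ M.totV) ?_ ?_ ?_ h
  · rw [TotD_zero]; exact zero_mem _
  · intro k z hz
    exact M.mem_totV_of_gr (k := k - 1) (M.TotD_gr (by simpa using hz))
  · intro z z' h1 h2
    rw [TotD_add]; exact add_mem h1 h2

theorem TotD_smul_gr (u : Aug A R) (M : Mod R) {n k : ℤ} {a : N A} (ha : a ∈ N.deg A n)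
    {z : ∀ p : ℕ, (M.obj (.mk p)).V} (h : ∀ p : ℕ, z p ∈ (M.obj (.mk p)).gr (k + p)) (p : ℕ) :
    totSmul u M a z p ∈ (M.obj (.mk p)).gr (n + k + p) := by
  rw [add_assoc]
  exact (M.obj _).smul_mem (N.Hg.map _ (TotD_hg_pow p ha)) (h p)

theorem TotD_smul_add (u : Aug A R) (M : Mod R) (a : N A) (z z' : ∀ p : ℕ, (M.obj (.mk p)).V) :
    totSmul u M a (z + z') = totSmul u M a z + totSmul u M a z' := by
  funext p; simp [totSmul]

theorem TotD_add_smul (u : Aug A R) (M : Mod R) (a b : N A) (z : ∀ p : ℕ, (M.obj (.mk p)).V) :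
    totSmul u M (a + b) z = totSmul u M a z + totSmul u M b z := by
  funext p; simp only [totSmul, map_add, add_smul, Pi.add_apply]

theorem TotD_smul_zero (u : Aug A R) (M : Mod R) (a : N A) : totSmul u M a 0 = 0 := by
  funext p; simp [totSmul]

theorem TotD_zero_smul (u : Aug A R) (M : Mod R) (z : ∀ p : ℕ, (M.obj (.mk p)).V) :
    totSmul u M 0 z = 0 := by
  funext p; simp only [totSmul, map_zero, zero_smul, Pi.zero_apply]

theorem totSmul_mem (u : Aug A R) (M : Mod R) (a : N A) {z} (h : z ∈ M.totV) :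
    totSmul u M a z ∈ M.totV := by
  refine M.TotD_induction (P := fun z => totSmul u M a z ∈ M.totV) ?_ ?_ ?_ h
  · rw [TotD_smul_zero]; exact zero_mem _
  · intro k z hz
    refine (DG.unit A).induction (P := fun a : N A => totSmul u M a z ∈ M.totV) ?_ ?_ ?_ a
    · rw [TotD_zero_smul]; exact zero_mem _
    · intro n b hb
      exact M.mem_totV_of_gr (TotD_smul_gr u M hb hz)
    · intro b c h1 h2
      rw [TotD_add_smul]; exact add_mem h1 h2
  · intro z z' h1 h2
    rw [TotD_smul_add]; exact add_mem h1 h2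

/-- The module structure on the total complex. -/
@[reducible] def totModule (u : Aug A R) (M : Mod R) : Module (N A) M.totV where
  smul a z := ⟨totSmul u M a z.1, totSmul_mem u M a z.2⟩
  one_smul z := Subtype.ext (funext fun p => by
    change totSmul u M 1 z.1 p = z.1 p
    simp only [totSmul, map_one, one_smul])
  mul_smul a b z := Subtype.ext (funext fun p => by
    change totSmul u M (a * b) z.1 p = totSmul u M a (totSmul u M b z.1) p
    simp only [totSmul, map_mul, mul_smul])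
  smul_zero a := Subtype.ext (TotD_smul_zero u M a)
  smul_add a z z' := Subtype.ext (TotD_smul_add u M a z.1 z'.1)
  add_smul a b z := Subtype.ext (TotD_add_smul u M a b z.1)
  zero_smul z := Subtype.ext (TotD_zero_smul u M z.1)

/-- The elements of total degree `k`. -/
def totGr (M : Mod R) (k : ℤ) : AddSubgroup M.totV where
  carrier := {z | ∀ p : ℕ, z.1 p ∈ (M.obj (.mk p)).gr (k + p)}
  add_mem' h h' p := add_mem (h p) (h' p)
  zero_mem' _ := zero_mem _
  neg_mem' h p := neg_mem (h p)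

theorem TotD_internal (M : Mod R) : DirectSum.IsInternal M.totGr := by
  refine internal_of_proj _ (fun k => AddMonoidHom.mk'
    (fun z => ⟨fun p => (M.obj (.mk p)).proj (k + p) (z.1 p),
      M.mem_totV_of_gr fun p => (M.obj _).proj_mem _ _⟩)
    fun z z' => Subtype.ext (funext fun p => map_add _ _ _))
    (fun k z p => (M.obj _).proj_mem _ _)
    (fun k z hz => Subtype.ext (funext fun p => (M.obj _).proj_of_mem (hz p)))
    (fun k l z hz e => Subtype.ext (funext fun p => (M.obj _).proj_of_ne (hz p) (by omega)))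
    fun z => ?_
  obtain ⟨T, hT⟩ := z.2
  refine ⟨T, Subtype.ext (funext fun p => ?_)⟩
  rw [AddSubmonoidClass.coe_finsetSum, Finset.sum_apply]
  exact TotD_sum_proj _ _ T p fun k hk => hT k hk p

theorem TotD_dd (M : Mod R) (z : ∀ p : ℕ, (M.obj (.mk p)).V) : M.totD (M.totD z) = 0 := by
  funext p
  match p with
  | 0 => exact (M.obj _).d_d _
  | 1 => simp [totD, DG.d_d, cob_d]
  | p + 2 => simp [totD, DG.d_d, cob_d, cob_cob, pow_succ]

theorem TotD_d_smul (u : Aug A R) (M : Mod R) (a : N A) (z : ∀ p : ℕ, (M.obj (.mk p)).V) :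
    M.totD (totSmul u M a z) = totSmul u M (N.bd a) z + totSmul u M (N.sg a) (M.totD z) := by
  funext p
  cases p with
  | zero =>
    change (M.obj _).d (N.map _ a • z 0) = N.map _ (N.bd a) • z 0 + N.map _ (N.sg a) • _
    rw [DG.res_d_smul']; rfl
  | succ p =>
    simp only [totD, totSmul, Pi.add_apply]
    rw [DG.res_d_smul', cob_smul, ← TotD_bd_pow, map_zsmul, TotD_pow_sg, smul_add, smul_add,
      smul_assoc, smul_comm ((-1 : ℤ) ^ (p + 1)) (N.map _ (N.sg _)), add_assoc]
    congr 3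
    rw [TotD_pow_succ, TotD_sg_sg]

/-- The product total complex. -/
def totΔ (u : Aug A R) (M : Mod R) : DG A where
  V := M.totV
  mod := totModule u M
  gr := M.totGr
  internal := M.TotD_internal
  d := AddMonoidHom.mk' (fun z => ⟨M.totD z.1, M.totD_mem z.2⟩)
    fun z z' => Subtype.ext (M.TotD_add z.1 z'.1)
  smul_mem ha hz := TotD_smul_gr u M ha hz
  d_mem hz := M.TotD_gr hz
  d_d z := Subtype.ext (M.TotD_dd z.1)
  d_smul a z := Subtype.ext (TotD_d_smul u M a z.1)

/-- Functoriality of the total complex: `g p` is any family of semilinear maps that commutes with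
the alternating sums of the cofaces. -/
def totMap (u : Aug A R) (u' : Aug A' R') (ψ : A ⟶ A') {M : Mod R} {M' : Mod R'}
    {η : ∀ p : ℕ, R.obj (.mk p) ⟶ R'.obj (.mk p)} (e : ∀ p, u.ι _ ≫ η p = ψ ≫ u'.ι _)
    (g : ∀ p : ℕ, DG.Hom (η p) (M.obj (.mk p)) (M'.obj (.mk p)))
    (hg : ∀ p x, (g (p + 1)).toFun (M.cob p x) = M'.cob p ((g p).toFun x)) :
    DG.Hom ψ (totΔ u M) (totΔ u' M') where
  toFun := AddMonoidHom.mk' (fun z => ⟨fun p => (g p).toFun (z.1 p),
      z.2.imp fun _ hT k hk p => by rw [← (g p).map_proj, hT k hk p, map_zero]⟩)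
    fun z z' => Subtype.ext (funext fun p => (g p).toFun.map_add (z.1 p) (z'.1 p))
  map_smul a z := Subtype.ext (funext fun p => by
    change (g p).toFun (totSmul u M a z.1 p) =
      totSmul u' M' (N.map ψ a) (fun p => (g p).toFun (z.1 p)) p
    simp only [totSmul]
    rw [(g p).map_smul, N.map_map, e p, ← TotD_map_pow, N.map_map])
  map_gr hz p := (g p).map_gr (hz p)
  map_d z := Subtype.ext (funext fun p => by
    change (g p).toFun (M.totD z.1 p) = M'.totD (fun p => (g p).toFun (z.1 p)) p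
    cases p with
    | zero => exact (g 0).map_d _
    | succ p => simp only [totD, map_add, map_zsmul, DG.Hom.map_d, hg])

/-- The family with `x` in degree zero. -/
def totSingle (M : Mod R) (x : (M.obj (.mk 0)).V) : ∀ p : ℕ, (M.obj (.mk p)).V
  | 0 => x
  | _ + 1 => 0

/-- The augmentation map into the total complex. -/
def totAug (u : Aug A R) {P : DG A} {M : Mod R} (g : DG.Hom (u.ι _) P (M.obj (.mk 0)))
    (hg : ∀ x, M.cob 0 (g.toFun x) = 0) : DG.Hom (𝟙 A) P (totΔ u M) where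
  toFun := AddMonoidHom.mk' (fun x => ⟨M.totSingle (g.toFun x),
      ((M.obj _).exists_sum_proj (g.toFun x)).imp fun T hT k hk p => by
        cases p with
        | zero => simpa [totSingle] using hT.1 k hk
        | succ p => exact map_zero _⟩)
    fun x y => Subtype.ext (funext fun p => by
      change M.totSingle (g.toFun (x + y)) p =
        M.totSingle (g.toFun x) p + M.totSingle (g.toFun y) p
      cases p <;> simp [totSingle])
  map_smul a x := Subtype.ext (funext fun p => by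
    change M.totSingle (g.toFun (a • x)) p = totSmul u M a (M.totSingle (g.toFun x)) p
    cases p with
    | zero => exact g.map_smul a x
    | succ p => simp [totSingle, totSmul])
  map_gr {k x} hx p := by
    change M.totSingle (g.toFun x) p ∈ _
    cases p with
    | zero => simpa [totSingle] using g.map_gr hx
    | succ p => exact zero_mem _
  map_d x := Subtype.ext (funext fun p => by
    change M.totSingle (g.toFun (P.d x)) p = M.totD (M.totSingle (g.toFun x)) p
    match p with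
    | 0 => exact g.map_d x
    | 1 => simp [totSingle, totD, hg]
    | p + 2 => simp [totSingle, totD])

/-- The projection to the component of cosimplicial degree zero. -/
def totPr (u : Aug A R) (M : Mod R) : DG.CMap (totΔ u M) (M.obj (.mk 0)) where
  toFun := AddMonoidHom.mk' (fun z => z.1 0) fun _ _ => rfl
  map_gr {k z} hz := by
    change z.1 0 ∈ _
    simpa using hz 0
  map_d _ := rfl

end Mod

end Pool.Agent.P.MP_932208_ag.Ax
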