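import Pool.Agent.P.MP_932208_ag.Ax.TotD

/-!
Homology of the total complex when the cosimplicial homology groups are exact.
-/

namespace Pool.Agent.P.MP_932208_ag.Ax

open CategoryTheory

theorem totR_sq {V : Type} [AddCommGroup V] (p : ℕ) (x : V) :
    (-1 : ℤ) ^ p • (-1 : ℤ) ^ p • x = x := by
  rw [smul_smul, ← mul_pow, neg_mul_neg, one_mul, one_pow, one_smul]

theorem totR_bij {X X' Y Y' : Type} {a : X → X'} {p : X → Y} {p' : X' → Y'} {g : Y → Y'}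
    {I : Set Y} {I' : Set Y'} (hp : Set.BijOn p Set.univ I) (hp' : Set.BijOn p' Set.univ I')
    (hg : Set.BijOn g I I') (e : ∀ x, p' (a x) = g (p x)) : Function.Bijective a := by
  refine ⟨fun x y h => ?_, fun y => ?_⟩
  · refine hp.injOn trivial trivial (hg.injOn (hp.mapsTo trivial) (hp.mapsTo trivial) ?_)
    rw [← e, ← e, h]
  · obtain ⟨z, hz, e1⟩ := hg.surjOn (hp'.mapsTo (Set.mem_univ y))
    obtain ⟨x, -, e2⟩ := hp.surjOn hz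
    exact ⟨x, hp'.injOn trivial trivial (by rw [e, e2, e1])⟩

namespace Mod
variable {A A' : SRing} {R R' : SimplexCategory ⥤ SRing}

theorem totR_gr {E : DG A} {k l : ℤ} {x : E.V} (h : x ∈ E.gr k) (e : k = l) : x ∈ E.gr l := e ▸ h

/-- Elementwise form of `Ex`. -/
theorem Ex.totR_lift {M : Mod R} (hM : M.Ex) {k : ℤ} {p : ℕ} {x : (M.obj (.mk (p + 1))).V}
    (hx : (M.obj (.mk (p + 1))).Cycle k x)
    (hb : (M.obj (.mk (p + 1 + 1))).Bdry k (M.cob (p + 1) x)) :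
    ∃ c, (M.obj (.mk p)).Cycle k c ∧ (M.obj (.mk (p + 1))).Bdry k (x - M.cob p c) := by
  obtain ⟨ζ, h⟩ := hM k p ((M.obj (.mk (p + 1))).cls x hx)
    ((DG.cls_eq_zero ((M.cobC (p + 1)).cycle hx)).2 hb)
  obtain ⟨c, hc, rfl⟩ := DG.cls_surj ζ
  exact ⟨c, hc, (DG.cls_eq_iff hx ((M.cobC p).cycle hc)).1 h.symm⟩

/-- Correcting a solution of the equation `p` so that the next equation can be solved. -/
theorem Ex.totR_fix {M : Mod R} (hM : M.Ex) {k : ℤ} {z : ∀ p : ℕ, (M.obj (.mk p)).V}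
    (hz : ∀ p : ℕ, z p ∈ (M.obj (.mk p)).gr (k + p)) (hd : M.totD z = 0) {p : ℕ}
    {y : (M.obj (.mk p)).V} (hy : y ∈ (M.obj (.mk p)).gr (k + 1 + p))
    (e : M.cob p ((-1 : ℤ) ^ p • (M.obj (.mk p)).d y) = M.cob p (z p)) :
    ∃ w ∈ (M.obj (.mk p)).gr (k + 1 + p), (M.obj (.mk p)).d w = (M.obj (.mk p)).d y ∧
      (M.obj (.mk (p + 1))).Bdry (k + 1 + p) (z (p + 1) - M.cob p w) := by
  have e1 : (-1 : ℤ) ^ (p + 1) • (M.obj (.mk (p + 1))).d (z (p + 1)) + M.cob p (z p) = 0 :=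
    congrFun hd (p + 1)
  have e2 : (-1 : ℤ) ^ (p + 1 + 1) • (M.obj (.mk (p + 1 + 1))).d (z (p + 1 + 1)) +
      M.cob (p + 1) (z (p + 1)) = 0 := congrFun hd (p + 1 + 1)
  have hc : (M.obj (.mk (p + 1))).Cycle (k + 1 + p) (z (p + 1) - M.cob p y) := by
    refine ⟨sub_mem (totR_gr (hz (p + 1)) (by push_cast; ring)) (M.cob_gr p hy), ?_⟩
    rw [← e, map_zsmul, M.cob_d, pow_succ, mul_neg_one, neg_smul, neg_add_eq_zero] at e1
    have e3 := congrArg (fun v => (-1 : ℤ) ^ p • v) e1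
    simp only [totR_sq] at e3
    rw [map_sub, e3, sub_self]
  obtain ⟨c, c1, c2⟩ := hM.totR_lift hc (by
    refine ⟨-((-1 : ℤ) ^ (p + 1 + 1) • z (p + 1 + 1)),
      neg_mem (zsmul_mem (totR_gr (hz (p + 1 + 1)) (by push_cast; ring)) _), ?_⟩
    rw [map_sub, M.cob_cob, sub_zero, map_neg, map_zsmul, neg_eq_iff_add_eq_zero, e2])
  refine ⟨y + c, add_mem hy c1.1, by rw [map_add, c1.2, add_zero], ?_⟩
  rwa [map_add, ← sub_sub]

/-- The recursion: a total cycle `z` bounds as soon as the first two steps can be solved. -/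
theorem Ex.solve {M : Mod R} (hM : M.Ex) {k : ℤ} {z : ∀ p : ℕ, (M.obj (.mk p)).V}
    (hz : ∀ p : ℕ, z p ∈ (M.obj (.mk p)).gr (k + p)) (hd : M.totD z = 0) {w₀ : (M.obj (.mk 0)).V}
    (h₀ : w₀ ∈ (M.obj (.mk 0)).gr (k + 1)) (h₁ : (M.obj (.mk 0)).d w₀ = z 0)
    (h₂ : (M.obj (.mk 1)).Bdry (k + 1) (z 1 - M.cob 0 w₀)) :
    ∃ w : ∀ p : ℕ, (M.obj (.mk p)).V, (∀ p : ℕ, w p ∈ (M.obj (.mk p)).gr (k + 1 + p)) ∧ w 0 = w₀ ∧
      M.totD w = z := by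
  let I : ∀ p : ℕ, (M.obj (.mk p)).V → Prop := fun p w => w ∈ (M.obj (.mk p)).gr (k + 1 + p) ∧
    (M.obj (.mk (p + 1))).Bdry (k + 1 + p) (z (p + 1) - M.cob p w)
  have step : ∀ (p : ℕ) (w : {w // I p w}), ∃ w' : {w // I (p + 1) w},
      (-1 : ℤ) ^ (p + 1) • (M.obj (.mk (p + 1))).d w'.1 + M.cob p w.1 = z (p + 1) := by
    rintro p ⟨w, -, y, hy, e⟩
    have e1 : (-1 : ℤ) ^ (p + 1) • (M.obj (.mk (p + 1))).d ((-1 : ℤ) ^ (p + 1) • y) =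
        z (p + 1) - M.cob p w := by rw [map_zsmul, totR_sq, e]
    obtain ⟨w', a1, a2, a3⟩ := hM.totR_fix hz hd (p := p + 1) (y := (-1 : ℤ) ^ (p + 1) • y)
      (zsmul_mem (totR_gr hy (by push_cast; ring)) _)
      (by rw [e1, map_sub, M.cob_cob, sub_zero])
    exact ⟨⟨w', a1, a3⟩, by rw [a2, e1, sub_add_cancel]⟩
  choose f hf using step
  have i0 : I 0 w₀ := ⟨totR_gr h₀ (by simp), by simpa using h₂⟩
  let W : ∀ p : ℕ, {w // I p w} := fun p => Nat.rec ⟨w₀, i0⟩ f p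
  refine ⟨fun p => (W p).1, fun p => (W p).2.1, rfl, funext fun p => ?_⟩
  cases p with
  | zero => exact h₁
  | succ p => exact hf p (W p)

theorem Ex.totPr_bijOn (u : Aug A R) {M : Mod R} (hM : M.Ex) (k : ℤ) :
    Set.BijOn ((totPr u M).H k) Set.univ (M.Inv k) := by
  refine ⟨fun ξ _ => ?_, Function.Injective.injOn ((injective_iff_map_eq_zero _).2 fun ξ h => ?_),
    fun ξ hξ => ?_⟩
  · obtain ⟨z, hz, rfl⟩ := DG.cls_surj ξ
    rw [mem_inv_iff, DG.CMap.H_cls, DG.CMap.H_cls, DG.cls_eq_zero]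
    have e1 : (-1 : ℤ) ^ 1 • (M.obj (.mk (0 + 1))).d (z.1 (0 + 1)) + M.cob 0 (z.1 0) = 0 :=
      congrFun (congrArg Subtype.val hz.2) 1
    rw [pow_one, neg_one_smul, neg_add_eq_zero] at e1
    exact ⟨z.1 1, totR_gr (hz.1 1) (by simp), e1⟩
  · obtain ⟨z, hz, rfl⟩ := DG.cls_surj ξ
    rw [DG.CMap.H_cls, DG.cls_eq_zero] at h
    obtain ⟨y, hy, e⟩ := h
    have hd : M.totD z.1 = 0 := congrArg Subtype.val hz.2
    have e' : (M.obj (.mk 0)).d y = z.1 0 := e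
    obtain ⟨w₀, a1, a2, a3⟩ := hM.totR_fix hz.1 hd (p := 0) (y := y) (totR_gr hy (by simp))
      (by rw [pow_zero, one_smul, e'])
    obtain ⟨w, b1, -, b3⟩ := hM.solve hz.1 hd (w₀ := w₀) (totR_gr a1 (by simp)) (a2.trans e')
      (by simpa using a3)
    rw [DG.cls_eq_zero]
    exact ⟨⟨w, M.mem_totV_of_gr b1⟩, b1, Subtype.ext b3⟩
  · obtain ⟨x, hx, rfl⟩ := DG.cls_surj ξ
    rw [mem_inv_iff, DG.CMap.H_cls, DG.cls_eq_zero] at hξ
    have hs : ∀ p : ℕ, M.totSingle x p ∈ (M.obj (.mk p)).gr (k + p) := fun p => by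
      cases p with
      | zero => exact totR_gr hx.1 (by simp)
      | succ p => exact zero_mem _
    let s : (totΔ u M).V := ⟨M.totSingle x, M.mem_totV_of_gr hs⟩
    have s1 : s ∈ (totΔ u M).gr (k - 1 + 1) := totR_gr (E := totΔ u M) (k := k) hs (by ring)
    have s2 : (totΔ u M).d s ∈ (totΔ u M).gr (k - 1) := (totΔ u M).d_mem s1
    have s3 : M.totD ((totΔ u M).d s).1 = 0 := congrArg Subtype.val ((totΔ u M).d_d s)
    obtain ⟨w, b1, b2, b3⟩ := hM.solve s2 s3 (w₀ := 0) (zero_mem _)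
      ((map_zero _).trans hx.2.symm) (by
        have e1 : ((totΔ u M).d s).1 1 = M.cob 0 x := by
          change (-1 : ℤ) ^ (0 + 1) • (M.obj (.mk (0 + 1))).d 0 + M.cob 0 x = _
          rw [map_zero, smul_zero]
          exact zero_add _
        rw [e1, map_zero, sub_zero, sub_add_cancel]
        exact hξ)
    let t : (totΔ u M).V := ⟨w, M.mem_totV_of_gr b1⟩
    have t1 : t ∈ (totΔ u M).gr (k - 1 + 1) := b1
    have t2 : (totΔ u M).d t = (totΔ u M).d s := Subtype.ext b3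
    have c : (totΔ u M).Cycle k (s - t) :=
      ⟨totR_gr (sub_mem s1 t1) (by ring), by rw [map_sub, t2, sub_self]⟩
    refine ⟨(totΔ u M).cls (s - t) c, trivial, DG.cls_congr _ _ ?_⟩
    change x - w 0 = x
    rw [b2, sub_zero]

theorem totMap_qiso (u : Aug A R) (u' : Aug A' R') (ψ : A ⟶ A') {M : Mod R} {M' : Mod R'}
    {η : ∀ p : ℕ, R.obj (.mk p) ⟶ R'.obj (.mk p)} (e : ∀ p, u.ι _ ≫ η p = ψ ≫ u'.ι _)
    (g : ∀ p : ℕ, DG.Hom (η p) (M.obj (.mk p)) (M'.obj (.mk p)))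
    (hg : ∀ p x, (g (p + 1)).toFun (M.cob p x) = M'.cob p ((g p).toFun x))
    (hM : M.Ex) (hM' : M'.Ex) (h : ∀ k, Set.BijOn ((g 0).H k) (M.Inv k) (M'.Inv k)) :
    (totMap u u' ψ e g hg).QIsoAway 1 :=
  (DG.Hom.qiso_iff _).2 fun k => totR_bij (hM.totPr_bijOn u k) (hM'.totPr_bijOn u' k) (h k)
    fun ξ => DG.H_comm (totMap u u' ψ e g hg).cmap (totPr u' M') (totPr u M) (g 0).cmap
      (fun _ => rfl) k ξ

theorem totAug_qiso (u : Aug A R) {P : DG A} {M : Mod R} (g : DG.Hom (u.ι _) P (M.obj (.mk 0)))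
    (hg : ∀ x, M.cob 0 (g.toFun x) = 0) (hM : M.Ex)
    (h : ∀ k, Set.BijOn (g.H k) Set.univ (M.Inv k)) : (totAug u g hg).QIsoAway 1 :=
  (DG.Hom.qiso_iff _).2 fun k => totR_bij (h k) (hM.totPr_bijOn u k) (Set.bijOn_id _)
    fun ξ => DG.H_comp (totAug u g hg).cmap (totPr u M) g.cmap (fun _ => rfl) k ξ

theorem Hom.totR_comm {η : R ⟶ R'} {M : Mod R} {M' : Mod R'} (g : Hom η M M') (p : ℕ) (k : ℤ)
    (ξ : (M.obj (.mk p)).H k) :
    (g.app (.mk (p + 1))).H k ((M.cobC p).H k ξ) = (M'.cobC p).H k ((g.app (.mk p)).H k ξ) :=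
  DG.H_comm (M.cobC p) (g.app (.mk (p + 1))).cmap (g.app (.mk p)).cmap (M'.cobC p)
    (g.map_cob p) k ξ

theorem Hom.ex_iff {η : R ⟶ R'} {M : Mod R} {M' : Mod R'} (g : Hom η M M')
    (h : ∀ s, (g.app s).QIsoAway 1) : M.Ex ↔ M'.Ex := by
  have hb : ∀ s k, Function.Bijective ((g.app s).H k) := fun s => (DG.Hom.qiso_iff _).1 (h s)
  refine ⟨fun hM k p ξ hξ => ?_, fun hM k p ξ hξ => ?_⟩
  · obtain ⟨ξ, rfl⟩ := (hb _ k).2 ξ
    obtain ⟨ζ, rfl⟩ := hM k p ξ ((hb _ k).1 (by rw [g.totR_comm, hξ, map_zero]))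
    exact ⟨_, (g.totR_comm p k ζ).symm⟩
  · obtain ⟨ζ, e⟩ := hM k p ((g.app _).H k ξ) (by rw [← g.totR_comm, hξ, map_zero])
    obtain ⟨ζ, rfl⟩ := (hb _ k).2 ζ
    exact ⟨ζ, (hb _ k).1 (by rw [g.totR_comm, e])⟩

theorem Hom.bijOn_inv {η : R ⟶ R'} {M : Mod R} {M' : Mod R'} (g : Hom η M M')
    (h : ∀ s, (g.app s).QIsoAway 1) (k : ℤ) :
    Set.BijOn ((g.app (.mk 0)).H k) (M.Inv k) (M'.Inv k) := by
  have hb : ∀ s k, Function.Bijective ((g.app s).H k) := fun s => (DG.Hom.qiso_iff _).1 (h s)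
  refine ⟨fun ξ hξ => ?_, (hb _ k).1.injOn, fun ξ hξ => ?_⟩
  · rw [mem_inv_iff] at hξ ⊢
    rw [← g.totR_comm, hξ, map_zero]
  · obtain ⟨ξ, rfl⟩ := (hb _ k).2 ξ
    refine ⟨ξ, ?_, rfl⟩
    rw [mem_inv_iff] at hξ ⊢
    exact (hb _ k).1 (by rw [g.totR_comm, hξ, map_zero])

theorem Equiv.ex {M M' : Mod R} (h : M.Equiv M') : M.Ex ↔ M'.Ex :=
  Equiv.iff (fun g hg => g.ex_iff hg) h

theorem Equiv.inv_top {M M' : Mod R} (h : M.Equiv M') :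
    (∀ k ξ, ξ ∈ M.Inv k) ↔ ∀ k ξ, ξ ∈ M'.Inv k := by
  refine Equiv.iff (Q := fun M => ∀ k ξ, ξ ∈ M.Inv k) (fun g hg => ?_) h
  have hb := (DG.Hom.qiso_iff _).1 (hg (.mk 0))
  refine ⟨fun hP k ξ => ?_, fun hP k ξ => ?_⟩
  · obtain ⟨ξ, rfl⟩ := (hb k).2 ξ
    exact (g.bijOn_inv hg k).mapsTo (hP k ξ)
  · obtain ⟨ζ, hζ, e⟩ := (g.bijOn_inv hg k).surjOn (hP k ((g.app _).H k ξ))
    exact (hb k).1 e ▸ hζ

end Mod

end Pool.Agent.P.MP_932208_ag.Ax
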