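import Pool.Agent.P.MP_932208_ag.Ax.TotD

/-!
Cosimplicial rings that are bar constructions of a `G_m`-action; weight decomposition of the
homology of a line bundle.
-/

namespace Pool.Agent.P.MP_932208_ag.Ax

open CategoryTheory SimplexCategory

variable {A A' : SRing} {R R' : SimplexCategory ⥤ SRing}

/-- The map `(ξ c)_c ↦ ∑ v ^ c • δ 0 (ξ c)`. -/
noncomputable def Mod.laurMap (M : Mod R) (n : ℕ) (v : ((R.obj (.mk (n + 1))).obj 0)ˣ) (k : ℤ) :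
    (ℤ →₀ (M.obj (.mk n)).H k) →+ (M.obj (.mk (n + 1))).H k :=
  Finsupp.liftAddHom fun c : ℤ =>
    ((M.map (δ 0)).scale ((v ^ c : ((R.obj (.mk (n + 1))).obj 0)ˣ) : _)).H k

theorem Mod.laurMap_single (M : Mod R) (n : ℕ) (v : ((R.obj (.mk (n + 1))).obj 0)ˣ) (k c : ℤ)
    (ξ : (M.obj (.mk n)).H k) : M.laurMap n v k (Finsupp.single c ξ) =
      ((v ^ c : ((R.obj (.mk (n + 1))).obj 0)ˣ) : (R.obj (.mk (n + 1))).obj 0) •
        (M.map (δ 0)).H k ξ := by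
  rw [Mod.laurMap, Finsupp.liftAddHom_apply_single, DG.Hom.scale_H]

theorem WtA_laurMap_sum (M : Mod R) (n : ℕ) (v : ((R.obj (.mk (n + 1))).obj 0)ˣ) (k : ℤ)
    (T : Finset ℤ) (a : ℤ → (M.obj (.mk n)).H k) :
    M.laurMap n v k (∑ c ∈ T, Finsupp.single c (a c)) =
      ∑ c ∈ T, ((v ^ c : ((R.obj (.mk (n + 1))).obj 0)ˣ) : (R.obj (.mk (n + 1))).obj 0) •
        (M.map (δ 0)).H k (a c) := by
  rw [map_sum]
  exact Finset.sum_congr rfl fun c _ => M.laurMap_single n v k c (a c)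

theorem WtA_sum_single_apply {X : Type} [AddCommMonoid X] (T : Finset ℤ) (a : ℤ → X) {c : ℤ}
    (hc : c ∈ T) : (∑ d ∈ T, Finsupp.single d (a d)) c = a c := by
  rw [Finsupp.finsetSum_apply, Finset.sum_eq_single c (fun d _ e => Finsupp.single_eq_of_ne' e)
    fun h => (h hc).elim, Finsupp.single_eq_same]

theorem WtA_map_zpow {K K' : Type} [CommRing K] [CommRing K'] (φ : K →+* K') {v : Kˣ} {v' : K'ˣ}
    (e : φ v = v') (c : ℤ) : φ ((v ^ c : Kˣ) : K) = ((v' ^ c : K'ˣ) : K') := by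
  have h : Units.map φ.toMonoidHom v = v' := Units.ext e
  rw [← h, ← map_zpow]
  rfl

theorem WtA_H_comp (M : Mod R) {s s' s'' : SimplexCategory} (ψ : s ⟶ s') (χ : s' ⟶ s'') (k : ℤ)
    (ξ : (M.obj s).H k) : (M.map χ).H k ((M.map ψ).H k ξ) = (M.map (ψ ≫ χ)).H k ξ :=
  DG.H_comp _ _ _ (fun x => (M.map_comp ψ χ x).symm) k ξ

theorem WtA_H_id (M : Mod R) (s : SimplexCategory) (k : ℤ) (ξ : (M.obj s).H k) :
    (M.map (𝟙 s)).H k ξ = ξ :=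
  DG.H_id _ (M.map_id s) k ξ

theorem WtA_H_nat {η : R ⟶ R'} {M : Mod R} {M' : Mod R'} (g : Mod.Hom η M M')
    {s s' : SimplexCategory} (ψ : s ⟶ s') (k : ℤ) (ξ : (M.obj s).H k) :
    (M'.map ψ).H k ((g.app s).H k ξ) = (g.app s').H k ((M.map ψ).H k ξ) :=
  DG.H_comm _ _ _ _ (fun x => (g.nat ψ x).symm) k ξ

/-- `R` is the homogeneous bar construction of a `ℤ`-graded ring `R ⦋0⦌ = ⨁ A t a`;
`u s a b = z_a / z_b`. -/
structure Mon (A : SRing) (R : SimplexCategory ⥤ SRing) extends Aug A R where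
  u : ∀ s : SimplexCategory, Fin (s.len + 1) → Fin (s.len + 1) → ((R.obj s).obj 0)ˣ
  u_trans : ∀ s a b c, u s a b * u s b c = u s a c
  u_map : ∀ {s s' : SimplexCategory} (θ : s ⟶ s') a b,
    (R.map θ).app 0 (u s a b) = u s' (θ.toOrderHom a) (θ.toOrderHom b)
  laur : ∀ n k, Function.Bijective ((Mod.unit R).laurMap n (u (.mk (n + 1)) 0 1) k)
  t : ℤ → (R.obj (.mk 0)).obj 0
  t_zero : t 0 = 1
  t_wt : ∀ a, (R.map (δ 1)).app 0 (t a) =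
    (u (.mk 1) 0 1 ^ a : ((R.obj (.mk 1)).obj 0)ˣ) * (R.map (δ 0)).app 0 (t a)
  co : (R.obj (.mk 0)).obj 0 →+ (ℤ →₀ A.obj 0)
  co_sum : ∀ r, ((co r).sum fun a c => (ι _).app 0 c * t a) = r
  co_ι : ∀ a, co ((ι _).app 0 a) 0 = a
  dec : ∀ k, Function.Bijective (Finsupp.liftAddHom fun a : ℤ =>
    ((DG.unitHom (ι (.mk 0))).scale (t a)).H k :
      (ℤ →₀ (DG.unit A).H k) →+ (DG.unit (R.obj (.mk 0))).H k)

namespace Mon
variable (m : Mon A R)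

/-- The action of `A_0` on the modules over `R ⦋0⦌`. -/
abbrev σ : A.obj 0 →+* (R.obj (.mk 0)).obj 0 := (m.ι (.mk 0)).app 0

theorem u_self (s : SimplexCategory) (a : Fin (s.len + 1)) : m.u s a a = 1 :=
  mul_left_cancel (a := m.u s a a) (by rw [m.u_trans, mul_one])

/-- The homology of `M` has the Laurent property. -/
def Laur (M : Mod R) : Prop :=
  ∀ n k, Function.Bijective (M.laurMap n (m.u (.mk (n + 1)) 0 1) k)

/-- The classes of weight `b`. -/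
def W (M : Mod R) (b k : ℤ) : AddSubgroup ((M.obj (.mk 0)).H k) where
  carrier := {ξ | (M.map (δ 1)).H k ξ =
    ((m.u (.mk 1) 0 1 ^ b : ((R.obj (.mk 1)).obj 0)ˣ) : (R.obj (.mk 1)).obj 0) •
      (M.map (δ 0)).H k ξ}
  add_mem' {x y} hx hy := by
    simp only [Set.mem_setOf_eq] at hx hy ⊢
    rw [map_add, map_add, hx, hy, smul_add]
  zero_mem' := by simp
  neg_mem' {x} hx := by
    simp only [Set.mem_setOf_eq] at hx ⊢
    rw [map_neg, map_neg, hx, smul_neg]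

theorem mem_W {M : Mod R} {b k : ℤ} {ξ : (M.obj (.mk 0)).H k} : ξ ∈ m.W M b k ↔
    (M.map (δ 1)).H k ξ =
      ((m.u (.mk 1) 0 1 ^ b : ((R.obj (.mk 1)).obj 0)ˣ) : (R.obj (.mk 1)).obj 0) •
        (M.map (δ 0)).H k ξ := Iff.rfl

theorem mem_W_zero_of_inv {M : Mod R} {k : ℤ} {ξ : (M.obj (.mk 0)).H k} (h : ξ ∈ M.Inv k) :
    ξ ∈ m.W M 0 k := by
  rw [mem_W, zpow_zero, Units.val_one, one_smul]
  exact Eq.symm h

theorem WtA_map_σ {s : SimplexCategory} (θ : .mk 0 ⟶ s) (a : A.obj 0) :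
    (R.map θ).app 0 (m.σ a) = (m.ι s).app 0 a := by
  rw [← m.comm θ]
  rfl

theorem σ_smul_mem {M : Mod R} {b k : ℤ} {ξ : (M.obj (.mk 0)).H k} (h : ξ ∈ m.W M b k)
    (a : A.obj 0) : m.σ a • ξ ∈ m.W M b k := by
  rw [mem_W] at h ⊢
  rw [DG.Hom.H_smul, DG.Hom.H_smul, h, m.WtA_map_σ, m.WtA_map_σ, smul_comm]

theorem t_smul_mem {M : Mod R} {b k : ℤ} {ξ : (M.obj (.mk 0)).H k} (h : ξ ∈ m.W M b k)
    (a : ℤ) : m.t a • ξ ∈ m.W M (a + b) k := by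
  rw [mem_W] at h ⊢
  rw [DG.Hom.H_smul, DG.Hom.H_smul, h, m.t_wt, smul_smul, smul_smul, zpow_add, Units.val_mul,
    mul_right_comm]

theorem act_mem {M : Mod R} {a b k : ℤ} {ε : (M.obj (.mk 0)).H 0} (h : ε ∈ m.W M b 0)
    {ρ : (DG.unit (R.obj (.mk 0))).H k} (h' : ρ ∈ m.W (Mod.unit R) a k) :
    (M.obj (.mk 0)).act k ε ρ ∈ m.W M (a + b) k := by
  rw [mem_W] at h h' ⊢
  change (DG.unitHom (R.map (δ 1))).H k ρ = _ • (DG.unitHom (R.map (δ 0))).H k ρ at h'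
  rw [DG.Hom.H_act, DG.Hom.H_act, h, h', DG.act_smul_left, DG.act_smul_right, smul_smul, zpow_add,
    Units.val_mul, mul_comm]

theorem ι_mem (k : ℤ) (α : (DG.unit A).H k) :
    (DG.unitHom (m.ι (.mk 0))).H k α ∈ m.W (Mod.unit R) 0 k := by
  refine m.mem_W_zero_of_inv (DG.H_comm _ _ _ _ (fun x => ?_) k α)
  change N.map (R.map (δ 0)) (N.map (m.ι _) x) = N.map (R.map (δ 1)) (N.map (m.ι _) x)
  rw [N.map_map, N.map_map, m.comm, m.comm]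

theorem one_mem : DG.one (R.obj (.mk 0)) ∈ m.W (Mod.unit R) 0 0 :=
  m.mem_W_zero_of_inv ((DG.unitHom_one (R.map (δ 0))).trans (DG.unitHom_one (R.map (δ 1))).symm)

theorem map_mem (m' : Mon A' R') {η : R ⟶ R'}
    (hu : (η.app (.mk 1)).app 0 (m.u (.mk 1) 0 1) = m'.u (.mk 1) 0 1) {M : Mod R} {M' : Mod R'}
    (g : Mod.Hom η M M') {b k : ℤ} {ξ : (M.obj (.mk 0)).H k} (h : ξ ∈ m.W M b k) :
    (g.app (.mk 0)).H k ξ ∈ m'.W M' b k := by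
  rw [mem_W] at h ⊢
  rw [WtA_H_nat, WtA_H_nat, h, DG.Hom.H_smul, WtA_map_zpow _ hu]

variable {m} {M : Mod R}

/-- The component of weight `c`: the coefficient of `u ^ c` in the coaction `δ 1`. -/
noncomputable def Laur.pr (h : m.Laur M) (c k : ℤ) :
    (M.obj (.mk 0)).H k →+ (M.obj (.mk 0)).H k :=
  (Finsupp.applyAddHom c).comp ((AddEquiv.ofBijective _ (h 0 k)).symm.toAddMonoidHom.comp
    ((M.map (δ 1)).H k))

theorem Laur.WtA_pr_eq (h : m.Laur M) {k : ℤ} {ξ : (M.obj (.mk 0)).H k}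
    {f : ℤ →₀ (M.obj (.mk 0)).H k}
    (e : M.laurMap 0 (m.u (.mk (0 + 1)) 0 1) k f = (M.map (δ 1)).H k ξ) (c : ℤ) :
    h.pr c k ξ = f c := by
  change ((AddEquiv.ofBijective _ (h 0 k)).symm ((M.map (δ 1)).H k ξ)) c = f c
  rw [← e]
  exact congrArg (fun z : ℤ →₀ (M.obj (.mk 0)).H k => z c)
    ((AddEquiv.ofBijective _ (h 0 k)).symm_apply_apply f)

theorem Laur.WtA_expand (h : m.Laur M) {k : ℤ} (ξ : (M.obj (.mk 0)).H k) :
    ∃ T : Finset ℤ, (∀ c, c ∉ T → h.pr c k ξ = 0) ∧ (M.map (δ 1)).H k ξ =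
      ∑ c ∈ T, ((m.u (.mk 1) 0 1 ^ c : ((R.obj (.mk 1)).obj 0)ˣ) : (R.obj (.mk 1)).obj 0) •
        (M.map (δ 0)).H k (h.pr c k ξ) := by
  obtain ⟨f, hf⟩ := (h 0 k).2 ((M.map (δ 1)).H k ξ)
  refine ⟨f.support, fun c hc => ?_, ?_⟩
  · rw [h.WtA_pr_eq hf, Finsupp.notMem_support_iff.1 hc]
  · simp only [h.WtA_pr_eq hf]
    rw [← hf]
    refine Eq.trans ?_ (WtA_laurMap_sum M 0 _ k f.support f)
    exact congrArg _ (Finsupp.sum_single f).symm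

theorem Laur.pr_mem (h : m.Laur M) (c k : ℤ) (ξ : (M.obj (.mk 0)).H k) :
    h.pr c k ξ ∈ m.W M c k := by
  obtain ⟨T, h0, hT⟩ := h.WtA_expand ξ
  by_cases hc : c ∈ T
  swap
  · rw [h0 c hc]
    exact zero_mem _
  have e0 : (δ (1 : Fin 2) : SimplexCategory.mk 0 ⟶ .mk 1) ≫ δ (2 : Fin 3) =
      δ (1 : Fin 2) ≫ δ (1 : Fin 3) := δ_comp_δ (n := 0) (i := 1) (j := 1) le_rfl
  have e1 : (δ (0 : Fin 2) : SimplexCategory.mk 0 ⟶ .mk 1) ≫ δ (2 : Fin 3) =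
      δ (1 : Fin 2) ≫ δ (0 : Fin 3) := δ_comp_δ (n := 0) (i := 0) (j := 1) (Fin.zero_le _)
  have e2 : (δ (0 : Fin 2) : SimplexCategory.mk 0 ⟶ .mk 1) ≫ δ (1 : Fin 3) =
      δ (0 : Fin 2) ≫ δ (0 : Fin 3) := δ_comp_δ (n := 0) (i := 0) (j := 0) le_rfl
  have u0 : (R.map (δ (0 : Fin 3))).app 0 (m.u (.mk 1) 0 1) = m.u (.mk 2) 1 2 := m.u_map _ _ _
  have u1 : (R.map (δ (1 : Fin 3))).app 0 (m.u (.mk 1) 0 1) =
      (m.u (.mk 2) 0 1 * m.u (.mk 2) 1 2 : ((R.obj (.mk 2)).obj 0)ˣ) := by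
    rw [m.u_trans]
    exact m.u_map _ _ _
  have u2 : (R.map (δ (2 : Fin 3))).app 0 (m.u (.mk 1) 0 1) = m.u (.mk 2) 0 1 := m.u_map _ _ _
  have key : M.laurMap 1 (m.u (.mk 2) 0 1) k
      (∑ d ∈ T, Finsupp.single d ((M.map (δ 1)).H k (h.pr d k ξ))) =
      M.laurMap 1 (m.u (.mk 2) 0 1) k (∑ d ∈ T, Finsupp.single d
        (((m.u (.mk 1) 0 1 ^ d : ((R.obj (.mk 1)).obj 0)ˣ) : (R.obj (.mk 1)).obj 0) •
          (M.map (δ 0)).H k (h.pr d k ξ))) := by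
    have a2 := congrArg ((M.map (δ (2 : Fin 3))).H k) hT
    have a1 := congrArg ((M.map (δ (1 : Fin 3))).H k) hT
    rw [WtA_H_comp, map_sum] at a1 a2
    rw [e0, a1] at a2
    rw [WtA_laurMap_sum, WtA_laurMap_sum]
    refine Eq.trans (Finset.sum_congr rfl fun d _ => ?_)
      (a2.symm.trans (Finset.sum_congr rfl fun d _ => ?_))
    · rw [DG.Hom.H_smul, WtA_map_zpow _ u2, WtA_H_comp, WtA_H_comp, e1]
    · rw [DG.Hom.H_smul, DG.Hom.H_smul, WtA_map_zpow _ u1, WtA_map_zpow _ u0, WtA_H_comp,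
        WtA_H_comp, e2, smul_smul, mul_zpow, Units.val_mul]
  have := congrArg (fun z : ℤ →₀ (M.obj (.mk 1)).H k => z c) ((h 1 k).1 key)
  simp only [WtA_sum_single_apply T _ hc] at this
  exact this

theorem Laur.pr_of_mem (h : m.Laur M) {c k : ℤ} {ξ : (M.obj (.mk 0)).H k} (p : ξ ∈ m.W M c k) :
    h.pr c k ξ = ξ := by
  rw [h.WtA_pr_eq (f := Finsupp.single c ξ) ((M.laurMap_single 0 _ k c ξ).trans (Eq.symm p)),
    Finsupp.single_eq_same]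

theorem Laur.pr_of_ne (h : m.Laur M) {b c k : ℤ} {ξ : (M.obj (.mk 0)).H k} (p : ξ ∈ m.W M b k)
    (e : b ≠ c) : h.pr c k ξ = 0 := by
  rw [h.WtA_pr_eq (f := Finsupp.single b ξ) ((M.laurMap_single 0 _ k b ξ).trans (Eq.symm p)),
    Finsupp.single_eq_of_ne' e]

theorem Laur.exists_sum_pr (h : m.Laur M) {k : ℤ} (ξ : (M.obj (.mk 0)).H k) :
    ∃ T : Finset ℤ, (∀ c, c ∉ T → h.pr c k ξ = 0) ∧ ∑ c ∈ T, h.pr c k ξ = ξ := by
  obtain ⟨T, h0, hT⟩ := h.WtA_expand ξ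
  refine ⟨T, h0, ?_⟩
  have e0 : (δ (0 : Fin 2) : SimplexCategory.mk 0 ⟶ .mk 1) ≫ SimplexCategory.σ (0 : Fin 1) =
      𝟙 _ := δ_comp_σ_self (n := 0) (i := 0)
  have e1 : (δ (1 : Fin 2) : SimplexCategory.mk 0 ⟶ .mk 1) ≫ SimplexCategory.σ (0 : Fin 1) =
      𝟙 _ := δ_comp_σ_succ (n := 0) (i := 0)
  have u0 : (R.map (SimplexCategory.σ (0 : Fin 1))).app 0 (m.u (.mk 1) 0 1) =
      (1 : ((R.obj (.mk 0)).obj 0)ˣ) := by
    rw [← m.u_self (.mk 0) 0]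
    exact m.u_map _ _ _
  have a := congrArg ((M.map (SimplexCategory.σ (0 : Fin 1))).H k) hT
  rw [WtA_H_comp, map_sum, e1, WtA_H_id] at a
  refine Eq.trans (Finset.sum_congr rfl fun d _ => ?_) a.symm
  rw [DG.Hom.H_smul, WtA_map_zpow _ u0, WtA_H_comp, e0, WtA_H_id, one_zpow, Units.val_one,
    one_smul]

theorem Laur.WtA_pr_comm (h : m.Laur M) {m' : Mon A' R'} {M' : Mod R'} (h' : m'.Laur M')
    {k k' : ℤ} (G : (M.obj (.mk 0)).H k →+ (M'.obj (.mk 0)).H k') (s : ℤ)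
    (hG : ∀ c ξ, ξ ∈ m.W M c k → G ξ ∈ m'.W M' (c + s) k') (c : ℤ) (ξ : (M.obj (.mk 0)).H k) :
    h'.pr (c + s) k' (G ξ) = G (h.pr c k ξ) := by
  obtain ⟨T, h0, hT⟩ := h.exists_sum_pr ξ
  conv_lhs => rw [← hT]
  rw [map_sum, map_sum, Finset.sum_eq_single c
    (fun d _ e => h'.pr_of_ne (hG d _ (h.pr_mem d k ξ)) (by omega))
    fun hc => by rw [h0 c hc, map_zero, map_zero]]
  exact h'.pr_of_mem (hG c _ (h.pr_mem c k ξ))

theorem Laur.pr_σ_smul (h : m.Laur M) (c k : ℤ) (a : A.obj 0) (ξ : (M.obj (.mk 0)).H k) :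
    h.pr c k (m.σ a • ξ) = m.σ a • h.pr c k ξ := by
  have := h.WtA_pr_comm h (DistribSMul.toAddMonoidHom _ (m.σ a)) 0
    (fun c ξ p => by rw [add_zero]; exact m.σ_smul_mem p a) c ξ
  rwa [add_zero] at this

theorem Laur.pr_smul (h : m.Laur M) {b k : ℤ} {ξ : (M.obj (.mk 0)).H k} (p : ξ ∈ m.W M b k)
    (r : (R.obj (.mk 0)).obj 0) : h.pr b k (r • ξ) = m.σ (m.co r 0) • ξ := by
  conv_lhs => rw [← m.co_sum r]
  rw [Finsupp.sum, Finset.sum_smul, map_sum, Finset.sum_eq_single 0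
    (fun a _ e => by
      rw [mul_smul]
      exact h.pr_of_ne (m.σ_smul_mem (m.t_smul_mem p a) _) (by omega))
    fun h0 => by rw [Finsupp.notMem_support_iff.1 h0, map_zero, zero_mul, zero_smul, map_zero],
    m.t_zero, mul_one]
  exact h.pr_of_mem (m.σ_smul_mem p _)

theorem Laur.pr_map (h : m.Laur M) {m' : Mon A' R'} {M' : Mod R'} (h' : m'.Laur M') {η : R ⟶ R'}
    (hu : (η.app (.mk 1)).app 0 (m.u (.mk 1) 0 1) = m'.u (.mk 1) 0 1) (g : Mod.Hom η M M')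
    (c k : ℤ) (ξ : (M.obj (.mk 0)).H k) :
    h'.pr c k ((g.app (.mk 0)).H k ξ) = (g.app (.mk 0)).H k (h.pr c k ξ) := by
  have := h.WtA_pr_comm h' ((g.app (.mk 0)).H k) 0
    (fun c ξ p => by rw [add_zero]; exact m.map_mem m' hu g p) c ξ
  rwa [add_zero] at this

theorem Laur.pr_act (h : m.Laur M) {b : ℤ} {ε : (M.obj (.mk 0)).H 0} (p : ε ∈ m.W M b 0)
    (a k : ℤ) (ρ : (DG.unit (R.obj (.mk 0))).H k) :
    h.pr (a + b) k ((M.obj (.mk 0)).act k ε ρ) =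
      (M.obj (.mk 0)).act k ε (Laur.pr (m := m) (M := Mod.unit R) m.laur a k ρ) :=
  Laur.WtA_pr_comm (m := m) (M := Mod.unit R) m.laur h ((M.obj (.mk 0)).act k ε) b
    (fun _ _ q => m.act_mem p q) a ρ

end Mon

end Pool.Agent.P.MP_932208_ag.Ax
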