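import Pool.Agent.P.MP_932208_ag.Ax.WtA

/-!
Line bundles have the Laurent property; the twisted cobar complexes are exact.
-/

namespace Pool.Agent.P.MP_932208_ag.Ax

open CategoryTheory SimplexCategory

section fin
variable {K R₁ R₂ : Type} [CommRing K] [CommRing R₁] [CommRing R₂]
  {X Y : Type} [AddCommGroup X] [AddCommGroup Y] [Module R₁ X] [Module R₂ Y]
  {S : Submonoid K} {σ₁ : K →+* R₁} {σ₂ : K →+* R₂} {g : X →+ Y}

theorem wtE_lin_finsupp (lg : Lin σ₁ σ₂ g) :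
    Lin σ₁ σ₂ (Finsupp.mapRange.addMonoidHom g : (ℤ →₀ X) →+ (ℤ →₀ Y)) := fun a x =>
  Finsupp.ext fun c => lg a (x c)

theorem wtE_locIso_finsupp (lg : Lin σ₁ σ₂ g) (hg : LocIso S σ₁ σ₂ g) :
    LocIso S σ₁ σ₂ (Finsupp.mapRange.addMonoidHom g : (ℤ →₀ X) →+ (ℤ →₀ Y)) := by
  have lf := wtE_lin_finsupp lg
  refine ⟨fun y => ?_, fun x hx => ?_⟩
  · induction y using Finsupp.induction_linear with
    | zero => exact ⟨1, S.one_mem, 0, by simp⟩
    | add y y' hy hy' =>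
      obtain ⟨s, hs, x, p⟩ := hy
      obtain ⟨s', hs', x', p'⟩ := hy'
      refine ⟨s' * s, S.mul_mem hs' hs, σ₁ s' • x + σ₁ s • x', ?_⟩
      rw [map_add, lf, lf, p, p', smul_add, map_mul, mul_smul, mul_smul, smul_comm (σ₂ s) (σ₂ s')]
    | single c y =>
      obtain ⟨s, hs, x, p⟩ := hg.surj y
      refine ⟨s, hs, Finsupp.single c x, ?_⟩
      rw [Finsupp.mapRange.addMonoidHom_apply, Finsupp.mapRange_single, p, Finsupp.smul_single]
  · have h₁ : ∀ c, ∃ s ∈ S, σ₁ s • x c = 0 := fun c => hg.inj (x c) (DFunLike.congr_fun hx c)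
    choose s hs p using h₁
    refine ⟨∏ c ∈ x.support, s c, S.prod_mem fun c _ => hs c, Finsupp.ext fun c => ?_⟩
    by_cases hc : c ∈ x.support
    · rw [Finsupp.smul_apply, ← Finset.prod_erase_mul _ _ hc, map_mul, mul_smul, p, smul_zero]
      rfl
    · rw [Finsupp.smul_apply, Finsupp.notMem_support_iff.1 hc, smul_zero]
      rfl

end fin

variable {A : SRing} {R : SimplexCategory ⥤ SRing}

theorem wtE_laurMap_lin (M : Mod R) (n : ℕ) (v : ((R.obj (.mk (n + 1))).obj 0)ˣ) (k : ℤ) :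
    Lin (RingHom.id ((R.obj (.mk n)).obj 0)) ((R.map (δ 0)).app 0) (M.laurMap n v k) := by
  intro a x
  induction x using Finsupp.induction_linear with
  | zero => simp
  | add x x' hx hx' => rw [smul_add, map_add, map_add, hx, hx', smul_add]
  | single c ξ =>
    rw [Finsupp.smul_single, Mod.laurMap_single, Mod.laurMap_single, RingHom.id_apply,
      DG.Hom.H_smul, smul_comm]

theorem wtE_laurMap_act (M : Mod R) (n : ℕ) (v : ((R.obj (.mk (n + 1))).obj 0)ˣ) (k : ℤ)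
    (ε : (M.obj (.mk n)).H 0) :
    (M.laurMap n v k).comp (Finsupp.mapRange.addMonoidHom ((M.obj (.mk n)).act k ε)) =
      ((M.obj (.mk (n + 1))).act k ((M.map (δ 0)).H 0 ε)).comp
        ((Mod.unit R).laurMap n v k) := by
  refine Finsupp.addHom_ext fun c ρ => ?_
  rw [AddMonoidHom.comp_apply, AddMonoidHom.comp_apply, Finsupp.mapRange.addMonoidHom_apply,
    Finsupp.mapRange_single, Mod.laurMap_single, Mod.laurMap_single, DG.act_smul_right,
    DG.Hom.H_act]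

theorem wtE_laurMap_nat {M M' : Mod R} (g : Mod.Hom (𝟙 R) M M') (n : ℕ)
    (v : ((R.obj (.mk (n + 1))).obj 0)ˣ) (k : ℤ) :
    (M'.laurMap n v k).comp (Finsupp.mapRange.addMonoidHom ((g.app (.mk n)).H k)) =
      ((g.app (.mk (n + 1))).H k).comp (M.laurMap n v k) := by
  refine Finsupp.addHom_ext fun c ξ => ?_
  rw [AddMonoidHom.comp_apply, AddMonoidHom.comp_apply, Finsupp.mapRange.addMonoidHom_apply,
    Finsupp.mapRange_single, Mod.laurMap_single, Mod.laurMap_single, DG.Hom.H_smul]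
  exact congrArg _ (DG.H_comm (g.app _).cmap (M'.map (δ 0)).cmap (M.map (δ 0)).cmap
    (g.app _).cmap (fun x => (g.nat (δ 0) x).symm) k ξ)

theorem wtE_H_comp (M : Mod R) {s s' s'' : SimplexCategory} (θ : s ⟶ s') (θ' : s' ⟶ s'') (k : ℤ)
    (ξ : (M.obj s).H k) : (M.map θ').H k ((M.map θ).H k ξ) = (M.map (θ ≫ θ')).H k ξ :=
  DG.H_comp (M.map θ).cmap (M.map θ').cmap (M.map (θ ≫ θ')).cmap
    (fun x => (M.map_comp θ θ' x).symm) k ξ

theorem wtE_δ_δ {p : ℕ} (a : Fin (p + 2)) :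
    (δ 0 : SimplexCategory.mk p ⟶ .mk (p + 1)) ≫ δ a.succ = δ a ≫ δ 0 :=
  δ_comp_δ (Fin.zero_le a)

namespace Mon
variable (m : Mon A R)

theorem laur_of_line {M : Mod R} (h : M.IsLine) : m.Laur M := by
  intro n k
  have lM := wtE_laurMap_lin M n (m.u (.mk (n + 1)) 0 1) k
  refine LocIso.bijective (LocIso.of_cover lM
    (SRing.covers_iff.1 (h _ _ (δ 0 : SimplexCategory.mk n ⟶ .mk (n + 1))).covers)
    (fun b hb x => Finsupp.ext fun c => DG.bdry_smul_H hb (x c))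
    (fun b hb y => DG.bdry_smul_H (SRing.map_bdry (R.map (δ 0)) hb) y) ?_)
  rintro f ⟨ε, h₁, h₂⟩
  rw [bot_sup_eq]
  have l₁ := DG.act_lin (M.obj (.mk n)) k ε (RingHom.id _)
  refine LocIso.of_comp_left (wtE_lin_finsupp l₁) lM (wtE_locIso_finsupp l₁ (h₁ k)) ?_
  rw [wtE_laurMap_act]
  exact LocIso.comp (wtE_laurMap_lin (Mod.unit R) n _ k) (DG.act_lin _ k _ _)
    (LocIso.of_bijective (m.laur n k)) (h₂ k)

theorem laur_iff {M M' : Mod R} (h : M.Equiv M') : m.Laur M ↔ m.Laur M' := by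
  refine Mod.Equiv.iff (Q := m.Laur) (fun {P P'} g hg => ?_) h
  refine forall_congr' fun n => forall_congr' fun k => ?_
  have b₁ := ((g.app (.mk n)).qiso_iff.1 (hg _)) k
  have b₂ := ((g.app (.mk (n + 1))).qiso_iff.1 (hg _)) k
  have b₃ : Function.Bijective
      (Finsupp.mapRange.addMonoidHom ((g.app (.mk n)).H k) : (ℤ →₀ _) →+ (ℤ →₀ _)) :=
    ⟨Finsupp.mapRange_injective _ (map_zero _) b₁.1,
      Finsupp.mapRange_surjective _ (map_zero _) b₁.2⟩
  have e := wtE_laurMap_nat g n (m.u (.mk (n + 1)) 0 1) k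
  rw [← Function.Bijective.of_comp_iff' b₂, ← Function.Bijective.of_comp_iff _ b₃,
    ← AddMonoidHom.coe_comp, ← AddMonoidHom.coe_comp, e]

theorem wtE_u_zpow {s s' : SimplexCategory} (θ : s ⟶ s') (a b : Fin (s.len + 1)) (c : ℤ) :
    (R.map θ).app 0 ((m.u s a b ^ c : ((R.obj s).obj 0)ˣ) : (R.obj s).obj 0) =
      (m.u s' (θ.toOrderHom a) (θ.toOrderHom b) ^ c : ((R.obj s').obj 0)ˣ) := by
  have : Units.map ((R.map θ).app 0).toMonoidHom (m.u s a b) =
      m.u s' (θ.toOrderHom a) (θ.toOrderHom b) := Units.ext (m.u_map θ a b)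
  rw [← this, ← map_zpow]
  rfl

/-- The cofaces of positive index in Laurent coordinates. -/
theorem wtE_δ_succ (M : Mod R) {p : ℕ} (a : Fin (p + 2)) (k c : ℤ) (ξ : (M.obj (.mk p)).H k) :
    (M.map (δ a.succ)).H k (M.laurMap p (m.u (.mk (p + 1)) 0 1) k (Finsupp.single c ξ)) =
      M.laurMap (p + 1) (m.u (.mk (p + 1 + 1)) 0 1) k (Finsupp.single c
        (((m.u (.mk (p + 1)) 0 ((δ a).toOrderHom 0) ^ c : ((R.obj (.mk (p + 1))).obj 0)ˣ) :
          (R.obj (.mk (p + 1))).obj 0) • (M.map (δ a)).H k ξ)) := by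
  rw [Mod.laurMap_single, Mod.laurMap_single, DG.Hom.H_smul, DG.Hom.H_smul, wtE_H_comp,
    wtE_H_comp, wtE_δ_δ, m.wtE_u_zpow, m.wtE_u_zpow, smul_smul, ← Units.val_mul, ← mul_zpow]
  have e₁ : (δ (0 : Fin (p + 3))).toOrderHom 0 = 1 := rfl
  have e₂ : (δ a.succ).toOrderHom 0 = 0 := Fin.succ_succAbove_zero a
  have e₃ : (δ (0 : Fin (p + 3))).toOrderHom ((δ a).toOrderHom 0) = (δ a.succ).toOrderHom 1 :=
    (Fin.succ_succAbove_one a).symm
  rw [e₁, e₂, e₃, m.u_trans]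

theorem Laur.ex_twist {m : Mon A R} {M : Mod R} (h : m.Laur M) (c : Cocycle R) (b : ℤ)
    (hc : ∀ {s s' : SimplexCategory} (θ : s ⟶ s'), c.c θ = m.u s' 0 (θ.toOrderHom 0) ^ b) :
    (M.twist c).Ex := by
  intro k p ξ hξ
  let κ : ∀ q : ℕ, (M.obj (.mk (q + 1))).H k →+ (M.obj (.mk q)).H k := fun q =>
    (Finsupp.applyAddHom b).comp (AddEquiv.ofBijective _ (h q k)).symm.toAddMonoidHom
  have hκ : ∀ q x, κ q (M.laurMap q (m.u (.mk (q + 1)) 0 1) k x) = x b := fun q x =>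
    DFunLike.congr_fun ((AddEquiv.ofBijective _ (h q k)).symm_apply_apply x) b
  have tw : ∀ {s s' : SimplexCategory} (θ : s ⟶ s') (ζ : (M.obj s).H k),
      ((M.twist c).map θ).H k ζ = ((m.u s' 0 (θ.toOrderHom 0) ^ b : ((R.obj s').obj 0)ˣ) :
        (R.obj s').obj 0) • (M.map θ).H k ζ := fun θ ζ => by
    rw [← hc]
    exact DG.Hom.scale_H _ _ k ζ
  have k₀ : κ (p + 1) (((M.twist c).map (δ 0)).H k ξ) = ξ := by
    have := hκ (p + 1) (Finsupp.single b ξ)
    rw [Mod.laurMap_single, Finsupp.single_eq_same] at this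
    rw [tw]
    exact this
  have k₁ : ∀ a : Fin (p + 2), κ (p + 1) (((M.twist c).map (δ a.succ)).H k ξ) =
      ((M.twist c).map (δ a)).H k (κ p ξ) := by
    intro a
    obtain ⟨x, rfl⟩ := (h p k).2 ξ
    have e₂ : (δ a.succ).toOrderHom 0 = 0 := Fin.succ_succAbove_zero a
    rw [tw, tw, hκ, e₂, m.u_self, one_zpow, Units.val_one, one_smul]
    clear hξ k₀
    induction x using Finsupp.induction_linear with
    | zero => simp
    | add x x' hx hx' =>
      rw [map_add, map_add, map_add, hx, hx', Finsupp.add_apply, map_add, smul_add]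
    | single e ζ =>
      rw [m.wtE_δ_succ, hκ]
      by_cases he : e = b
      · subst he
        rw [Finsupp.single_eq_same, Finsupp.single_eq_same]
      · rw [Finsupp.single_eq_of_ne' he, Finsupp.single_eq_of_ne' he,
          ((M.map (δ a)).H k).map_zero, smul_zero]
  refine ⟨κ p ξ, ?_⟩
  have e := congrArg (κ (p + 1)) hξ
  rw [Mod.cobC_H, map_zero, map_sum, Fin.sum_univ_succ, Fin.val_zero, pow_zero, one_smul,
    k₀] at e
  rw [Mod.cobC_H]
  refine (add_neg_eq_zero.1 (Eq.trans ?_ e)).symm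
  rw [← Finset.sum_neg_distrib]
  refine congrArg (ξ + ·) (Finset.sum_congr rfl fun a _ => ?_)
  rw [Fin.val_succ, pow_succ, mul_neg_one, neg_smul, ← k₁]
  exact ((κ (p + 1)).map_neg _).symm ▸ congrArg Neg.neg ((κ (p + 1)).map_zsmul _ _).symm

theorem inv_twist (M : Mod R) (c : Cocycle R) (b : ℤ)
    (hc : ∀ {s s' : SimplexCategory} (θ : s ⟶ s'), c.c θ = m.u s' 0 (θ.toOrderHom 0) ^ b)
    (k : ℤ) : (M.twist c).Inv k = m.W M b k := by
  ext ξ
  have e₀ : (δ (0 : Fin 2)).toOrderHom 0 = 1 := rfl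
  have e₁ : (δ (1 : Fin 2)).toOrderHom 0 = 0 := rfl
  change ((M.map (δ 0)).scale _).H k ξ = ((M.map (δ 1)).scale _).H k ξ ↔ ξ ∈ m.W M b k
  rw [DG.Hom.scale_H, DG.Hom.scale_H, hc, hc, e₀, e₁, m.u_self, one_zpow, Units.val_one, one_smul,
    m.mem_W, eq_comm]

end Mon

end Pool.Agent.P.MP_932208_ag.Ax
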